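import Pool.Agent.TF.Stmt
import Pool.Agent.TP.Cv

/-!
# The Oseen kernel: bounds, continuity, measurability, oddness
-/

set_option autoImplicit false

namespace Pool.Agent.TF

open MeasureTheory Set Filter Topology Pool.Agent.TO Pool.Agent.TB Pool.Agent.TP
open scoped Real ENNReal

/-- polynomials against the exponential -/
theorem pow_mul_exp_le {m : ℕ} (hm : 1 ≤ m) {c u : ℝ} (hc : 1 ≤ c) (hu : 0 ≤ u) :
    (1 + u) ^ m * Real.exp (-(u / c)) ≤ (m * c) ^ m := by
  have hm' : (1:ℝ) ≤ m := by exact_mod_cast hm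
  have hmc : 1 ≤ m * c := one_le_mul_of_one_le_of_one_le hm' hc
  have h0 : (0:ℝ) < m * c := by linarith
  have h1 : 1 + u / (m * c) ≤ Real.exp (u / (m * c)) := by
    have := Real.add_one_le_exp (u / (m * c))
    linarith
  have h2 : 1 + u ≤ m * c * Real.exp (u / (m * c)) := by
    have : m * c * (1 + u / (m * c)) = m * c + u := by field_simp
    calc 1 + u ≤ m * c + u := by linarith
      _ = m * c * (1 + u / (m * c)) := this.symm
      _ ≤ _ := by gcongr
  have h3 : (1 + u) ^ m ≤ (m * c) ^ m * Real.exp (u / c) := by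
    calc (1 + u) ^ m ≤ (m * c * Real.exp (u / (m * c))) ^ m := by gcongr
      _ = (m * c) ^ m * Real.exp (u / c) := by
          rw [mul_pow, ← Real.exp_nat_mul]
          congr 2
          field_simp
  rw [Real.exp_neg, ← div_eq_mul_inv, div_le_iff₀ (Real.exp_pos _)]
  exact h3

theorem gauss_eq_hk (σ : ℝ) (z : E3) : gauss σ z = hk σ z := rfl

theorem gauss_nonneg {σ : ℝ} (hσ : 0 < σ) (z : E3) : 0 ≤ gauss σ z := (hk_pos hσ z).le

theorem gauss_le {σ : ℝ} (hσ : 0 < σ) (z : E3) :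
    gauss σ z ≤ ((√σ) ^ 3)⁻¹ * Real.exp (-‖z‖ ^ 2 / (4 * σ)) := by
  unfold gauss
  have h1 : (4 * π * σ) ^ (-(3 / 2) : ℝ) ≤ ((√σ) ^ 3)⁻¹ := by
    have h2 : ((√σ) ^ 3)⁻¹ = σ ^ (-(3 / 2) : ℝ) := by
      rw [Real.rpow_neg hσ.le, Real.sqrt_eq_rpow, ← Real.rpow_natCast, ← Real.rpow_mul hσ.le]
      norm_num
    rw [h2]
    apply Real.rpow_le_rpow_of_nonpos hσ _ (by norm_num)
    have := Real.pi_gt_three
    nlinarith
  gcongr

theorem abs_apply_le (z : E3) (i : Fin 3) : |z i| ≤ ‖z‖ := by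
  have := EuclideanSpace.norm_sq_eq z
  have h1 : |z i| ^ 2 ≤ ‖z‖ ^ 2 := by
    rw [this]
    have := Finset.single_le_sum (f := fun i => ‖z i‖ ^ 2) (fun i _ => sq_nonneg _)
      (Finset.mem_univ i)
    simpa [Real.norm_eq_abs] using this
  exact abs_le_of_sq_le_sq' h1 (norm_nonneg z) |>.2

theorem abs_kron_le (i j : Fin 3) : |kron i j| ≤ 1 := by
  unfold kron
  split_ifs <;> simp

/-- the kernel `(ρ² + |x|²)^(-2)` -/
theorem sg_sqrt_pow {σ : ℝ} (hσ : 0 < σ) (z : E3) :
    sg (√σ) z ^ 4 = ((σ + ‖z‖ ^ 2) ^ 2)⁻¹ := by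
  have h0 : 0 < σ + ‖z‖ ^ 2 := by positivity
  unfold sg
  rw [Real.sq_sqrt hσ.le, inv_pow]
  congr 1
  have : (√(σ + ‖z‖ ^ 2)) ^ 4 = ((√(σ + ‖z‖ ^ 2)) ^ 2) ^ 2 := by ring
  rw [this, Real.sq_sqrt h0.le]

/-- bound for the first derivatives of the heat kernel -/
theorem abs_gauss1_le {σ : ℝ} (hσ : 0 < σ) (z : E3) (k : Fin 3) :
    |gauss1 σ z k| ≤ 1728 * ((σ + ‖z‖ ^ 2) ^ 2)⁻¹ := by
  have hs : 0 < √σ := Real.sqrt_pos.2 hσ
  obtain ⟨s, hs', rfl⟩ : ∃ s : ℝ, 0 < s ∧ s ^ 2 = σ := ⟨√σ, hs, Real.sq_sqrt hσ.le⟩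
  set n := ‖z‖ with hn
  have hn0 : 0 ≤ n := norm_nonneg z
  have h1 := gauss_le hσ z
  rw [Real.sqrt_sq hs'.le] at h1
  have h2 := gauss_nonneg hσ z
  have h3 := abs_apply_le z k
  unfold gauss1
  rw [abs_mul, abs_neg, abs_div, abs_of_pos (show 0 < 2 * s ^ 2 by positivity),
    abs_of_nonneg h2]
  set r := n / s with hr
  have hr0 : 0 ≤ r := by positivity
  have hnr : n = r * s := by rw [hr]; field_simp
  have h4 : Real.exp (-n ^ 2 / (4 * s ^ 2)) = Real.exp (-(r ^ 2 / 4)) := by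
    congr 1
    rw [hnr]
    field_simp
  have h5 := pow_mul_exp_le (m := 3) (by norm_num) (c := 4) (by norm_num) (sq_nonneg r)
  norm_num at h5
  calc |z k| / (2 * s ^ 2) * gauss (s ^ 2) z
      ≤ n / (2 * s ^ 2) * ((s ^ 3)⁻¹ * Real.exp (-n ^ 2 / (4 * s ^ 2))) := by gcongr
    _ = (r / 2 * Real.exp (-(r ^ 2 / 4))) * (s ^ 4)⁻¹ := by
        rw [h4, hnr]
        field_simp
    _ ≤ (1728 * ((1 + r ^ 2) ^ 2)⁻¹) * (s ^ 4)⁻¹ := by
        have h6 : 0 < (1 + r ^ 2) ^ 2 := by positivity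
        have h7 : r / 2 * Real.exp (-(r ^ 2 / 4)) ≤ 1728 * ((1 + r ^ 2) ^ 2)⁻¹ := by
          rw [← div_eq_mul_inv, le_div_iff₀ h6]
          have h8 : r / 2 ≤ 1 + r ^ 2 := by nlinarith [sq_nonneg (r - 1)]
          have h9 := Real.exp_pos (-(r ^ 2 / 4))
          calc r / 2 * Real.exp (-(r ^ 2 / 4)) * (1 + r ^ 2) ^ 2
              ≤ (1 + r ^ 2) * Real.exp (-(r ^ 2 / 4)) * (1 + r ^ 2) ^ 2 := by gcongr
            _ = (1 + r ^ 2) ^ 3 * Real.exp (-(r ^ 2 / 4)) := by ring
            _ ≤ 1728 := h5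
        gcongr
    _ = 1728 * ((s ^ 2 + n ^ 2) ^ 2)⁻¹ := by
        rw [mul_assoc, ← mul_inv, hnr]
        congr 2
        ring

/-- bound for the third derivatives of the heat kernel -/
theorem abs_gauss3_le {τ : ℝ} (hτ : 0 < τ) (z : E3) (i j k : Fin 3) :
    |gauss3 τ z i j k| ≤ 256 * ((τ ^ 3)⁻¹ * Real.exp (-‖z‖ ^ 2 / (8 * τ))) := by
  have hs : 0 < √τ := Real.sqrt_pos.2 hτ
  obtain ⟨s, hs', rfl⟩ : ∃ s : ℝ, 0 < s ∧ s ^ 2 = τ := ⟨√τ, hs, Real.sq_sqrt hτ.le⟩
  set n := ‖z‖ with hn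
  have hn0 : 0 ≤ n := norm_nonneg z
  have h1 := gauss_le hτ z
  rw [Real.sqrt_sq hs'.le] at h1
  have h2 := gauss_nonneg hτ z
  have hi := abs_apply_le z i
  have hj := abs_apply_le z j
  have hk := abs_apply_le z k
  set r := n / s with hr
  have hr0 : 0 ≤ r := by positivity
  have hnr : n = r * s := by rw [hr]; field_simp
  have b1 : |(kron i j * z k + kron j k * z i + kron k i * z j) / (4 * (s ^ 2) ^ 2) -
      z i * z j * z k / (8 * (s ^ 2) ^ 3)| ≤ 3 * n / (4 * (s ^ 2) ^ 2) + n ^ 3 / (8 * (s ^ 2) ^ 3) := by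
    refine (abs_sub _ _).trans (add_le_add ?_ ?_)
    · rw [abs_div, abs_of_pos (show 0 < 4 * (s ^ 2) ^ 2 by positivity)]
      gcongr
      have e1 : |kron i j * z k| ≤ n := by
        rw [abs_mul]
        exact (mul_le_mul (abs_kron_le i j) hk (abs_nonneg _) zero_le_one).trans (one_mul _).le
      have e2 : |kron j k * z i| ≤ n := by
        rw [abs_mul]
        exact (mul_le_mul (abs_kron_le j k) hi (abs_nonneg _) zero_le_one).trans (one_mul _).le
      have e3 : |kron k i * z j| ≤ n := by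
        rw [abs_mul]
        exact (mul_le_mul (abs_kron_le k i) hj (abs_nonneg _) zero_le_one).trans (one_mul _).le
      have e4 := abs_add_le (kron i j * z k + kron j k * z i) (kron k i * z j)
      have e5 := abs_add_le (kron i j * z k) (kron j k * z i)
      linarith
    · rw [abs_div, abs_of_pos (show 0 < 8 * (s ^ 2) ^ 3 by positivity), abs_mul, abs_mul]
      gcongr
      calc |z i| * |z j| * |z k| ≤ n * n * n := by gcongr
        _ = n ^ 3 := by ring
  have h5 := pow_mul_exp_le (m := 2) (by norm_num) (c := 8) (by norm_num) (sq_nonneg r)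
  norm_num at h5
  have h4 : Real.exp (-n ^ 2 / (4 * s ^ 2)) = Real.exp (-(r ^ 2 / 8)) * Real.exp (-(r ^ 2 / 8)) := by
    rw [← Real.exp_add]
    congr 1
    rw [hnr]
    field_simp
    ring
  have h4' : Real.exp (-n ^ 2 / (8 * s ^ 2)) = Real.exp (-(r ^ 2 / 8)) := by
    congr 1
    rw [hnr]
    field_simp
  unfold gauss3
  rw [abs_mul, abs_of_nonneg h2]
  calc _ ≤ (3 * n / (4 * (s ^ 2) ^ 2) + n ^ 3 / (8 * (s ^ 2) ^ 3)) *
        ((s ^ 3)⁻¹ * Real.exp (-n ^ 2 / (4 * s ^ 2))) := by gcongr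
    _ = ((3 * r / 4 + r ^ 3 / 8) * Real.exp (-(r ^ 2 / 8))) *
        (((s ^ 2) ^ 3)⁻¹ * Real.exp (-(r ^ 2 / 8))) := by
        rw [h4, hnr]
        field_simp
    _ ≤ 256 * (((s ^ 2) ^ 3)⁻¹ * Real.exp (-(r ^ 2 / 8))) := by
        have h6 : 3 * r / 4 + r ^ 3 / 8 ≤ (1 + r ^ 2) ^ 2 := by
          nlinarith [sq_nonneg (r - 1), sq_nonneg (r ^ 2 - r), sq_nonneg r, hr0]
        have h9 := Real.exp_pos (-(r ^ 2 / 8))
        have h7 : (3 * r / 4 + r ^ 3 / 8) * Real.exp (-(r ^ 2 / 8)) ≤ 256 :=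
          (mul_le_mul_of_nonneg_right h6 h9.le).trans h5
        gcongr
    _ = _ := by rw [h4']

/-- the exponential against a power, at all scales -/
theorem exp_cube_le {τ : ℝ} (hτ : 0 < τ) (z : E3) :
    (τ ^ 3)⁻¹ * Real.exp (-‖z‖ ^ 2 / (8 * τ)) ≤ 13824 * ((τ + ‖z‖ ^ 2) ^ 3)⁻¹ := by
  set u := ‖z‖ ^ 2 / τ with hu
  have hu0 : 0 ≤ u := by positivity
  have h5 := pow_mul_exp_le (m := 3) (by norm_num) (c := 8) (by norm_num) hu0
  norm_num at h5
  have h1 : Real.exp (-‖z‖ ^ 2 / (8 * τ)) = Real.exp (-(u / 8)) := by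
    congr 1
    rw [hu]
    field_simp
  have h2 : τ + ‖z‖ ^ 2 = τ * (1 + u) := by rw [hu]; field_simp
  rw [h1, h2, mul_pow, mul_inv]
  have h3 : Real.exp (-(u / 8)) ≤ 13824 * ((1 + u) ^ 3)⁻¹ := by
    rw [← div_eq_mul_inv, le_div_iff₀ (by positivity)]
    linarith
  calc (τ ^ 3)⁻¹ * Real.exp (-(u / 8)) ≤ (τ ^ 3)⁻¹ * (13824 * ((1 + u) ^ 3)⁻¹) := by gcongr
    _ = _ := by ring

/-- bound for the third derivatives of the heat kernel, as a power -/
theorem abs_gauss3_le' {τ : ℝ} (hτ : 0 < τ) (z : E3) (i j k : Fin 3) :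
    |gauss3 τ z i j k| ≤ 3538944 * ((τ + ‖z‖ ^ 2) ^ 3)⁻¹ := by
  have h1 := abs_gauss3_le hτ z i j k
  have h2 := exp_cube_le hτ z
  linarith

/-- an elementary integral -/
theorem int_cube {σ a : ℝ} (h : 0 < σ + a) :
    IntegrableOn (fun τ : ℝ => ((τ + a) ^ 3)⁻¹) (Ioi σ) volume ∧
    ∫ τ in Ioi σ, ((τ + a) ^ 3)⁻¹ = (2 * (σ + a) ^ 2)⁻¹ := by
  have hd : ∀ x ∈ Ici σ, HasDerivAt (fun τ : ℝ => -(2 * (τ + a) ^ 2)⁻¹) (((x + a) ^ 3)⁻¹) x := by
    intro x hx
    have hx' : 0 < x + a := by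
      have : σ ≤ x := hx
      linarith
    have h1 : HasDerivAt (fun τ : ℝ => 2 * (τ + a) ^ 2) (2 * (2 * (x + a))) x := by
      have h2 := ((hasDerivAt_id x).add_const a).pow 2
      have h3 := h2.const_mul 2
      refine h3.congr_deriv ?_
      simp
    have h4 := (h1.inv (by positivity)).neg
    refine h4.congr_deriv ?_
    field_simp
  have hlim : Tendsto (fun τ : ℝ => -(2 * (τ + a) ^ 2)⁻¹) atTop (𝓝 0) := by
    rw [← neg_zero]
    apply Tendsto.neg
    apply Tendsto.inv_tendsto_atTop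
    apply Tendsto.const_mul_atTop (by norm_num)
    exact (tendsto_pow_atTop (by norm_num)).comp (tendsto_atTop_add_const_right _ a tendsto_id)
  have hpos : ∀ x ∈ Ioi σ, 0 ≤ ((x + a) ^ 3)⁻¹ := by
    intro x hx
    have hx' : 0 < x + a := by
      have : σ < x := hx
      linarith
    positivity
  refine ⟨integrableOn_Ioi_deriv_of_nonneg' hd hpos hlim, ?_⟩
  rw [integral_Ioi_of_hasDerivAt_of_nonneg' hd hpos hlim]
  ring

theorem measurable_gauss : Measurable fun p : ℝ × E3 => gauss p.1 p.2 := by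
  unfold gauss
  fun_prop

theorem measurable_apply2 (k : Fin 3) : Measurable fun p : ℝ × E3 => p.2 k := by fun_prop

theorem measurable_gauss1 (k : Fin 3) : Measurable fun p : ℝ × E3 => gauss1 p.1 p.2 k := by
  have h1 := measurable_gauss
  have h2 := measurable_apply2 k
  unfold gauss1
  exact (h2.div (by fun_prop)).neg.mul h1

theorem measurable_gauss3 (i j k : Fin 3) :
    Measurable fun p : ℝ × E3 => gauss3 p.1 p.2 i j k := by
  have h1 := measurable_gauss
  have hi := measurable_apply2 i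
  have hj := measurable_apply2 j
  have hk := measurable_apply2 k
  unfold gauss3
  refine Measurable.mul (Measurable.sub ?_ ?_) h1
  · exact (((hk.const_mul _).add (hi.const_mul _)).add (hj.const_mul _)).div (by fun_prop)
  · exact ((hi.mul hj).mul hk).div (by fun_prop)

/-- `gauss3` is integrable in time -/
theorem integrableOn_gauss3 {σ : ℝ} (hσ : 0 < σ) (z : E3) (i j k : Fin 3) :
    IntegrableOn (fun τ => gauss3 τ z i j k) (Ioi σ) volume := by
  have h := (int_cube (σ := σ) (a := ‖z‖ ^ 2) (by positivity)).1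
  refine Integrable.mono' (h.const_mul 3538944) ?_ ?_
  · exact ((measurable_gauss3 i j k).comp (measurable_id.prodMk measurable_const)).aestronglyMeasurable
  · filter_upwards [ae_restrict_mem measurableSet_Ioi] with τ hτ
    rw [Real.norm_eq_abs]
    exact abs_gauss3_le' (hσ.trans hτ) z i j k

theorem abs_int_gauss3_le {σ : ℝ} (hσ : 0 < σ) (z : E3) (i j k : Fin 3) :
    |∫ τ in Ioi σ, gauss3 τ z i j k| ≤ 1769472 * ((σ + ‖z‖ ^ 2) ^ 2)⁻¹ := by
  have h := int_cube (σ := σ) (a := ‖z‖ ^ 2) (by positivity)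
  calc |∫ τ in Ioi σ, gauss3 τ z i j k| ≤ ∫ τ in Ioi σ, |gauss3 τ z i j k| :=
        abs_integral_le_integral_abs
    _ ≤ ∫ τ in Ioi σ, 3538944 * ((τ + ‖z‖ ^ 2) ^ 3)⁻¹ := by
        apply setIntegral_mono_on (integrableOn_gauss3 hσ z i j k).abs (h.1.const_mul _)
          measurableSet_Ioi
        intro τ hτ
        exact abs_gauss3_le' (hσ.trans hτ) z i j k
    _ = 1769472 * ((σ + ‖z‖ ^ 2) ^ 2)⁻¹ := by
        rw [integral_const_mul, h.2, mul_inv]
        ring

/-- the constant in the bound of the Oseen kernel -/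
noncomputable def CO : ℝ := 1771200

theorem CO_pos : 0 < CO := by unfold CO; norm_num

/-- the bound of the Oseen kernel -/
theorem abs_oseen_le {σ : ℝ} (hσ : 0 < σ) (z : E3) (i j k : Fin 3) :
    |oseen σ z i j k| ≤ CO * ((σ + ‖z‖ ^ 2) ^ 2)⁻¹ := by
  have h1 := abs_gauss1_le hσ z k
  have h2 := abs_int_gauss3_le hσ z i j k
  have h3 := abs_kron_le i j
  have h4 : |kron i j * gauss1 σ z k| ≤ 1728 * ((σ + ‖z‖ ^ 2) ^ 2)⁻¹ := by
    rw [abs_mul]
    calc |kron i j| * |gauss1 σ z k| ≤ 1 * |gauss1 σ z k| := by gcongr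
      _ ≤ _ := by rw [one_mul]; exact h1
  unfold oseen CO
  refine (abs_add_le _ _).trans ?_
  linarith

theorem abs_oseen_le_sg {σ : ℝ} (hσ : 0 < σ) (z : E3) (i j k : Fin 3) :
    |oseen σ z i j k| ≤ CO * sg (√σ) z ^ 4 := by
  rw [sg_sqrt_pow hσ]
  exact abs_oseen_le hσ z i j k

theorem gauss1_neg (σ : ℝ) (z : E3) (k : Fin 3) : gauss1 σ (-z) k = -gauss1 σ z k := by
  unfold gauss1 gauss
  rw [norm_neg, PiLp.neg_apply]
  ring

theorem gauss3_neg (τ : ℝ) (z : E3) (i j k : Fin 3) :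
    gauss3 τ (-z) i j k = -gauss3 τ z i j k := by
  unfold gauss3 gauss
  rw [norm_neg]
  simp only [PiLp.neg_apply]
  ring

/-- the Oseen kernel is odd -/
theorem oseen_neg (σ : ℝ) (z : E3) (i j k : Fin 3) :
    oseen σ (-z) i j k = -oseen σ z i j k := by
  unfold oseen
  simp only [gauss1_neg, gauss3_neg, integral_neg]
  ring

/-- the Oseen kernel is measurable in time and space -/
theorem stronglyMeasurable_oseen (i j k : Fin 3) :
    StronglyMeasurable fun p : ℝ × E3 => oseen p.1 p.2 i j k := by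
  have h1 : StronglyMeasurable fun p : ℝ × E3 => kron i j * gauss1 p.1 p.2 k :=
    ((measurable_gauss1 k).const_mul _).stronglyMeasurable
  have h2 : StronglyMeasurable fun p : ℝ × E3 => ∫ τ in Ioi p.1, gauss3 τ p.2 i j k := by
    have h3 : ∀ p : ℝ × E3, ∫ τ in Ioi p.1, gauss3 τ p.2 i j k =
        ∫ τ, (if p.1 < τ then gauss3 τ p.2 i j k else 0) := by
      intro p
      rw [← integral_indicator measurableSet_Ioi]
      rfl
    simp only [h3]
    have h4 : StronglyMeasurable (Function.uncurry fun (p : ℝ × E3) (τ : ℝ) =>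
        (if p.1 < τ then gauss3 τ p.2 i j k else 0 : ℝ)) := by
      apply Measurable.stronglyMeasurable
      apply Measurable.ite
      · exact measurableSet_lt (measurable_fst.comp measurable_fst) measurable_snd
      · exact (measurable_gauss3 i j k).comp
          (measurable_snd.prodMk (measurable_snd.comp measurable_fst))
      · exact measurable_const
    exact h4.integral_prod_right
  exact h1.add h2

theorem measurable_oseen (i j k : Fin 3) : Measurable fun p : ℝ × E3 => oseen p.1 p.2 i j k :=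
  (stronglyMeasurable_oseen i j k).measurable

theorem continuousAt_gauss {σ : ℝ} (hσ : 0 < σ) (z : E3) :
    ContinuousAt (fun p : ℝ × E3 => gauss p.1 p.2) (σ, z) := by
  have hp := Real.pi_pos
  unfold gauss
  apply ContinuousAt.mul
  · apply ContinuousAt.rpow_const (by fun_prop)
    left
    positivity
  · apply ContinuousAt.rexp
    apply ContinuousAt.div (by fun_prop) (by fun_prop)
    positivity

theorem continuousAt_gauss1 {σ : ℝ} (hσ : 0 < σ) (z : E3) (k : Fin 3) :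
    ContinuousAt (fun p : ℝ × E3 => gauss1 p.1 p.2 k) (σ, z) := by
  unfold gauss1
  apply ContinuousAt.mul _ (continuousAt_gauss hσ z)
  apply ContinuousAt.neg
  apply ContinuousAt.div (by fun_prop) (by fun_prop)
  positivity

theorem continuousAt_gauss3 {σ : ℝ} (hσ : 0 < σ) (z : E3) (i j k : Fin 3) :
    ContinuousAt (fun p : ℝ × E3 => gauss3 p.1 p.2 i j k) (σ, z) := by
  unfold gauss3
  apply ContinuousAt.mul _ (continuousAt_gauss hσ z)
  apply ContinuousAt.sub
  · apply ContinuousAt.div (by fun_prop) (by fun_prop)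
    positivity
  · apply ContinuousAt.div (by fun_prop) (by fun_prop)
    positivity

/-- shift of the time variable -/
theorem int_gauss3_shift (σ : ℝ) (z : E3) (i j k : Fin 3) :
    ∫ τ in Ioi σ, gauss3 τ z i j k = ∫ τ in Ioi 0, gauss3 (τ + σ) z i j k := by
  rw [← integral_indicator measurableSet_Ioi, ← integral_indicator measurableSet_Ioi,
    ← integral_add_right_eq_self _ σ]
  congr 1
  ext τ
  simp only [indicator, mem_Ioi, lt_add_iff_pos_left]

/-- the Oseen kernel is continuous in time and space -/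
theorem continuousAt_oseen {σ : ℝ} (hσ : 0 < σ) (z : E3) (i j k : Fin 3) :
    ContinuousAt (fun p : ℝ × E3 => oseen p.1 p.2 i j k) (σ, z) := by
  unfold oseen
  apply ContinuousAt.add
  · exact (continuousAt_gauss1 hσ z k).const_mul _
  · simp only [int_gauss3_shift]
    have hb := (int_cube (σ := 0) (a := σ / 2) (by linarith)).1.const_mul 3538944
    refine continuousAt_of_dominated (bound := fun τ => 3538944 * ((τ + σ / 2) ^ 3)⁻¹) ?_ ?_ hb ?_
    · refine Eventually.of_forall fun p => ?_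
      exact ((measurable_gauss3 i j k).comp
        ((measurable_id.add_const _).prodMk measurable_const)).aestronglyMeasurable
    · have h1 : ∀ᶠ p : ℝ × E3 in 𝓝 (σ, z), σ / 2 < p.1 :=
        (continuous_fst.tendsto (σ, z)).eventually (lt_mem_nhds (by simp; linarith))
      filter_upwards [h1] with p hp
      filter_upwards [ae_restrict_mem measurableSet_Ioi] with τ hτ
      have hτ' : 0 < τ := hτ
      rw [Real.norm_eq_abs]
      refine (abs_gauss3_le' (by linarith) p.2 i j k).trans ?_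
      have h2 : τ + σ / 2 ≤ τ + p.1 + ‖p.2‖ ^ 2 := by nlinarith [sq_nonneg ‖p.2‖]
      have h3 : 0 < τ + σ / 2 := by linarith
      gcongr
    · filter_upwards [ae_restrict_mem measurableSet_Ioi] with τ hτ
      have hτ' : 0 < τ := hτ
      have h1 := continuousAt_gauss3 (σ := τ + σ) (by linarith) z i j k
      have h2 : ContinuousAt (fun p : ℝ × E3 => ((τ + p.1, p.2) : ℝ × E3)) (σ, z) := by fun_prop
      exact ContinuousAt.comp (f := fun p : ℝ × E3 => ((τ + p.1, p.2) : ℝ × E3)) h1 h2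

theorem continuousOn_oseen (i j k : Fin 3) :
    ContinuousOn (fun p : ℝ × E3 => oseen p.1 p.2 i j k) (Ioi 0 ×ˢ univ) := by
  rintro ⟨σ, z⟩ ⟨hσ, -⟩
  exact (continuousAt_oseen hσ z i j k).continuousWithinAt

theorem continuous_oseen {σ : ℝ} (hσ : 0 < σ) (i j k : Fin 3) :
    Continuous fun z => oseen σ z i j k := by
  rw [continuous_iff_continuousAt]
  intro z
  have h1 := continuousAt_oseen hσ z i j k
  have h2 : ContinuousAt (fun z : E3 => ((σ, z) : ℝ × E3)) z := by fun_prop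
  exact ContinuousAt.comp (f := fun z : E3 => ((σ, z) : ℝ × E3)) h1 h2

/-- the Oseen kernel is an admissible kernel -/
theorem KK_oseen {σ : ℝ} (hσ : 0 < σ) (i j k : Fin 3) :
    KK (fun z => oseen σ z i j k) (CO * JJ 4 / √σ) := by
  have hs : 0 < √σ := Real.sqrt_pos.2 hσ
  have hC := CO_pos
  have hi := (integrable_sg hs (n := 4) le_rfl).const_mul CO
  have h1 : Integrable (fun z => oseen σ z i j k) (volume : Measure E3) := by
    refine hi.mono' (continuous_oseen hσ i j k).aestronglyMeasurable ?_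
    refine Eventually.of_forall fun z => ?_
    rw [Real.norm_eq_abs]
    exact abs_oseen_le_sg hσ z i j k
  refine ⟨continuous_oseen hσ i j k, h1, ?_, ⟨CO * (σ ^ 2)⁻¹, by positivity, fun y => ?_⟩⟩
  · calc ∫ y, |oseen σ y i j k| ≤ ∫ y, CO * sg (√σ) y ^ 4 :=
          integral_mono h1.abs hi fun y => abs_oseen_le_sg hσ y i j k
      _ = CO * JJ 4 / √σ := by
          rw [integral_const_mul, integral_sg hs]
          field_simp
  · refine (abs_oseen_le hσ y i j k).trans ?_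
    have : σ ≤ σ + ‖y‖ ^ 2 := by nlinarith [sq_nonneg ‖y‖]
    gcongr

end Pool.Agent.TF
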