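import Pool.Agent.TF.M.Sub
import Pool.Agent.TF.K.Def

/-!
# Block M: the Koch-Tataru estimate for tensors, from the estimate for one component
-/

set_option autoImplicit false

namespace Pool.Agent.TF.KT

open MeasureTheory Set Filter Topology Pool.Agent.TO Pool.Agent.TB Pool.Agent.TP
open scoped ENNReal NNReal Real InnerProductSpace SchwartzMap LineDeriv

/-- the integrand of `OsV` with the variables `((t, x), s), y` -/
theorem meas_kern (ho : OK) {f : ℝ → E3 → ℝ} (hf : Measurable (Function.uncurry f))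
    (i j k : Fin 3) :
    Measurable fun p : ((ℝ × E3) × ℝ) × E3 =>
      oseen (p.1.1.1 - p.1.2) (p.1.1.2 - p.2) i j k * f p.1.2 p.2 := by
  refine Measurable.mul ?_ ?_
  · exact (ho.meas i j k).comp (((measurable_fst.fst.fst).sub (measurable_fst.snd)).prodMk
      ((measurable_fst.fst.snd).sub measurable_snd))
  · exact hf.comp ((measurable_fst.snd).prodMk measurable_snd)

theorem meas_intY {g : ((ℝ × E3) × ℝ) × E3 → ℝ} (hg : Measurable g) :
    Measurable fun p : ℝ × E3 => ∫ s in Ioo 0 p.1, ∫ y, g ((p, s), y) := by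
  have h1 : StronglyMeasurable fun q : (ℝ × E3) × ℝ => ∫ y, g (q, y) :=
    hg.stronglyMeasurable.integral_prod_right'
  have hset : MeasurableSet {q : (ℝ × E3) × ℝ | q.2 ∈ Ioo 0 q.1.1} := by
    have h0 : MeasurableSet {q : (ℝ × E3) × ℝ | 0 < q.2} :=
      measurableSet_lt measurable_const measurable_snd
    have h2 : MeasurableSet {q : (ℝ × E3) × ℝ | q.2 < q.1.1} :=
      measurableSet_lt measurable_snd measurable_fst.fst
    exact h0.inter h2
  have h3 : StronglyMeasurable fun q : (ℝ × E3) × ℝ =>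
      indicator {q : (ℝ × E3) × ℝ | q.2 ∈ Ioo 0 q.1.1} (fun q => ∫ y, g (q, y)) q :=
    h1.indicator hset
  have h4 := h3.integral_prod_right' (ν := (volume : Measure ℝ))
  have e : (fun p : ℝ × E3 => ∫ s in Ioo 0 p.1, ∫ y, g ((p, s), y)) = fun p : ℝ × E3 =>
      ∫ s, indicator {q : (ℝ × E3) × ℝ | q.2 ∈ Ioo 0 q.1.1} (fun q => ∫ y, g (q, y)) (p, s) := by
    funext p
    rw [← integral_indicator measurableSet_Ioo]
    rfl
  rw [e]
  exact h4.measurable

theorem meas_Osf (ho : OK) {f : ℝ → E3 → ℝ≥0∞} {F : ℝ → E3 → Fin 3 → Fin 3 → ℝ} (hF : Dom f F)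
    (i : Fin 3) : Measurable fun p : ℝ × E3 => Osf F p.1 p.2 i := by
  have h : Measurable fun p : ((ℝ × E3) × ℝ) × E3 => ∑ j, ∑ k,
      oseen (p.1.1.1 - p.1.2) (p.1.1.2 - p.2) i j k * F p.1.2 p.2 j k :=
    Finset.measurable_sum _ fun j _ => Finset.measurable_sum _ fun k _ =>
      meas_kern ho (hF.meas j k) i j k
  exact meas_intY h

theorem meas_OsV (ho : OK) {f : ℝ → E3 → ℝ≥0∞} {F : ℝ → E3 → Fin 3 → Fin 3 → ℝ}
    (hF : Dom f F) : Measurable (Function.uncurry (OsV F)) := by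
  have h : Measurable fun p : ℝ × E3 => Osf F p.1 p.2 :=
    measurable_pi_lambda _ fun i => meas_Osf ho hF i
  exact (PiLp.continuous_toLp 2 (fun _ : Fin 3 => ℝ)).measurable.comp h

theorem meas_bo (ho : OK) {f : ℝ → E3 → ℝ} (hf : Measurable (Function.uncurry f))
    (i j k : Fin 3) : Measurable fun p : ℝ × E3 => K.bo 0 i j k f p.1 p.2 := by
  have h := meas_intY (meas_kern ho hf i j k)
  have e : (fun p : ℝ × E3 => K.bo 0 i j k f p.1 p.2) = fun p : ℝ × E3 =>
      ∫ s in Ioo 0 p.1, ∫ y, oseen (p.1 - s) (p.2 - y) i j k * f s y := by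
    funext p
    simp only [K.bo, add_zero]
  rw [e]
  exact h

theorem hyp_of {T A : ℝ} {f : ℝ → E3 → ℝ≥0∞} {F : ℝ → E3 → Fin 3 → Fin 3 → ℝ} (hA : 0 ≤ A)
    (hf : KF T A f) (hF : Dom f F) (j k : Fin 3) : K.Hyp T A (fun s y => F s y j k) where
  meas := hF.meas j k
  nn := hA
  sup := by
    intro s hs
    filter_upwards [hf.sup s hs] with y hy
    have h1 := (hF.le s y j k).trans hy
    rw [Real.enorm_eq_ofReal_abs] at h1
    have h2 := (ENNReal.ofReal_le_ofReal_iff (div_nonneg hA hs.1.le)).1 h1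
    calc s * |F s y j k| ≤ s * (A / s) := mul_le_mul_of_nonneg_left h2 hs.1.le
      _ = A := mul_div_cancel₀ A hs.1.ne'
  car := by
    intro t ht x
    exact le_trans (lintegral_mono fun s => lintegral_mono fun y => hF.le s y j k)
      (hf.carl t ht x)

theorem enorm_sq_E3 (v : E3) : ‖v‖ₑ ^ 2 = ∑ i, ‖v i‖ₑ ^ 2 := by
  have h1 : ∀ r : E3, ‖r‖ₑ = ENNReal.ofReal ‖r‖ := fun r => (ofReal_norm_eq_enorm r).symm
  rw [h1, ← ENNReal.ofReal_pow (norm_nonneg _), EuclideanSpace.norm_sq_eq,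
    ENNReal.ofReal_sum_of_nonneg fun i _ => by positivity]
  refine Finset.sum_congr rfl fun i _ => ?_
  rw [ENNReal.ofReal_pow (norm_nonneg _), ofReal_norm_eq_enorm]

theorem bo_le {C A : ℝ} {f : ℝ → E3 → ℝ} (i j k : Fin 3) {t : ℝ} {x : E3}
    (hb : ∫⁻ s in Ioo 0 t, ∫⁻ y, ‖oseen (t - s) (x - y) i j k‖ₑ * ‖f s y‖ₑ ≤
      ENNReal.ofReal (C * A / √t)) : ‖K.bo 0 i j k f t x‖ₑ ≤ ENNReal.ofReal (C * A / √t) := by
  refine le_trans ?_ hb
  rw [K.bo]
  refine (enorm_integral_le_lintegral_enorm _).trans (lintegral_mono fun s => ?_)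
  refine (enorm_integral_le_lintegral_enorm _).trans (lintegral_mono fun y => ?_)
  simp only [enorm_mul, add_zero]
  exact le_rfl

theorem osf_eq {F : ℝ → E3 → Fin 3 → Fin 3 → ℝ} (i : Fin 3) {t : ℝ} {x : E3}
    (h : ∀ j k, Integrable (fun p : ℝ × E3 => oseen (t - p.1) (x - p.2) i j k * F p.1 p.2 j k)
      ((volume.restrict (Ioo 0 t)).prod volume)) :
    Osf F t x i = ∑ j, ∑ k, K.bo 0 i j k (fun s y => F s y j k) t x := by
  have e1 : ∀ᵐ s ∂(volume.restrict (Ioo 0 t)), (∫ y, ∑ j, ∑ k,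
      oseen (t - s) (x - y) i j k * F s y j k) = ∑ j, ∑ k, ∫ y,
      oseen (t - s) (x - y) i j k * F s y j k := by
    have h1 : ∀ᵐ s ∂(volume.restrict (Ioo 0 t)), ∀ j k, Integrable (fun y =>
        oseen (t - s) (x - y) i j k * F s y j k) :=
      ae_all_iff.2 fun j => ae_all_iff.2 fun k => (h j k).prod_right_ae
    filter_upwards [h1] with s hs
    rw [integral_finset_sum _ fun j _ => integrable_finset_sum _ fun k _ => hs j k]
    refine Finset.sum_congr rfl fun j _ => ?_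
    rw [integral_finset_sum _ fun k _ => hs j k]
  have h2 : ∀ j k, Integrable (fun s => ∫ y, oseen (t - s) (x - y) i j k * F s y j k)
      (volume.restrict (Ioo 0 t)) := fun j k => (h j k).integral_prod_left
  rw [Osf, integral_congr_ae e1,
    integral_finset_sum _ fun j _ => integrable_finset_sum _ fun k _ => h2 j k]
  refine Finset.sum_congr rfl fun j _ => ?_
  rw [integral_finset_sum _ fun k _ => h2 j k]
  refine Finset.sum_congr rfl fun k _ => ?_
  rw [K.bo]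
  simp only [add_zero]

theorem enorm_sq_sum9 (b : Fin 3 → Fin 3 → ℝ) :
    ‖∑ j, ∑ k, b j k‖ₑ ^ 2 ≤ 9 * ∑ j, ∑ k, ‖b j k‖ₑ ^ 2 := by
  have hc : ∀ c : Fin 3 → ℝ, (∑ j, c j) ^ 2 ≤ 3 * ∑ j, c j ^ 2 := by
    intro c
    simp only [Fin.sum_univ_three]
    nlinarith [sq_nonneg (c 0 - c 1), sq_nonneg (c 0 - c 2), sq_nonneg (c 1 - c 2)]
  have hr : (∑ j, ∑ k, b j k) ^ 2 ≤ 9 * ∑ j, ∑ k, b j k ^ 2 := by
    have h1 : ∑ j, (∑ k, b j k) ^ 2 ≤ ∑ j, 3 * ∑ k, b j k ^ 2 :=
      Finset.sum_le_sum fun j _ => hc (b j)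
    rw [← Finset.mul_sum] at h1
    have h2 := hc fun j => ∑ k, b j k
    linarith
  have he : ∀ r : ℝ, ‖r‖ₑ ^ 2 = ENNReal.ofReal (r ^ 2) := by
    intro r
    rw [Real.enorm_eq_ofReal_abs, ← ENNReal.ofReal_pow (abs_nonneg r), sq_abs]
  simp only [he]
  have h9 : (9 : ℝ≥0∞) = ENNReal.ofReal 9 := by
    simp
  have hs : ∑ j, ∑ k, ENNReal.ofReal (b j k ^ 2) = ENNReal.ofReal (∑ j, ∑ k, b j k ^ 2) := by
    rw [ENNReal.ofReal_sum_of_nonneg fun j _ => Finset.sum_nonneg fun k _ => sq_nonneg _]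
    refine Finset.sum_congr rfl fun j _ => ?_
    rw [ENNReal.ofReal_sum_of_nonneg fun k _ => sq_nonneg _]
  rw [h9, hs, ← ENNReal.ofReal_mul (by norm_num)]
  exact ENNReal.ofReal_le_ofReal hr

theorem sq_OsV_le {F : ℝ → E3 → Fin 3 → Fin 3 → ℝ} {t : ℝ} {x : E3}
    (h : ∀ i, Osf F t x i = ∑ j, ∑ k, K.bo 0 i j k (fun s y => F s y j k) t x) :
    ‖OsV F t x‖ₑ ^ 2 ≤
      9 * ∑ i, ∑ j, ∑ k, ‖K.bo 0 i j k (fun s y => F s y j k) t x‖ₑ ^ 2 := by
  rw [enorm_sq_E3, Finset.mul_sum]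
  refine Finset.sum_le_sum fun i _ => ?_
  have e : (OsV F t x) i = Osf F t x i := rfl
  rw [e, h i]
  exact enorm_sq_sum9 _

theorem stKT (h : K.StKT) (ho : OK) : StKT := by
  obtain ⟨C, hC, h⟩ := h
  refine ⟨27 * C, by positivity, fun T A f F hA hf hF => ?_⟩
  have hy := hyp_of hA hf hF
  have hos : ∀ t ∈ Ioo 0 T, ∀ x : E3, ∀ i,
      Osf F t x i = ∑ j, ∑ k, K.bo 0 i j k (fun s y => F s y j k) t x := fun t ht x i =>
    osf_eq i fun j k => intble ho (hF.meas j k) i j k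
      (lt_of_le_of_lt (h T A _ (hy j k) i j k t ht x).1 ENNReal.ofReal_lt_top)
  refine ⟨⟨meas_OsV ho hF, fun t ht => Eventually.of_forall fun x => ?_, fun t ht x => ?_⟩,
    fun t ht x i j k =>
      lt_of_le_of_lt (h T A _ (hy j k) i j k t ht x).1 ENNReal.ofReal_lt_top⟩
  · have h1 := sq_OsV_le (hos t ht x)
    have h2 : ∀ i j k, ‖K.bo 0 i j k (fun s y => F s y j k) t x‖ₑ ^ 2 ≤
        ENNReal.ofReal (C * A / √t) ^ 2 := fun i j k =>
      pow_le_pow_left' (bo_le i j k (h T A _ (hy j k) i j k t ht x).1) 2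
    have h3 : ∑ i, ∑ j, ∑ k, ‖K.bo 0 i j k (fun s y => F s y j k) t x‖ₑ ^ 2 ≤
        27 * ENNReal.ofReal (C * A / √t) ^ 2 := by
      refine (Finset.sum_le_sum fun i _ => Finset.sum_le_sum fun j _ =>
        Finset.sum_le_sum fun k _ => h2 i j k).trans (le_of_eq ?_)
      simp only [Finset.sum_const, Finset.card_univ, Fintype.card_fin, nsmul_eq_mul]
      ring
    have e : ENNReal.ofReal (27 * C * A / √t) = 27 * ENNReal.ofReal (C * A / √t) := by
      rw [show 27 * C * A / √t = 27 * (C * A / √t) by ring,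
        ENNReal.ofReal_mul (by norm_num)]
      simp
    refine (ENNReal.pow_le_pow_left_iff two_ne_zero).1 ?_
    rw [e, mul_pow]
    refine h1.trans ((mul_le_mul_right h3 9).trans ?_)
    rw [← mul_assoc]
    refine mul_le_mul_left ?_ _
    norm_num
  · have hae : ∀ s ∈ Ioo 0 t, ∀ y : E3, ‖OsV F s y‖ₑ ^ 2 ≤
        9 * ∑ i, ∑ j, ∑ k, ‖K.bo 0 i j k (fun s y => F s y j k) s y‖ₑ ^ 2 := fun s hs y =>
      sq_OsV_le (hos s ⟨hs.1, hs.2.trans ht.2⟩ y)
    have hm : ∀ i j k, Measurable fun p : ℝ × E3 =>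
        ‖K.bo 0 i j k (fun s y => F s y j k) p.1 p.2‖ₑ ^ 2 := fun i j k =>
      ((meas_bo ho (hF.meas j k) i j k).enorm).pow_const 2
    have hmy : ∀ i j k, ∀ s, Measurable fun y : E3 =>
        ‖K.bo 0 i j k (fun s y => F s y j k) s y‖ₑ ^ 2 := fun i j k s =>
      (hm i j k).comp measurable_prodMk_left
    have hms : ∀ i j k, Measurable fun s : ℝ => ∫⁻ y in Metric.ball x (√t),
        ‖K.bo 0 i j k (fun s y => F s y j k) s y‖ₑ ^ 2 := fun i j k =>
      (hm i j k).lintegral_prod_right'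
    have hsum : ∀ s, ∫⁻ y in Metric.ball x (√t), 9 * ∑ i, ∑ j, ∑ k,
        ‖K.bo 0 i j k (fun s y => F s y j k) s y‖ₑ ^ 2 = 9 * ∑ i, ∑ j, ∑ k,
        ∫⁻ y in Metric.ball x (√t), ‖K.bo 0 i j k (fun s y => F s y j k) s y‖ₑ ^ 2 := by
      intro s
      rw [lintegral_const_mul _ (Finset.measurable_sum _ fun i _ =>
        Finset.measurable_sum _ fun j _ => Finset.measurable_sum _ fun k _ => hmy i j k s),
        lintegral_finset_sum _ fun i _ =>
        Finset.measurable_sum _ fun j _ => Finset.measurable_sum _ fun k _ => hmy i j k s]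
      refine congrArg _ (Finset.sum_congr rfl fun i _ => ?_)
      rw [lintegral_finset_sum _ fun j _ => Finset.measurable_sum _ fun k _ => hmy i j k s]
      refine Finset.sum_congr rfl fun j _ => ?_
      rw [lintegral_finset_sum _ fun k _ => hmy i j k s]
    have hsum2 : ∫⁻ s in Ioo 0 t, 9 * ∑ i, ∑ j, ∑ k,
        ∫⁻ y in Metric.ball x (√t), ‖K.bo 0 i j k (fun s y => F s y j k) s y‖ₑ ^ 2 =
        9 * ∑ i, ∑ j, ∑ k, ∫⁻ s in Ioo 0 t, ∫⁻ y in Metric.ball x (√t),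
          ‖K.bo 0 i j k (fun s y => F s y j k) s y‖ₑ ^ 2 := by
      rw [lintegral_const_mul _ (Finset.measurable_sum _ fun i _ =>
        Finset.measurable_sum _ fun j _ => Finset.measurable_sum _ fun k _ => hms i j k),
        lintegral_finset_sum _ fun i _ =>
        Finset.measurable_sum _ fun j _ => Finset.measurable_sum _ fun k _ => hms i j k]
      refine congrArg _ (Finset.sum_congr rfl fun i _ => ?_)
      rw [lintegral_finset_sum _ fun j _ => Finset.measurable_sum _ fun k _ => hms i j k]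
      refine Finset.sum_congr rfl fun j _ => ?_
      rw [lintegral_finset_sum _ fun k _ => hms i j k]
    calc ∫⁻ s in Ioo 0 t, ∫⁻ y in Metric.ball x (√t), ‖OsV F s y‖ₑ ^ 2
        ≤ ∫⁻ s in Ioo 0 t, ∫⁻ y in Metric.ball x (√t), 9 * ∑ i, ∑ j, ∑ k,
          ‖K.bo 0 i j k (fun s y => F s y j k) s y‖ₑ ^ 2 :=
          setLIntegral_mono' measurableSet_Ioo fun s hs => lintegral_mono fun y => hae s hs y
      _ = 9 * ∑ i, ∑ j, ∑ k, ∫⁻ s in Ioo 0 t, ∫⁻ y in Metric.ball x (√t),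
          ‖K.bo 0 i j k (fun s y => F s y j k) s y‖ₑ ^ 2 := by
          rw [← hsum2]
          exact lintegral_congr fun s => hsum s
      _ ≤ 9 * ∑ i : Fin 3, ∑ j : Fin 3, ∑ k : Fin 3,
          ENNReal.ofReal ((C * A) ^ 2 * √t ^ 3) := by
          refine mul_le_mul_right (Finset.sum_le_sum fun i _ => Finset.sum_le_sum fun j _ =>
            Finset.sum_le_sum fun k _ => (h T A _ (hy j k) i j k t ht x).2) _
      _ = ENNReal.ofReal (243 * ((C * A) ^ 2 * √t ^ 3)) := by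
          rw [ENNReal.ofReal_mul (by norm_num : (0 : ℝ) ≤ 243)]
          simp only [Finset.sum_const, Finset.card_univ, Fintype.card_fin, nsmul_eq_mul]
          rw [← mul_assoc, ← mul_assoc, ← mul_assoc]
          congr 1
          rw [ENNReal.ofReal_ofNat]
          norm_num
      _ ≤ ENNReal.ofReal ((27 * C * A) ^ 2 * √t ^ 3) := by
          refine ENNReal.ofReal_le_ofReal ?_
          have h0 : 0 ≤ (C * A) ^ 2 * √t ^ 3 := by positivity
          nlinarith

end Pool.Agent.TF.KT
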