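import Pool.Agent.TF.M.Defs
import Pool.Agent.TP.Low

/-!
# Block M: the `L²` bound
-/

set_option autoImplicit false

namespace Pool.Agent.TF.KT

open MeasureTheory Set Filter Topology Pool.Agent.TO Pool.Agent.TB Pool.Agent.TC Pool.Agent.TP
open scoped ENNReal NNReal Real InnerProductSpace SchwartzMap LineDeriv

theorem l2_meas_kq : Measurable fun p : ℝ × E3 => kq p.1 p.2 := by
  unfold kq sg
  fun_prop

theorem l2_int_left {σ : ℝ} (hσ : 0 < σ) (y : E3) :
    ∫⁻ x : E3, ENNReal.ofReal (kq σ (x - y)) = ENNReal.ofReal (JJ 4 / √σ) := by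
  have h1 := Real.sqrt_pos.2 hσ
  rw [← rho4 h1]
  exact lint_sg' h1 le_rfl y

theorem l2_int_right {σ : ℝ} (hσ : 0 < σ) (x : E3) :
    ∫⁻ y : E3, ENNReal.ofReal (kq σ (x - y)) = ENNReal.ofReal (JJ 4 / √σ) := by
  have h1 := Real.sqrt_pos.2 hσ
  rw [← rho4 h1]
  exact lint_sg h1 le_rfl x

theorem l2_refl {t : ℝ} (ht : 0 ≤ t) (c : ℝ) (hc : 0 ≤ c) :
    ∫⁻ s in Ioo 0 t, ENNReal.ofReal (c / √(t - s)) = ENNReal.ofReal (2 * c * √t) := by
  rw [← lint_inv_sqrt ht c hc, ← lintegral_indicator measurableSet_Ioo,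
    ← lintegral_indicator measurableSet_Ioo,
    ← lintegral_sub_left_eq_self ((Ioo 0 t).indicator fun s => ENNReal.ofReal (c / √s)) t]
  apply lintegral_congr
  intro s
  by_cases hs : s ∈ Ioo 0 t
  · have h1 : t - s ∈ Ioo 0 t := ⟨by linarith [hs.2], by linarith [hs.1]⟩
    rw [indicator_of_mem hs, indicator_of_mem h1]
  · have h1 : t - s ∉ Ioo 0 t := fun h => hs ⟨by linarith [h.2], by linarith [h.1]⟩
    rw [indicator_of_notMem hs, indicator_of_notMem h1]

/-- the Beta integral -/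
theorem l2_time {t : ℝ} (ht : 0 < t) {J : ℝ} (hJ : 0 ≤ J) :
    ∫⁻ s in Ioo 0 t, ENNReal.ofReal (1 / √s) * ENNReal.ofReal (J / √(t - s)) ≤
      ENNReal.ofReal (4 * J) := by
  have hst := Real.sqrt_pos.2 ht
  calc ∫⁻ s in Ioo 0 t, ENNReal.ofReal (1 / √s) * ENNReal.ofReal (J / √(t - s))
      ≤ ∫⁻ s in Ioo 0 t, (ENNReal.ofReal ((J / √t) / √s) +
          ENNReal.ofReal ((J / √t) / √(t - s))) := by
        apply setLIntegral_mono' measurableSet_Ioo
        intro s hs
        have ha := Real.sqrt_pos.2 hs.1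
        have hb := Real.sqrt_pos.2 (sub_pos.2 hs.2)
        rw [← ENNReal.ofReal_mul (by positivity), ← ENNReal.ofReal_add (by positivity)
          (by positivity)]
        apply ENNReal.ofReal_le_ofReal
        have h1 : √t ≤ √s + √(t - s) := by
          apply Real.sqrt_le_iff.2
          refine ⟨by positivity, ?_⟩
          have e1 := Real.sq_sqrt hs.1.le
          have e2 := Real.sq_sqrt (sub_pos.2 hs.2).le
          nlinarith [mul_pos ha hb]
        have e3 : J / √t / √s + J / √t / √(t - s) =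
            1 / √s * (J / √(t - s)) * ((√s + √(t - s)) / √t) := by
          field_simp
          ring
        rw [e3]
        apply le_mul_of_one_le_right (by positivity)
        rw [one_le_div hst]
        exact h1
    _ = ENNReal.ofReal (4 * J) := by
        rw [lintegral_add_left (by fun_prop), lint_inv_sqrt ht.le _ (by positivity),
          l2_refl ht.le _ (by positivity), ← ENNReal.ofReal_add (by positivity) (by positivity)]
        congr 1
        field_simp
        ring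

/-- the kernel with the weight `s^(-1/2)` -/
noncomputable def l2K (t : ℝ) (x : E3) (p : ℝ × E3) : ℝ≥0∞ :=
  ENNReal.ofReal (1 / √p.1) * ENNReal.ofReal (kq (t - p.1) (x - p.2))

theorem l2_measK (t : ℝ) : Measurable fun q : E3 × (ℝ × E3) => l2K t q.1 q.2 := by
  have h3 : Measurable fun q : E3 × (ℝ × E3) => ((t - q.2.1, q.1 - q.2.2) : ℝ × E3) := by
    fun_prop
  have mk : Measurable fun q : E3 × (ℝ × E3) =>
      ENNReal.ofReal (kq (t - q.2.1) (q.1 - q.2.2)) := (l2_meas_kq.comp h3).ennreal_ofReal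
  have mw : Measurable fun q : E3 × (ℝ × E3) => ENNReal.ofReal (1 / √q.2.1) := by fun_prop
  exact mw.mul mk

theorem l2_measK_right (t : ℝ) (x : E3) : Measurable fun p : ℝ × E3 => l2K t x p :=
  (l2_measK t).comp (by fun_prop : Measurable fun p : ℝ × E3 => (x, p))

theorem l2_measK_left (t : ℝ) (p : ℝ × E3) : Measurable fun x : E3 => l2K t x p :=
  (l2_measK t).comp (by fun_prop : Measurable fun x : E3 => (x, p))

theorem l2_meas_y (t s : ℝ) (x : E3) :
    Measurable fun y : E3 => ENNReal.ofReal (kq (t - s) (x - y)) := by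
  have h3 : Measurable fun y : E3 => ((t - s, x - y) : ℝ × E3) := by fun_prop
  exact (l2_meas_kq.comp h3).ennreal_ofReal

theorem l2_meas_x (t s : ℝ) (y : E3) :
    Measurable fun x : E3 => ENNReal.ofReal (kq (t - s) (x - y)) := by
  have h3 : Measurable fun x : E3 => ((t - s, x - y) : ℝ × E3) := by fun_prop
  exact (l2_meas_kq.comp h3).ennreal_ofReal

theorem l2_mass {t : ℝ} (ht : 0 < t) (x : E3) :
    ∫⁻ p, l2K t x p ∂((volume.restrict (Ioo 0 t)).prod volume) ≤ ENNReal.ofReal (4 * JJ 4) := by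
  have hJ := JJ_pos (n := 4) le_rfl
  rw [lintegral_prod _ (l2_measK_right t x).aemeasurable]
  refine le_trans (le_of_eq ?_) (l2_time ht hJ.le)
  apply setLIntegral_congr_fun measurableSet_Ioo
  intro s hs
  show ∫⁻ y : E3, l2K t x (s, y) = ENNReal.ofReal (1 / √s) * ENNReal.ofReal (JJ 4 / √(t - s))
  rw [← l2_int_right (sub_pos.2 hs.2) x, ← lintegral_const_mul _ (l2_meas_y t s x)]
  rfl

theorem l2_col {t s : ℝ} (hs : s ∈ Ioo 0 t) (y : E3) :
    ∫⁻ x : E3, l2K t x (s, y) = ENNReal.ofReal (1 / √s) * ENNReal.ofReal (JJ 4 / √(t - s)) := by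
  rw [← l2_int_left (sub_pos.2 hs.2) y, ← lintegral_const_mul _ (l2_meas_x t s y)]
  rfl

theorem l2_swap (t : ℝ) {G : ℝ × E3 → ℝ≥0∞} (mG : Measurable G) :
    ∫⁻ x, ∫⁻ p, l2K t x p * G p ∂((volume.restrict (Ioo 0 t)).prod volume) =
      ∫⁻ s in Ioo 0 t, ∫⁻ y : E3, (∫⁻ x, l2K t x (s, y)) * G (s, y) := by
  have m1 : Measurable fun q : E3 × (ℝ × E3) => G q.2 := mG.comp measurable_snd
  have m2 : Measurable fun q : E3 × (ℝ × E3) => l2K t q.1 q.2 * G q.2 := (l2_measK t).mul m1
  have m3 : Measurable fun p : ℝ × E3 => (∫⁻ x, l2K t x p) * G p :=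
    (l2_measK t).lintegral_prod_left'.mul mG
  rw [lintegral_lintegral_swap (f := fun x p => l2K t x p * G p) m2.aemeasurable]
  have e1 : ∀ p : ℝ × E3, ∫⁻ x, l2K t x p * G p = (∫⁻ x, l2K t x p) * G p := fun p =>
    lintegral_mul_const _ (l2_measK_left t p)
  simp only [e1]
  rw [lintegral_prod _ m3.aemeasurable]

theorem l2_second {t b B : ℝ} (ht : 0 < t) {g : ℝ → E3 → ℝ≥0∞}
    (mg : Measurable (Function.uncurry g))
    (h2 : ∀ᵐ s ∂(volume.restrict (Ioo 0 t)), ∫⁻ y, g s y ^ 2 ≤ ENNReal.ofReal (B ^ 2)) :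
    ∫⁻ x, ∫⁻ p, l2K t x p * (ENNReal.ofReal b * g p.1 p.2) ^ 2
        ∂((volume.restrict (Ioo 0 t)).prod volume) ≤
      ENNReal.ofReal (4 * JJ 4) * (ENNReal.ofReal b ^ 2 * ENNReal.ofReal (B ^ 2)) := by
  have hJ := JJ_pos (n := 4) le_rfl
  have mG : Measurable fun p : ℝ × E3 => (ENNReal.ofReal b * g p.1 p.2) ^ 2 :=
    (mg.const_mul _).pow_const 2
  have mGs : ∀ s, Measurable fun y => g s y := fun s => mg.comp measurable_prodMk_left
  rw [l2_swap t mG]
  calc ∫⁻ s in Ioo 0 t, ∫⁻ y : E3, (∫⁻ x, l2K t x (s, y)) * (ENNReal.ofReal b * g s y) ^ 2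
      ≤ ∫⁻ s in Ioo 0 t, (ENNReal.ofReal (1 / √s) * ENNReal.ofReal (JJ 4 / √(t - s))) *
          (ENNReal.ofReal b ^ 2 * ENNReal.ofReal (B ^ 2)) := by
        apply lintegral_mono_ae
        filter_upwards [h2, ae_restrict_mem measurableSet_Ioo] with s hs2 hs
        simp only [l2_col hs, mul_pow]
        rw [lintegral_const_mul _ (((mGs s).pow_const 2).const_mul _),
          lintegral_const_mul _ ((mGs s).pow_const 2)]
        gcongr
    _ = (∫⁻ s in Ioo 0 t, (ENNReal.ofReal (1 / √s) * ENNReal.ofReal (JJ 4 / √(t - s)))) *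
          (ENNReal.ofReal b ^ 2 * ENNReal.ofReal (B ^ 2)) := by
        rw [lintegral_mul_const _ (by fun_prop)]
    _ ≤ _ := by
        gcongr
        exact l2_time ht hJ.le

theorem l2_point {t b : ℝ} {f g : ℝ → E3 → ℝ≥0∞}
    (mg : Measurable (Function.uncurry g))
    (h1 : ∀ᵐ s ∂(volume.restrict (Ioo 0 t)), ∀ᵐ y ∂(volume : Measure E3),
      f s y ≤ ENNReal.ofReal (b / √s) * g s y) (x : E3) :
    Maj f t x ≤ ∫⁻ p, l2K t x p * (ENNReal.ofReal b * g p.1 p.2)
      ∂((volume.restrict (Ioo 0 t)).prod volume) := by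
  have mG : Measurable fun p : ℝ × E3 => ENNReal.ofReal b * g p.1 p.2 := mg.const_mul _
  have mKG : Measurable fun p : ℝ × E3 => l2K t x p * (ENNReal.ofReal b * g p.1 p.2) :=
    (l2_measK_right t x).mul mG
  rw [lintegral_prod _ mKG.aemeasurable]
  unfold Maj
  apply lintegral_mono_ae
  filter_upwards [h1, ae_restrict_mem measurableSet_Ioo] with s hs1 hs
  apply lintegral_mono_ae
  filter_upwards [hs1] with y hy
  have ha := Real.sqrt_pos.2 hs.1
  calc ENNReal.ofReal (kq (t - s) (x - y)) * f s y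
      ≤ ENNReal.ofReal (kq (t - s) (x - y)) * (ENNReal.ofReal (b / √s) * g s y) := by gcongr
    _ = l2K t x (s, y) * (ENNReal.ofReal b * g s y) := by
      rw [show b / √s = (1 / √s) * b by ring, ENNReal.ofReal_mul (by positivity), l2K]
      ring

/-- (L2) the `L²` bound -/
theorem stL2 : StL2 := by
  have hJ := JJ_pos (n := 4) le_rfl
  refine ⟨4 * JJ 4, by positivity, ?_⟩
  intro T b B f g hb hB mf mg h1 h2 t ht
  have hsub : Ioo 0 t ⊆ Ioo 0 T := Ioo_subset_Ioo_right ht.2.le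
  have h1' := ae_restrict_of_ae_restrict_of_subset hsub h1
  have h2' := ae_restrict_of_ae_restrict_of_subset hsub h2
  have mG : Measurable fun p : ℝ × E3 => ENNReal.ofReal b * g p.1 p.2 := mg.const_mul _
  have key := l2_second (b := b) ht.1 mg h2'
  calc ∫⁻ x, Maj f t x ^ 2
      ≤ ∫⁻ x, ENNReal.ofReal (4 * JJ 4) * ∫⁻ p, l2K t x p * (ENNReal.ofReal b * g p.1 p.2) ^ 2
          ∂((volume.restrict (Ioo 0 t)).prod volume) := by
        apply lintegral_mono
        intro x
        exact (pow_le_pow_left₀ zero_le (l2_point mg h1' x) 2).trans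
          ((cs_weight (l2_measK_right t x).aemeasurable mG.aemeasurable).trans
            (mul_le_mul_left (l2_mass ht.1 x) _))
    _ = ENNReal.ofReal (4 * JJ 4) * ∫⁻ x, ∫⁻ p, l2K t x p * (ENNReal.ofReal b * g p.1 p.2) ^ 2
          ∂((volume.restrict (Ioo 0 t)).prod volume) := by
        rw [lintegral_const_mul' _ _ ENNReal.ofReal_ne_top]
    _ ≤ ENNReal.ofReal (4 * JJ 4) *
          (ENNReal.ofReal (4 * JJ 4) * (ENNReal.ofReal b ^ 2 * ENNReal.ofReal (B ^ 2))) := by
        gcongr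
    _ = ENNReal.ofReal ((4 * JJ 4 * b * B) ^ 2) := by
        rw [← ENNReal.ofReal_pow hb, ← ENNReal.ofReal_mul (by positivity),
          ← ENNReal.ofReal_mul (by positivity), ← ENNReal.ofReal_mul (by positivity)]
        congr 1
        ring

end Pool.Agent.TF.KT
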