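import Pool.Agent.TF.M.Bil

/-!
# Block M: bounded Leray solutions satisfy the integral equation
-/

set_option autoImplicit false

namespace Pool.Agent.TF

open MeasureTheory Set Filter Topology Pool.Agent.TO Pool.Agent.TB Pool.Agent.TC Pool.Agent.TP
open scoped ENNReal NNReal Real InnerProductSpace SchwartzMap LineDeriv

variable {T t a C : ℝ} {u₀ : V3} {u : ℝ → V3} {W : ℝ → E3 → E3}

/-- the nonlinear term at one time -/
theorem mm_time {σ c : ℝ} (hσ : 0 < σ) (φ : 𝓢(E3, E3)) {f : V3} (hf : Bd f c) {w : E3 → E3}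
    (hw : w =ᵐ[volume] f) :
    ∫ y, ∑ j, ∑ k, (heat σ (∂_{ee k} φ : 𝓢(E3, E3)) y) j * (w y j * w y k) =
      ∑ k, ⟪Hs σ (emb (∂_{ee k} φ)), tens k f f⟫_ℝ := by
  have e1 : ∀ k, (fun y => ⟪(Hs σ (emb (∂_{ee k} φ)) : V3) y, (tens k f f : V3) y⟫_ℝ)
      =ᵐ[volume] fun y => ∑ j, (heat σ (∂_{ee k} φ : 𝓢(E3, E3)) y) j * (w y j * w y k) := by
    intro k
    have h1 : (Hs σ (emb (∂_{ee k} φ)) : E3 → E3) =ᵐ[volume] heat σ (∂_{ee k} φ : 𝓢(E3, E3)) := by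
      rw [Hs_pos hσ]
      unfold HpM
      rw [cvO_eq (kkM_hk hσ)]
      exact coe_cvL_emb (kkM_hk hσ) _
    filter_upwards [h1, coe_tens_left k hf f, hw] with y h2 h3 h4
    rw [h2, h3, PiLp.inner_apply]
    refine Finset.sum_congr rfl fun j _ => ?_
    rw [h4, PiLp.smul_apply, smul_eq_mul]
    have e2 : ⟪(heat σ (∂_{ee k} φ : 𝓢(E3, E3)) y) j, f y k * f y j⟫_ℝ =
        (f y k * f y j) * (heat σ (∂_{ee k} φ : 𝓢(E3, E3)) y) j := rfl
    rw [e2]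
    ring
  have i1 : ∀ k, Integrable (fun y => ∑ j,
      (heat σ (∂_{ee k} φ : 𝓢(E3, E3)) y) j * (w y j * w y k)) (volume : Measure E3) := fun k =>
    (L2.integrable_inner (𝕜 := ℝ) (Hs σ (emb (∂_{ee k} φ))) (tens k f f)).congr (e1 k)
  have e3 : ∀ y, ∑ j, ∑ k, (heat σ (∂_{ee k} φ : 𝓢(E3, E3)) y) j * (w y j * w y k) =
      ∑ k, ∑ j, (heat σ (∂_{ee k} φ : 𝓢(E3, E3)) y) j * (w y j * w y k) := fun y =>
    Finset.sum_comm
  simp only [e3]
  rw [integral_finsetSum _ fun k _ => i1 k]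
  refine Finset.sum_congr rfl fun k _ => ?_
  rw [L2.inner_def]
  exact (integral_congr_ae (e1 k)).symm

/-- the bilinear operator tested with a divergence-free field -/
theorem mm_pair (ht : 0 < t) (h : MW t a C W) {c : ℝ → ℝ} (hb : ∀ s ∈ Ioo 0 t, Bd (u s) (c s))
    (hu : ∀ᵐ s ∂(volume.restrict (Ioo 0 t)), W s =ᵐ[volume] u s) {φ : 𝓢(E3, E3)}
    (hφ : TestDivFree φ) : ⟪emb φ, (mB_memLp ht h).toLp⟫_ℝ =
      -∫ s in Ioo 0 t, ∑ k, ⟪Hs (t - s) (emb (∂_{ee k} φ)), tens k (u s) (u s)⟫_ℝ := by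
  obtain ⟨η, hη, -⟩ := GK.exists_comp φ
  obtain ⟨i1, e1⟩ := mB_pair ht h hη
  rw [e1]
  unfold mnu at i1 ⊢
  rw [integral_prod _ i1, ← integral_neg]
  apply integral_congr_ae
  filter_upwards [hu, ae_restrict_mem measurableSet_Ioo] with s h1 h2
  have hσ : 0 < t - s := by linarith [h2.2]
  rw [← mm_time hσ φ (hb s h2) h1, ← integral_neg]
  congr 1
  ext y
  rw [← Finset.sum_neg_distrib]
  refine Finset.sum_congr rfl fun j _ => ?_
  rw [← Finset.sum_neg_distrib]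
  refine Finset.sum_congr rfl fun k _ => ?_
  simp only [hη]
  rw [oseenK_vec hσ φ hφ y j k]
  unfold mF
  ring

/-- a square integrable divergence-free field orthogonal to the test fields vanishes -/
theorem mm_zero {X : V3} (hX : IsDivFree X)
    (h : ∀ φ : 𝓢(E3, E3), TestDivFree φ → ⟪emb φ, X⟫_ℝ = 0) : X = 0 := by
  obtain ⟨ψ, h1, h2⟩ := adm_of_divFree hX
  have l : Tendsto (fun n => ⟪emb (ψ n), X⟫_ℝ) atTop (𝓝 ⟪X, X⟫_ℝ) := h2.inner tendsto_const_nhds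
  have e : ∀ n, ⟪emb (ψ n), X⟫_ℝ = 0 := fun n => h _ (h1 n)
  simp only [e] at l
  exact inner_self_eq_zero.1 (tendsto_nhds_unique l tendsto_const_nhds)

/-- `u(t) = e^{t Δ} u₀ - B(t)` in `L²` -/
theorem mm_eq {c : ℝ → ℝ} (h : IsLeray T u₀ u) (hb : ∀ s ∈ Ioo 0 T, Bd (u s) (c s))
    (hc : ∀ s, 0 ≤ c s) (ht : t ∈ Ioo 0 T) (hW : MW t a C W)
    (hu : ∀ᵐ s ∂(volume.restrict (Ioo 0 t)), W s =ᵐ[volume] u s) :
    u t = Hs t u₀ - (mB_memLp ht.1 hW).toLp := by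
  have hsub : Ioo 0 t ⊆ Ioo 0 T := Ioo_subset_Ioo le_rfl ht.2.le
  have h0 : (0:ℝ) ∈ Ico 0 T := ⟨le_rfl, ht.1.trans ht.2⟩
  have hd0 : IsDivFree u₀ := by
    have := h.div 0 h0
    rwa [h.init] at this
  have key : u t - Hs t u₀ + (mB_memLp ht.1 hW).toLp = 0 := by
    apply mm_zero
    · exact mdiv_add (isDivFree_sub (h.div t ⟨ht.1.le, ht.2⟩) (mdiv_Hs t hd0)) (mB_div ht.1 hW)
    · intro φ hφ
      rw [inner_add_right, inner_sub_right, symm_Hs, (md_duhamel h hb hc ht hφ).2,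
        mm_pair ht.1 hW (fun s hs => hb s (hsub hs)) hu hφ]
      ring
  have h1 : u t = u t - Hs t u₀ + (mB_memLp ht.1 hW).toLp +
      (Hs t u₀ - (mB_memLp ht.1 hW).toLp) := by abel
  rw [h1, key, zero_add]

/-- bounded Leray solutions satisfy the integral equation -/
theorem mild_of_leray {v : ℝ → V3} (h : Leray T u₀ v) (ha : 0 ≤ a)
    (hb : ∀ t ∈ Ioo 0 T, FBdd (v t) (a / √t)) : Mild T u₀ (flds v) := by
  have hL := h.isLeray
  have hb' : ∀ t ∈ Ioo 0 T, Bd (v t) (a / √t) := hb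
  have hc : ∀ t : ℝ, 0 ≤ a / √t := fun t => by positivity
  obtain ⟨w, hw1, hw2, hw3, hw4⟩ := md_version hL.meas hb' hc (norm_nonneg u₀)
    fun s hs => hL.norm_le ⟨hs.1.le, hs.2⟩
  obtain ⟨W, hW1, hW2⟩ := mj_joint hw1
  intro t ht
  have hsub : Ioo 0 t ⊆ Ioo 0 T := Ioo_subset_Ioo le_rfl ht.2.le
  have hMW : MW t a ‖u₀‖ W := by
    refine ⟨hW1, ha, norm_nonneg _, fun s _ => ?_, fun s _ => ?_⟩
    · filter_upwards [hW2 s, hw2 s] with y h1 h2
      rw [h1]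
      exact h2
    · have e : ∫⁻ y, ‖W s y‖ₑ ^ 2 = ∫⁻ y, ‖w s y‖ₑ ^ 2 := by
        apply lintegral_congr_ae
        filter_upwards [hW2 s] with y hy
        rw [hy]
      rw [e, lintegral_sq_V3, enorm_sq_ofReal]
      exact ENNReal.ofReal_le_ofReal (pow_le_pow_left₀ (norm_nonneg _) (hw3 s) 2)
  have hu : ∀ᵐ s ∂(volume.restrict (Ioo 0 t)), W s =ᵐ[volume] v s := by
    filter_upwards [ae_restrict_of_ae_restrict_of_subset hsub hw4] with s hs
    rw [hs]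
    exact hW2 s
  have h1 := mm_eq hL hb' hc ht hMW hu
  have hbil : ∀ x i, bilin (flds v) t x i = bilin W t x i := by
    intro x i
    unfold bilin
    apply integral_congr_ae
    filter_upwards [hu] with s hs
    apply integral_congr_ae
    filter_upwards [hs] with y hy
    rw [hy]
    rfl
  have e2 : (Hs t u₀ : E3 → E3) =ᵐ[volume] heatF t u₀ := by
    rw [Hs_pos ht.1]
    unfold HpM
    rw [cvO_eq (kkM_hk ht.1)]
    exact coe_cvL (kkM_hk ht.1) u₀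
  have e3 : (v t : E3 → E3) =ᵐ[volume] ((Hs t u₀ - (mB_memLp ht.1 hMW).toLp : V3) : E3 → E3) := by
    rw [← h1]
  filter_upwards [e3, e2, mB_ae ht.1 hMW, (mB_memLp ht.1 hMW).coeFn_toLp,
    Lp.coeFn_sub (Hs t u₀) (mB_memLp ht.1 hMW).toLp] with x h3 h4 h5 h6 h7
  intro i
  rw [hbil, h5 i]
  change (v t : E3 → E3) x i = _
  rw [h3, h7, Pi.sub_apply, h4, h6, PiLp.sub_apply]

end Pool.Agent.TF
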