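import Pool.Agent.TF.M.Defs
import Pool.Agent.TF.M.Osee

/-!
# Row O: the structure `OK`
-/

set_option autoImplicit false

namespace Pool.Agent.TF.KT

open Pool.Agent.TO Pool.Agent.TB Pool.Agent.TP

/-- (M1) the Oseen kernel and the first derivative of the heat kernel -/
theorem ok : OK where
  meas := measurable_oseen
  meas1 := measurable_gauss1
  le := ⟨CO, CO_pos, fun _ hσ x i j k => abs_oseen_le_sg hσ x i j k⟩
  le1 := ⟨1728, by norm_num, fun σ hσ x k => by
    unfold kq
    rw [sg_sqrt_pow hσ]
    exact abs_gauss1_le hσ x k⟩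

end Pool.Agent.TF.KT
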