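import Pool.Agent.TF.M.Final

/-!
# Block M: Picard iteration
-/

set_option autoImplicit false

namespace Pool.Agent.TF.KT

open MeasureTheory Set Filter Topology Pool.Agent.TO Pool.Agent.TB Pool.Agent.TP
open scoped ENNReal NNReal Real InnerProductSpace

theorem pc_mink {α : Type*} [MeasurableSpace α] {μ : Measure α} {f g : α → ℝ≥0∞}
    (hf : AEMeasurable f μ) (hg : AEMeasurable g μ) {A B : ℝ} (hA : 0 ≤ A) (hB : 0 ≤ B)
    (h1 : ∫⁻ x, f x ^ 2 ∂μ ≤ ENNReal.ofReal (A ^ 2))
    (h2 : ∫⁻ x, g x ^ 2 ∂μ ≤ ENNReal.ofReal (B ^ 2)) :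
    ∫⁻ x, (f x + g x) ^ 2 ∂μ ≤ ENNReal.ofReal ((A + B) ^ 2) := by
  have h := ENNReal.lintegral_Lp_add_le hf hg (p := 2) (by norm_num)
  simp only [ENNReal.rpow_two, Pi.add_apply] at h
  have e : ∀ A : ℝ, 0 ≤ A → ENNReal.ofReal (A ^ 2) ^ (1 / 2 : ℝ) = ENNReal.ofReal A := by
    intro A hA
    rw [ENNReal.ofReal_rpow_of_nonneg (by positivity) (by norm_num), ← Real.sqrt_eq_rpow,
      Real.sqrt_sq hA]
  have h3 : (∫⁻ x, (f x + g x) ^ 2 ∂μ) ^ (1 / 2 : ℝ) ≤ ENNReal.ofReal (A + B) := by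
    refine h.trans ?_
    rw [ENNReal.ofReal_add hA hB, ← e A hA, ← e B hB]
    gcongr
  have h4 : ∫⁻ x, (f x + g x) ^ 2 ∂μ = ((∫⁻ x, (f x + g x) ^ 2 ∂μ) ^ (1 / 2 : ℝ)) ^ 2 := by
    rw [← ENNReal.rpow_two, ← ENNReal.rpow_mul]
    norm_num
  rw [h4, ENNReal.ofReal_pow (by positivity)]
  gcongr

theorem pc_prod {f : ℝ → E3 → ℝ≥0∞} (hf : Measurable (Function.uncurry f)) (S : Set ℝ)
    (B : Set E3) : ∫⁻ s in S, ∫⁻ y in B, f s y =
      ∫⁻ p, f p.1 p.2 ∂((volume.restrict S).prod (volume.restrict B)) := by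
  rw [lintegral_prod (fun p : ℝ × E3 => f p.1 p.2) hf.aemeasurable]

theorem pc_carl {a b t : ℝ} {f g : ℝ → E3 → ℝ≥0∞} (ha : 0 ≤ a) (hb : 0 ≤ b)
    (hf : Measurable (Function.uncurry f)) (hg : Measurable (Function.uncurry g))
    (S : Set ℝ) (B : Set E3)
    (h1 : ∫⁻ s in S, ∫⁻ y in B, f s y ^ 2 ≤ ENNReal.ofReal (a ^ 2 * √t ^ 3))
    (h2 : ∫⁻ s in S, ∫⁻ y in B, g s y ^ 2 ≤ ENNReal.ofReal (b ^ 2 * √t ^ 3)) :
    ∫⁻ s in S, ∫⁻ y in B, (f s y + g s y) ^ 2 ≤ ENNReal.ofReal ((a + b) ^ 2 * √t ^ 3) := by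
  have e : ∀ a : ℝ, a ^ 2 * √t ^ 3 = (a * √(√t ^ 3)) ^ 2 := by
    intro a
    rw [mul_pow, Real.sq_sqrt (by positivity)]
  rw [pc_prod (f := fun s y => f s y ^ 2) (by exact hf.pow_const 2), e] at h1
  rw [pc_prod (f := fun s y => g s y ^ 2) (by exact hg.pow_const 2), e] at h2
  rw [pc_prod (f := fun s y => (f s y + g s y) ^ 2) (by exact (hf.add hg).pow_const 2), e, add_mul]
  exact pc_mink hf.aemeasurable hg.aemeasurable (by positivity) (by positivity) h1 h2

theorem pcXB_bound {T a b : ℝ} {u w v : ℝ → E3 → E3} (ha : 0 ≤ a) (hb : 0 ≤ b)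
    (hu : XB T a u) (hw : XB T b w) (hv : Measurable (Function.uncurry v))
    (h : ∀ t ∈ Ioo 0 T, ∀ x, ‖v t x‖ₑ ≤ ‖u t x‖ₑ + ‖w t x‖ₑ) : XB T (a + b) v where
  meas := hv
  sup := by
    intro t ht
    filter_upwards [hu.sup t ht, hw.sup t ht] with x h1 h2
    refine (h t ht x).trans ((add_le_add h1 h2).trans_eq ?_)
    rw [← ENNReal.ofReal_add (by positivity) (by positivity), add_div]
  carl := by
    intro t ht x
    refine (setLIntegral_mono' measurableSet_Ioo fun s hs => lintegral_mono fun y => ?_).trans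
      (pc_carl ha hb (f := fun s y => ‖u s y‖ₑ) (g := fun s y => ‖w s y‖ₑ)
        (by exact hu.meas.enorm) (by exact hw.meas.enorm) (Ioo 0 t) (Metric.ball x (√t))
        (hu.carl t ht x) (hw.carl t ht x))
    exact pow_le_pow_left' (h s ⟨hs.1, hs.2.trans ht.2⟩ y) 2

theorem pcXB_lim {T b : ℝ} {W : ℕ → ℝ → E3 → E3} {w : ℝ → E3 → E3}
    (hW : ∀ n, XB T b (W n)) (hw : Measurable (Function.uncurry w))
    (h : ∀ t ∈ Ioo 0 T, ∀ᵐ x ∂(volume : Measure E3),
      Tendsto (fun n => W n t x) atTop (𝓝 (w t x))) : XB T b w where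
  meas := hw
  sup := by
    intro t ht
    have h1 : ∀ᵐ x ∂(volume : Measure E3), ∀ n, ‖W n t x‖ₑ ≤ ENNReal.ofReal (b / √t) :=
      ae_all_iff.2 fun n => (hW n).sup t ht
    filter_upwards [h1, h t ht] with x h1 h2
    exact le_of_tendsto' h2.enorm h1
  carl := by
    intro t ht x
    have h1 : ∫⁻ s in Ioo 0 t, ∫⁻ y in Metric.ball x (√t), ‖w s y‖ₑ ^ 2 ≤
        ∫⁻ s in Ioo 0 t, ∫⁻ y in Metric.ball x (√t), liminf (fun n => ‖W n s y‖ₑ ^ 2) atTop := by
      refine setLIntegral_mono' measurableSet_Ioo fun s hs => lintegral_mono_ae ?_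
      have h2 := ae_restrict_of_ae (s := Metric.ball x (√t)) (h s ⟨hs.1, hs.2.trans ht.2⟩)
      filter_upwards [h2] with y hy
      have h3 : Tendsto (fun n => ‖W n s y‖ₑ ^ 2) atTop (𝓝 (‖w s y‖ₑ ^ 2)) :=
        ((ENNReal.continuous_pow 2).tendsto _).comp hy.enorm
      rw [h3.liminf_eq]
    refine h1.trans ?_
    have h2 : ∫⁻ s in Ioo 0 t, ∫⁻ y in Metric.ball x (√t), liminf (fun n => ‖W n s y‖ₑ ^ 2) atTop ≤
        ∫⁻ s in Ioo 0 t, liminf (fun n => ∫⁻ y in Metric.ball x (√t), ‖W n s y‖ₑ ^ 2) atTop := by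
      refine lintegral_mono fun s => lintegral_liminf_le fun n => ?_
      exact (((hW n).meas.comp measurable_prodMk_left).enorm.pow_const 2)
    refine h2.trans ?_
    refine (lintegral_liminf_le fun n => ?_).trans ?_
    · have : Measurable (Function.uncurry fun s y => ‖W n s y‖ₑ ^ 2) := (hW n).meas.enorm.pow_const 2
      exact this.lintegral_prod_right'
    · refine liminf_le_of_frequently_le' (Frequently.of_forall fun n => ?_)
      exact (hW n).carl t ht x

theorem pcKF_add {T A B : ℝ} {f g : ℝ → E3 → ℝ≥0∞} (hA : 0 ≤ A) (hB : 0 ≤ B)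
    (hf : KF T A f) (hg : KF T B g) : KF T (A + B) fun s y => f s y + g s y where
  meas := hf.meas.add hg.meas
  sup := by
    intro s hs
    filter_upwards [hf.sup s hs, hg.sup s hs] with y h1 h2
    refine (add_le_add h1 h2).trans_eq ?_
    have := hs.1
    rw [← ENNReal.ofReal_add (by positivity) (by positivity), add_div]
  carl := by
    intro t ht x
    have h1 : ∀ s, ∫⁻ y in Metric.ball x (√t), (f s y + g s y) =
        (∫⁻ y in Metric.ball x (√t), f s y) + ∫⁻ y in Metric.ball x (√t), g s y := fun s =>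
      lintegral_add_left (hf.meas.comp measurable_prodMk_left) _
    simp only [h1]
    have hm : Measurable fun s => ∫⁻ y in Metric.ball x (√t), f s y :=
      hf.meas.lintegral_prod_right'
    rw [lintegral_add_left hm]
    refine (add_le_add (hf.carl t ht x) (hg.carl t ht x)).trans_eq ?_
    rw [← ENNReal.ofReal_add (by positivity) (by positivity), add_mul]

theorem pc_norm_le (v : Fin 3 → ℝ) : ‖WithLp.toLp 2 v‖ₑ ≤ ∑ i, ‖v i‖ₑ := by
  have h : ‖WithLp.toLp 2 v‖ ≤ ∑ i, ‖v i‖ := by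
    rw [EuclideanSpace.norm_eq]
    simp only [Fin.sum_univ_three]
    refine Real.sqrt_le_iff.2 ⟨by positivity, ?_⟩
    nlinarith [mul_nonneg (norm_nonneg (v 0)) (norm_nonneg (v 1)),
      mul_nonneg (norm_nonneg (v 0)) (norm_nonneg (v 2)),
      mul_nonneg (norm_nonneg (v 1)) (norm_nonneg (v 2))]
  have h2 : ∑ i, ‖v i‖ₑ = ENNReal.ofReal (∑ i, ‖v i‖) := by
    rw [ENNReal.ofReal_sum_of_nonneg fun i _ => norm_nonneg _]
    simp only [ofReal_norm]
  rw [h2, ← ofReal_norm]
  exact ENNReal.ofReal_le_ofReal h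

theorem pc_osv_le (ho : OK) : ∃ C > 0, ∀ (f : ℝ → E3 → ℝ≥0∞) (F : ℝ → E3 → Fin 3 → Fin 3 → ℝ),
    (∀ s y j k, ‖F s y j k‖ₑ ≤ f s y) → ∀ t x, ‖OsV F t x‖ₑ ≤ ENNReal.ofReal C * Maj f t x := by
  obtain ⟨C, hC, hle⟩ := ho.le
  refine ⟨27 * C, by positivity, fun f F hF t x => ?_⟩
  have h1 : ∀ i, ‖Osf F t x i‖ₑ ≤ ENNReal.ofReal (9 * C) * Maj f t x := by
    intro i
    unfold Osf
    refine (enorm_integral_le_lintegral_enorm _).trans ?_
    unfold Maj
    rw [← lintegral_const_mul' _ _ ENNReal.ofReal_ne_top]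
    refine setLIntegral_mono' measurableSet_Ioo fun s hs => ?_
    refine (enorm_integral_le_lintegral_enorm _).trans ?_
    rw [← lintegral_const_mul' _ _ ENNReal.ofReal_ne_top]
    refine lintegral_mono fun y => ?_
    have h2 : ∀ j k, ‖oseen (t - s) (x - y) i j k * F s y j k‖ₑ ≤
        ENNReal.ofReal C * (ENNReal.ofReal (kq (t - s) (x - y)) * f s y) := by
      intro j k
      rw [enorm_mul, ← mul_assoc, ← ENNReal.ofReal_mul hC.le]
      refine mul_le_mul' ?_ (hF s y j k)
      rw [← ofReal_norm]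
      exact ENNReal.ofReal_le_ofReal (hle (t - s) (by linarith [hs.2]) (x - y) i j k)
    refine (enorm_sum_le _ _).trans ((Finset.sum_le_sum fun j _ => (enorm_sum_le _ _).trans
      (Finset.sum_le_sum fun k _ => h2 j k)).trans_eq ?_)
    simp only [Finset.sum_const, Finset.card_univ, Fintype.card_fin, nsmul_eq_mul]
    rw [show ENNReal.ofReal (9 * C) = 9 * ENNReal.ofReal C by
      rw [ENNReal.ofReal_mul (by norm_num)]; norm_num]
    push_cast
    ring
  unfold OsV
  refine (pc_norm_le _).trans ((Finset.sum_le_sum fun i _ => h1 i).trans_eq ?_)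
  simp only [Finset.sum_const, Finset.card_univ, Fintype.card_fin, nsmul_eq_mul]
  rw [show ENNReal.ofReal (27 * C) = 3 * ENNReal.ofReal (9 * C) by
    rw [← ENNReal.ofReal_ofNat, ← ENNReal.ofReal_mul (by norm_num)]; congr 1; ring]
  push_cast
  ring

theorem pc_int (ho : OK) {F : ℝ → E3 → Fin 3 → Fin 3 → ℝ}
    (mF : ∀ j k, Measurable (Function.uncurry fun s y => F s y j k)) {t : ℝ} {x : E3} {i : Fin 3}
    (hF : ∀ j k, ∫⁻ s in Ioo 0 t, ∫⁻ y, ‖oseen (t - s) (x - y) i j k‖ₑ * ‖F s y j k‖ₑ < ∞) :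
    Integrable (fun p : ℝ × E3 => ∑ j, ∑ k, oseen (t - p.1) (x - p.2) i j k * F p.1 p.2 j k)
      ((volume.restrict (Ioo 0 t)).prod volume) := by
  refine integrable_finsetSum _ fun j _ => integrable_finsetSum _ fun k _ => ?_
  have hm : Measurable fun p : ℝ × E3 => oseen (t - p.1) (x - p.2) i j k * F p.1 p.2 j k := by
    refine ((ho.meas i j k).comp (g := fun p : ℝ × E3 => oseen p.1 p.2 i j k)
      (f := fun p : ℝ × E3 => (t - p.1, x - p.2)) ?_).mul (mF j k)
    fun_prop
  refine ⟨hm.aestronglyMeasurable, ?_⟩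
  unfold HasFiniteIntegral
  rw [lintegral_prod _ hm.enorm.aemeasurable]
  simpa only [enorm_mul] using hF j k

theorem pc_osv_sub (ho : OK) {F G : ℝ → E3 → Fin 3 → Fin 3 → ℝ} {t : ℝ} {x : E3}
    (mF : ∀ j k, Measurable (Function.uncurry fun s y => F s y j k))
    (mG : ∀ j k, Measurable (Function.uncurry fun s y => G s y j k))
    (hF : ∀ i j k, ∫⁻ s in Ioo 0 t, ∫⁻ y, ‖oseen (t - s) (x - y) i j k‖ₑ * ‖F s y j k‖ₑ < ∞)
    (hG : ∀ i j k, ∫⁻ s in Ioo 0 t, ∫⁻ y, ‖oseen (t - s) (x - y) i j k‖ₑ * ‖G s y j k‖ₑ < ∞) :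
    OsV (fun s y j k => F s y j k - G s y j k) t x = OsV F t x - OsV G t x := by
  have h : ∀ i, Osf (fun s y j k => F s y j k - G s y j k) t x i =
      Osf F t x i - Osf G t x i := by
    intro i
    have iF := pc_int ho mF (hF i)
    have iG := pc_int ho mG (hG i)
    have e : ∀ H : ℝ → E3 → Fin 3 → Fin 3 → ℝ,
        Integrable (fun p : ℝ × E3 => ∑ j, ∑ k, oseen (t - p.1) (x - p.2) i j k * H p.1 p.2 j k)
          ((volume.restrict (Ioo 0 t)).prod volume) → Osf H t x i =
        ∫ p : ℝ × E3, ∑ j, ∑ k, oseen (t - p.1) (x - p.2) i j k * H p.1 p.2 j k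
          ∂((volume.restrict (Ioo 0 t)).prod volume) := by
      intro H hH
      rw [integral_prod _ hH]
      rfl
    have iS := iF.sub iG
    have hS : (fun p : ℝ × E3 => ∑ j, ∑ k, oseen (t - p.1) (x - p.2) i j k *
        (F p.1 p.2 j k - G p.1 p.2 j k)) =
        (fun p : ℝ × E3 => ∑ j, ∑ k, oseen (t - p.1) (x - p.2) i j k * F p.1 p.2 j k) -
        fun p : ℝ × E3 => ∑ j, ∑ k, oseen (t - p.1) (x - p.2) i j k * G p.1 p.2 j k := by
      funext p
      simp only [Pi.sub_apply, ← Finset.sum_sub_distrib, mul_sub]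
    rw [e F iF, e G iG, e (fun s y j k => F s y j k - G s y j k) (by rw [hS]; exact iS), hS,
      ← integral_sub iF iG]
    rfl
  ext i
  simp only [OsV, PiLp.sub_apply]
  exact h i

theorem pc_sq_dom {w : ℝ → E3 → E3} (hw : Measurable (Function.uncurry w)) :
    Dom (fun s y => ‖w s y‖ₑ * ‖w s y‖ₑ) (sqF w) where
  meas := fun j k => by
    have h : ∀ j, Measurable (Function.uncurry fun s y => w s y j) := fun j =>
      (EuclideanSpace.proj (𝕜 := ℝ) j).continuous.measurable.comp hw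
    exact (h j).mul (h k)
  le := fun s y j k => by
    have h : ∀ j, ‖w s y j‖ₑ ≤ ‖w s y‖ₑ := fun j => by
      rw [← ofReal_norm, ← ofReal_norm]
      exact ENNReal.ofReal_le_ofReal (PiLp.norm_apply_le _ _)
    unfold sqF
    rw [enorm_mul]
    exact mul_le_mul' (h j) (h k)

theorem pc_diff_dom {u w : ℝ → E3 → E3} (hu : Measurable (Function.uncurry u))
    (hw : Measurable (Function.uncurry w)) :
    Dom (fun s y => ‖u s y‖ₑ * ‖u s y - w s y‖ₑ + ‖u s y - w s y‖ₑ * ‖w s y‖ₑ)
      (fun s y j k => sqF u s y j k - sqF w s y j k) where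
  meas := fun j k => ((pc_sq_dom hu).meas j k).sub ((pc_sq_dom hw).meas j k)
  le := fun s y j k => by
    have h : ∀ (v : E3) j, ‖v j‖ₑ ≤ ‖v‖ₑ := fun v j => by
      rw [← ofReal_norm, ← ofReal_norm]
      exact ENNReal.ofReal_le_ofReal (PiLp.norm_apply_le _ _)
    have e : sqF u s y j k - sqF w s y j k =
        u s y j * (u s y - w s y) k + (u s y - w s y) j * w s y k := by
      unfold sqF
      simp only [PiLp.sub_apply]
      ring
    rw [e]
    refine (enorm_add_le _ _).trans ?_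
    rw [enorm_mul, enorm_mul]
    exact add_le_add (mul_le_mul' (h _ _) (h _ _)) (mul_le_mul' (h _ _) (h _ _))

theorem pc_osv_diff {C : ℝ}
    (hK : ∀ (T A : ℝ) (f : ℝ → E3 → ℝ≥0∞) (F : ℝ → E3 → Fin 3 → Fin 3 → ℝ),
      0 ≤ A → KF T A f → Dom f F → XB T (C * A) (OsV F) ∧
        ∀ t ∈ Ioo 0 T, ∀ (x : E3) (i j k : Fin 3),
          ∫⁻ s in Ioo 0 t, ∫⁻ y, ‖oseen (t - s) (x - y) i j k‖ₑ * ‖F s y j k‖ₑ < ∞)
    (hX2 : StX2) (ho : OK) {T a b d : ℝ} (ha : 0 < a) (hb : 0 < b) (hd : 0 < d)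
    {u w : ℝ → E3 → E3} (hu : XB T a u) (hw : XB T b w)
    (hdd : XB T d fun t x => u t x - w t x) :
    XB T (C * (a * d + d * b)) (OsV fun s y j k => sqF u s y j k - sqF w s y j k) ∧
      ∀ t ∈ Ioo 0 T, ∀ x, OsV (fun s y j k => sqF u s y j k - sqF w s y j k) t x =
        OsV (sqF u) t x - OsV (sqF w) t x := by
  refine ⟨(hK T (a * d + d * b) _ _ (by positivity) (pcKF_add (by positivity) (by positivity)
    (hX2 T a d _ _ ha hd hu hdd) (hX2 T d b _ _ hd hb hdd hw)) (pc_diff_dom hu.meas hw.meas)).1,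
    fun t ht x => ?_⟩
  exact pc_osv_sub ho (pc_sq_dom hu.meas).meas (pc_sq_dom hw.meas).meas
    ((hK T (a * a) _ _ (by positivity) (hX2 T a a _ _ ha ha hu hu) (pc_sq_dom hu.meas)).2 t ht x)
    ((hK T (b * b) _ _ (by positivity) (hX2 T b b _ _ hb hb hw hw) (pc_sq_dom hw.meas)).2 t ht x)

/-- the Picard iterates -/
noncomputable def pc (u₀ : V3) : ℕ → ℝ → E3 → E3
  | 0 => fun _ _ => 0
  | n + 1 => fun t x => hx u₀ t x - OsV (sqF (pc u₀ n)) t x

theorem pcXB_zero {T a : ℝ} : XB T a fun _ _ => 0 where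
  meas := measurable_const
  sup := fun t ht => Eventually.of_forall fun x => by simp
  carl := fun t ht x => by simp

theorem stP (hKT : StKT) (hL : StL2) (_hX1 : StX1) (hX2 : StX2) (hX3 : StX3) (ho : OK) :
    StP := by
  obtain ⟨C, hC, hK⟩ := hKT
  obtain ⟨L, hLp, hL2⟩ := hL
  obtain ⟨D, hD, hDle⟩ := pc_osv_le ho
  refine ⟨1 / (8 * C + 4 * D * L), by positivity, fun T a u₀ ha haa hx0 => ?_⟩
  have haa' : a * (8 * C + 4 * D * L) ≤ 1 := by
    rwa [le_div_iff₀ (by positivity)] at haa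
  have h8 : 8 * C * a ≤ 1 := by nlinarith [mul_pos (mul_pos hD hLp) ha]
  have h4 : 4 * D * L * a ≤ 1 := by nlinarith [mul_pos hC ha]
  obtain ⟨hxm, hxL, -, -⟩ := hX3 u₀
  set U : ℕ → ℝ → E3 → E3 := pc u₀ with hUdef
  have U0 : U 0 = fun _ _ => 0 := rfl
  have US : ∀ n, U (n + 1) = fun t x => hx u₀ t x - OsV (sqF (U n)) t x := fun n => rfl
  -- the iterates are bounded
  have hU : ∀ n, XB T (2 * a) (U n) := by
    intro n
    induction n with
    | zero => exact pcXB_zero
    | succ n ih =>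
      have h1 := (hK T (2 * a * (2 * a)) _ _ (by positivity)
        (hX2 T (2 * a) (2 * a) _ _ (by positivity) (by positivity) ih ih)
        (pc_sq_dom ih.meas)).1
      have h2 : XB T (a + C * (2 * a * (2 * a))) (U (n + 1)) := by
        refine pcXB_bound ha.le (by positivity) hx0 h1 (by rw [US]; exact hxm.sub h1.meas) ?_
        intro t ht x
        rw [US]
        exact enorm_sub_le
      refine h2.mono_right (by positivity) ?_
      nlinarith
  -- the differences
  have hd : ∀ n : ℕ, XB T (2 * a / 2 ^ n) fun t x => U (n + 1) t x - U n t x := by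
    intro n
    induction n with
    | zero =>
      have h0 : OsV (sqF (U 0)) = fun _ _ => 0 := by
        funext t x
        ext i
        simp [OsV, Osf, sqF, U0]
      have h1 : (fun t x => U (0 + 1) t x - U 0 t x) = hx u₀ := by
        funext t x
        rw [US, h0, U0]
        simp
      rw [h1, pow_zero, div_one]
      exact hx0.mono_right ha.le (by linarith)
    | succ n ih =>
      obtain ⟨h1, h2⟩ := pc_osv_diff hK hX2 ho (by positivity) (by positivity) (by positivity)
        (hU (n + 1)) (hU n) ih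
      have h3 : XB T (0 + C * (2 * a * (2 * a / 2 ^ n) + 2 * a / 2 ^ n * (2 * a)))
          fun t x => U (n + 1 + 1) t x - U (n + 1) t x := by
        refine pcXB_bound le_rfl (by positivity) pcXB_zero h1
          (by exact (hU (n + 1 + 1)).meas.sub (hU (n + 1)).meas) fun t ht x => ?_
        have e1 : U (n + 1 + 1) t x = hx u₀ t x - OsV (sqF (U (n + 1))) t x := rfl
        have e2 : U (n + 1) t x = hx u₀ t x - OsV (sqF (U n)) t x := rfl
        rw [h2 t ht x, enorm_zero, zero_add, e1, e2, ← enorm_neg]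
        apply le_of_eq
        congr 1
        abel
      refine h3.mono_right (by positivity) ?_
      rw [pow_succ, zero_add]
      have h5 : C * (2 * a * (2 * a / 2 ^ n) + 2 * a / 2 ^ n * (2 * a)) =
          8 * C * a * (a / 2 ^ n) := by
        ring
      have h6 : 2 * a / (2 ^ n * 2) = a / 2 ^ n := by
        field_simp
      rw [h5, h6]
      exact mul_le_of_le_one_left (by positivity) h8
  -- the limit
  have hcau : ∀ t ∈ Ioo 0 T, ∀ᵐ x ∂(volume : Measure E3), CauchySeq fun n => U n t x := by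
    intro t ht
    have h1 : ∀ᵐ x ∂(volume : Measure E3), ∀ n : ℕ, ‖U (n + 1) t x - U n t x‖ₑ ≤
        ENNReal.ofReal (2 * a / 2 ^ n / √t) := ae_all_iff.2 fun n => (hd n).sup t ht
    filter_upwards [h1] with x hx
    refine cauchySeq_of_le_geometric (1 / 2) (2 * a / √t) (by norm_num) fun n => ?_
    have h2 := hx n
    rw [← ofReal_norm, ENNReal.ofReal_le_ofReal_iff (by positivity)] at h2
    rw [dist_comm, dist_eq_norm]
    refine h2.trans_eq ?_
    rw [one_div, inv_pow]
    field_simp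
  set u : ℝ → E3 → E3 := fun t x => limUnder atTop fun n => U n t x with hu
  have hum : Measurable (Function.uncurry u) := by
    have h1 : StronglyMeasurable fun p : ℝ × E3 => limUnder atTop fun n => U n p.1 p.2 :=
      StronglyMeasurable.limUnder fun n => (hU n).meas.stronglyMeasurable
    exact h1.measurable
  have htend : ∀ t ∈ Ioo 0 T, ∀ᵐ x ∂(volume : Measure E3),
      Tendsto (fun n => U n t x) atTop (𝓝 (u t x)) := by
    intro t ht
    filter_upwards [hcau t ht] with x hx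
    exact hx.tendsto_limUnder
  have huX : XB T (2 * a) u := pcXB_lim hU hum htend
  -- the rate
  have hdm : ∀ n m : ℕ, XB T (4 * a / 2 ^ n - 4 * a / 2 ^ (n + m))
      fun t x => U (n + m) t x - U n t x := by
    intro n m
    induction m with
    | zero => simpa using pcXB_zero
    | succ m ih =>
      have e : 4 * a / 2 ^ n - 4 * a / 2 ^ (n + (m + 1)) =
          2 * a / 2 ^ (n + m) + (4 * a / 2 ^ n - 4 * a / 2 ^ (n + m)) := by
        rw [← add_assoc, pow_succ 2 (n + m)]
        field_simp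
        ring
      rw [e]
      refine pcXB_bound (by positivity) ?_ (hd (n + m)) ih
        (by exact (hU (n + (m + 1))).meas.sub (hU n).meas) ?_
      · rw [sub_nonneg]
        gcongr
        · norm_num
        · omega
      · intro t ht x
        refine le_trans (le_of_eq ?_) (enorm_add_le _ _)
        congr 1
        rw [← add_assoc]
        abel
  have hrate : ∀ n : ℕ, XB T (4 * a / 2 ^ n) fun t x => u t x - U n t x := by
    intro n
    refine pcXB_lim (W := fun m t x => U (n + m) t x - U n t x) (fun m => ?_)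
      (hum.sub (hU n).meas) ?_
    · refine (hdm n m).mono_right ?_ ?_
      · rw [sub_nonneg]
        gcongr
        · norm_num
        · omega
      · have : 0 ≤ 4 * a / 2 ^ (n + m) := by positivity
        linarith
    · intro t ht
      filter_upwards [htend t ht] with x hx
      refine Tendsto.sub_const ?_ _
      have := hx.comp (tendsto_add_atTop_nat n)
      refine this.congr fun m => ?_
      simp [add_comm]
  refine ⟨u, huX, ?_, ?_⟩
  · -- the equation
    intro t ht
    have h1 : ∀ᵐ x ∂(volume : Measure E3), ∀ n : ℕ,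
        ‖OsV (sqF u) t x - OsV (sqF (U n)) t x‖ₑ ≤
        ENNReal.ofReal (C * (2 * a * (4 * a / 2 ^ n) + 4 * a / 2 ^ n * (2 * a)) / √t) := by
      refine ae_all_iff.2 fun n => ?_
      obtain ⟨h2, h3⟩ := pc_osv_diff hK hX2 ho (by positivity) (by positivity) (by positivity)
        huX (hU n) (hrate n)
      filter_upwards [h2.sup t ht] with x hx
      rwa [h3 t ht x] at hx
    filter_upwards [h1, htend t ht] with x hx1 hx2
    have h2 : Tendsto (fun n => OsV (sqF (U n)) t x) atTop (𝓝 (OsV (sqF u) t x)) := by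
      rw [tendsto_iff_norm_sub_tendsto_zero]
      have h3 : Tendsto (fun n : ℕ => C * (16 * a ^ 2) / √t * (1 / 2) ^ n) atTop (𝓝 0) := by
        have := (tendsto_pow_atTop_nhds_zero_of_lt_one (r := (1 / 2 : ℝ)) (by norm_num)
          (by norm_num)).const_mul (C * (16 * a ^ 2) / √t)
        simpa using this
      refine squeeze_zero (fun n => norm_nonneg _) (fun n => ?_) h3
      have h4 := hx1 n
      rw [← ofReal_norm, ENNReal.ofReal_le_ofReal_iff (by positivity)] at h4
      rw [norm_sub_rev]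
      refine h4.trans_eq ?_
      rw [one_div, inv_pow]
      field_simp
      ring
    have h3 : Tendsto (fun n => U (n + 1) t x) atTop (𝓝 (hx u₀ t x - OsV (sqF u) t x)) := by
      have := h2.const_sub (hx u₀ t x)
      exact this
    have h4 : Tendsto (fun n => U (n + 1) t x) atTop (𝓝 (u t x)) :=
      hx2.comp (tendsto_add_atTop_nat 1)
    have h5 := tendsto_nhds_unique h4 h3
    intro i
    rw [h5]
    rfl
  · -- the bound in `L²`
    have hUL : ∀ n, ∀ t ∈ Ioo 0 T, ∫⁻ x, ‖U n t x‖ₑ ^ 2 ≤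
        ENNReal.ofReal ((2 * ‖u₀‖) ^ 2) := by
      intro n
      induction n with
      | zero =>
        intro t ht
        simp [U0]
      | succ n ih =>
        intro t ht
        have h1 := hL2 T (2 * a) (2 * ‖u₀‖) (fun s y => ‖U n s y‖ₑ * ‖U n s y‖ₑ)
          (fun s y => ‖U n s y‖ₑ) (by positivity) (by positivity)
          ((hU n).meas.enorm.mul (hU n).meas.enorm) (hU n).meas.enorm
          (by
            filter_upwards [ae_restrict_mem measurableSet_Ioo] with s hs
            filter_upwards [(hU n).sup s hs] with y hy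
            exact mul_le_mul_left hy _)
          (by
            filter_upwards [ae_restrict_mem measurableSet_Ioo] with s hs
            exact ih s hs) t ht
        have h2 : ∫⁻ x, ‖OsV (sqF (U n)) t x‖ₑ ^ 2 ≤ ENNReal.ofReal (‖u₀‖ ^ 2) := by
          have h3 : ∫⁻ x, ‖OsV (sqF (U n)) t x‖ₑ ^ 2 ≤
              ∫⁻ x, ENNReal.ofReal D ^ 2 * Maj (fun s y => ‖U n s y‖ₑ * ‖U n s y‖ₑ) t x ^ 2 := by
            refine lintegral_mono fun x => ?_
            rw [← mul_pow]
            exact pow_le_pow_left' (hDle _ _ (pc_sq_dom (hU n).meas).le t x) 2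
          refine h3.trans ?_
          rw [lintegral_const_mul' _ _ (by finiteness)]
          refine (mul_le_mul_right h1 _).trans ?_
          rw [← ENNReal.ofReal_pow hD.le, ← ENNReal.ofReal_mul (by positivity)]
          refine ENNReal.ofReal_le_ofReal ?_
          rw [← mul_pow]
          refine pow_le_pow_left₀ (by positivity) ?_ 2
          nlinarith [norm_nonneg u₀]
        have hm1 : Measurable fun x => ‖hx u₀ t x‖ₑ := (hxm.comp measurable_prodMk_left).enorm
        have hosv := (hK T (2 * a * (2 * a)) _ _ (by positivity)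
          (hX2 T (2 * a) (2 * a) _ _ (by positivity) (by positivity) (hU n) (hU n))
          (pc_sq_dom (hU n).meas)).1.meas
        have hm2 : Measurable fun x => ‖OsV (sqF (U n)) t x‖ₑ :=
          (hosv.comp measurable_prodMk_left).enorm
        have h4 := pc_mink hm1.aemeasurable hm2.aemeasurable (norm_nonneg u₀) (norm_nonneg u₀)
          (hxL t ht.1) h2
        rw [← two_mul] at h4
        refine (lintegral_mono fun x => ?_).trans h4
        rw [US]
        exact pow_le_pow_left' enorm_sub_le 2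
    intro t ht
    have h1 : ∫⁻ x, ‖u t x‖ₑ ^ 2 ≤ ∫⁻ x, liminf (fun n => ‖U n t x‖ₑ ^ 2) atTop := by
      refine lintegral_mono_ae ?_
      filter_upwards [htend t ht] with x hx
      have h3 : Tendsto (fun n => ‖U n t x‖ₑ ^ 2) atTop (𝓝 (‖u t x‖ₑ ^ 2)) :=
        ((ENNReal.continuous_pow 2).tendsto _).comp hx.enorm
      rw [h3.liminf_eq]
    refine h1.trans ((lintegral_liminf_le fun n => ?_).trans ?_)
    · exact (((hU n).meas.comp measurable_prodMk_left).enorm.pow_const 2)
    · exact liminf_le_of_frequently_le' (Frequently.of_forall fun n => hUL n t ht)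

end Pool.Agent.TF.KT
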