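import Pool.Agent.TB.Heat2

/-!
# Block M: jointly measurable versions of curves in `L²`
-/

set_option autoImplicit false

namespace Pool.Agent.TF

open MeasureTheory Set Filter Topology Pool.Agent.TO Pool.Agent.TB
open scoped ENNReal NNReal Real

/-- fast convergence in `L²` implies convergence almost everywhere -/
theorem mj_ae_tendsto {f : ℕ → V3} {g : V3} (h : ∀ k, ‖f k - g‖ ≤ (1 / 2) ^ k) :
    ∀ᵐ y ∂(volume : Measure E3), Tendsto (fun k => f k y) atTop (𝓝 (g y)) := by
  have h1 : ∀ k, ∫⁻ y, ‖(f k - g : V3) y‖ₑ ^ 2 ≤ ENNReal.ofReal ((1 / 4) ^ k) := by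
    intro k
    rw [lintegral_sq_V3, ← ofReal_norm, ← ENNReal.ofReal_pow (norm_nonneg _)]
    apply ENNReal.ofReal_le_ofReal
    calc ‖f k - g‖ ^ 2 ≤ ((1 / 2) ^ k) ^ 2 := pow_le_pow_left₀ (norm_nonneg _) (h k) 2
      _ = (1 / 4) ^ k := by
        rw [← pow_mul, mul_comm, pow_mul]
        norm_num
  have hm : ∀ k, Measurable fun y => ‖(f k - g : V3) y‖ₑ ^ 2 := fun k =>
    (Lp.stronglyMeasurable (f k - g)).enorm.pow_const 2
  have h2 : ∫⁻ y, ∑' k, ‖(f k - g : V3) y‖ₑ ^ 2 < ∞ := by
    rw [lintegral_tsum fun k => (hm k).aemeasurable]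
    refine (ENNReal.tsum_le_tsum h1).trans_lt ?_
    rw [← ENNReal.ofReal_tsum_of_nonneg (fun k => by positivity)
      (summable_geometric_of_lt_one (by norm_num) (by norm_num))]
    exact ENNReal.ofReal_lt_top
  have h3 := ae_lt_top (Measurable.tsum hm) h2.ne
  have h4 : ∀ᵐ y ∂(volume : Measure E3), ∀ k, (f k - g : V3) y = f k y - g y := by
    rw [ae_all_iff]
    exact fun k => Lp.coeFn_sub (f k) g
  filter_upwards [h3, h4] with y hy hy'
  have h5 := ENNReal.tendsto_atTop_zero_of_tsum_ne_top hy.ne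
  rw [tendsto_iff_norm_sub_tendsto_zero]
  have h6 : Tendsto (fun k => ‖f k y - g y‖ ^ 2) atTop (𝓝 0) := by
    have h7 := (ENNReal.tendsto_toReal ENNReal.zero_ne_top).comp h5
    rw [ENNReal.toReal_zero] at h7
    refine h7.congr fun k => ?_
    simp only [Function.comp]
    rw [hy', ENNReal.toReal_pow, toReal_enorm]
  have h8 := (Real.continuous_sqrt.tendsto 0).comp h6
  rw [Real.sqrt_zero] at h8
  refine h8.congr fun k => ?_
  simp only [Function.comp]
  exact Real.sqrt_sq (norm_nonneg _)

/-- the fields of a simple function are jointly measurable -/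
theorem mj_simple (a : SimpleFunc ℝ V3) :
    Measurable fun p : ℝ × E3 => (a p.1 : E3 → E3) p.2 := by
  intro S hS
  have e : (fun p : ℝ × E3 => (a p.1 : E3 → E3) p.2) ⁻¹' S =
      ⋃ g ∈ a.range, (a ⁻¹' {g}) ×ˢ ((g : E3 → E3) ⁻¹' S) := by
    ext p
    simp only [mem_preimage, mem_iUnion, mem_prod, mem_singleton_iff, exists_prop]
    constructor
    · intro h
      exact ⟨a p.1, SimpleFunc.mem_range_self a p.1, rfl, h⟩
    · rintro ⟨g, -, h1, h2⟩
      rwa [h1]
  rw [e]
  refine Finset.measurableSet_biUnion _ fun g _ => ?_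
  exact (a.measurableSet_fiber g).prod ((Lp.stronglyMeasurable g).measurable hS)

/-- a strongly measurable curve in `L²` has a jointly measurable version -/
theorem mj_joint {w : ℝ → V3} (hw : StronglyMeasurable w) :
    ∃ W : ℝ → E3 → E3, Measurable (Function.uncurry W) ∧ ∀ s, W s =ᵐ[volume] w s := by
  classical
  have hex : ∀ (k : ℕ) (s : ℝ), ∃ n, ‖hw.approx n s - w s‖ < (1 / 2) ^ k := by
    intro k s
    have h1 := tendsto_iff_norm_sub_tendsto_zero.1 (hw.tendsto_approx s)
    exact (h1.eventually (gt_mem_nhds (by positivity : (0:ℝ) < (1 / 2) ^ k))).exists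
  set N : ℕ → ℝ → ℕ := fun k s => Nat.find (hex k s) with hN
  have hNm : ∀ k, Measurable (N k) := by
    intro k
    refine measurable_find (hex k) fun n => ?_
    have h2 : Measurable fun s => ‖hw.approx n s - w s‖ :=
      (((hw.approx n).stronglyMeasurable.sub hw).norm).measurable
    exact measurableSet_lt h2 measurable_const
  have hNs : ∀ k s, ‖hw.approx (N k s) s - w s‖ < (1 / 2) ^ k := fun k s =>
    Nat.find_spec (hex k s)
  set V : ℕ → ℝ × E3 → E3 := fun k p => (hw.approx (N k p.1) p.1 : E3 → E3) p.2 with hV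
  have hVm : ∀ k, StronglyMeasurable (V k) := by
    intro k
    have h1 : Measurable fun q : ℕ × (ℝ × E3) => (hw.approx q.1 q.2.1 : E3 → E3) q.2.2 :=
      measurable_from_prod_countable_right fun n => mj_simple (hw.approx n)
    exact (h1.comp (((hNm k).comp measurable_fst).prodMk measurable_id)).stronglyMeasurable
  refine ⟨fun s y => limUnder atTop fun k => V k (s, y), ?_, fun s => ?_⟩
  · exact (StronglyMeasurable.limUnder (l := atTop) hVm).measurable
  · have h1 := mj_ae_tendsto (f := fun k => hw.approx (N k s) s) (g := w s)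
      fun k => (hNs k s).le
    filter_upwards [h1] with y hy
    exact hy.limUnder_eq

end Pool.Agent.TF
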