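import Pool.Agent.TF.M.Defs
import Pool.Agent.TF.M.Joint

/-!
# Block M: jointly measurable representatives (helper14)
-/

set_option autoImplicit false

namespace Pool.Agent.TF.KT

open MeasureTheory Set Filter Topology Pool.Agent.TO Pool.Agent.TB
open scoped ENNReal NNReal Real

/-- **(Rep)** -/
theorem stRep : StRep := by
  intro T v hv
  obtain ⟨W, hW, hWe⟩ := mj_joint hv.stronglyMeasurable_mk
  refine ⟨W, hW, ?_⟩
  filter_upwards [hv.ae_eq_mk] with t ht
  rw [flds, ht]
  exact hWe t

end Pool.Agent.TF.KT
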