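import Pool.Agent.TF.M.Sub

/-!
# Block M, row U: uniqueness of mild solutions (helper74)
-/

set_option autoImplicit false

namespace Pool.Agent.TF.KT

open MeasureTheory Set Filter Topology Pool.Agent.TO Pool.Agent.TB Pool.Agent.TP
open scoped ENNReal NNReal Real InnerProductSpace SchwartzMap LineDeriv

/-- the integrand of `Osf` -/
noncomputable def uI (F : ℝ → E3 → Fin 3 → Fin 3 → ℝ) (t : ℝ) (x : E3) (i : Fin 3)
    (z : ℝ × E3) : ℝ := ∑ j, ∑ k, oseen (t - z.1) (x - z.2) i j k * F z.1 z.2 j k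

theorem u_coord (w : E3) (j : Fin 3) : ‖w j‖ₑ ≤ ‖w‖ₑ := by
  rw [← ofReal_norm, ← ofReal_norm]
  exact ENNReal.ofReal_le_ofReal (PiLp.norm_apply_le w j)

theorem u_meas_coord {w : ℝ → E3 → E3} (hw : Measurable (Function.uncurry w)) (j : Fin 3) :
    Measurable fun z : ℝ × E3 => w z.1 z.2 j := by
  have h : Measurable fun v : E3 => v j := by fun_prop
  exact h.comp hw

theorem u_toLp (v : Fin 3 → ℝ) : ‖(WithLp.toLp 2 v : E3)‖ₑ ≤ ∑ i, ‖v i‖ₑ := by
  have h : ‖(WithLp.toLp 2 v : E3)‖ ≤ ∑ i, ‖v i‖ := by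
    rw [EuclideanSpace.norm_eq, Fin.sum_univ_three, Fin.sum_univ_three]
    refine Real.sqrt_le_iff.2 ⟨by positivity, ?_⟩
    have h0 := norm_nonneg (v 0)
    have h1 := norm_nonneg (v 1)
    have h2 := norm_nonneg (v 2)
    show ‖v 0‖ ^ 2 + ‖v 1‖ ^ 2 + ‖v 2‖ ^ 2 ≤ _
    nlinarith [mul_nonneg h0 h1, mul_nonneg h0 h2, mul_nonneg h1 h2]
  rw [← ofReal_norm]
  refine (ENNReal.ofReal_le_ofReal h).trans ?_
  rw [ENNReal.ofReal_sum_of_nonneg fun i _ => norm_nonneg _]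
  exact Finset.sum_le_sum fun i _ => (ofReal_norm (v i)).le

theorem uI_le {C : ℝ} (hC0 : 0 ≤ C)
    (hC : ∀ σ : ℝ, 0 < σ → ∀ x i j k, |oseen σ x i j k| ≤ C * kq σ x)
    {f : ℝ → E3 → ℝ≥0∞} {F : ℝ → E3 → Fin 3 → Fin 3 → ℝ} (hd : Dom f F) (t : ℝ) (x : E3)
    (i : Fin 3) : ∫⁻ s in Ioo 0 t, ∫⁻ y, ‖uI F t x i (s, y)‖ₑ ≤
      9 * ENNReal.ofReal C * Maj f t x := by
  have hne : 9 * ENNReal.ofReal C ≠ ∞ := ENNReal.mul_ne_top (by norm_num) ENNReal.ofReal_ne_top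
  rw [Maj, ← lintegral_const_mul' _ _ hne]
  refine setLIntegral_mono' measurableSet_Ioo fun s hs => ?_
  rw [← lintegral_const_mul' _ _ hne]
  refine lintegral_mono fun y => ?_
  have hterm : ∀ j k, ‖oseen (t - s) (x - y) i j k * F s y j k‖ₑ ≤
      ENNReal.ofReal C * (ENNReal.ofReal (kq (t - s) (x - y)) * f s y) := by
    intro j k
    rw [enorm_mul, ← mul_assoc, ← ENNReal.ofReal_mul hC0]
    refine mul_le_mul' ?_ (hd.le s y j k)
    rw [← ofReal_norm, Real.norm_eq_abs]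
    exact ENNReal.ofReal_le_ofReal (hC _ (sub_pos.2 hs.2) _ _ _ _)
  calc ‖uI F t x i (s, y)‖ₑ
      ≤ ∑ j : Fin 3, ∑ k : Fin 3, ‖oseen (t - s) (x - y) i j k * F s y j k‖ₑ := by
        refine (enorm_sum_le _ _).trans (Finset.sum_le_sum fun j _ => enorm_sum_le _ _)
    _ ≤ ∑ j : Fin 3, ∑ k : Fin 3, ENNReal.ofReal C *
          (ENNReal.ofReal (kq (t - s) (x - y)) * f s y) :=
        Finset.sum_le_sum fun j _ => Finset.sum_le_sum fun k _ => hterm j k
    _ = 9 * ENNReal.ofReal C * (ENNReal.ofReal (kq (t - s) (x - y)) * f s y) := by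
        rw [Finset.sum_const, Finset.sum_const, Finset.card_univ, Fintype.card_fin, smul_smul,
          nsmul_eq_mul, mul_assoc]
        norm_num

theorem u_enorm {C : ℝ} (hC0 : 0 ≤ C)
    (hC : ∀ σ : ℝ, 0 < σ → ∀ x i j k, |oseen σ x i j k| ≤ C * kq σ x)
    {f : ℝ → E3 → ℝ≥0∞} {F : ℝ → E3 → Fin 3 → Fin 3 → ℝ} (hd : Dom f F) (t : ℝ) (x : E3) :
    ‖OsV F t x‖ₑ ≤ 27 * ENNReal.ofReal C * Maj f t x := by
  have h1 : ∀ i, ‖Osf F t x i‖ₑ ≤ 9 * ENNReal.ofReal C * Maj f t x := by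
    intro i
    refine ((enorm_integral_le_lintegral_enorm _).trans
      (lintegral_mono fun s => enorm_integral_le_lintegral_enorm _)).trans ?_
    exact uI_le hC0 hC hd t x i
  refine (u_toLp _).trans ((Finset.sum_le_sum fun i _ => h1 i).trans (le_of_eq ?_))
  rw [Finset.sum_const, Finset.card_univ, Fintype.card_fin, nsmul_eq_mul, ← mul_assoc,
    ← mul_assoc]
  norm_num

theorem u_abs {C : ℝ} (hC0 : 0 ≤ C)
    (hC : ∀ σ : ℝ, 0 < σ → ∀ x i j k, |oseen σ x i j k| ≤ C * kq σ x)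
    {f : ℝ → E3 → ℝ≥0∞} {F : ℝ → E3 → Fin 3 → Fin 3 → ℝ} (hd : Dom f F)
    {t : ℝ} {x : E3} (hM : Maj f t x < ∞) (i j k : Fin 3) :
    ∫⁻ s in Ioo 0 t, ∫⁻ y, ‖oseen (t - s) (x - y) i j k‖ₑ * ‖F s y j k‖ₑ < ∞ := by
  have h1 : ∫⁻ s in Ioo 0 t, ∫⁻ y, ‖oseen (t - s) (x - y) i j k‖ₑ * ‖F s y j k‖ₑ ≤
      ENNReal.ofReal C * Maj f t x := by
    rw [Maj, ← lintegral_const_mul' _ _ ENNReal.ofReal_ne_top]
    refine setLIntegral_mono' measurableSet_Ioo fun s hs => ?_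
    rw [← lintegral_const_mul' _ _ ENNReal.ofReal_ne_top]
    refine lintegral_mono fun y => ?_
    show ‖oseen (t - s) (x - y) i j k‖ₑ * ‖F s y j k‖ₑ ≤ _
    rw [← mul_assoc, ← ENNReal.ofReal_mul hC0]
    refine mul_le_mul' ?_ (hd.le s y j k)
    rw [← ofReal_norm, Real.norm_eq_abs]
    exact ENNReal.ofReal_le_ofReal (hC _ (sub_pos.2 hs.2) _ _ _ _)
  exact h1.trans_lt (ENNReal.mul_lt_top ENNReal.ofReal_lt_top hM)

theorem u_dom_sq {w : ℝ → E3 → E3} (hw : Measurable (Function.uncurry w)) :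
    Dom (fun s y => ‖w s y‖ₑ * ‖w s y‖ₑ) (sqF w) where
  meas j k := (u_meas_coord hw j).mul (u_meas_coord hw k)
  le s y j k := by
    rw [sqF, enorm_mul]
    exact mul_le_mul' (u_coord _ _) (u_coord _ _)

theorem u_dom_diff {u w : ℝ → E3 → E3} (hu : Measurable (Function.uncurry u))
    (hw : Measurable (Function.uncurry w)) :
    Dom (fun s y => ‖u s y‖ₑ * ‖u s y - w s y‖ₑ + ‖w s y‖ₑ * ‖u s y - w s y‖ₑ)
      (fun s y j k => sqF u s y j k - sqF w s y j k) where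
  meas j k := ((u_meas_coord hu j).mul (u_meas_coord hu k)).sub
    ((u_meas_coord hw j).mul (u_meas_coord hw k))
  le s y j k := by
    have h : sqF u s y j k - sqF w s y j k =
        u s y j * (u s y - w s y) k + w s y k * (u s y - w s y) j := by
      simp only [sqF, PiLp.sub_apply]
      ring
    rw [h]
    refine (enorm_add_le _ _).trans (add_le_add ?_ ?_)
    · rw [enorm_mul]
      exact mul_le_mul' (u_coord _ _) (u_coord _ _)
    · rw [enorm_mul]
      exact mul_le_mul' (u_coord _ _) (u_coord _ _)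

/-- the difference of two mild solutions -/
theorem u_diff (ho : OK) {u w : ℝ → E3 → E3} (hu : Measurable (Function.uncurry u))
    (hw : Measurable (Function.uncurry w)) {t : ℝ} {x : E3} {u₀ : V3}
    (h1 : ∀ i j k : Fin 3,
      ∫⁻ s in Ioo 0 t, ∫⁻ y, ‖oseen (t - s) (x - y) i j k‖ₑ * ‖sqF u s y j k‖ₑ < ∞)
    (h2 : ∀ i j k : Fin 3,
      ∫⁻ s in Ioo 0 t, ∫⁻ y, ‖oseen (t - s) (x - y) i j k‖ₑ * ‖sqF w s y j k‖ₑ < ∞)
    (h3 : ∀ i, u t x i = heatF t u₀ x i - bilin u t x i)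
    (h4 : ∀ i, w t x i = heatF t u₀ x i - bilin w t x i) :
    u t x - w t x = -OsV (fun s y j k => sqF u s y j k - sqF w s y j k) t x := by
  ext i
  have h5 := Osf_sub (u_dom_sq hu).meas (u_dom_sq hw).meas ho h1 h2 i
  have h6 : OsV (fun s y j k => sqF u s y j k - sqF w s y j k) t x i =
      Osf (fun s y j k => sqF u s y j k - sqF w s y j k) t x i := rfl
  rw [PiLp.sub_apply, PiLp.neg_apply, h6, h5, h3 i, h4 i, bilin_eq, bilin_eq]
  ring

theorem u_sq_add (a b : ℝ≥0∞) : (a + b) ^ 2 ≤ 2 * a ^ 2 + 2 * b ^ 2 := by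
  have h := ENNReal.rpow_add_le_mul_rpow_add_rpow a b (p := 2) (by norm_num)
  have e : ∀ c : ℝ≥0∞, c ^ (2 : ℝ) = c ^ 2 := fun c => by
    rw [← ENNReal.rpow_natCast]
    norm_num
  rw [e, e, e] at h
  refine h.trans (le_of_eq ?_)
  rw [← mul_add]
  norm_num

theorem u_lint_add {f g : ℝ → E3 → ℝ≥0∞} (hf : Measurable (Function.uncurry f)) (t : ℝ)
    (A : Set E3) : ∫⁻ s in Ioo 0 t, ∫⁻ y in A, (f s y + g s y) =
      (∫⁻ s in Ioo 0 t, ∫⁻ y in A, f s y) + ∫⁻ s in Ioo 0 t, ∫⁻ y in A, g s y := by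
  have h1 : ∀ s, ∫⁻ y in A, (f s y + g s y) = (∫⁻ y in A, f s y) + ∫⁻ y in A, g s y :=
    fun s => lintegral_add_left (hf.comp measurable_prodMk_left) _
  simp only [h1]
  exact lintegral_add_left (Measurable.lintegral_prod_right' hf) _

theorem u_xb_sub {T a : ℝ} (ha : 0 ≤ a) {u w : ℝ → E3 → E3} (hu : XB T a u) (hw : XB T a w) :
    XB T (2 * a) fun s y => u s y - w s y where
  meas := hu.meas.sub hw.meas
  sup t ht := by
    filter_upwards [hu.sup t ht, hw.sup t ht] with x h1 h2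
    calc ‖u t x - w t x‖ₑ ≤ ‖u t x‖ₑ + ‖w t x‖ₑ := enorm_sub_le
      _ ≤ ENNReal.ofReal (a / √t) + ENNReal.ofReal (a / √t) := add_le_add h1 h2
      _ = ENNReal.ofReal (2 * a / √t) := by
        rw [← ENNReal.ofReal_add (by positivity) (by positivity)]
        congr 1
        ring
  carl t ht x := by
    have h : ∀ s y, ‖u s y - w s y‖ₑ ^ 2 ≤ 2 * ‖u s y‖ₑ ^ 2 + 2 * ‖w s y‖ₑ ^ 2 := fun s y =>
      (pow_le_pow_left' enorm_sub_le 2).trans (u_sq_add _ _)
    have hm : Measurable (Function.uncurry fun s y => 2 * ‖u s y‖ₑ ^ 2) :=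
      (hu.meas.enorm.pow_const 2).const_mul 2
    have hc : ∀ v : ℝ → E3 → E3, ∫⁻ s in Ioo 0 t, ∫⁻ y in Metric.ball x (√t),
        2 * ‖v s y‖ₑ ^ 2 = 2 * ∫⁻ s in Ioo 0 t, ∫⁻ y in Metric.ball x (√t), ‖v s y‖ₑ ^ 2 := by
      intro v
      rw [← lintegral_const_mul' _ _ (by norm_num)]
      refine lintegral_congr fun s => ?_
      rw [lintegral_const_mul' _ _ (by norm_num)]
    refine (lintegral_mono fun s => lintegral_mono fun y => h s y).trans ?_
    rw [u_lint_add hm, hc, hc]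
    refine (add_le_add (mul_le_mul_right (hu.carl t ht x) 2)
      (mul_le_mul_right (hw.carl t ht x) 2)).trans (le_of_eq ?_)
    have h2 : (2 : ℝ≥0∞) = ENNReal.ofReal 2 := by norm_num
    rw [h2, ← ENNReal.ofReal_mul (by norm_num), ← ENNReal.ofReal_add (by positivity)
      (by positivity)]
    congr 1
    ring

theorem u_kf_add {T A A' : ℝ} (hA : 0 ≤ A) (hA' : 0 ≤ A') {f g : ℝ → E3 → ℝ≥0∞}
    (hf : KF T A f) (hg : KF T A' g) : KF T (A + A') fun s y => f s y + g s y where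
  meas := hf.meas.add hg.meas
  sup s hs := by
    filter_upwards [hf.sup s hs, hg.sup s hs] with y h3 h4
    rw [add_div, ENNReal.ofReal_add (div_nonneg hA hs.1.le) (div_nonneg hA' hs.1.le)]
    exact add_le_add h3 h4
  carl t ht x := by
    rw [u_lint_add hf.meas, add_mul, ENNReal.ofReal_add (by positivity) (by positivity)]
    exact add_le_add (hf.carl t ht x) (hg.carl t ht x)

theorem u_xb_congr {T b : ℝ} {v d : ℝ → E3 → E3} (hv : XB T b v)
    (hd : Measurable (Function.uncurry d))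
    (h : ∀ t ∈ Ioo 0 T, ∀ᵐ x ∂(volume : Measure E3), ‖d t x‖ₑ = ‖v t x‖ₑ) : XB T b d where
  meas := hd
  sup t ht := by
    filter_upwards [h t ht, hv.sup t ht] with x h1 h2
    rw [h1]
    exact h2
  carl t ht x := by
    refine le_trans (le_of_eq ?_) (hv.carl t ht x)
    refine setLIntegral_congr_fun measurableSet_Ioo fun s hs => ?_
    refine lintegral_congr_ae (ae_restrict_of_ae ?_)
    filter_upwards [h s ⟨hs.1, hs.2.trans ht.2⟩] with y hy
    rw [hy]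

theorem stU1 (hKT : StKT) (hX2 : StX2) (ho : OK) : StU1 := by
  obtain ⟨C, hC0, hC⟩ := hKT
  have ha : 0 < 1 / (4 * C) := by positivity
  refine ⟨1 / (4 * C), ha, ?_⟩
  set a : ℝ := 1 / (4 * C) with ha_def
  intro T u₀ u w hu hw hMu hMw
  set F : ℝ → E3 → Fin 3 → Fin 3 → ℝ := fun s y j k => sqF u s y j k - sqF w s y j k with hF
  have hfin : ∀ v : ℝ → E3 → E3, XB T a v → ∀ t ∈ Ioo 0 T, ∀ (x : E3) (i j k : Fin 3),
      ∫⁻ s in Ioo 0 t, ∫⁻ y, ‖oseen (t - s) (x - y) i j k‖ₑ * ‖sqF v s y j k‖ₑ < ∞ :=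
    fun v hv => (hC T (a * a) _ (sqF v) (by positivity) (hX2 T a a v v ha ha hv hv)
      (u_dom_sq hv.meas)).2
  have hdiff : ∀ t ∈ Ioo 0 T, ∀ᵐ x ∂(volume : Measure E3),
      u t x - w t x = -OsV F t x := by
    intro t ht
    filter_upwards [hMu t ht, hMw t ht] with x h1 h2
    exact u_diff ho hu.meas hw.meas (hfin u hu t ht x) (hfin w hw t ht x) h1 h2
  have hdm : Measurable (Function.uncurry fun s y => u s y - w s y) := hu.meas.sub hw.meas
  have hstep : ∀ b : ℝ, 0 < b → (XB T b fun s y => u s y - w s y) →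
      XB T (b / 2) fun s y => u s y - w s y := by
    intro b hb hd
    have h1 := u_kf_add (by positivity) (by positivity) (hX2 T a b u _ ha hb hu hd)
      (hX2 T a b w _ ha hb hw hd)
    have h2 := (hC T (a * b + a * b) _ F (by positivity) h1 (u_dom_diff hu.meas hw.meas)).1
    have h3 : C * (a * b + a * b) = b / 2 := by
      rw [ha_def]
      field_simp
      ring
    rw [h3] at h2
    refine u_xb_congr h2 hdm fun t ht => ?_
    filter_upwards [hdiff t ht] with x hx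
    rw [hx, enorm_neg]
  have hall : ∀ n : ℕ, XB T (2 * a / 2 ^ n) fun s y => u s y - w s y := by
    intro n
    induction n with
    | zero =>
      rw [pow_zero, div_one]
      exact u_xb_sub ha.le hu hw
    | succ n ih =>
      have h1 := hstep _ (by positivity) ih
      have e : 2 * a / 2 ^ (n + 1) = 2 * a / 2 ^ n / 2 := by rw [pow_succ, div_div]
      rw [e]
      exact h1
  intro t ht
  have h1 : ∀ᵐ x ∂(volume : Measure E3), ∀ n : ℕ,
      ‖u t x - w t x‖ₑ ≤ ENNReal.ofReal (2 * a / 2 ^ n / √t) :=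
    ae_all_iff.2 fun n => (hall n).sup t ht
  filter_upwards [h1] with x hx
  have h2 : Tendsto (fun n : ℕ => ENNReal.ofReal (2 * a / 2 ^ n / √t)) atTop (𝓝 0) := by
    have h3 : Tendsto (fun n : ℕ => 2 * a / 2 ^ n / √t) atTop (𝓝 0) := by
      have h4 : Tendsto (fun n : ℕ => (2 * a / √t) * (1 / 2) ^ n) atTop (𝓝 0) := by
        have := (tendsto_pow_atTop_nhds_zero_of_lt_one (r := (1 / 2 : ℝ)) (by norm_num)
          (by norm_num)).const_mul (2 * a / √t)
        rwa [mul_zero] at this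
      refine h4.congr fun n => ?_
      rw [one_div, inv_pow]
      ring
    have h5 := ENNReal.tendsto_ofReal h3
    rwa [ENNReal.ofReal_zero] at h5
  have h3 : ‖u t x - w t x‖ₑ ≤ 0 := ge_of_tendsto' h2 hx
  have h4 : u t x - w t x = 0 := enorm_eq_zero.1 (le_antisymm h3 bot_le)
  exact (sub_eq_zero.1 h4).symm

theorem u_meas_maj {f : ℝ → E3 → ℝ≥0∞} (hf : Measurable (Function.uncurry f)) (t : ℝ) :
    Measurable fun x => Maj f t x := by
  have h1 : Measurable fun p : (E3 × ℝ) × E3 =>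
      ENNReal.ofReal (kq (t - p.1.2) (p.1.1 - p.2)) * f p.1.2 p.2 := by
    have h2 : Measurable fun p : (E3 × ℝ) × E3 => kq (t - p.1.2) (p.1.1 - p.2) := by
      unfold kq sg
      fun_prop
    have h3 : Measurable fun p : (E3 × ℝ) × E3 => f p.1.2 p.2 :=
      hf.comp (by fun_prop : Measurable fun p : (E3 × ℝ) × E3 => ((p.1.2, p.2) : ℝ × E3))
    exact h2.ennreal_ofReal.mul h3
  have h4 : Measurable fun q : E3 × ℝ => ∫⁻ y, ENNReal.ofReal (kq (t - q.2) (q.1 - y)) *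
      f q.2 y := h1.lintegral_prod_right'
  exact h4.lintegral_prod_right'

theorem u_fin {C T a B : ℝ}
    (hC : ∀ (T b B : ℝ) (f g : ℝ → E3 → ℝ≥0∞), 0 ≤ b → 0 ≤ B →
      Measurable (Function.uncurry f) → Measurable (Function.uncurry g) →
      (∀ᵐ s ∂(volume.restrict (Ioo 0 T)), ∀ᵐ y ∂(volume : Measure E3),
        f s y ≤ ENNReal.ofReal (b / √s) * g s y) →
      (∀ᵐ s ∂(volume.restrict (Ioo 0 T)), ∫⁻ y, g s y ^ 2 ≤ ENNReal.ofReal (B ^ 2)) →
      ∀ t ∈ Ioo 0 T, ∫⁻ x, Maj f t x ^ 2 ≤ ENNReal.ofReal ((C * b * B) ^ 2))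
    (ha : 0 ≤ a) {v : ℝ → E3 → E3} (hv : Measurable (Function.uncurry v))
    (h1 : ∀ᵐ t ∂(volume.restrict (Ioo 0 T)), ∀ᵐ x ∂(volume : Measure E3),
      ‖v t x‖ₑ ≤ ENNReal.ofReal (a / √t))
    (h2 : ∀ᵐ t ∂(volume.restrict (Ioo 0 T)), ∫⁻ x, ‖v t x‖ₑ ^ 2 ≤ ENNReal.ofReal (B ^ 2))
    {t : ℝ} (ht : t ∈ Ioo 0 T) : ∀ᵐ x ∂(volume : Measure E3),
      Maj (fun s y => ‖v s y‖ₑ * ‖v s y‖ₑ) t x < ∞ := by
  have hm : Measurable (Function.uncurry fun s y => ‖v s y‖ₑ * ‖v s y‖ₑ) :=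
    hv.enorm.mul hv.enorm
  have h3 := hC T a |B| (fun s y => ‖v s y‖ₑ * ‖v s y‖ₑ) (fun s y => ‖v s y‖ₑ) ha
    (abs_nonneg B) hm hv.enorm (by
      filter_upwards [h1] with s hs
      filter_upwards [hs] with y hy
      exact mul_le_mul_left hy _) (by
      filter_upwards [h2] with s hs
      rwa [sq_abs]) t ht
  have h4 : Measurable fun x => Maj (fun s y => ‖v s y‖ₑ * ‖v s y‖ₑ) t x ^ 2 :=
    (u_meas_maj hm t).pow_const 2
  filter_upwards [ae_lt_top h4 (h3.trans_lt ENNReal.ofReal_lt_top).ne] with x hx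
  by_contra hcon
  rw [not_lt, top_le_iff] at hcon
  rw [hcon] at hx
  simp at hx

theorem stU2 (hL : StL2) (ho : OK) : StU2 := by
  obtain ⟨C, hC0, hC⟩ := hL
  obtain ⟨C', hC'0, hC'⟩ := ho.le
  have ha : 0 < 1 / (108 * C' * C) := by positivity
  refine ⟨1 / (108 * C' * C), ha, ?_⟩
  set a : ℝ := 1 / (108 * C' * C) with ha_def
  intro T B u₀ u w hu hw h1 h2
  set F : ℝ → E3 → Fin 3 → Fin 3 → ℝ := fun s y j k => sqF u s y j k - sqF w s y j k with hF
  have hdm : Measurable (Function.uncurry fun s y => u s y - w s y) := hu.sub hw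
  have hdiff : ∀ᵐ t ∂(volume.restrict (Ioo 0 T)), ∀ᵐ x ∂(volume : Measure E3),
      u t x - w t x = -OsV F t x := by
    filter_upwards [h1, ae_restrict_mem measurableSet_Ioo] with t ht htT
    have h3 := u_fin hC ha.le hu (h1.mono fun s hs => hs.mono fun y hy => hy.1)
      (h2.mono fun s hs => hs.1) htT
    have h4 := u_fin hC ha.le hw (h1.mono fun s hs => hs.mono fun y hy => hy.2.1)
      (h2.mono fun s hs => hs.2) htT
    filter_upwards [ht, h3, h4] with x hx h5 h6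
    exact u_diff ho hu hw (u_abs hC'0.le hC' (u_dom_sq hu) h5)
      (u_abs hC'0.le hC' (u_dom_sq hw) h6) hx.2.2.1 hx.2.2.2
  have hfm : Measurable (Function.uncurry fun s y =>
      ‖u s y‖ₑ * ‖u s y - w s y‖ₑ + ‖w s y‖ₑ * ‖u s y - w s y‖ₑ) :=
    (hu.enorm.mul hdm.enorm).add (hw.enorm.mul hdm.enorm)
  have hstep : ∀ b : ℝ, 0 ≤ b →
      (∀ᵐ t ∂(volume.restrict (Ioo 0 T)),
        ∫⁻ x, ‖u t x - w t x‖ₑ ^ 2 ≤ ENNReal.ofReal (b ^ 2)) →
      ∀ᵐ t ∂(volume.restrict (Ioo 0 T)),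
        ∫⁻ x, ‖u t x - w t x‖ₑ ^ 2 ≤ ENNReal.ofReal ((b / 2) ^ 2) := by
    intro b hb hd
    filter_upwards [hdiff, ae_restrict_mem measurableSet_Ioo] with t ht htT
    have h3 := hC T (2 * a) b _ (fun s y => ‖u s y - w s y‖ₑ) (by positivity) hb hfm hdm.enorm
      (by
        filter_upwards [h1, ae_restrict_mem measurableSet_Ioo] with s hs hsT
        filter_upwards [hs] with y hy
        rw [← add_mul]
        refine mul_le_mul_left ((add_le_add hy.1 hy.2.1).trans (le_of_eq ?_)) _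
        rw [← ENNReal.ofReal_add (by positivity) (by positivity)]
        congr 1
        ring) hd t htT
    have h4 : ∫⁻ x, ‖u t x - w t x‖ₑ ^ 2 = ∫⁻ x, ‖OsV F t x‖ₑ ^ 2 := by
      refine lintegral_congr_ae ?_
      filter_upwards [ht] with x hx
      rw [hx, enorm_neg]
    have hne : (27 * ENNReal.ofReal C') ^ 2 ≠ ∞ :=
      ENNReal.pow_ne_top (ENNReal.mul_ne_top (by norm_num) ENNReal.ofReal_ne_top)
    rw [h4]
    calc ∫⁻ x, ‖OsV F t x‖ₑ ^ 2
        ≤ ∫⁻ x, (27 * ENNReal.ofReal C') ^ 2 * Maj (fun s y =>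
            ‖u s y‖ₑ * ‖u s y - w s y‖ₑ + ‖w s y‖ₑ * ‖u s y - w s y‖ₑ) t x ^ 2 := by
          refine lintegral_mono fun x => ?_
          rw [← mul_pow]
          exact pow_le_pow_left' (u_enorm hC'0.le hC' (u_dom_diff hu hw) t x) 2
      _ = (27 * ENNReal.ofReal C') ^ 2 * ∫⁻ x, Maj (fun s y =>
            ‖u s y‖ₑ * ‖u s y - w s y‖ₑ + ‖w s y‖ₑ * ‖u s y - w s y‖ₑ) t x ^ 2 :=
          lintegral_const_mul' _ _ hne
      _ ≤ (27 * ENNReal.ofReal C') ^ 2 * ENNReal.ofReal ((C * (2 * a) * b) ^ 2) :=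
          mul_le_mul_right h3 _
      _ = ENNReal.ofReal ((b / 2) ^ 2) := by
          have e27 : (27 : ℝ≥0∞) = ENNReal.ofReal 27 := by norm_num
          rw [e27, ← ENNReal.ofReal_mul (by norm_num), ← ENNReal.ofReal_pow (by positivity),
            ← ENNReal.ofReal_mul (by positivity), ← mul_pow]
          congr 2
          rw [ha_def]
          field_simp
          norm_num
  have hall : ∀ n : ℕ, ∀ᵐ t ∂(volume.restrict (Ioo 0 T)),
      ∫⁻ x, ‖u t x - w t x‖ₑ ^ 2 ≤ ENNReal.ofReal ((2 * |B| / 2 ^ n) ^ 2) := by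
    intro n
    induction n with
    | zero =>
      filter_upwards [h2] with t ht
      calc ∫⁻ x, ‖u t x - w t x‖ₑ ^ 2 ≤ ∫⁻ x, (2 * ‖u t x‖ₑ ^ 2 + 2 * ‖w t x‖ₑ ^ 2) :=
            lintegral_mono fun x => (pow_le_pow_left' enorm_sub_le 2).trans (u_sq_add _ _)
        _ = 2 * (∫⁻ x, ‖u t x‖ₑ ^ 2) + 2 * ∫⁻ x, ‖w t x‖ₑ ^ 2 := by
            rw [lintegral_add_left, lintegral_const_mul' _ _ (by norm_num),
              lintegral_const_mul' _ _ (by norm_num)]
            exact ((hu.comp measurable_prodMk_left).enorm.pow_const 2).const_mul 2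
        _ ≤ 2 * ENNReal.ofReal (B ^ 2) + 2 * ENNReal.ofReal (B ^ 2) :=
            add_le_add (mul_le_mul_right ht.1 2) (mul_le_mul_right ht.2 2)
        _ = ENNReal.ofReal ((2 * |B| / 2 ^ 0) ^ 2) := by
            have e2 : (2 : ℝ≥0∞) = ENNReal.ofReal 2 := by norm_num
            rw [e2, ← ENNReal.ofReal_mul (by norm_num), ← ENNReal.ofReal_add (by positivity)
              (by positivity)]
            congr 1
            rw [pow_zero, div_one, mul_pow, sq_abs]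
            ring
    | succ n ih =>
      have h3 := hstep _ (by positivity) ih
      have e : 2 * |B| / 2 ^ (n + 1) = 2 * |B| / 2 ^ n / 2 := by rw [pow_succ, div_div]
      rw [e]
      exact h3
  have hall' := ae_all_iff.2 hall
  filter_upwards [hall'] with t ht
  have h3 : Tendsto (fun n : ℕ => ENNReal.ofReal ((2 * |B| / 2 ^ n) ^ 2)) atTop (𝓝 0) := by
    have h4 : Tendsto (fun n : ℕ => 2 * |B| / 2 ^ n) atTop (𝓝 0) := by
      have h5 := (tendsto_pow_atTop_nhds_zero_of_lt_one (r := (1 / 2 : ℝ)) (by norm_num)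
        (by norm_num)).const_mul (2 * |B|)
      rw [mul_zero] at h5
      refine h5.congr fun n => ?_
      rw [one_div, inv_pow]
      rfl
    have h5 := ENNReal.tendsto_ofReal (h4.pow 2)
    simpa using h5
  have h4 : ∫⁻ x, ‖u t x - w t x‖ₑ ^ 2 = 0 :=
    le_antisymm (ge_of_tendsto' h3 ht) bot_le
  have h5 : Measurable fun x => ‖u t x - w t x‖ₑ ^ 2 :=
    (hdm.comp measurable_prodMk_left).enorm.pow_const 2
  rw [lintegral_eq_zero_iff h5] at h4
  filter_upwards [h4] with x hx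
  have h6 : ‖u t x - w t x‖ₑ = 0 := pow_eq_zero_iff (two_ne_zero) |>.1 hx
  exact (sub_eq_zero.1 (enorm_eq_zero.1 h6)).symm

end Pool.Agent.TF.KT
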