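import Pool.Agent.TF.M.Defs

/-!
# Block M: norms, products, the heat extension
-/

set_option autoImplicit false

namespace Pool.Agent.TF.KT

open MeasureTheory Set Filter Topology Pool.Agent.TO Pool.Agent.TB Pool.Agent.TP
open scoped ENNReal NNReal Real InnerProductSpace SchwartzMap LineDeriv

/-! ### comparison of the norms -/

theorem x1_pow {t : ℝ} (ht : 0 < t) : t ^ (-(3 / 2) : ℝ) * √t ^ 3 = 1 := by
  have h1 : √t ^ 3 = t ^ (3 / 2 : ℝ) := by
    rw [Real.sqrt_eq_rpow, ← Real.rpow_natCast, ← Real.rpow_mul ht.le]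
    norm_num
  rw [h1, ← Real.rpow_add ht]
  norm_num

theorem x1_half (a : ℝ) (ha : 0 ≤ a) : (ENNReal.ofReal (a ^ 2)) ^ (1 / 2 : ℝ) = ENNReal.ofReal a := by
  rw [ENNReal.ofReal_rpow_of_nonneg (by positivity) (by norm_num), ← Real.sqrt_eq_rpow,
    Real.sqrt_sq ha]

theorem x1_sq (x : ℝ≥0∞) : (x ^ (1 / 2 : ℝ)) ^ 2 = x := by
  rw [← ENNReal.rpow_natCast, ← ENNReal.rpow_mul]
  norm_num

/-- (X1) -/
theorem stX1 : StX1 := by
  constructor
  · intro T a w ha h
    have h1 : (⨆ t ∈ Ioo 0 T, ENNReal.ofReal (√t) * eLpNorm (w t) ∞ volume) ≤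
        ENNReal.ofReal a := by
      refine iSup₂_le fun t ht => ?_
      have hs : 0 < √t := Real.sqrt_pos.2 ht.1
      rw [eLpNorm_exponent_top]
      have h2 : eLpNormEssSup (w t) volume ≤ ENNReal.ofReal (a / √t) :=
        eLpNormEssSup_le_of_ae_enorm_bound (h.sup t ht)
      calc ENNReal.ofReal (√t) * eLpNormEssSup (w t) volume
          ≤ ENNReal.ofReal (√t) * ENNReal.ofReal (a / √t) := by gcongr
        _ = ENNReal.ofReal a := by
            rw [← ENNReal.ofReal_mul hs.le]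
            congr 1
            field_simp
    have h2 : (⨆ t ∈ Ioo 0 T, ⨆ x : E3, (ENNReal.ofReal (t ^ (-(3 / 2) : ℝ)) *
        ∫⁻ s in Ioo 0 t, ∫⁻ y in Metric.ball x (√t), ‖w s y‖ₑ ^ 2) ^ (1 / 2 : ℝ)) ≤
        ENNReal.ofReal a := by
      refine iSup₂_le fun t ht => iSup_le fun x => ?_
      rw [← x1_half a ha]
      apply ENNReal.rpow_le_rpow _ (by norm_num)
      calc ENNReal.ofReal (t ^ (-(3 / 2) : ℝ)) *
            ∫⁻ s in Ioo 0 t, ∫⁻ y in Metric.ball x (√t), ‖w s y‖ₑ ^ 2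
          ≤ ENNReal.ofReal (t ^ (-(3 / 2) : ℝ)) * ENNReal.ofReal (a ^ 2 * √t ^ 3) := by
            gcongr
            exact h.carl t ht x
        _ = ENNReal.ofReal (a ^ 2) := by
            rw [← ENNReal.ofReal_mul (Real.rpow_nonneg ht.1.le _)]
            congr 1
            calc t ^ (-(3 / 2) : ℝ) * (a ^ 2 * √t ^ 3) = a ^ 2 * (t ^ (-(3 / 2) : ℝ) * √t ^ 3) := by
                  ring
              _ = a ^ 2 := by rw [x1_pow ht.1, mul_one]
    unfold XNorm
    calc _ ≤ ENNReal.ofReal a + ENNReal.ofReal a := add_le_add h1 h2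
      _ = ENNReal.ofReal (2 * a) := by
          rw [← ENNReal.ofReal_add ha ha]
          congr 1
          ring
  · intro T a w ha hm h
    have hA : ∀ t ∈ Ioo 0 T, ENNReal.ofReal (√t) * eLpNorm (w t) ∞ volume ≤ ENNReal.ofReal a := by
      intro t ht
      refine le_trans ?_ h
      refine le_trans ?_ (le_add_of_nonneg_right zero_le)
      exact le_iSup₂ (f := fun t (_ : t ∈ Ioo 0 T) =>
        ENNReal.ofReal (√t) * eLpNorm (w t) ∞ volume) t ht
    have hB : ∀ t ∈ Ioo 0 T, ∀ x : E3, (ENNReal.ofReal (t ^ (-(3 / 2) : ℝ)) *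
        ∫⁻ s in Ioo 0 t, ∫⁻ y in Metric.ball x (√t), ‖w s y‖ₑ ^ 2) ^ (1 / 2 : ℝ) ≤
        ENNReal.ofReal a := by
      intro t ht x
      refine le_trans ?_ h
      refine le_trans ?_ (le_add_of_nonneg_left zero_le)
      refine le_trans ?_ (le_iSup₂ (f := fun t (_ : t ∈ Ioo 0 T) => ⨆ x : E3,
        (ENNReal.ofReal (t ^ (-(3 / 2) : ℝ)) *
        ∫⁻ s in Ioo 0 t, ∫⁻ y in Metric.ball x (√t), ‖w s y‖ₑ ^ 2) ^ (1 / 2 : ℝ)) t ht)
      exact le_iSup (fun x : E3 => (ENNReal.ofReal (t ^ (-(3 / 2) : ℝ)) *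
        ∫⁻ s in Ioo 0 t, ∫⁻ y in Metric.ball x (√t), ‖w s y‖ₑ ^ 2) ^ (1 / 2 : ℝ)) x
    refine ⟨hm, ?_, ?_⟩
    · intro t ht
      have hs : 0 < √t := Real.sqrt_pos.2 ht.1
      have h1 := hA t ht
      rw [eLpNorm_exponent_top] at h1
      filter_upwards [enorm_ae_le_eLpNormEssSup (w t) volume] with x hx
      rw [ENNReal.ofReal_div_of_pos hs, ENNReal.le_div_iff_mul_le (Or.inl (by simpa using ht.1))
        (Or.inl ENNReal.ofReal_ne_top), mul_comm]
      calc ENNReal.ofReal (√t) * ‖w t x‖ₑ ≤ ENNReal.ofReal (√t) * eLpNormEssSup (w t) volume := by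
            gcongr
        _ ≤ _ := h1
    · intro t ht x
      have h1 : ENNReal.ofReal (t ^ (-(3 / 2) : ℝ)) *
          ∫⁻ s in Ioo 0 t, ∫⁻ y in Metric.ball x (√t), ‖w s y‖ₑ ^ 2 ≤ ENNReal.ofReal (a ^ 2) := by
        have h2 := pow_le_pow_left₀ zero_le (hB t ht x) 2
        rw [x1_sq, ← ENNReal.ofReal_pow ha] at h2
        exact h2
      set I := ∫⁻ s in Ioo 0 t, ∫⁻ y in Metric.ball x (√t), ‖w s y‖ₑ ^ 2 with hI
      calc I = ENNReal.ofReal (√t ^ 3 * t ^ (-(3 / 2) : ℝ)) * I := by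
            rw [mul_comm (√t ^ 3), x1_pow ht.1, ENNReal.ofReal_one, one_mul]
        _ = ENNReal.ofReal (√t ^ 3) * (ENNReal.ofReal (t ^ (-(3 / 2) : ℝ)) * I) := by
            rw [ENNReal.ofReal_mul (by positivity), mul_assoc]
        _ ≤ ENNReal.ofReal (√t ^ 3) * ENNReal.ofReal (a ^ 2) := by gcongr
        _ = ENNReal.ofReal (a ^ 2 * √t ^ 3) := by
            rw [← ENNReal.ofReal_mul (by positivity), mul_comm]

/-! ### products -/

theorem x2_young {a b : ℝ} (ha : 0 < a) (hb : 0 < b) (p q : E3) :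
    ‖p‖ₑ * ‖q‖ₑ ≤ ENNReal.ofReal (b / (2 * a)) * ‖p‖ₑ ^ 2 +
      ENNReal.ofReal (a / (2 * b)) * ‖q‖ₑ ^ 2 := by
  rw [← ofReal_norm, ← ofReal_norm, ← ENNReal.ofReal_mul (norm_nonneg _),
    ← ENNReal.ofReal_pow (norm_nonneg _), ← ENNReal.ofReal_pow (norm_nonneg _),
    ← ENNReal.ofReal_mul (by positivity), ← ENNReal.ofReal_mul (by positivity),
    ← ENNReal.ofReal_add (by positivity) (by positivity)]
  apply ENNReal.ofReal_le_ofReal
  have h : b / (2 * a) * ‖p‖ ^ 2 + a / (2 * b) * ‖q‖ ^ 2 - ‖p‖ * ‖q‖ =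
      (b * ‖p‖ - a * ‖q‖) ^ 2 / (2 * a * b) := by
    field_simp
    ring
  have h2 : 0 ≤ (b * ‖p‖ - a * ‖q‖) ^ 2 / (2 * a * b) := by positivity
  linarith

/-- (X2) -/
theorem stX2 : StX2 := by
  intro T a b u w ha hb hu hw
  have hm1 : Measurable fun p : ℝ × E3 => ‖u p.1 p.2‖ₑ := hu.meas.enorm
  have hm2 : Measurable fun p : ℝ × E3 => ‖w p.1 p.2‖ₑ := hw.meas.enorm
  have hm : Measurable fun p : ℝ × E3 => ‖u p.1 p.2‖ₑ * ‖w p.1 p.2‖ₑ := hm1.mul hm2
  refine ⟨hm, ?_, ?_⟩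
  · intro s hs
    have h0 : 0 < √s := Real.sqrt_pos.2 hs.1
    filter_upwards [hu.sup s hs, hw.sup s hs] with y h1 h2
    calc ‖u s y‖ₑ * ‖w s y‖ₑ ≤ ENNReal.ofReal (a / √s) * ENNReal.ofReal (b / √s) := by gcongr
      _ = ENNReal.ofReal (a * b / s) := by
          rw [← ENNReal.ofReal_mul (by positivity)]
          congr 1
          rw [div_mul_div_comm, Real.mul_self_sqrt hs.1.le]
  · intro t ht x
    have mu : Measurable fun p : ℝ × E3 => ‖u p.1 p.2‖ₑ ^ 2 := hm1.pow_const 2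
    have mu0 : ∀ s, Measurable (u s) := fun s => hu.meas.of_uncurry_left
    have mu1 : ∀ s, Measurable fun y : E3 => ‖u s y‖ₑ ^ 2 := fun s => (mu0 s).enorm.pow_const 2
    have mu2 : Measurable fun s => ∫⁻ y in Metric.ball x (√t), ‖u s y‖ₑ ^ 2 :=
      Measurable.lintegral_prod_right' (f := fun p : ℝ × E3 => ‖u p.1 p.2‖ₑ ^ 2)
        (ν := volume.restrict (Metric.ball x (√t))) mu
    have hc : 0 < √t := Real.sqrt_pos.2 ht.1
    calc ∫⁻ s in Ioo 0 t, ∫⁻ y in Metric.ball x (√t), ‖u s y‖ₑ * ‖w s y‖ₑ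
        ≤ ∫⁻ s in Ioo 0 t, ∫⁻ y in Metric.ball x (√t),
            (ENNReal.ofReal (b / (2 * a)) * ‖u s y‖ₑ ^ 2 +
              ENNReal.ofReal (a / (2 * b)) * ‖w s y‖ₑ ^ 2) :=
          lintegral_mono fun s => lintegral_mono fun y => x2_young ha hb _ _
      _ = ∫⁻ s in Ioo 0 t, (ENNReal.ofReal (b / (2 * a)) *
            (∫⁻ y in Metric.ball x (√t), ‖u s y‖ₑ ^ 2) + ENNReal.ofReal (a / (2 * b)) *
              ∫⁻ y in Metric.ball x (√t), ‖w s y‖ₑ ^ 2) := by
          apply lintegral_congr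
          intro s
          rw [lintegral_add_left ((mu1 s).const_mul _), lintegral_const_mul' _ _
            ENNReal.ofReal_ne_top, lintegral_const_mul' _ _ ENNReal.ofReal_ne_top]
      _ = ENNReal.ofReal (b / (2 * a)) *
            (∫⁻ s in Ioo 0 t, ∫⁻ y in Metric.ball x (√t), ‖u s y‖ₑ ^ 2) +
          ENNReal.ofReal (a / (2 * b)) *
            ∫⁻ s in Ioo 0 t, ∫⁻ y in Metric.ball x (√t), ‖w s y‖ₑ ^ 2 := by
          rw [lintegral_add_left (mu2.const_mul _), lintegral_const_mul' _ _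
            ENNReal.ofReal_ne_top, lintegral_const_mul' _ _ ENNReal.ofReal_ne_top]
      _ ≤ ENNReal.ofReal (b / (2 * a)) * ENNReal.ofReal (a ^ 2 * √t ^ 3) +
          ENNReal.ofReal (a / (2 * b)) * ENNReal.ofReal (b ^ 2 * √t ^ 3) := by
          gcongr
          · exact hu.carl t ht x
          · exact hw.carl t ht x
      _ = ENNReal.ofReal (a * b * √t ^ 3) := by
          rw [← ENNReal.ofReal_mul (by positivity), ← ENNReal.ofReal_mul (by positivity),
            ← ENNReal.ofReal_add (by positivity) (by positivity)]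
          congr 1
          field_simp
          ring

/-! ### the heat extension -/

theorem x3_gauss_meas : Measurable fun p : ℝ × E3 => gauss p.1 p.2 := by
  unfold gauss
  fun_prop

theorem x3_meas (f : V3) : Measurable (Function.uncurry (hx f)) := by
  have h2 : StronglyMeasurable (Function.uncurry fun (p : ℝ × E3) (y : E3) =>
      gauss p.1 y • fld f (p.2 - y)) := by
    have h3 : StronglyMeasurable fun q : (ℝ × E3) × E3 => gauss q.1.1 q.2 :=
      (x3_gauss_meas.comp ((measurable_fst.comp measurable_fst).prodMk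
        measurable_snd)).stronglyMeasurable
    exact h3.smul ((Lp.stronglyMeasurable f).comp_measurable
      ((measurable_snd.comp measurable_fst).sub measurable_snd))
  exact (h2.integral_prod_right).measurable

theorem x3_heat (σ : ℝ) (f : V3) (x : E3) : heatF σ f x = heat σ (f : E3 → E3) x := rfl

theorem x3_lip {σ : ℝ} (hσ : 0 < σ) (f g : V3) :
    ‖heat σ (f : E3 → E3) 0 - heat σ (g : E3 → E3) 0‖ ≤
      √((4 * π * σ) ^ (-(3 / 2) : ℝ)) * ‖f - g‖ := by
  have hp := Real.pi_pos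
  have h1 : heat σ ((f - g : V3) : E3 → E3) 0 =
      heat σ (f : E3 → E3) 0 - heat σ (g : E3 → E3) 0 := by
    rw [← heat_sub hσ (Lp.stronglyMeasurable f) (lintegral_sq_lt f) (Lp.stronglyMeasurable g)
      (lintegral_sq_lt g)]
    exact heat_congr (Lp.coeFn_sub f g) 0
  have h2 : ‖heat σ ((f - g : V3) : E3 → E3) 0‖ₑ ^ 2 ≤ CC σ * ‖f - g‖ₑ ^ 2 := by
    refine (sq_heat_le hσ (Lp.stronglyMeasurable _) 0).trans ((sq_gam_le hσ 0).trans ?_)
    rw [lintegral_sq_V3]
  rw [h1, ← ofReal_norm, ← ofReal_norm, ← ENNReal.ofReal_pow (norm_nonneg _),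
    ← ENNReal.ofReal_pow (norm_nonneg _), CC, ← ENNReal.ofReal_mul (by positivity),
    ENNReal.ofReal_le_ofReal_iff (by positivity)] at h2
  have h3 := Real.sqrt_le_sqrt h2
  rwa [Real.sqrt_sq (norm_nonneg _), Real.sqrt_mul (by positivity), Real.sqrt_sq (norm_nonneg _)]
    at h3

/-- the heat extension is continuous in `x` -/
theorem x3_cont {σ : ℝ} (hσ : 0 < σ) (f : V3) : Continuous fun x => heatF σ f x := by
  have h1 : ∀ x, heatF σ f x = heat σ ((tau (-x) f : V3) : E3 → E3) 0 := by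
    intro x
    rw [heat_congr (coe_tau (-x) f) 0]
    unfold heatF heat
    congr 1
    ext1 y
    have e : (0:E3) - y - -x = x - y := by abel
    show gauss σ y • fld f (x - y) = hk σ y • f (0 - y - -x)
    rw [e]
    rfl
  have h2 : Continuous fun g : V3 => heat σ (g : E3 → E3) 0 := by
    have : LipschitzWith (Real.toNNReal (√((4 * π * σ) ^ (-(3 / 2) : ℝ))))
        fun g : V3 => heat σ (g : E3 → E3) 0 := by
      apply LipschitzWith.of_dist_le_mul
      intro g g'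
      rw [Real.coe_toNNReal _ (Real.sqrt_nonneg _), dist_eq_norm, dist_eq_norm]
      exact x3_lip hσ g g'
    exact this.continuous
  have h3 : (fun x => heatF σ f x) = fun x => heat σ ((tau (-x) f : V3) : E3 → E3) 0 :=
    funext h1
  rw [h3]
  exact h2.comp ((continuous_tau f).comp continuous_neg)

theorem x3_ball (z : E3) (r : ℝ) :
    (Metric.closedBall z r : Set E3) =ᵐ[volume] Metric.ball z r := by
  refine (ae_eq_of_subset_of_measure_ge Metric.ball_subset_closedBall ?_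
    measurableSet_ball.nullMeasurableSet ?_).symm
  · rw [Measure.addHaar_closedBall_eq_addHaar_ball]
  · exact measure_closedBall_lt_top.ne

/-- (X3) -/
theorem stX3 : StX3 := by
  intro u₀
  have key : BmoZ u₀ → ∀ a : ℝ, 0 < a → ∃ T > 0, XB T a (hx u₀) := by
    intro h a ha
    have h1 : ∀ᶠ T in 𝓝[>] (0:ℝ), XNorm T (fun t => heatF t u₀) < ENNReal.ofReal a :=
      h.2.eventually (gt_mem_nhds (by simpa using ha))
    obtain ⟨T, hT1, hT2⟩ := (h1.and self_mem_nhdsWithin).exists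
    exact ⟨T, hT2, stX1.2 T a (hx u₀) ha.le (x3_meas u₀) hT1.le⟩
  refine ⟨x3_meas u₀, ?_, key, ?_⟩
  · intro t ht
    refine (lintegral_sq_heat_le ht (Lp.stronglyMeasurable u₀)).trans (le_of_eq ?_)
    rw [lintegral_sq_V3, ← ofReal_norm, ENNReal.ofReal_pow (norm_nonneg _)]
  · intro h η hη
    obtain ⟨T, hT, hX⟩ := key h η hη
    refine ⟨T, hT, ?_, ?_⟩
    · intro σ hσ x
      have h1 := hX.sup σ hσ
      have h2 : ∀ᵐ x ∂(volume : Measure E3), ‖heatF σ u₀ x‖ ≤ η / √σ := by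
        filter_upwards [h1] with x hx'
        rw [hx, ← ofReal_norm, ENNReal.ofReal_le_ofReal_iff (by positivity)] at hx'
        exact hx'
      have hc : IsClosed {x : E3 | ‖heatF σ u₀ x‖ ≤ η / √σ} :=
        isClosed_le (x3_cont hσ.1 u₀).norm continuous_const
      have hd : Dense {x : E3 | ‖heatF σ u₀ x‖ ≤ η / √σ} := Measure.dense_of_ae h2
      have := hc.closure_eq ▸ hd.closure_eq
      exact (this ▸ mem_univ x : x ∈ {x : E3 | ‖heatF σ u₀ x‖ ≤ η / √σ})
    · intro σ hσ z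
      refine le_trans (le_of_eq ?_) (hX.carl σ hσ z)
      apply lintegral_congr
      intro s
      exact setLIntegral_congr (x3_ball z _)

end Pool.Agent.TF.KT
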