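import Pool.Agent.TF.M.Bridge
import Pool.Agent.TF.M.KT
import Pool.Agent.TF.M.L2
import Pool.Agent.TF.M.Mild
import Pool.Agent.TF.M.OseeOk
import Pool.Agent.TF.M.P
import Pool.Agent.TF.M.Rep
import Pool.Agent.TF.M.U
import Pool.Agent.TF.M.X
import Pool.Agent.TF.K.Fin

/-!
# Block M complete: the statement follows from the main estimate of the scheme
-/

set_option autoImplicit false

namespace Pool.Agent.TF.KT

open MeasureTheory Set Filter Topology Pool.Agent.TO Pool.Agent.TB Pool.Agent.TP
open scoped ENNReal NNReal Real InnerProductSpace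

theorem stM2 : StM2 := fun _ _ _ h _ ha hb => mild_of_leray h ha hb

theorem statement_of_main (h : StMain) : Statement :=
  have hKT : StKT := stKT K.stKT ok
  main h stX1 stX3 (stP hKT stL2 stX1 stX2 stX3 ok) (stU1 hKT stX2 ok) (stU2 stL2 ok) stM2

end Pool.Agent.TF.KT
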