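import Mathlib

/-!
# Block M: Duhamel's formula, the abstract part
-/

set_option autoImplicit false

namespace Pool.Agent.TF

open MeasureTheory Set Filter Topology

/-- Fubini's theorem on the triangle -/
theorem mt_tri {t : ℝ} {G : ℝ → ℝ → ℝ}
    (hG : Integrable (Function.uncurry G)
      ((volume.restrict (Ioo 0 t)).prod (volume.restrict (Ioo 0 t)))) :
    IntegrableOn (fun τ => ∫ r in (0:ℝ)..(t - τ), G τ r) (Ioo 0 t) volume ∧
    IntegrableOn (fun r => ∫ τ in (0:ℝ)..(t - r), G τ r) (Ioo 0 t) volume ∧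
    ∫ τ in Ioo 0 t, ∫ r in (0:ℝ)..(t - τ), G τ r =
      ∫ r in Ioo 0 t, ∫ τ in (0:ℝ)..(t - r), G τ r := by
  set S : Set (ℝ × ℝ) := {p | p.1 + p.2 < t} with hS
  have hSm : MeasurableSet S := measurableSet_lt (measurable_fst.add measurable_snd)
    measurable_const
  have hG' := hG.indicator hSm
  set G' : ℝ → ℝ → ℝ := fun τ r => S.indicator (Function.uncurry G) (τ, r) with hG'd
  have hGi : Integrable (Function.uncurry G')
      ((volume.restrict (Ioo 0 t)).prod (volume.restrict (Ioo 0 t))) := hG'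
  have e1 : ∀ τ ∈ Ioo 0 t, ∫ r in Ioo 0 t, G' τ r = ∫ r in (0:ℝ)..(t - τ), G τ r := by
    intro τ hτ
    have e : ∀ r, G' τ r = (Iio (t - τ)).indicator (G τ) r := by
      intro r
      have h1 : (τ, r) ∈ S ↔ r ∈ Iio (t - τ) := by
        rw [hS, mem_Iio]
        change τ + r < t ↔ _
        constructor <;> intro h <;> linarith
      by_cases h : r ∈ Iio (t - τ)
      · rw [indicator_of_mem h, hG'd]
        simp only
        rw [indicator_of_mem (h1.2 h), Function.uncurry_apply_pair]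
      · rw [indicator_of_notMem h, hG'd]
        simp only
        rw [indicator_of_notMem fun h' => h (h1.1 h')]
    simp only [e]
    rw [setIntegral_indicator measurableSet_Iio]
    have hs : Ioo 0 t ∩ Iio (t - τ) = Ioo 0 (t - τ) := by
      ext r
      simp only [mem_inter_iff, mem_Ioo, mem_Iio]
      constructor
      · rintro ⟨⟨h1, h2⟩, h3⟩
        exact ⟨h1, h3⟩
      · rintro ⟨h1, h3⟩
        exact ⟨⟨h1, by linarith [hτ.1]⟩, h3⟩
    rw [hs, intervalIntegral.integral_of_le (by linarith [hτ.2]), integral_Ioc_eq_integral_Ioo]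
  have e2 : ∀ r ∈ Ioo 0 t, ∫ τ in Ioo 0 t, G' τ r = ∫ τ in (0:ℝ)..(t - r), G τ r := by
    intro r hr
    have e : ∀ τ, G' τ r = (Iio (t - r)).indicator (fun τ => G τ r) τ := by
      intro τ
      have h1 : (τ, r) ∈ S ↔ τ ∈ Iio (t - r) := by
        rw [hS, mem_Iio]
        change τ + r < t ↔ _
        constructor <;> intro h <;> linarith
      by_cases h : τ ∈ Iio (t - r)
      · rw [indicator_of_mem h, hG'd]
        simp only
        rw [indicator_of_mem (h1.2 h), Function.uncurry_apply_pair]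
      · rw [indicator_of_notMem h, hG'd]
        simp only
        rw [indicator_of_notMem fun h' => h (h1.1 h')]
    simp only [e]
    rw [setIntegral_indicator measurableSet_Iio]
    have hs : Ioo 0 t ∩ Iio (t - r) = Ioo 0 (t - r) := by
      ext τ
      simp only [mem_inter_iff, mem_Ioo, mem_Iio]
      constructor
      · rintro ⟨⟨h1, h2⟩, h3⟩
        exact ⟨h1, h3⟩
      · rintro ⟨h1, h3⟩
        exact ⟨⟨h1, by linarith [hr.1]⟩, h3⟩
    rw [hs, intervalIntegral.integral_of_le (by linarith [hr.2]), integral_Ioc_eq_integral_Ioo]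
  have e1' : ∫ τ in Ioo 0 t, ∫ r in Ioo 0 t, G' τ r =
      ∫ τ in Ioo 0 t, ∫ r in (0:ℝ)..(t - τ), G τ r := setIntegral_congr_fun measurableSet_Ioo e1
  have e2' : ∫ r in Ioo 0 t, ∫ τ in Ioo 0 t, G' τ r =
      ∫ r in Ioo 0 t, ∫ τ in (0:ℝ)..(t - r), G τ r := setIntegral_congr_fun measurableSet_Ioo e2
  refine ⟨?_, ?_, ?_⟩
  · refine hGi.integral_prod_left.congr ?_
    filter_upwards [ae_restrict_mem measurableSet_Ioo] with τ hτ
    exact e1 τ hτ
  · refine hGi.integral_prod_right.congr ?_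
    filter_upwards [ae_restrict_mem measurableSet_Ioo] with r hr
    exact e2 r hr
  · rw [← e1', ← e2']
    exact integral_integral_swap hGi

/-- the reflection of the time interval -/
theorem mt_refl {t : ℝ} (ht : 0 ≤ t) {f : ℝ → ℝ} (hf : IntegrableOn f (Ioo 0 t) volume) :
    IntegrableOn (fun r => f (t - r)) (Ioo 0 t) volume ∧
    ∫ r in Ioo 0 t, f (t - r) = ∫ r in Ioo 0 t, f r := by
  have h1 : IntervalIntegrable f volume 0 t := by
    rwa [intervalIntegrable_iff_integrableOn_Ioo_of_le ht]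
  have h2 := h1.comp_sub_left t
  simp only [sub_zero, sub_self] at h2
  refine ⟨?_, ?_⟩
  · have h3 := h2.symm
    rwa [intervalIntegrable_iff_integrableOn_Ioo_of_le ht] at h3
  · rw [← integral_Ioc_eq_integral_Ioo, ← integral_Ioc_eq_integral_Ioo,
      ← intervalIntegral.integral_of_le ht, ← intervalIntegral.integral_of_le ht,
      intervalIntegral.integral_comp_sub_left]
    simp

/-- Duhamel's formula, abstract form: `p` the pairing with the test function, `l` with its
Laplacian, `m` with the second Laplacian; `n`, `e` the nonlinear terms. -/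
theorem mt_duh {t : ℝ} (ht : 0 ≤ t) {p l m n e : ℝ → ℝ → ℝ}
    (A1 : p t 0 - p 0 0 = ∫ τ in Ioo 0 t, l τ 0)
    (A2 : ∀ᵐ r ∂(volume.restrict (Ioo 0 t)), ∀ σ, 0 ≤ σ → l σ r - l 0 r + (n σ r - n 0 r) =
      ∫ τ in (0:ℝ)..σ, (m τ r + e τ r))
    (B1 : IntegrableOn (fun r => l 0 r + n 0 r) (Ioo 0 t) volume)
    (B1' : p 0 t - p 0 0 = ∫ r in Ioo 0 t, (l 0 r + n 0 r))
    (B2 : ∀ τ ∈ Ioo 0 t, l τ (t - τ) - l τ 0 = ∫ r in (0:ℝ)..(t - τ), (m τ r + e τ r))
    (hl : IntegrableOn (fun τ => l τ 0) (Ioo 0 t) volume)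
    (hG : Integrable (Function.uncurry fun τ r => m τ r + e τ r)
      ((volume.restrict (Ioo 0 t)).prod (volume.restrict (Ioo 0 t)))) :
    IntegrableOn (fun r => n (t - r) r) (Ioo 0 t) volume ∧
    p 0 t - p t 0 = ∫ r in Ioo 0 t, n (t - r) r := by
  obtain ⟨i1, i2, e0⟩ := mt_tri hG
  have i3 : IntegrableOn (fun τ => l τ (t - τ)) (Ioo 0 t) volume := by
    refine (i1.add hl).congr ?_
    filter_upwards [ae_restrict_mem measurableSet_Ioo] with τ hτ
    simp only [Pi.add_apply]
    rw [← B2 τ hτ]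
    ring
  obtain ⟨i4, e4⟩ := mt_refl ht i3
  have i4' : IntegrableOn (fun r => l (t - r) r) (Ioo 0 t) volume := by
    refine i4.congr (Eventually.of_forall fun r => ?_)
    simp only [sub_sub_cancel]
  have e4' : ∫ r in Ioo 0 t, l (t - r) r = ∫ τ in Ioo 0 t, l τ (t - τ) := by
    rw [← e4]
    simp only [sub_sub_cancel]
  have e5 : ∫ τ in Ioo 0 t, l τ 0 = (∫ τ in Ioo 0 t, l τ (t - τ)) -
      ∫ τ in Ioo 0 t, ∫ r in (0:ℝ)..(t - τ), (m τ r + e τ r) := by
    rw [← integral_sub i3 i1]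
    apply setIntegral_congr_fun measurableSet_Ioo
    intro τ hτ
    simp only
    rw [← B2 τ hτ]
    ring
  have e6 : ∀ᵐ r ∂(volume.restrict (Ioo 0 t)), n (t - r) r =
      (∫ τ in (0:ℝ)..(t - r), (m τ r + e τ r)) - l (t - r) r + (l 0 r + n 0 r) := by
    filter_upwards [A2, ae_restrict_mem measurableSet_Ioo] with r hr hr'
    rw [← hr (t - r) (by linarith [hr'.2])]
    ring
  have i5 := (i2.sub i4').add B1
  refine ⟨i5.congr ?_, ?_⟩
  · filter_upwards [e6] with r hr
    rw [hr]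
    simp only [Pi.add_apply, Pi.sub_apply]
  · have e7 : ∫ r in Ioo 0 t, n (t - r) r = ((∫ r in Ioo 0 t, ∫ τ in (0:ℝ)..(t - r),
        (m τ r + e τ r)) - ∫ r in Ioo 0 t, l (t - r) r) + ∫ r in Ioo 0 t, (l 0 r + n 0 r) := by
      rw [integral_congr_ae e6, ← integral_sub i2 i4']
      exact integral_add (i2.sub i4') B1
    rw [e7, ← e0, e4', ← B1']
    linarith [A1, e5]

end Pool.Agent.TF
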