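import Pool.Agent.TF.M.Hs
import Pool.Agent.TF.M.Tri2

/-!
# Block M: Duhamel's formula for Leray solutions, tested
-/

set_option autoImplicit false

namespace Pool.Agent.TF

open MeasureTheory Set Filter Topology Pool.Agent.TO Pool.Agent.TB Pool.Agent.TC Pool.Agent.TP
open scoped ENNReal NNReal Real InnerProductSpace SchwartzMap LineDeriv

variable {T : ℝ} {u₀ : V3} {u : ℝ → V3} {Du : ℝ → Fin 3 → V3} {b : ℝ → ℝ}

/-- a measurable version of a curve in `L²` with bounded values -/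
theorem md_version {C : ℝ} (hm : AEStronglyMeasurable u (volume.restrict (Ioo 0 T)))
    (hb : ∀ t ∈ Ioo 0 T, Bd (u t) (b t)) (hb0 : ∀ t, 0 ≤ b t) (hC : 0 ≤ C)
    (hn : ∀ t ∈ Ioo 0 T, ‖u t‖ ≤ C) : ∃ w : ℝ → V3, StronglyMeasurable w ∧
      (∀ t, Bd (w t) (b t)) ∧ (∀ t, ‖w t‖ ≤ C) ∧ u =ᵐ[volume.restrict (Ioo 0 T)] w := by
  obtain ⟨N, h1, h2, h3⟩ := exists_measurable_superset_of_null
    (μ := volume.restrict (Ioo 0 T)) (s := {t | ¬ u t = hm.mk u t}) (ae_iff.1 hm.ae_eq_mk)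
  have hz : ∀ t, Bd (0 : V3) (b t) := by
    intro t
    unfold Bd
    filter_upwards [Lp.coeFn_zero E3 2 (volume : Measure E3)] with x hx
    rw [hx, Pi.zero_apply, norm_zero]
    exact hb0 t
  have hmem : ∀ t ∈ Ioo 0 T ∩ Nᶜ, hm.mk u t = u t := by
    intro t ht
    by_contra h
    exact ht.2 (h1 fun h' => h h'.symm)
  refine ⟨(Ioo 0 T ∩ Nᶜ).indicator (hm.mk u),
    hm.stronglyMeasurable_mk.indicator (measurableSet_Ioo.inter h2.compl), ?_, ?_, ?_⟩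
  · intro t
    by_cases ht : t ∈ Ioo 0 T ∩ Nᶜ
    · rw [indicator_of_mem ht, hmem t ht]
      exact hb t ht.1
    · rw [indicator_of_notMem ht]
      exact hz t
  · intro t
    by_cases ht : t ∈ Ioo 0 T ∩ Nᶜ
    · rw [indicator_of_mem ht, hmem t ht]
      exact hn t ht.1
    · rw [indicator_of_notMem ht, norm_zero]
      exact hC
  · have h4 : ∀ᵐ t ∂(volume.restrict (Ioo 0 T)), t ∈ Nᶜ := by
      rw [ae_iff]
      simpa using h3
    filter_upwards [h4, ae_restrict_mem measurableSet_Ioo] with t ht ht'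
    have h5 : t ∈ Ioo 0 T ∩ Nᶜ := ⟨ht', ht⟩
    rw [indicator_of_mem h5, hmem t h5]

theorem md_cont_tens (k : Fin 3) {E : V3} {B : ℝ} (hE : Bd E B) :
    Continuous fun f : V3 => tens k f E := by
  have hB : 0 ≤ B := by
    obtain ⟨x, hx⟩ := Eventually.exists hE
    exact (norm_nonneg _).trans hx
  apply LipschitzWith.continuous (K := (⟨B, hB⟩ : ℝ≥0))
  apply LipschitzWith.of_dist_le_mul
  intro f g
  rw [dist_eq_norm, dist_eq_norm, ← tens_sub_left k f g hE]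
  exact norm_tens_right_le k _ hE

/-- the weak formulation with square integrable test fields -/
theorem md_weak (hu : IsLeray T u₀ u)
    (hDu : ∀ᵐ t ∂(volume.restrict (Ioo 0 T)), ∀ k, IsWeakDeriv k (u t) (Du t k))
    (hDui : ∀ t ∈ Ico 0 T, IntegrableOn (fun τ => ∑ k, ‖Du τ k‖ ^ 2) (Ioo 0 t) volume)
    (hb : ∀ t ∈ Ioo 0 T, Bd (u t) (b t))
    {φ : V3} (hdiv : IsDivFree φ) {dφ ddφ : Fin 3 → V3} (h1 : ∀ k, IsWeakDeriv k φ (dφ k))
    (h2 : ∀ k, IsWeakDeriv k (dφ k) (ddφ k)) {A : ℝ}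
    (hA : ∀ k, Bd (dφ k) A) {s t : ℝ} (hs : 0 ≤ s) (hst : s ≤ t) (ht : t < T) :
    IntegrableOn (fun τ => ⟪∑ k, ddφ k, u τ⟫_ℝ + ∑ k, ⟪dφ k, tens k (u τ) (u τ)⟫_ℝ)
      (Ioo s t) volume ∧
    ⟪φ, u t⟫_ℝ - ⟪φ, u s⟫_ℝ = ∫ τ in Ioo s t,
      (⟪∑ k, ddφ k, u τ⟫_ℝ + ∑ k, ⟪dφ k, tens k (u τ) (u τ)⟫_ℝ) := by
  obtain ⟨i1, e1⟩ := lemT hu hDu hDui hdiv h1 hA hs hst ht
  have hsubT : Ioo s t ⊆ Ioo 0 T := Ioo_subset_Ioo hs ht.le
  have e2 : ∀ᵐ τ ∂(volume.restrict (Ioo s t)), TT dφ (u τ) (Du τ) =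
      ⟪∑ k, ddφ k, u τ⟫_ℝ + ∑ k, ⟪dφ k, tens k (u τ) (u τ)⟫_ℝ := by
    filter_upwards [ae_restrict_of_ae_restrict_of_subset hsubT hDu,
      ae_restrict_mem measurableSet_Ioo] with τ h3 h4
    unfold TT
    rw [sum_inner, ← Finset.sum_neg_distrib]
    congr 1
    · refine Finset.sum_congr rfl fun k _ => ?_
      have h5 := weak_parts (f := u τ) (g := dφ k) (df := Du τ) (dg := ddφ) h3 (k := k) (h2 k)
      rw [real_inner_comm, h5, neg_neg, real_inner_comm]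
    · exact Finset.sum_congr rfl fun k _ => tens_swap k (u τ) (hA k) (hb τ (hsubT h4))
  refine ⟨i1.congr e2, ?_⟩
  rw [e1]
  exact integral_congr_ae e2

/-- the Laplacian of a Schwartz field -/
noncomputable def lapS (φ : 𝓢(E3, E3)) : 𝓢(E3, E3) := ∑ k, ∂_{ee k} (∂_{ee k} φ)

theorem emb_lapS (φ : 𝓢(E3, E3)) : emb (lapS φ) = ∑ k, emb (∂_{ee k} (∂_{ee k} φ)) := by
  unfold lapS
  rw [map_sum]

theorem lapS_line (φ : 𝓢(E3, E3)) (k : Fin 3) : lapS (∂_{ee k} φ) = ∂_{ee k} (lapS φ) := by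
  unfold lapS
  rw [Fin.sum_univ_three, Fin.sum_univ_three, LineDeriv.lineDerivOp_add,
    LineDeriv.lineDerivOp_add]
  have h : ∀ i : Fin 3, (∂_{ee i} (∂_{ee i} (∂_{ee k} φ)) : 𝓢(E3, E3)) =
      ∂_{ee k} (∂_{ee i} (∂_{ee i} φ)) := by
    intro i
    rw [lineDeriv_comm φ i k, lineDeriv_comm (∂_{ee i} φ) i k]
  rw [h, h, h]

/-- the heat equation for Schwartz fields, integrated -/
theorem Hs_intS (φ : 𝓢(E3, E3)) {σ : ℝ} (hσ : 0 ≤ σ) (g : V3) :
    ⟪Hs σ (emb φ), g⟫_ℝ - ⟪emb φ, g⟫_ℝ = ∫ τ in (0:ℝ)..σ, ⟪Hs τ (emb (lapS φ)), g⟫_ℝ := by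
  rw [emb_lapS]
  exact Hs_int (fun k => weak_schwartz φ k) (fun k => weak_schwartz _ k) hσ g

/-- measurability and boundedness of the integrand -/
theorem md_meas {w : ℝ → V3} (hw : StronglyMeasurable w) (hb : ∀ t, Bd (w t) (b t)) (M : V3)
    (E : Fin 3 → V3) {B : ℝ} (hE : ∀ k, Bd (E k) B) :
    StronglyMeasurable (Function.uncurry fun τ r => ⟪Hs τ M, w r⟫_ℝ +
      ∑ k, ⟪Hs τ (E k), tens k (w r) (w r)⟫_ℝ) := by
  have hB : 0 ≤ B := by
    obtain ⟨x, hx⟩ := (hE 0).exists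
    exact (norm_nonneg _).trans hx
  apply stronglyMeasurable_uncurry_of_continuous_of_stronglyMeasurable
  · intro r
    exact (continuous_inner_Hs' M (w r)).add
      (continuous_finsetSum _ fun k _ => continuous_inner_Hs' (E k) _)
  · intro τ
    have e : ∀ r, ⟪Hs τ M, w r⟫_ℝ + ∑ k, ⟪Hs τ (E k), tens k (w r) (w r)⟫_ℝ =
        (fun f : V3 => ⟪Hs τ M, f⟫_ℝ + ∑ k, ⟪tens k f (Hs τ (E k)), f⟫_ℝ) (w r) := by
      intro r
      simp only
      congr 1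
      exact Finset.sum_congr rfl fun k _ => (tens_swap k (w r) (bd_Hs τ hB (hE k)) (hb r)).symm
    have hc : Continuous (fun f : V3 => ⟪Hs τ M, f⟫_ℝ + ∑ k, ⟪tens k f (Hs τ (E k)), f⟫_ℝ) :=
      (continuous_const.inner continuous_id).add (continuous_finsetSum _ fun k _ =>
        (md_cont_tens k (bd_Hs τ hB (hE k))).inner continuous_id)
    simp only [e]
    exact hc.comp_stronglyMeasurable hw

theorem md_bound (τ : ℝ) {f : V3} {c C : ℝ} (hf : Bd f c) (hn : ‖f‖ ≤ C) (M : V3)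
    (E : Fin 3 → V3) {B : ℝ} (hE : ∀ k, Bd (E k) B) :
    ‖⟪Hs τ M, f⟫_ℝ + ∑ k, ⟪Hs τ (E k), tens k f f⟫_ℝ‖ ≤ ‖M‖ * C + 3 * (B * C * C) := by
  have hB : 0 ≤ B := by
    obtain ⟨x, hx⟩ := (hE 0).exists
    exact (norm_nonneg _).trans hx
  have hC : 0 ≤ C := (norm_nonneg _).trans hn
  refine (norm_add_le _ _).trans (add_le_add ?_ ?_)
  · refine (norm_inner_le_norm _ _).trans ?_
    exact mul_le_mul (norm_Hs_le τ M) hn (norm_nonneg _) (norm_nonneg _)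
  · refine (norm_sum_le _ _).trans ?_
    calc ∑ k, ‖⟪Hs τ (E k), tens k f f⟫_ℝ‖ ≤ ∑ _k : Fin 3, B * C * C := by
          refine Finset.sum_le_sum fun k _ => ?_
          rw [← tens_swap k f (bd_Hs τ hB (hE k)) hf]
          refine (norm_inner_le_norm _ _).trans ?_
          have h1 := norm_tens_right_le k f (bd_Hs τ hB (hE k))
          calc ‖tens k f (Hs τ (E k))‖ * ‖f‖ ≤ (B * ‖f‖) * ‖f‖ := by gcongr
            _ ≤ B * C * C := by gcongr
      _ = 3 * (B * C * C) := by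
          rw [Finset.sum_const, Finset.card_univ, Fintype.card_fin, nsmul_eq_mul]
          norm_num

/-- Duhamel's formula, tested with a divergence-free Schwartz field -/
theorem md_duhamel (h : IsLeray T u₀ u) (hb : ∀ t ∈ Ioo 0 T, Bd (u t) (b t))
    (hb0 : ∀ t, 0 ≤ b t) {t : ℝ} (ht : t ∈ Ioo 0 T) {φ : 𝓢(E3, E3)} (hφ : TestDivFree φ) :
    IntegrableOn (fun r => ∑ k, ⟪Hs (t - r) (emb (∂_{ee k} φ)), tens k (u r) (u r)⟫_ℝ)
      (Ioo 0 t) volume ∧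
    ⟪emb φ, u t⟫_ℝ - ⟪Hs t (emb φ), u₀⟫_ℝ =
      ∫ r in Ioo 0 t, ∑ k, ⟪Hs (t - r) (emb (∂_{ee k} φ)), tens k (u r) (u r)⟫_ℝ := by
  obtain ⟨Du, hDu, hDui, -⟩ := exists_grad_en h
  have hsub : Ioo 0 t ⊆ Ioo 0 T := Ioo_subset_Ioo le_rfl ht.2.le
  have hnorm : ∀ s ∈ Ioo 0 T, ‖u s‖ ≤ ‖u₀‖ := fun s hs => h.norm_le ⟨hs.1.le, hs.2⟩
  obtain ⟨w, hw1, hw2, hw3, hw4⟩ := md_version h.meas hb hb0 (norm_nonneg u₀) hnorm
  have hw5 : u =ᵐ[volume.restrict (Ioo 0 t)] w := ae_restrict_of_ae_restrict_of_subset hsub hw4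
  have hdiv : IsDivFree (emb φ) := div_schwartz hφ
  have hdivl : IsDivFree (emb (lapS φ)) := by
    rw [emb_lapS]
    exact mdiv_sum fun k => mdiv_weak (mdiv_weak hdiv (weak_schwartz φ k)) (weak_schwartz _ k)
  -- the bounds of the derivatives
  obtain ⟨B, hB⟩ : ∃ B, ∀ k, Bd (emb (∂_{ee k} (lapS φ))) B := by
    refine ⟨∑ k, SchwartzMap.seminorm ℝ 0 0 (∂_{ee k} (lapS φ)), fun k => ?_⟩
    filter_upwards [bd_emb (∂_{ee k} (lapS φ))] with x hx
    exact hx.trans (Finset.single_le_sum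
      (f := fun k => SchwartzMap.seminorm ℝ 0 0 (∂_{ee k} (lapS φ)))
      (fun _ _ => by positivity) (Finset.mem_univ k))
  obtain ⟨B', hB'⟩ : ∃ B, ∀ k, Bd (emb (∂_{ee k} φ)) B := by
    refine ⟨∑ k, SchwartzMap.seminorm ℝ 0 0 (∂_{ee k} φ), fun k => ?_⟩
    filter_upwards [bd_emb (∂_{ee k} φ)] with x hx
    exact hx.trans (Finset.single_le_sum
      (f := fun k => SchwartzMap.seminorm ℝ 0 0 (∂_{ee k} φ))
      (fun _ _ => by positivity) (Finset.mem_univ k))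
  have hB0 : 0 ≤ B := by
    obtain ⟨x, hx⟩ := (hB 0).exists
    exact (norm_nonneg _).trans hx
  have B1 := md_weak h hDu hDui hb hdiv (fun k => weak_schwartz φ k)
    (fun k => weak_schwartz _ k) hB' le_rfl ht.1.le ht.2
  rw [← emb_lapS] at B1
  have key := mt_duh ht.1.le
    (p := fun σ r => ⟪Hs σ (emb φ), u r⟫_ℝ)
    (l := fun σ r => ⟪Hs σ (emb (lapS φ)), u r⟫_ℝ)
    (m := fun σ r => ⟪Hs σ (emb (lapS (lapS φ))), u r⟫_ℝ)
    (n := fun σ r => ∑ k, ⟪Hs σ (emb (∂_{ee k} φ)), tens k (u r) (u r)⟫_ℝ)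
    (e := fun σ r => ∑ k, ⟪Hs σ (emb (∂_{ee k} (lapS φ))), tens k (u r) (u r)⟫_ℝ)
    ?_ ?_ ?_ ?_ ?_ ?_ ?_
  · refine ⟨key.1, ?_⟩
    have h2 := key.2
    simp only [Hs_nonpos (σ := 0) le_rfl, h.init] at h2
    exact h2
  · -- A1
    simp only [Hs_nonpos (σ := 0) le_rfl]
    rw [Hs_intS φ ht.1.le, intervalIntegral.integral_of_le ht.1.le,
      integral_Ioc_eq_integral_Ioo]
  · -- A2
    refine Eventually.of_forall fun r σ hσ => ?_
    simp only [Hs_nonpos (σ := 0) le_rfl]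
    rw [intervalIntegral.integral_add ((continuous_inner_Hs' _ _).intervalIntegrable _ _)
      ((continuous_finsetSum _ fun k _ => continuous_inner_Hs' _ _).intervalIntegrable _ _),
      intervalIntegral.integral_finsetSum fun k _ =>
        (continuous_inner_Hs' _ _).intervalIntegrable _ _, Hs_intS (lapS φ) hσ,
      ← Finset.sum_sub_distrib]
    congr 1
    refine Finset.sum_congr rfl fun k _ => ?_
    rw [Hs_intS (∂_{ee k} φ) hσ, lapS_line]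
  · -- B1
    simp only [Hs_nonpos (σ := 0) le_rfl]
    exact B1.1
  · simp only [Hs_nonpos (σ := 0) le_rfl]
    exact B1.2
  · -- B2
    intro τ hτ
    have h3 := (md_weak h hDu hDui hb (φ := Hs τ (emb (lapS φ)))
      (dφ := fun k => Hs τ (emb (∂_{ee k} (lapS φ))))
      (ddφ := fun k => Hs τ (emb (∂_{ee k} (∂_{ee k} (lapS φ))))) (mdiv_Hs τ hdivl)
      (fun k => weak_Hs τ (weak_schwartz _ k)) (fun k => weak_Hs τ (weak_schwartz _ k))
      (A := B) (fun k => bd_Hs τ hB0 (hB k)) le_rfl (sub_nonneg.2 hτ.2.le)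
      (by linarith [hτ.1, ht.2] : t - τ < T)).2
    rw [← map_sum, ← emb_lapS] at h3
    rw [h3, intervalIntegral.integral_of_le (sub_nonneg.2 hτ.2.le),
      integral_Ioc_eq_integral_Ioo]
  · -- integrability in the first variable
    have hc := continuous_inner_Hs' (emb (lapS φ)) (u 0)
    exact (hc.integrableOn_Icc (a := 0) (b := t)).mono_set Ioo_subset_Icc_self
  · -- joint integrability
    have hfin : IsFiniteMeasure (volume.restrict (Ioo 0 t)) := ⟨by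
      rw [Measure.restrict_apply_univ, Real.volume_Ioo]
      exact ENNReal.ofReal_lt_top⟩
    have hsm := md_meas hw1 hw2 (emb (lapS (lapS φ))) (fun k => emb (∂_{ee k} (lapS φ))) hB
    have hi : Integrable (Function.uncurry fun τ r => ⟪Hs τ (emb (lapS (lapS φ))), w r⟫_ℝ +
        ∑ k, ⟪Hs τ (emb (∂_{ee k} (lapS φ))), tens k (w r) (w r)⟫_ℝ)
        ((volume.restrict (Ioo 0 t)).prod (volume.restrict (Ioo 0 t))) :=
      Integrable.of_bound hsm.aestronglyMeasurable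
        (‖emb (lapS (lapS φ))‖ * ‖u₀‖ + 3 * (B * ‖u₀‖ * ‖u₀‖))
        (Eventually.of_forall fun q => md_bound q.1 (hw2 q.2) (hw3 q.2) _ _ hB)
    refine hi.congr ?_
    have h6 : ∀ᵐ q ∂((volume.restrict (Ioo 0 t)).prod (volume.restrict (Ioo 0 t))),
        u q.2 = w q.2 := Measure.quasiMeasurePreserving_snd.ae hw5
    filter_upwards [h6] with q hq
    simp only [Function.uncurry, hq]

end Pool.Agent.TF
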