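import Pool.Agent.TF.M.OseeG

/-!
# The kernel `oseen` tested with Schwartz functions
-/

set_option autoImplicit false

namespace Pool.Agent.TF.GK

open MeasureTheory Set Filter Topology Pool.Agent.TO Pool.Agent.TB
open scoped ENNReal NNReal Real InnerProductSpace SchwartzMap LineDeriv

/-! ## Fubini -/

theorem integrableOn_pow3 {σ : ℝ} (hσ : 0 < σ) :
    IntegrableOn (fun τ : ℝ => τ ^ (-(3 / 2) : ℝ) * (5 * √τ / τ ^ 2)) (Ioi σ) volume := by
  have h1 := (integrableOn_Ioi_rpow_of_lt (a := -3) (by norm_num) hσ).const_mul 5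
  refine IntegrableOn.congr_fun h1 (fun τ hτ => ?_) measurableSet_Ioi
  have h0 : 0 < τ := hσ.trans hτ
  have e1 : (5 * √τ / τ ^ 2) = 5 * τ ^ (-(3 / 2) : ℝ) := by
    rw [Real.sqrt_eq_rpow, ← Real.rpow_natCast, mul_div_assoc, ← Real.rpow_sub h0]
    norm_num
  simp only [e1]
  rw [mul_left_comm, ← Real.rpow_add h0]
  norm_num

theorem integrableOn_pow2 {σ : ℝ} (hσ : 0 < σ) :
    IntegrableOn (fun τ : ℝ => τ ^ (-(3 / 2) : ℝ) * (2 / τ)) (Ioi σ) volume := by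
  have h1 := (integrableOn_Ioi_rpow_of_lt (a := -(5 / 2)) (by norm_num) hσ).const_mul 2
  refine IntegrableOn.congr_fun h1 (fun τ hτ => ?_) measurableSet_Ioi
  have h0 : 0 < τ := hσ.trans hτ
  have e1 : (2 / τ) = 2 * τ ^ (-1 : ℝ) := by
    rw [Real.rpow_neg_one, div_eq_mul_inv]
  simp only [e1]
  rw [mul_left_comm, ← Real.rpow_add h0]
  norm_num

theorem integrable_prod_aux {σ : ℝ} (η : 𝓢(E3, ℝ)) (y : E3) {G : ℝ → E3 → ℝ}
    (hG : Measurable fun p : ℝ × E3 => G p.1 p.2) {b : ℝ → ℝ} (hb : IntegrableOn b (Ioi σ) volume)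
    (hle : ∀ τ ∈ Ioi σ, ∀ x, |G τ x| ≤ b τ) :
    Integrable (Function.uncurry fun (x : E3) (τ : ℝ) => η x * G τ (x - y))
      ((volume : Measure E3).prod (volume.restrict (Ioi σ))) := by
  have h1 := ((η.integrable (μ := (volume : Measure E3))).mul_prod hb)
  refine h1.mono ?_ ?_
  · refine Measurable.aestronglyMeasurable ?_
    have m1 : Measurable fun p : E3 × ℝ => η p.1 := η.continuous.measurable.comp measurable_fst
    have m2 : Measurable fun p : E3 × ℝ => G p.2 (p.1 - y) :=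
      hG.comp (measurable_snd.prodMk (measurable_fst.sub_const y))
    exact m1.mul m2
  · have h2 : ∀ᵐ p : E3 × ℝ ∂((volume : Measure E3).prod (volume.restrict (Ioi σ))),
        p.2 ∈ Ioi σ := by
      have := (Measure.quasiMeasurePreserving_snd (μ := (volume : Measure E3))
        (ν := volume.restrict (Ioi σ))).ae (ae_restrict_mem measurableSet_Ioi)
      exact this
    filter_upwards [h2] with p hp
    rw [norm_mul]
    simp only [Function.uncurry]
    rw [norm_mul, Real.norm_eq_abs (G p.2 (p.1 - y))]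
    gcongr
    exact (hle p.2 hp _).trans (le_abs_self _)

theorem int_oseen_part {σ : ℝ} (hσ : 0 < σ) (η : 𝓢(E3, ℝ)) (i j k : Fin 3) (y : E3) :
    ∫ x, η x * (∫ τ in Ioi σ, gauss3 τ (x - y) i j k) =
      ∫ τ in Ioi σ, ∫ x, η x * gauss3 τ (x - y) i j k := by
  simp only [← integral_const_mul]
  exact integral_integral_swap (integrable_prod_aux η y (measurable_gauss3 i j k)
    (integrableOn_pow3 hσ) fun τ hτ x => gauss3_abs_le (hσ.trans hτ) x i j k)

theorem abs_oseen_part_le {σ : ℝ} (hσ : 0 < σ) (z : E3) (i j k : Fin 3) :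
    |∫ τ in Ioi σ, gauss3 τ z i j k| ≤
      ∫ τ in Ioi σ, τ ^ (-(3 / 2) : ℝ) * (5 * √τ / τ ^ 2) := by
  rw [← Real.norm_eq_abs]
  refine norm_integral_le_of_norm_le (integrableOn_pow3 hσ) ?_
  filter_upwards [ae_restrict_mem measurableSet_Ioi] with τ hτ
  exact gauss3_abs_le (hσ.trans hτ) z i j k

theorem measurable_part {σ : ℝ} (i j k : Fin 3) :
    StronglyMeasurable fun z : E3 => ∫ τ in Ioi σ, gauss3 τ z i j k := by
  have h1 : StronglyMeasurable (Function.uncurry fun (z : E3) (τ : ℝ) => gauss3 τ z i j k) :=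
    ((measurable_gauss3 i j k).comp measurable_swap).stronglyMeasurable
  exact h1.integral_prod_right

theorem integrable_part {σ : ℝ} (hσ : 0 < σ) (η : 𝓢(E3, ℝ)) (i j k : Fin 3) (y : E3) :
    Integrable (fun x => η x * ∫ τ in Ioi σ, gauss3 τ (x - y) i j k) volume := by
  refine (η.integrable (μ := (volume : Measure E3))).mul_bdd
    (c := ∫ τ in Ioi σ, τ ^ (-(3 / 2) : ℝ) * (5 * √τ / τ ^ 2))
    ((measurable_part i j k).comp_measurable (measurable_id.sub_const y)).aestronglyMeasurable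
    (Eventually.of_forall fun x => ?_)
  rw [Real.norm_eq_abs]
  exact abs_oseen_part_le hσ _ i j k

theorem integrable_oseen_mul {σ : ℝ} (hσ : 0 < σ) (η : 𝓢(E3, ℝ)) (i j k : Fin 3) (y : E3) :
    Integrable (fun x => η x * oseen σ (x - y) i j k) volume := by
  have h1 := (integrable_mul_shift η (continuous_gauss1 σ k) (fun x => gauss1_abs_le hσ x k)
    y).const_mul (kron i j)
  refine (h1.add (integrable_part hσ η i j k y)).congr (Eventually.of_forall fun x => ?_)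
  simp only [Pi.add_apply, oseen]
  ring

/-- one component of the formula (K) -/
theorem int_oseen {σ : ℝ} (hσ : 0 < σ) (η : 𝓢(E3, ℝ)) (i j k : Fin 3) (y : E3) :
    ∫ x, η x * oseen σ (x - y) i j k = -(kron i j * heat σ (∂_{ee k} η : 𝓢(E3, ℝ)) y) -
      ∫ τ in Ioi σ, heat τ (∂_{ee j} (∂_{ee k} (∂_{ee i} η)) : 𝓢(E3, ℝ)) y := by
  have h1 := (integrable_mul_shift η (continuous_gauss1 σ k) (fun x => gauss1_abs_le hσ x k)
    y).const_mul (kron i j)
  have h2 := integrable_part hσ η i j k y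
  have e1 : ∀ x, η x * oseen σ (x - y) i j k = kron i j * (η x * gauss1 σ (x - y) k) +
      η x * ∫ τ in Ioi σ, gauss3 τ (x - y) i j k := by
    intro x
    simp only [oseen]
    ring
  simp only [e1]
  rw [integral_add h1 h2, integral_const_mul, int_gauss1 hσ, int_oseen_part hσ]
  have e2 : ∫ τ in Ioi σ, ∫ x, η x * gauss3 τ (x - y) i j k =
      ∫ τ in Ioi σ, -heat τ (∂_{ee j} (∂_{ee k} (∂_{ee i} η)) : 𝓢(E3, ℝ)) y :=
    setIntegral_congr_fun measurableSet_Ioi fun τ hτ => int_gauss3 (hσ.trans hτ) η i j k y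
  rw [e2, integral_neg]
  ring

theorem integrable_hk_mul {τ : ℝ} (hτ : 0 < τ) (f : 𝓢(E3, ℝ)) (y : E3) :
    Integrable (fun x => f x * gauss τ (x - y)) volume :=
  integrable_mul_shift f (continuous_gauss τ)
    (fun x => (abs_of_nonneg (gauss_nonneg hτ x)).le.trans (gauss_le hτ x)) y

theorem heat_sum {τ : ℝ} (hτ : 0 < τ) (f : Fin 3 → 𝓢(E3, ℝ)) (y : E3) :
    heat τ (∑ i, f i : 𝓢(E3, ℝ)) y = ∑ i, heat τ (f i) y := by
  simp only [heat_eq_int]
  rw [← integral_finsetSum _ fun i _ => integrable_hk_mul hτ (f i) y]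
  congr 1
  ext x
  rw [← Finset.sum_mul]
  congr 1

/-- `|e^{τ Δ} f| ≤ τ^{-3/2} ‖f‖₁` -/
theorem abs_heat_le {τ : ℝ} (hτ : 0 < τ) (f : 𝓢(E3, ℝ)) (y : E3) :
    |heat τ f y| ≤ τ ^ (-(3 / 2) : ℝ) * ∫ x, |f x| := by
  rw [heat_eq_int, ← Real.norm_eq_abs, ← integral_const_mul]
  refine norm_integral_le_of_norm_le ((f.integrable (μ := (volume : Measure E3))).abs.const_mul _)
    (Eventually.of_forall fun x => ?_)
  rw [norm_mul, Real.norm_eq_abs, Real.norm_eq_abs, abs_of_nonneg (gauss_nonneg hτ _), mul_comm]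
  exact mul_le_mul_of_nonneg_right (gauss_le hτ _) (abs_nonneg _)

theorem integrableOn_heat {σ : ℝ} (hσ : 0 < σ) (f : 𝓢(E3, ℝ)) (y : E3) :
    IntegrableOn (fun τ => heat τ f y) (Ioi σ) volume := by
  have h1 := (integrableOn_Ioi_rpow_of_lt (a := -(3 / 2)) (by norm_num) hσ).mul_const
    (∫ x, |f x|)
  refine Integrable.mono' h1 ?_ ?_
  · have m : StronglyMeasurable (Function.uncurry fun (τ : ℝ) (x : E3) => f x * gauss τ (x - y)) := by
      refine Measurable.stronglyMeasurable ?_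
      have m1 : Measurable fun p : ℝ × E3 => f p.2 := f.continuous.measurable.comp measurable_snd
      have m2 : Measurable fun p : ℝ × E3 => gauss p.1 (p.2 - y) :=
        measurable_gauss.comp (measurable_fst.prodMk (measurable_snd.sub_const y))
      exact m1.mul m2
    have := m.integral_prod_right (ν := (volume : Measure E3))
    simp only [heat_eq_int]
    exact this.aestronglyMeasurable
  · filter_upwards [ae_restrict_mem measurableSet_Ioi] with τ hτ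
    exact abs_heat_le (hσ.trans hτ) f y

/-- the formula (K) -/
theorem oseenK {σ : ℝ} (hσ : 0 < σ) (η : Fin 3 → 𝓢(E3, ℝ)) (y : E3) (j k : Fin 3) :
    ∑ i, ∫ x, η i x * oseen σ (x - y) i j k = -heat σ (∂_{ee k} (η j) : 𝓢(E3, ℝ)) y -
      ∫ τ in Ioi σ, heat τ (∂_{ee j} (∂_{ee k} (∑ i, ∂_{ee i} (η i))) : 𝓢(E3, ℝ)) y := by
  have e1 : ∀ i, ∫ x, η i x * oseen σ (x - y) i j k =
      -(kron i j * heat σ (∂_{ee k} (η i) : 𝓢(E3, ℝ)) y) -
      ∫ τ in Ioi σ, heat τ (∂_{ee j} (∂_{ee k} (∂_{ee i} (η i))) : 𝓢(E3, ℝ)) y :=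
    fun i => int_oseen hσ (η i) i j k y
  simp only [e1]
  rw [Finset.sum_sub_distrib]
  congr 1
  · rw [Finset.sum_neg_distrib]
    congr 1
    simp [kron]
  · rw [← integral_finsetSum _ fun i _ => integrableOn_heat hσ _ y]
    refine setIntegral_congr_fun measurableSet_Ioi fun τ hτ => ?_
    rw [← heat_sum (hσ.trans hτ)]
    congr 2
    simp only [LineDeriv.lineDerivOp_sum]

theorem heat_zero (τ : ℝ) (y : E3) : heat τ (0 : 𝓢(E3, ℝ)) y = 0 := by
  rw [heat_eq_int]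
  simp

theorem oseenK_div {σ : ℝ} (hσ : 0 < σ) (η : Fin 3 → 𝓢(E3, ℝ))
    (h : ∀ x, ∑ i, (∂_{ee i} (η i)) x = 0) (y : E3) (j k : Fin 3) :
    ∑ i, ∫ x, η i x * oseen σ (x - y) i j k = -heat σ (∂_{ee k} (η j) : 𝓢(E3, ℝ)) y := by
  have h1 : (∑ i, ∂_{ee i} (η i) : 𝓢(E3, ℝ)) = 0 := by
    ext x
    rw [sum_apply]
    exact h x
  rw [oseenK hσ, h1, LineDeriv.lineDerivOp_zero, LineDeriv.lineDerivOp_zero]
  simp only [heat_zero, integral_zero, sub_zero]

/-- `∂_τ G_τ` -/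
noncomputable def gaussT (τ : ℝ) (z : E3) : ℝ := (‖z‖ ^ 2 / (4 * τ ^ 2) - 3 / (2 * τ)) * gauss τ z

theorem sum_gauss2 (τ : ℝ) (z : E3) : ∑ i, gauss2 τ z i i = gaussT τ z := by
  have h1 : ‖z‖ ^ 2 = z 0 * z 0 + z 1 * z 1 + z 2 * z 2 := by
    rw [EuclideanSpace.norm_sq_eq, Fin.sum_univ_three]
    simp only [Real.norm_eq_abs, sq_abs]
    ring
  rw [gaussT, h1, Fin.sum_univ_three]
  simp only [gauss2, kron, if_true]
  ring

theorem hasDerivAt_gauss {τ : ℝ} (hτ : 0 < τ) (z : E3) :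
    HasDerivAt (fun s => gauss s z) (gaussT τ z) τ := by
  have hp := Real.pi_pos
  have h1 : HasDerivAt (fun s : ℝ => 4 * π * s) (4 * π) τ := by
    simpa using (hasDerivAt_id τ).const_mul (4 * π)
  have h2 := h1.rpow_const (p := -(3 / 2)) (Or.inl (by positivity))
  have h3 : HasDerivAt (fun s : ℝ => -‖z‖ ^ 2 / (4 * s)) (‖z‖ ^ 2 / (4 * τ ^ 2)) τ := by
    have h4 : HasDerivAt (fun s : ℝ => 4 * s) 4 τ := by
      simpa using (hasDerivAt_id τ).const_mul (4 : ℝ)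
    have h5 := (hasDerivAt_const τ (-‖z‖ ^ 2)).div h4 (by positivity)
    refine h5.congr_deriv ?_
    field_simp
    ring
  have h6 := h2.mul h3.exp
  unfold gauss
  refine h6.congr_deriv ?_
  rw [Real.rpow_sub_one (by positivity : 4 * π * τ ≠ 0)]
  simp only [gaussT, gauss]
  field_simp
  ring

theorem abs_gaussT_le {τ : ℝ} (hτ : 0 < τ) (z : E3) :
    |gaussT τ z| ≤ 3 * (τ ^ (-(3 / 2) : ℝ) * (2 / τ)) := by
  rw [← sum_gauss2]
  refine (Finset.abs_sum_le_sum_abs _ _).trans ?_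
  refine (Finset.sum_le_sum fun i _ => gauss2_abs_le hτ z i i).trans ?_
  simp

theorem measurable_gaussT : Measurable fun p : ℝ × E3 => gaussT p.1 p.2 := by
  have := measurable_gauss
  unfold gaussT
  fun_prop

theorem tendsto_gauss (z : E3) : Tendsto (fun s => gauss s z) atTop (𝓝 0) := by
  have h1 : Tendsto (fun s : ℝ => s ^ (-(3 / 2) : ℝ)) atTop (𝓝 0) :=
    tendsto_rpow_neg_atTop (by norm_num)
  refine squeeze_zero' ?_ ?_ h1
  · filter_upwards [eventually_gt_atTop 0] with s hs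
    exact gauss_nonneg hs z
  · filter_upwards [eventually_gt_atTop 0] with s hs
    exact gauss_le hs z

theorem integral_gaussT {σ : ℝ} (hσ : 0 < σ) (z : E3) :
    ∫ τ in Ioi σ, gaussT τ z = -gauss σ z := by
  have h1 : IntegrableOn (fun τ => gaussT τ z) (Ioi σ) volume := by
    refine Integrable.mono' ((integrableOn_pow2 hσ).const_mul 3) ?_ ?_
    · exact (measurable_gaussT.comp (measurable_id.prodMk measurable_const)).aestronglyMeasurable
    · filter_upwards [ae_restrict_mem measurableSet_Ioi] with τ hτ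
      exact abs_gaussT_le (hσ.trans hτ) z
  rw [integral_Ioi_of_hasDerivAt_of_tendsto' (fun x hx => hasDerivAt_gauss (hσ.trans_le hx) z) h1
    (tendsto_gauss z), zero_sub]

theorem heat_lap {τ : ℝ} (hτ : 0 < τ) (f : 𝓢(E3, ℝ)) (y : E3) :
    heat τ (∑ i, ∂_{ee i} (∂_{ee i} f) : 𝓢(E3, ℝ)) y = ∫ x, f x * gaussT τ (x - y) := by
  rw [heat_sum hτ]
  have e1 : ∀ i, heat τ (∂_{ee i} (∂_{ee i} f) : 𝓢(E3, ℝ)) y =
      ∫ x, f x * gauss2 τ (x - y) i i := fun i => (int_gauss2 hτ f i i y).symm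
  simp only [e1]
  rw [← integral_finsetSum _ fun i _ => integrable_mul_shift f (continuous_gauss2 τ i i)
    (fun x => gauss2_abs_le hτ x i i) y]
  congr 1
  ext x
  rw [← Finset.mul_sum, sum_gauss2]

/-- `∫_σ^∞ e^{τ Δ} Δ f dτ = -e^{σ Δ} f` -/
theorem integral_heat_lap {σ : ℝ} (hσ : 0 < σ) (f : 𝓢(E3, ℝ)) (y : E3) :
    ∫ τ in Ioi σ, heat τ (∑ i, ∂_{ee i} (∂_{ee i} f) : 𝓢(E3, ℝ)) y = -heat σ f y := by
  have e1 : ∫ τ in Ioi σ, heat τ (∑ i, ∂_{ee i} (∂_{ee i} f) : 𝓢(E3, ℝ)) y =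
      ∫ τ in Ioi σ, ∫ x, f x * gaussT τ (x - y) :=
    setIntegral_congr_fun measurableSet_Ioi fun τ hτ => heat_lap (hσ.trans hτ) f y
  rw [e1, ← integral_integral_swap (integrable_prod_aux f y measurable_gaussT
    ((integrableOn_pow2 hσ).const_mul 3) fun τ hτ x => abs_gaussT_le (hσ.trans hτ) x)]
  simp only [integral_const_mul, integral_gaussT hσ]
  rw [heat_eq_int, ← integral_neg]
  congr 1
  ext x
  ring

theorem line_comm (φ : 𝓢(E3, ℝ)) (i j : Fin 3) : ∂_{ee i} (∂_{ee j} φ) = ∂_{ee j} (∂_{ee i} φ) := by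
  ext x
  exact TP.lineDeriv_comm_R φ i j x

theorem oseenK_grad {σ : ℝ} (hσ : 0 < σ) (ψ : 𝓢(E3, ℝ)) (y : E3) (j k : Fin 3) :
    ∑ i, ∫ x, (∂_{ee i} ψ) x * oseen σ (x - y) i j k = 0 := by
  rw [oseenK hσ (fun i => ∂_{ee i} ψ)]
  have e1 : (∂_{ee j} (∂_{ee k} (∑ i, ∂_{ee i} (∂_{ee i} ψ))) : 𝓢(E3, ℝ)) =
      ∑ i, ∂_{ee i} (∂_{ee i} (∂_{ee j} (∂_{ee k} ψ))) := by
    simp only [LineDeriv.lineDerivOp_sum]
    refine Finset.sum_congr rfl fun i _ => ?_
    rw [line_comm _ k i, line_comm _ k i, line_comm _ j i, line_comm _ j i]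
  rw [e1, integral_heat_lap hσ, line_comm ψ k j]
  ring

/-! ## Vector fields -/

/-- the components of a Schwartz vector field -/
theorem exists_comp (φ : 𝓢(E3, E3)) : ∃ η : Fin 3 → 𝓢(E3, ℝ),
    (∀ i x, η i x = φ x i) ∧ ∀ i k x, (∂_{ee k} (η i)) x = (∂_{ee k} φ) x i := by
  refine ⟨fun i => φ.postcompCLM (EuclideanSpace.proj (𝕜 := ℝ) i : E3 →L[ℝ] ℝ), fun i x => rfl,
    fun i k x => ?_⟩
  have h1 := schwartz_line (φ.postcompCLM (EuclideanSpace.proj (𝕜 := ℝ) i : E3 →L[ℝ] ℝ)) k x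
  have h2 := (φ.differentiableAt (x := x)).hasFDerivAt.hasLineDerivAt (ee k)
  rw [← SchwartzMap.lineDerivOp_apply_eq_fderiv] at h2
  unfold HasLineDerivAt at h1 h2
  exact h1.unique (((EuclideanSpace.proj (𝕜 := ℝ) i : E3 →L[ℝ] ℝ).hasFDerivAt).comp_hasDerivAt _ h2)

theorem heat_comp {σ : ℝ} (hσ : 0 < σ) (φ : 𝓢(E3, E3)) (y : E3) (j : Fin 3) :
    (heat σ φ y) j = heat σ (fun x => φ x j) y := by
  have h1 : Integrable (fun z => hk σ z • φ (y - z)) volume := by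
    refine (((φ.integrable (μ := (volume : Measure E3))).comp_sub_left y).norm.const_mul
      (σ ^ (-(3 / 2) : ℝ))).mono'
      ((continuous_hk σ).smul (φ.continuous.comp (continuous_sub_left y))).aestronglyMeasurable
      (Eventually.of_forall fun z => ?_)
    rw [norm_smul, Real.norm_eq_abs, abs_of_pos (hk_pos hσ z)]
    gcongr
    exact gauss_le hσ z
  have h2 := (EuclideanSpace.proj (𝕜 := ℝ) j : E3 →L[ℝ] ℝ).integral_comp_comm h1
  exact h2.symm

theorem oseenK_vec {σ : ℝ} (hσ : 0 < σ) (φ : 𝓢(E3, E3)) (hφ : TestDivFree φ) (y : E3)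
    (j k : Fin 3) : ∑ i, ∫ x, φ x i * oseen σ (x - y) i j k =
      -(heat σ (∂_{ee k} φ : 𝓢(E3, E3)) y) j := by
  obtain ⟨η, h1, h2⟩ := exists_comp φ
  have h3 := oseenK_div hσ η (fun x => by
    simp only [h2]
    exact hφ x) y j k
  simp only [h1] at h3
  rw [h3, heat_comp hσ]
  have e1 : ((∂_{ee k} (η j) : 𝓢(E3, ℝ)) : E3 → ℝ) = fun x => (∂_{ee k} φ) x j :=
    funext fun x => h2 j k x
  rw [e1]

end Pool.Agent.TF.GK

namespace Pool.Agent.TF

open MeasureTheory Set Pool.Agent.TO Pool.Agent.TB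
open scoped SchwartzMap LineDeriv

variable {σ : ℝ}

theorem oseen_integrable (hσ : 0 < σ) (η : 𝓢(E3, ℝ)) (i j k : Fin 3) (y : E3) :
    Integrable (fun x => η x * oseen σ (x - y) i j k) volume := GK.integrable_oseen_mul hσ η i j k y

/-- the formula (K) -/
theorem oseenK (hσ : 0 < σ) (η : Fin 3 → 𝓢(E3, ℝ)) (y : E3) (j k : Fin 3) :
    ∑ i, ∫ x, η i x * oseen σ (x - y) i j k = -heat σ (∂_{ee k} (η j) : 𝓢(E3, ℝ)) y -
      ∫ τ in Ioi σ, heat τ (∂_{ee j} (∂_{ee k} (∑ i, ∂_{ee i} (η i))) : 𝓢(E3, ℝ)) y :=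
  GK.oseenK hσ η y j k

/-- the formula (K) for divergence-free fields -/
theorem oseenK_div (hσ : 0 < σ) (η : Fin 3 → 𝓢(E3, ℝ)) (h : ∀ x, ∑ i, (∂_{ee i} (η i)) x = 0)
    (y : E3) (j k : Fin 3) :
    ∑ i, ∫ x, η i x * oseen σ (x - y) i j k = -heat σ (∂_{ee k} (η j) : 𝓢(E3, ℝ)) y :=
  GK.oseenK_div hσ η h y j k

/-- the formula (K) for gradients -/
theorem oseenK_grad (hσ : 0 < σ) (ψ : 𝓢(E3, ℝ)) (y : E3) (j k : Fin 3) :
    ∑ i, ∫ x, (∂_{ee i} ψ) x * oseen σ (x - y) i j k = 0 := GK.oseenK_grad hσ ψ y j k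

/-- the formula (K) for divergence-free vector fields -/
theorem oseenK_vec (hσ : 0 < σ) (φ : 𝓢(E3, E3)) (hφ : TestDivFree φ) (y : E3) (j k : Fin 3) :
    ∑ i, ∫ x, φ x i * oseen σ (x - y) i j k = -(heat σ (∂_{ee k} φ : 𝓢(E3, E3)) y) j :=
  GK.oseenK_vec hσ φ hφ y j k

end Pool.Agent.TF
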