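import Pool.Agent.TF.M.Fub
import Pool.Agent.TF.M.Joint
import Pool.Agent.TF.M.Duh
import Pool.Agent.TF.M.OseeK

/-!
# Block M: the bilinear operator as a field in `L²`, tested
-/

set_option autoImplicit false

namespace Pool.Agent.TF

open MeasureTheory Set Filter Topology Pool.Agent.TO Pool.Agent.TB Pool.Agent.TC Pool.Agent.TP
open scoped ENNReal NNReal Real InnerProductSpace SchwartzMap LineDeriv

variable {T t a C : ℝ} {u₀ : V3} {u : ℝ → V3} {W : ℝ → E3 → E3}

/-- the components of `W ⊗ W` -/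
noncomputable def mF (W : ℝ → E3 → E3) (j k : Fin 3) (s : ℝ) (y : E3) : ℝ := W s y j * W s y k

/-- the bounds of a field with values in `L²` -/
structure MW (t a C : ℝ) (W : ℝ → E3 → E3) : Prop where
  meas : Measurable (Function.uncurry W)
  a0 : 0 ≤ a
  C0 : 0 ≤ C
  sup : ∀ s ∈ Ioo 0 t, ∀ᵐ y ∂(volume : Measure E3), ‖W s y‖ ≤ a / √s
  l2 : ∀ s ∈ Ioo 0 t, ∫⁻ y, ‖W s y‖ₑ ^ 2 ≤ ENNReal.ofReal (C ^ 2)

theorem mm_coord (j : Fin 3) (x : E3) : ‖x j‖ₑ ≤ ‖x‖ₑ := by
  rw [← ofReal_norm, ← ofReal_norm]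
  exact ENNReal.ofReal_le_ofReal (PiLp.norm_apply_le x j)

theorem MW.ml (h : MW t a C W) (j k : Fin 3) : ML t (C ^ 2) (a * C) (mF W j k) where
  meas := by
    have hj : ∀ j : Fin 3, Measurable fun q : ℝ × E3 => W q.1 q.2 j := fun j =>
      ((EuclideanSpace.proj (𝕜 := ℝ) j : E3 →L[ℝ] ℝ).continuous.measurable).comp h.meas
    exact (hj j).mul (hj k)
  A0 := sq_nonneg _
  l1 := by
    intro s hs
    refine (lintegral_mono fun y => ?_).trans (h.l2 s hs)
    unfold mF
    rw [enorm_mul, sq]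
    exact mul_le_mul' (mm_coord j _) (mm_coord k _)
  l2 := by
    intro s hs
    have ha := h.a0
    have hC := h.C0
    have hWs : Measurable (W s) := h.meas.comp (f := fun y : E3 => (s, y)) (by fun_prop)
    have h1 : ∀ᵐ y ∂(volume : Measure E3), ‖mF W j k s y‖ₑ ^ 2 ≤
        ENNReal.ofReal (a ^ 2 / s) * ‖W s y‖ₑ ^ 2 := by
      filter_upwards [h.sup s hs] with y hy
      have h2 : ‖W s y‖ₑ ≤ ENNReal.ofReal (a / √s) := by
        rw [← ofReal_norm]
        exact ENNReal.ofReal_le_ofReal hy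
      have h3 : ENNReal.ofReal (a ^ 2 / s) = ENNReal.ofReal (a / √s) ^ 2 := by
        rw [← ENNReal.ofReal_pow (by positivity), div_pow, Real.sq_sqrt hs.1.le]
      unfold mF
      rw [enorm_mul, mul_pow, h3]
      exact mul_le_mul' (pow_le_pow_left₀ zero_le ((mm_coord j _).trans h2) 2)
        (pow_le_pow_left₀ zero_le (mm_coord k _) 2)
    refine (lintegral_mono_ae h1).trans ?_
    rw [lintegral_const_mul _ (hWs.enorm.pow_const 2)]
    refine (mul_le_mul' le_rfl (h.l2 s hs)).trans (le_of_eq ?_)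
    have hs0 : 0 < s := hs.1
    rw [← ENNReal.ofReal_mul (by positivity)]
    congr 1
    ring

/-- the bilinear operator as a vector field -/
noncomputable def mB (W : ℝ → E3 → E3) (t : ℝ) (x : E3) : E3 :=
  ∑ i, (∑ j, ∑ k, mI i j k (mF W j k) t x) • (ee i : E3)

theorem mB_apply (W : ℝ → E3 → E3) (t : ℝ) (x : E3) (i : Fin 3) :
    mB W t x i = ∑ j, ∑ k, mI i j k (mF W j k) t x := by
  unfold mB
  generalize (fun i => ∑ j, ∑ k, mI i j k (mF W j k) t x) = g
  simp only [Fin.sum_univ_three, PiLp.add_apply, PiLp.smul_apply, smul_eq_mul]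
  fin_cases i <;> simp [ee]

theorem mB_memLp (ht : 0 < t) (h : MW t a C W) : MemLp (mB W t) 2 (volume : Measure E3) := by
  unfold mB
  refine memLp_finsetSum _ fun i _ => ?_
  have h1 : MemLp (fun x => ∑ j, ∑ k, mI i j k (mF W j k) t x) 2 (volume : Measure E3) :=
    memLp_finsetSum _ fun j _ => memLp_finsetSum _ fun k _ => mI_memLp ht (h.ml j k) i j k
  exact (ContinuousLinearMap.toSpanSingleton ℝ (ee i : E3)).comp_memLp' h1

/-- almost everywhere the operator is the sum of its terms -/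
theorem mB_ae (ht : 0 < t) (h : MW t a C W) :
    ∀ᵐ x ∂(volume : Measure E3), ∀ i, bilin W t x i = mB W t x i := by
  have h1 : ∀ᵐ x ∂(volume : Measure E3), ∀ i j k, Integrable
      (fun q : ℝ × E3 => oseen (t - q.1) (x - q.2) i j k * mF W j k q.1 q.2) (mnu t) := by
    simp only [ae_all_iff]
    exact fun i j k => mf_int_ae ht (h.ml j k) i j k
  filter_upwards [h1] with x hx
  intro i
  have h2 : Integrable (fun q : ℝ × E3 => ∑ j, ∑ k,
      oseen (t - q.1) (x - q.2) i j k * mF W j k q.1 q.2) (mnu t) :=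
    integrable_finsetSum _ fun j _ => integrable_finsetSum _ fun k _ => hx i j k
  rw [mB_apply]
  have e1 : bilin W t x i = ∫ q, ∑ j, ∑ k,
      oseen (t - q.1) (x - q.2) i j k * mF W j k q.1 q.2 ∂(mnu t) := by
    unfold mnu at h2 ⊢
    rw [integral_prod _ h2]
    rfl
  rw [e1, integral_finsetSum _ fun j _ => integrable_finsetSum _ fun k _ => hx i j k]
  refine Finset.sum_congr rfl fun j _ => ?_
  rw [integral_finsetSum _ fun k _ => hx i j k]
  exact Finset.sum_congr rfl fun k _ => (mI_eq i j k (hx i j k)).symm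

/-- the pairing with a Schwartz field -/
theorem mB_pair (ht : 0 < t) (h : MW t a C W) {φ : 𝓢(E3, E3)} {η : Fin 3 → 𝓢(E3, ℝ)}
    (hη : ∀ i x, η i x = φ x i) :
    Integrable (fun q : ℝ × E3 => ∑ j, ∑ k,
      (∑ i, ∫ x, η i x * oseen (t - q.1) (x - q.2) i j k) * mF W j k q.1 q.2) (mnu t) ∧
    ⟪emb φ, (mB_memLp ht h).toLp⟫_ℝ = ∫ q, ∑ j, ∑ k,
      (∑ i, ∫ x, η i x * oseen (t - q.1) (x - q.2) i j k) * mF W j k q.1 q.2 ∂(mnu t) := by
  have hf := fun i j k => mf_fub ht (h.ml j k) (η i) i j k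
  have hint : Integrable (fun q : ℝ × E3 => ∑ i, ∑ j, ∑ k,
      (∫ x, η i x * oseen (t - q.1) (x - q.2) i j k) * mF W j k q.1 q.2) (mnu t) :=
    integrable_finsetSum _ fun i _ => integrable_finsetSum _ fun j _ =>
      integrable_finsetSum _ fun k _ => (hf i j k).1
  have e0 : ∀ q : ℝ × E3, ∑ i, ∑ j, ∑ k,
      (∫ x, η i x * oseen (t - q.1) (x - q.2) i j k) * mF W j k q.1 q.2 =
      ∑ j, ∑ k, (∑ i, ∫ x, η i x * oseen (t - q.1) (x - q.2) i j k) * mF W j k q.1 q.2 := by
    intro q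
    rw [Finset.sum_comm]
    refine Finset.sum_congr rfl fun j _ => ?_
    rw [Finset.sum_comm]
    exact Finset.sum_congr rfl fun k _ => (Finset.sum_mul _ _ _).symm
  refine ⟨hint.congr (Eventually.of_forall e0), ?_⟩
  have e1 : ⟪emb φ, (mB_memLp ht h).toLp⟫_ℝ = ∫ x, ∑ i, ∑ j, ∑ k,
      η i x * mI i j k (mF W j k) t x := by
    rw [emb_apply, ← integral_inner_eq]
    apply integral_congr_ae
    filter_upwards [(mB_memLp ht h).coeFn_toLp] with x hx
    rw [hx, PiLp.inner_apply]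
    refine Finset.sum_congr rfl fun i _ => ?_
    rw [mB_apply, hη]
    have e2 : ⟪φ x i, ∑ j, ∑ k, mI i j k (mF W j k) t x⟫_ℝ =
        φ x i * ∑ j, ∑ k, mI i j k (mF W j k) t x := by
      simp [mul_comm]
    rw [e2, Finset.mul_sum]
    refine Finset.sum_congr rfl fun j _ => ?_
    rw [Finset.mul_sum]
  have i1 : ∀ i j k, Integrable (fun x => η i x * mI i j k (mF W j k) t x)
      (volume : Measure E3) := fun i j k =>
    ((η i).memLp 2 (volume : Measure E3)).integrable_mul (mI_memLp ht (h.ml j k) i j k)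
  rw [e1, integral_finsetSum _ fun i _ => integrable_finsetSum _ fun j _ =>
    integrable_finsetSum _ fun k _ => i1 i j k]
  simp only [← e0]
  rw [integral_finsetSum _ fun i _ => integrable_finsetSum _ fun j _ =>
    integrable_finsetSum _ fun k _ => (hf i j k).1]
  refine Finset.sum_congr rfl fun i _ => ?_
  rw [integral_finsetSum _ fun j _ => integrable_finsetSum _ fun k _ => i1 i j k,
    integral_finsetSum _ fun j _ => integrable_finsetSum _ fun k _ => (hf i j k).1]
  refine Finset.sum_congr rfl fun j _ => ?_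
  rw [integral_finsetSum _ fun k _ => i1 i j k, integral_finsetSum _ fun k _ => (hf i j k).1]
  exact Finset.sum_congr rfl fun k _ => (hf i j k).2

/-- the bilinear operator is divergence-free -/
theorem mB_div (ht : 0 < t) (h : MW t a C W) : IsDivFree (mB_memLp ht h).toLp := by
  rw [div_iff]
  intro ψ
  have h1 := (mB_pair ht h (φ := gR ψ) (η := fun i => ∂_{ee i} ψ)
    (fun i x => (gR_apply ψ x i).symm)).2
  rw [h1]
  apply integral_eq_zero_of_ae
  filter_upwards [mnu_ae t] with q hq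
  have hσ : 0 < t - q.1 := by linarith [hq.2]
  simp only [oseenK_grad hσ, zero_mul, Finset.sum_const_zero]
  rfl

end Pool.Agent.TF
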