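import Pool.Agent.TF.M.Final
import Pool.Agent.TF.Flow

/-!
# From the main estimate of the scheme to the statement
-/

set_option autoImplicit false

namespace Pool.Agent.TF.KT

open MeasureTheory Set Filter Topology Pool.Agent.TO Pool.Agent.TB Pool.Agent.TP
open scoped ENNReal NNReal Real InnerProductSpace

theorem aprioriSup (h : StMain) (hX3 : StX3) : AprioriSup := by
  intro u₀ hdiv hbmo a ha
  obtain ⟨-, -, -, hX⟩ := hX3 u₀
  obtain ⟨T₁, hT₁, hv⟩ := h u₀ hdiv (hX hbmo) a ha
  exact ⟨T₁, hT₁, fun T v hL t h1 h2 h3 => hv T v hL.isLeray t h1 h2 h3⟩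

/-- the assembly from all blocks -/
theorem main (h : StMain) (hX1 : StX1) (hX3 : StX3) (hP : StP) (hU1 : StU1)
    (hU2 : StU2) (hM2 : StM2) : Statement :=
  statement (aprioriSup h hX3) hX1 hX3 hP hU1 hU2 hM2

end Pool.Agent.TF.KT
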