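import Pool.Agent.TF.Core
import Pool.Agent.TF.Pk
import Pool.Agent.TB.Heat2
import Pool.Agent.TF.Def

/-!
# Block M: the Koch-Tataru estimates, definitions and the statements of the rows
-/

set_option autoImplicit false

namespace Pool.Agent.TF.KT

open MeasureTheory Set Filter Topology Pool.Agent.TO Pool.Agent.TB Pool.Agent.TP
open scoped ENNReal NNReal Real InnerProductSpace SchwartzMap LineDeriv

/-- the majorant kernel `(σ + |x|²)⁻²` -/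
noncomputable def kq (σ : ℝ) (x : E3) : ℝ := sg (√σ) x ^ 4

/-- the majorant of the integral of `K_{t-s} * F(s)`, `f = |F|` -/
noncomputable def Maj (f : ℝ → E3 → ℝ≥0∞) (t : ℝ) (x : E3) : ℝ≥0∞ :=
  ∫⁻ s in Ioo 0 t, ∫⁻ y, ENNReal.ofReal (kq (t - s) (x - y)) * f s y

/-- the component `i` of the integral of `e^{(t-s) Δ} ℙ div F(s)` -/
noncomputable def Osf (F : ℝ → E3 → Fin 3 → Fin 3 → ℝ) (t : ℝ) (x : E3) (i : Fin 3) : ℝ :=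
  ∫ s in Ioo 0 t, ∫ y, ∑ j, ∑ k, oseen (t - s) (x - y) i j k * F s y j k

/-- the vector field with the components `Osf F t x i` -/
noncomputable def OsV (F : ℝ → E3 → Fin 3 → Fin 3 → ℝ) (t : ℝ) (x : E3) : E3 :=
  WithLp.toLp 2 (Osf F t x)

/-- `w ⊗ w` -/
def sqF (w : ℝ → E3 → E3) (s : ℝ) (y : E3) (j k : Fin 3) : ℝ := w s y j * w s y k

theorem bilin_eq (w : ℝ → E3 → E3) (t : ℝ) (x : E3) (i : Fin 3) :
    bilin w t x i = Osf (sqF w) t x i := rfl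

/-- `|f(s)| ≤ A / s` and the Carleson condition -/
structure KF (T A : ℝ) (f : ℝ → E3 → ℝ≥0∞) : Prop where
  meas : Measurable (Function.uncurry f)
  sup : ∀ s ∈ Ioo 0 T, ∀ᵐ y ∂(volume : Measure E3), f s y ≤ ENNReal.ofReal (A / s)
  carl : ∀ t ∈ Ioo 0 T, ∀ x : E3, ∫⁻ s in Ioo 0 t, ∫⁻ y in Metric.ball x (√t), f s y ≤
    ENNReal.ofReal (A * √t ^ 3)

/-- `F` is measurable and all its components are bounded by `f` -/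
structure Dom (f : ℝ → E3 → ℝ≥0∞) (F : ℝ → E3 → Fin 3 → Fin 3 → ℝ) : Prop where
  meas : ∀ j k, Measurable (Function.uncurry fun s y => F s y j k)
  le : ∀ s y j k, ‖F s y j k‖ₑ ≤ f s y

/-- `w` is in `X_T`, with both parts of the norm at most `a` -/
structure XB (T a : ℝ) (w : ℝ → E3 → E3) : Prop where
  meas : Measurable (Function.uncurry w)
  sup : ∀ t ∈ Ioo 0 T, ∀ᵐ x ∂(volume : Measure E3), ‖w t x‖ₑ ≤ ENNReal.ofReal (a / √t)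
  carl : ∀ t ∈ Ioo 0 T, ∀ x : E3, ∫⁻ s in Ioo 0 t, ∫⁻ y in Metric.ball x (√t), ‖w s y‖ₑ ^ 2 ≤
    ENNReal.ofReal (a ^ 2 * √t ^ 3)

/-- (M1) the Oseen kernel and the first derivative of the heat kernel -/
structure OK : Prop where
  meas : ∀ i j k, Measurable fun p : ℝ × E3 => oseen p.1 p.2 i j k
  meas1 : ∀ k, Measurable fun p : ℝ × E3 => gauss1 p.1 p.2 k
  le : ∃ C > 0, ∀ σ : ℝ, 0 < σ → ∀ x i j k, |oseen σ x i j k| ≤ C * kq σ x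
  le1 : ∃ C > 0, ∀ σ : ℝ, 0 < σ → ∀ x k, |gauss1 σ x k| ≤ C * kq σ x

/-- (L2) the `L²` bound -/
def StL2 : Prop := ∃ C > 0, ∀ (T b B : ℝ) (f g : ℝ → E3 → ℝ≥0∞), 0 ≤ b → 0 ≤ B →
  Measurable (Function.uncurry f) → Measurable (Function.uncurry g) →
  (∀ᵐ s ∂(volume.restrict (Ioo 0 T)), ∀ᵐ y ∂(volume : Measure E3),
    f s y ≤ ENNReal.ofReal (b / √s) * g s y) →
  (∀ᵐ s ∂(volume.restrict (Ioo 0 T)), ∫⁻ y, g s y ^ 2 ≤ ENNReal.ofReal (B ^ 2)) →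
  ∀ t ∈ Ioo 0 T, ∫⁻ x, Maj f t x ^ 2 ≤ ENNReal.ofReal ((C * b * B) ^ 2)

/-- (KT) the Koch-Tataru estimate (with absolute convergence) -/
def StKT : Prop := ∃ C > 0, ∀ (T A : ℝ) (f : ℝ → E3 → ℝ≥0∞) (F : ℝ → E3 → Fin 3 → Fin 3 → ℝ),
  0 ≤ A → KF T A f → Dom f F → XB T (C * A) (OsV F) ∧
    ∀ t ∈ Ioo 0 T, ∀ (x : E3) (i j k : Fin 3),
      ∫⁻ s in Ioo 0 t, ∫⁻ y, ‖oseen (t - s) (x - y) i j k‖ₑ * ‖F s y j k‖ₑ < ∞

/-- (X1) comparison of `XNorm` and `XB` -/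
def StX1 : Prop := (∀ (T a : ℝ) (w : ℝ → E3 → E3), 0 ≤ a → XB T a w →
    XNorm T w ≤ ENNReal.ofReal (2 * a)) ∧
  ∀ (T a : ℝ) (w : ℝ → E3 → E3), 0 ≤ a → Measurable (Function.uncurry w) →
    XNorm T w ≤ ENNReal.ofReal a → XB T a w

/-- (X2) products -/
def StX2 : Prop := ∀ (T a b : ℝ) (u w : ℝ → E3 → E3), 0 < a → 0 < b → XB T a u → XB T b w →
  KF T (a * b) fun s y => ‖u s y‖ₑ * ‖w s y‖ₑ

/-- the heat extension -/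
noncomputable def hx (u₀ : V3) (t : ℝ) (x : E3) : E3 := heatF t u₀ x

/-- (X3) the heat extension -/
def StX3 : Prop := ∀ u₀ : V3, Measurable (Function.uncurry (hx u₀)) ∧
  (∀ t : ℝ, 0 < t → ∫⁻ x, ‖hx u₀ t x‖ₑ ^ 2 ≤ ENNReal.ofReal (‖u₀‖ ^ 2)) ∧
  (BmoZ u₀ → ∀ a : ℝ, 0 < a → ∃ T > 0, XB T a (hx u₀)) ∧
  (BmoZ u₀ → BmoX u₀)

/-- (P) Picard iteration: existence of the mild solution -/
def StP : Prop := ∃ a₀ > 0, ∀ (T a : ℝ) (u₀ : V3), 0 < a → a ≤ a₀ → XB T a (hx u₀) →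
  ∃ u : ℝ → E3 → E3, XB T (2 * a) u ∧ Mild T u₀ u ∧
    ∀ t ∈ Ioo 0 T, ∫⁻ x, ‖u t x‖ₑ ^ 2 ≤ ENNReal.ofReal ((2 * ‖u₀‖) ^ 2)

/-- (U1) uniqueness of small mild solutions in `X_T` -/
def StU1 : Prop := ∃ a₁ > 0, ∀ (T : ℝ) (u₀ : V3) (u w : ℝ → E3 → E3), XB T a₁ u → XB T a₁ w →
  Mild T u₀ u → Mild T u₀ w → ∀ t ∈ Ioo 0 T, w t =ᵐ[volume] u t

/-- (U2) uniqueness of mild solutions in `L^∞ L²` with `|u| ≤ a₂ / √t` -/
def StU2 : Prop := ∃ a₂ > 0, ∀ (T B : ℝ) (u₀ : V3) (u w : ℝ → E3 → E3),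
  Measurable (Function.uncurry u) → Measurable (Function.uncurry w) →
  (∀ᵐ t ∂(volume.restrict (Ioo 0 T)), ∀ᵐ x ∂(volume : Measure E3),
    ‖u t x‖ₑ ≤ ENNReal.ofReal (a₂ / √t) ∧ ‖w t x‖ₑ ≤ ENNReal.ofReal (a₂ / √t) ∧
    (∀ i, u t x i = heatF t u₀ x i - bilin u t x i) ∧
    ∀ i, w t x i = heatF t u₀ x i - bilin w t x i) →
  (∀ᵐ t ∂(volume.restrict (Ioo 0 T)), ∫⁻ x, ‖u t x‖ₑ ^ 2 ≤ ENNReal.ofReal (B ^ 2) ∧
    ∫⁻ x, ‖w t x‖ₑ ^ 2 ≤ ENNReal.ofReal (B ^ 2)) →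
  ∀ᵐ t ∂(volume.restrict (Ioo 0 T)), w t =ᵐ[volume] u t

/-- (Rep) jointly measurable representatives -/
def StRep : Prop := ∀ (T : ℝ) (v : ℝ → V3), AEStronglyMeasurable v (volume.restrict (Ioo 0 T)) →
  ∃ f : ℝ → E3 → E3, Measurable (Function.uncurry f) ∧
    ∀ᵐ t ∂(volume.restrict (Ioo 0 T)), f t =ᵐ[volume] flds v t

/-- (M2) weak Leray solutions with `|v| ≤ a / √t` are mild -/
def StM2 : Prop := ∀ (T : ℝ) (u₀ : V3) (v : ℝ → V3), Leray T u₀ v → ∀ a : ℝ, 0 ≤ a →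
  (∀ t ∈ Ioo 0 T, FBdd (v t) (a / √t)) → Mild T u₀ (flds v)

end Pool.Agent.TF.KT
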