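import Pool.Agent.TF.M.Defs
import Pool.Agent.TF.M.Joint

/-!
# Block M: the assembly
-/

set_option autoImplicit false

namespace Pool.Agent.TF.KT

open MeasureTheory Set Filter Topology Pool.Agent.TO Pool.Agent.TB Pool.Agent.TP
open scoped ENNReal NNReal Real InnerProductSpace

theorem XB.mono {T T' a : ℝ} {w : ℝ → E3 → E3} (h : XB T a w) (hT : T' ≤ T) : XB T' a w where
  meas := h.meas
  sup := fun t ht => h.sup t ⟨ht.1, ht.2.trans_le hT⟩
  carl := fun t ht => h.carl t ⟨ht.1, ht.2.trans_le hT⟩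

theorem XB.mono_right {T a b : ℝ} {w : ℝ → E3 → E3} (h : XB T a w) (ha : 0 ≤ a) (hab : a ≤ b) :
    XB T b w where
  meas := h.meas
  sup := by
    intro t ht
    filter_upwards [h.sup t ht] with x hx
    refine hx.trans (ENNReal.ofReal_le_ofReal ?_)
    gcongr
  carl := by
    intro t ht x
    refine (h.carl t ht x).trans (ENNReal.ofReal_le_ofReal ?_)
    gcongr

/-- the bilinear term depends only on the values at almost every time -/
theorem bilin_congr {t : ℝ} {v w : ℝ → E3 → E3}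
    (h : ∀ᵐ s ∂(volume.restrict (Ioo 0 t)), v s =ᵐ[volume] w s) (x : E3) (i : Fin 3) :
    bilin v t x i = bilin w t x i := by
  unfold bilin
  apply integral_congr_ae
  filter_upwards [h] with s hs
  apply integral_congr_ae
  filter_upwards [hs] with y hy
  rw [hy]

theorem leray_enorm_le {T : ℝ} {u₀ : V3} {v : ℝ → V3} (h : Leray T u₀ v) {t : ℝ}
    (ht : t ∈ Ico 0 T) : ∫⁻ x, ‖flds v t x‖ₑ ^ 2 ≤ ENNReal.ofReal (‖u₀‖ ^ 2) := by
  obtain ⟨D, -, hD⟩ := h.energy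
  have h1 := hD t ht
  have h2 : ∫⁻ x, ‖flds v t x‖ₑ ^ 2 = nsq (v t) := by
    have := lintegral_sq_V3 (v t)
    exact this
  have h3 : nsq u₀ = ENNReal.ofReal (‖u₀‖ ^ 2) := by
    unfold nsq
    rw [← ofReal_norm, ENNReal.ofReal_pow (norm_nonneg _)]
  rw [h2, ← h3]
  exact le_self_add.trans h1

/-- every Leray solution is the mild solution `u` -/
theorem leray_eq (hM2 : StM2) {a₂ : ℝ} (ha₂ : 0 < a₂)
    (hU2 : ∀ (T B : ℝ) (u₀ : V3) (u w : ℝ → E3 → E3),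
      Measurable (Function.uncurry u) → Measurable (Function.uncurry w) →
      (∀ᵐ t ∂(volume.restrict (Ioo 0 T)), ∀ᵐ x ∂(volume : Measure E3),
        ‖u t x‖ₑ ≤ ENNReal.ofReal (a₂ / √t) ∧ ‖w t x‖ₑ ≤ ENNReal.ofReal (a₂ / √t) ∧
        (∀ i, u t x i = heatF t u₀ x i - bilin u t x i) ∧
        ∀ i, w t x i = heatF t u₀ x i - bilin w t x i) →
      (∀ᵐ t ∂(volume.restrict (Ioo 0 T)), ∫⁻ x, ‖u t x‖ₑ ^ 2 ≤ ENNReal.ofReal (B ^ 2) ∧
        ∫⁻ x, ‖w t x‖ₑ ^ 2 ≤ ENNReal.ofReal (B ^ 2)) →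
      ∀ᵐ t ∂(volume.restrict (Ioo 0 T)), w t =ᵐ[volume] u t)
    {T : ℝ} {u₀ : V3} {u : ℝ → E3 → E3} (hu : XB T a₂ u) (hm : Mild T u₀ u)
    (hL : ∀ t ∈ Ioo 0 T, ∫⁻ x, ‖u t x‖ₑ ^ 2 ≤ ENNReal.ofReal ((2 * ‖u₀‖) ^ 2))
    {v : ℝ → V3} (hv : Leray T u₀ v) (hb : ∀ t ∈ Ioo 0 T, FBdd (v t) (a₂ / √t)) :
    ∀ t ∈ Ioo 0 T, flds v t =ᵐ[volume] u t := by
  have hmv : Mild T u₀ (flds v) := hM2 T u₀ v hv a₂ ha₂.le hb
  obtain ⟨v', hv'm, hv'⟩ := hv.meas
  obtain ⟨f, hf, hfv⟩ := mj_joint hv'm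
  have hfe : ∀ᵐ t ∂(volume.restrict (Ioo 0 T)), f t =ᵐ[volume] flds v t := by
    filter_upwards [hv'] with t ht
    have := hfv t
    rw [← ht] at this
    exact this
  have hcongr : ∀ t ∈ Ioo 0 T, ∀ x i, bilin f t x i = bilin (flds v) t x i := by
    intro t ht x i
    apply bilin_congr
    exact ae_restrict_of_ae_restrict_of_subset (Ioo_subset_Ioo_right ht.2.le) hfe
  have hae : ∀ᵐ t ∂(volume.restrict (Ioo 0 T)), f t =ᵐ[volume] u t := by
    refine hU2 T (2 * ‖u₀‖) u₀ u f hu.meas hf ?_ ?_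
    · filter_upwards [hfe, ae_restrict_mem measurableSet_Ioo] with t h1 h2
      filter_upwards [h1, hu.sup t h2, hm t h2, hmv t h2, hb t h2] with x e1 e2 e3 e4 e5
      refine ⟨e2, ?_, e3, ?_⟩
      · rw [e1, ← ofReal_norm]
        exact ENNReal.ofReal_le_ofReal e5
      · intro i
        rw [e1, hcongr t h2]
        exact e4 i
    · filter_upwards [hfe, ae_restrict_mem measurableSet_Ioo] with t h1 h2
      refine ⟨hL t h2, ?_⟩
      have h3 : ∫⁻ x, ‖f t x‖ₑ ^ 2 = ∫⁻ x, ‖flds v t x‖ₑ ^ 2 := by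
        apply lintegral_congr_ae
        filter_upwards [h1] with x hx
        rw [hx]
      rw [h3]
      refine (leray_enorm_le hv ⟨h2.1.le, h2.2⟩).trans (ENNReal.ofReal_le_ofReal ?_)
      gcongr
      linarith [norm_nonneg u₀]
  have hae' : ∀ᵐ t ∂(volume.restrict (Ioo 0 T)), flds v t =ᵐ[volume] u t := by
    filter_upwards [hae, hfe] with t h1 h2
    exact h2.symm.trans h1
  intro t ht
  filter_upwards [hm t ht, hmv t ht] with x e1 e2
  ext i
  rw [e1 i, e2 i]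
  rw [bilin_congr (ae_restrict_of_ae_restrict_of_subset (Ioo_subset_Ioo_right ht.2.le) hae')]

/-- the assembly -/
theorem statement (hA : AprioriSup) (hX1 : StX1) (hX3 : StX3) (hP : StP) (hU1 : StU1)
    (hU2 : StU2) (hM2 : StM2) : Statement := by
  obtain ⟨a₀, ha₀, hP⟩ := hP
  obtain ⟨a₁, ha₁, hU1⟩ := hU1
  obtain ⟨a₂, ha₂, hU2⟩ := hU2
  refine ⟨ENNReal.ofReal a₁, ENNReal.ofReal_pos.2 ha₁, ?_⟩
  intro u₀ hdiv hbmo ε hε
  obtain ⟨e, he, hee⟩ : ∃ e : ℝ, 0 < e ∧ ENNReal.ofReal e ≤ ε := by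
    refine ⟨(min ε 1).toReal, ENNReal.toReal_pos ?_ ?_, ?_⟩
    · exact (lt_min hε one_pos).ne'
    · exact (min_lt_of_right_lt ENNReal.one_lt_top).ne
    · rw [ENNReal.ofReal_toReal (min_lt_of_right_lt ENNReal.one_lt_top).ne]
      exact min_le_left _ _
  set a : ℝ := min a₀ (min (a₁ / 2) (min (a₂ / 2) (e / 4))) with ha
  have hapos : 0 < a := by
    rw [ha]
    refine lt_min ha₀ (lt_min (by positivity) (lt_min (by positivity) (by positivity)))
  have h0 : a ≤ a₀ := min_le_left _ _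
  have h1 : a ≤ a₁ / 2 := (min_le_right _ _).trans (min_le_left _ _)
  have h2 : a ≤ a₂ / 2 := (min_le_right _ _).trans ((min_le_right _ _).trans (min_le_left _ _))
  have h3 : a ≤ e / 4 := (min_le_right _ _).trans ((min_le_right _ _).trans (min_le_right _ _))
  obtain ⟨-, -, hX, -⟩ := hX3 u₀
  obtain ⟨T₀, hT₀, hXB⟩ := hX hbmo a hapos
  obtain ⟨T₁, hT₁, hsup⟩ := hA u₀ hdiv hbmo a₂ ha₂
  refine ⟨min T₀ T₁, lt_min hT₀ hT₁, ?_⟩
  set T := min T₀ T₁ with hT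
  have hT0 : T ≤ T₀ := min_le_left _ _
  have hT1 : T ≤ T₁ := min_le_right _ _
  obtain ⟨u, hu, hm, hL⟩ := hP T a u₀ hapos h0 (hXB.mono hT0)
  refine ⟨u, hu.meas, ?_, hm, ?_, ?_⟩
  · refine ((hX1.1 T (2 * a) u (by positivity) hu).trans ?_).trans hee
    apply ENNReal.ofReal_le_ofReal
    linarith
  · intro v hv
    exact leray_eq hM2 ha₂ hU2 (hu.mono_right (by positivity) (by linarith)) hm hL hv
      fun t ht => hsup T v hv t ht.1 (ht.2.trans_le hT1) ht.2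
  · intro w hw hwx hwm t ht
    exact hU1 T u₀ u w (hu.mono_right (by positivity) (by linarith))
      (hX1.2 T a₁ w ha₁.le hw hwx) hm hwm t ht

end Pool.Agent.TF.KT
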