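import Pool.Agent.TF.M.Osb

/-!
# Block M: Fubini's theorem for the bilinear operator
-/

set_option autoImplicit false

namespace Pool.Agent.TF

open MeasureTheory Set Filter Topology Pool.Agent.TO Pool.Agent.TB Pool.Agent.TP
open scoped ENNReal NNReal Real SchwartzMap

variable {t A B : ℝ} {f : ℝ → E3 → ℝ}

/-- the measure on `(0, t) × ℝ³` -/
noncomputable def mnu (t : ℝ) : Measure (ℝ × E3) := (volume.restrict (Ioo 0 t)).prod volume

theorem mnu_ae (t : ℝ) : ∀ᵐ q ∂(mnu t), q.1 ∈ Ioo 0 t :=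
  Measure.quasiMeasurePreserving_fst.ae (ae_restrict_mem measurableSet_Ioo)

instance (t : ℝ) : SFinite (mnu t) := by
  unfold mnu
  infer_instance

theorem mf_meas1 (t : ℝ) (i j k : Fin 3) (hf : Measurable (Function.uncurry f)) (x : E3) :
    Measurable fun q : ℝ × E3 => oseen (t - q.1) (x - q.2) i j k * f q.1 q.2 :=
  (mo_meas t i j k hf).comp (f := fun q : ℝ × E3 => (x, q)) (by fun_prop)

theorem mf_lint (t : ℝ) (i j k : Fin 3) (hf : Measurable (Function.uncurry f)) (x : E3) :
    ∫⁻ q, ‖oseen (t - q.1) (x - q.2) i j k * f q.1 q.2‖ₑ ∂(mnu t) =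
      ∫⁻ s in Ioo 0 t, mQ t i j k f x s := by
  unfold mnu
  rw [lintegral_prod _ (mf_meas1 t i j k hf x).enorm.aemeasurable]
  unfold mQ
  simp only [enorm_mul]

/-- for almost every `x` the integrand is integrable -/
theorem mf_int_ae (ht : 0 < t) (h : ML t A B f) (i j k : Fin 3) :
    ∀ᵐ x ∂(volume : Measure E3),
      Integrable (fun q : ℝ × E3 => oseen (t - q.1) (x - q.2) i j k * f q.1 q.2) (mnu t) := by
  have h1 := mo_fin ht h i j k
  have hm : Measurable fun x => (∫⁻ s in Ioo 0 t, mQ t i j k f x s) ^ 2 :=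
    ((mo_q2 t i j k h.meas).lintegral_prod_right' (ν := volume.restrict (Ioo 0 t))).pow_const 2
  filter_upwards [ae_lt_top hm h1.ne] with x hx
  refine ⟨(mf_meas1 t i j k h.meas x).aestronglyMeasurable, ?_⟩
  rw [hasFiniteIntegral_iff_enorm, mf_lint t i j k h.meas x]
  by_contra hcon
  push Not at hcon
  rw [top_le_iff.1 hcon] at hx
  simp at hx

theorem mI_eq (i j k : Fin 3) {x : E3}
    (h : Integrable (fun q : ℝ × E3 => oseen (t - q.1) (x - q.2) i j k * f q.1 q.2) (mnu t)) :
    mI i j k f t x = ∫ q, oseen (t - q.1) (x - q.2) i j k * f q.1 q.2 ∂(mnu t) := by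
  unfold mnu at h ⊢
  rw [integral_prod _ h]
  rfl

theorem mI_le (i j k : Fin 3) (x : E3) :
    ‖mI i j k f t x‖ₑ ≤ ∫⁻ s in Ioo 0 t, mQ t i j k f x s := by
  unfold mI mQ
  refine (enorm_integral_le_lintegral_enorm _).trans (lintegral_mono fun s => ?_)
  refine (enorm_integral_le_lintegral_enorm _).trans (lintegral_mono fun y => ?_)
  simp only
  rw [enorm_mul]

theorem mI_meas (t : ℝ) (i j k : Fin 3) (hf : Measurable (Function.uncurry f)) :
    StronglyMeasurable fun x => mI i j k f t x := by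
  have h1 : Measurable fun r : (E3 × ℝ) × E3 =>
      oseen (t - r.1.2) (r.1.1 - r.2) i j k * f r.1.2 r.2 :=
    (mo_meas t i j k hf).comp (f := fun r : (E3 × ℝ) × E3 => (r.1.1, (r.1.2, r.2))) (by fun_prop)
  have h2 := h1.stronglyMeasurable.integral_prod_right' (ν := (volume : Measure E3))
  have h3 := h2.integral_prod_right' (ν := volume.restrict (Ioo 0 t))
  exact h3

/-- the bilinear operator is in `L²` -/
theorem mI_memLp (ht : 0 < t) (h : ML t A B f) (i j k : Fin 3) :
    MemLp (fun x => mI i j k f t x) 2 (volume : Measure E3) := by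
  refine ⟨(mI_meas t i j k h.meas).aestronglyMeasurable, ?_⟩
  rw [eLpNorm_eq_lintegral_rpow_enorm_toReal (by norm_num) (by norm_num)]
  apply ENNReal.rpow_lt_top_of_nonneg (by simp)
  simp only [ENNReal.toReal_ofNat, ENNReal.rpow_ofNat]
  refine ((lintegral_mono fun x => ?_).trans_lt (mo_fin ht h i j k)).ne
  exact pow_le_pow_left₀ zero_le (mI_le i j k x) 2

/-- joint integrability against a test function -/
theorem mf_prod (ht : 0 < t) (h : ML t A B f) (η : 𝓢(E3, ℝ)) (i j k : Fin 3) :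
    Integrable (fun q : E3 × (ℝ × E3) =>
      η q.1 * (oseen (t - q.2.1) (q.1 - q.2.2) i j k * f q.2.1 q.2.2))
      ((volume : Measure E3).prod (mnu t)) := by
  have hK := CK_pos
  have hm : Measurable fun q : E3 × (ℝ × E3) =>
      η q.1 * (oseen (t - q.2.1) (q.1 - q.2.2) i j k * f q.2.1 q.2.2) :=
    (η.continuous.measurable.comp measurable_fst).mul (mo_meas t i j k h.meas)
  refine ⟨hm.aestronglyMeasurable, ?_⟩
  rw [hasFiniteIntegral_iff_enorm, lintegral_prod_symm _ hm.enorm.aemeasurable]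
  set S := SchwartzMap.seminorm ℝ 0 0 η with hS
  have hηb : ∀ x, ‖η x‖ₑ ≤ ENNReal.ofReal S := fun x => by
    rw [← ofReal_norm]
    exact ENNReal.ofReal_le_ofReal (SchwartzMap.norm_le_seminorm ℝ η x)
  have hinner : ∀ᵐ q ∂(mnu t), ∫⁻ x, ‖η x * (oseen (t - q.1) (x - q.2) i j k * f q.1 q.2)‖ₑ ≤
      ENNReal.ofReal S * (ENNReal.ofReal (CK / √(t - q.1)) * ‖f q.1 q.2‖ₑ) := by
    filter_upwards [mnu_ae t] with q hq
    have hσ : 0 < t - q.1 := by linarith [hq.2]
    have hc : Measurable fun x : E3 => ‖oseen (t - q.1) (x - q.2) i j k‖ₑ :=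
      ((continuous_oseen hσ i j k).measurable.comp (measurable_id.sub measurable_const)).enorm
    calc ∫⁻ x, ‖η x * (oseen (t - q.1) (x - q.2) i j k * f q.1 q.2)‖ₑ
        ≤ ∫⁻ x, ENNReal.ofReal S * (‖oseen (t - q.1) (x - q.2) i j k‖ₑ * ‖f q.1 q.2‖ₑ) := by
          refine lintegral_mono fun x => ?_
          simp only
          rw [enorm_mul, enorm_mul]
          exact mul_le_mul' (hηb x) le_rfl
      _ = ENNReal.ofReal S *
          ((∫⁻ x, ‖oseen (t - q.1) (x - q.2) i j k‖ₑ) * ‖f q.1 q.2‖ₑ) := by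
          rw [lintegral_const_mul _ (hc.mul_const _), lintegral_mul_const _ hc]
      _ ≤ _ := mul_le_mul' le_rfl (mul_le_mul' (mo_lint_right hσ i j k q.2) le_rfl)
  refine (lintegral_mono_ae hinner).trans_lt ?_
  have hw : Measurable fun s : ℝ => ENNReal.ofReal (CK / √(t - s)) := by fun_prop
  have hg : Measurable fun q : ℝ × E3 =>
      ENNReal.ofReal (CK / √(t - q.1)) * ‖f q.1 q.2‖ₑ :=
    (hw.comp measurable_fst).mul h.meas.enorm
  rw [lintegral_const_mul _ hg]
  refine ENNReal.mul_lt_top ENNReal.ofReal_lt_top ?_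
  unfold mnu
  rw [lintegral_prod _ hg.aemeasurable]
  have hi : IntegrableOn (fun s => CK * (1 / √(t - s)) * A) (Ioo 0 t) volume :=
    ((mo_int2 t ht.le).const_mul CK).mul_const A
  refine lt_of_le_of_lt ?_ hi.lintegral_lt_top
  apply lintegral_mono_ae
  filter_upwards [ae_restrict_mem measurableSet_Ioo] with s hs
  have hfs : Measurable (f s) := h.meas.comp (f := fun y : E3 => (s, y)) (by fun_prop)
  rw [lintegral_const_mul _ hfs.enorm]
  refine (mul_le_mul' le_rfl (h.l1 s hs)).trans (le_of_eq ?_)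
  rw [← ENNReal.ofReal_mul (by positivity), div_eq_mul_one_div]

/-- Fubini's theorem for the bilinear operator, tested -/
theorem mf_fub (ht : 0 < t) (h : ML t A B f) (η : 𝓢(E3, ℝ)) (i j k : Fin 3) :
    Integrable (fun q : ℝ × E3 => (∫ x, η x * oseen (t - q.1) (x - q.2) i j k) * f q.1 q.2)
      (mnu t) ∧
    ∫ x, η x * mI i j k f t x =
      ∫ q, (∫ x, η x * oseen (t - q.1) (x - q.2) i j k) * f q.1 q.2 ∂(mnu t) := by
  have hp := mf_prod ht h η i j k
  have e1 : ∀ q : ℝ × E3, ∫ x, η x * (oseen (t - q.1) (x - q.2) i j k * f q.1 q.2) =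
      (∫ x, η x * oseen (t - q.1) (x - q.2) i j k) * f q.1 q.2 := by
    intro q
    rw [← integral_mul_const]
    congr 1
    ext x
    ring
  refine ⟨?_, ?_⟩
  · refine hp.integral_prod_right.congr (Eventually.of_forall fun q => ?_)
    exact e1 q
  · have e2 : ∫ x, η x * mI i j k f t x =
        ∫ x, ∫ q, η x * (oseen (t - q.1) (x - q.2) i j k * f q.1 q.2) ∂(mnu t) := by
      apply integral_congr_ae
      filter_upwards [mf_int_ae ht h i j k] with x hx
      rw [mI_eq i j k hx, integral_const_mul]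
    rw [e2, integral_integral_swap hp]
    simp only [e1]

end Pool.Agent.TF
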