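import Pool.Agent.TF.Poi
import Pool.Agent.TP.Fin

/-!
# Block M: the heat semigroup on `L²`
-/

set_option autoImplicit false

namespace Pool.Agent.TF

open MeasureTheory Set Filter Topology Pool.Agent.TO Pool.Agent.TB Pool.Agent.TC Pool.Agent.TP
open scoped ENNReal NNReal Real InnerProductSpace SchwartzMap LineDeriv

/-- `∂_k` of the heat kernel -/
noncomputable def mh1 (k : Fin 3) (σ : ℝ) (x : E3) : ℝ := -(x k / (2 * σ)) * hk σ x

/-- `∂_k ∂_k` of the heat kernel -/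
noncomputable def mh2 (k : Fin 3) (σ : ℝ) (x : E3) : ℝ :=
  (x k ^ 2 / (4 * σ ^ 2) - 1 / (2 * σ)) * hk σ x

/-- `∂_σ` of the heat kernel -/
noncomputable def mhd (σ : ℝ) (x : E3) : ℝ := (‖x‖ ^ 2 / (4 * σ ^ 2) - 3 / (2 * σ)) * hk σ x

theorem mh_sum (σ : ℝ) (x : E3) : ∑ k, mh2 k σ x = mhd σ x := by
  unfold mh2 mhd
  rw [← Finset.sum_mul]
  congr 1
  rw [Finset.sum_sub_distrib, ← Finset.sum_div, sum_sq_eq, Finset.sum_const, Finset.card_univ,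
    Fintype.card_fin, nsmul_eq_mul]
  push_cast
  ring

theorem mh_deriv {σ : ℝ} (hσ : 0 < σ) (x : E3) :
    HasDerivAt (fun s => hk s x) (mhd σ x) σ := by
  have hp := Real.pi_pos
  have h1 : HasDerivAt (fun s : ℝ => 4 * π * s) (4 * π) σ := by
    simpa using (hasDerivAt_id σ).const_mul (4 * π)
  have h2 := h1.rpow_const (p := (-(3 / 2) : ℝ)) (Or.inl (by positivity))
  have h3 : HasDerivAt (fun s : ℝ => -‖x‖ ^ 2 / (4 * s)) (‖x‖ ^ 2 / (4 * σ ^ 2)) σ := by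
    have h := ((hasDerivAt_id σ).const_mul (4:ℝ)).fun_inv (by simpa using hσ.ne')
    have h' := h.const_mul (-‖x‖ ^ 2)
    refine (h'.congr_deriv ?_).congr_of_eventuallyEq (Eventually.of_forall fun s => ?_)
    · simp only [id, mul_one]
      field_simp
    · simp only [id]
      rw [div_eq_mul_inv]
  have h5 := h2.mul h3.exp
  refine h5.congr_deriv ?_
  rw [Real.rpow_sub_one (by positivity)]
  unfold mhd hk
  field_simp
  ring

theorem mh_norm_line (x : E3) (k : Fin 3) (t : ℝ) :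
    ‖x + t • ee k‖ ^ 2 = ‖x‖ ^ 2 + 2 * t * x k + t ^ 2 := by
  rw [norm_add_sq_real, inner_smul_right, norm_smul, EuclideanSpace.inner_single_right]
  simp only [conj_trivial, one_mul, PiLp.norm_single, norm_one, mul_one,
    Real.norm_eq_abs, sq_abs]
  ring

theorem mh_line (σ : ℝ) (k : Fin 3) (x : E3) :
    HasLineDerivAt ℝ (hk σ) (mh1 k σ x) x (ee k) := by
  unfold HasLineDerivAt hk
  simp only [mh_norm_line]
  have h1 : HasDerivAt (fun t : ℝ => ‖x‖ ^ 2 + 2 * t * x k + t ^ 2) (2 * x k) 0 := by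
    have h := (((hasDerivAt_id (0:ℝ)).const_mul 2).mul_const (x k)).const_add (‖x‖ ^ 2)
    have h' := h.add ((hasDerivAt_id (0:ℝ)).pow 2)
    refine (h'.congr_deriv ?_).congr_of_eventuallyEq (Eventually.of_forall fun t => ?_)
    · simp
    · simp only [Pi.add_apply, Pi.pow_apply, id]
  have h2 := ((h1.neg.div_const (4 * σ)).exp).const_mul ((4 * π * σ) ^ (-(3 / 2) : ℝ))
  refine h2.congr_deriv ?_
  unfold mh1 hk
  simp only [Pi.neg_apply, mul_zero, zero_mul, add_zero, ne_eq, OfNat.ofNat_ne_zero,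
    not_false_eq_true, zero_pow]
  ring

theorem mh_line1 (σ : ℝ) (k : Fin 3) (x : E3) :
    HasLineDerivAt ℝ (mh1 k σ) (mh2 k σ x) x (ee k) := by
  have h1 := mh_line σ k x
  unfold HasLineDerivAt mh1 at *
  have h0 : ∀ t : ℝ, (x + t • ee k) k = x k + t := by
    intro t
    simp
  simp only [h0]
  have h2 : HasDerivAt (fun t : ℝ => -((x k + t) / (2 * σ))) (-(1 / (2 * σ))) 0 :=
    (((hasDerivAt_id (0:ℝ)).const_add (x k)).div_const (2 * σ)).neg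
  have h3 := h2.mul h1
  refine h3.congr_deriv ?_
  simp only [zero_smul, add_zero]
  unfold mh2
  ring

/-! ### bounds -/

theorem mh_exp_le {y : ℝ} (hy : 0 < y) : ∃ C : ℝ, 0 ≤ C ∧ ∀ x : E3,
    (y ^ 2 + ‖x‖ ^ 2) * Real.exp (-‖x‖ ^ 2 / (8 * y)) ≤ C * sg y x ^ 4 := by
  refine ⟨6 * (8 * y) ^ 3 * Real.exp (y / 8), by positivity, fun x => ?_⟩
  set s := y ^ 2 + ‖x‖ ^ 2 with hs
  have hs0 : 0 < s := sg_arg_pos hy x
  have h1 := sg_sq hy x
  rw [← hs] at h1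
  have h2 := Real.pow_div_factorial_le_exp (s / (8 * y)) (by positivity) 3
  have h3 : Real.exp (-‖x‖ ^ 2 / (8 * y)) = Real.exp (-(s / (8 * y))) * Real.exp (y / 8) := by
    rw [← Real.exp_add, hs]
    congr 1
    field_simp
    ring
  have h4 : s ^ 3 * Real.exp (-(s / (8 * y))) ≤ 6 * (8 * y) ^ 3 := by
    rw [Real.exp_neg, ← div_eq_mul_inv, div_le_iff₀ (Real.exp_pos _)]
    rw [div_pow, div_div, div_le_iff₀ (by positivity)] at h2
    have : ((Nat.factorial 3 : ℕ) : ℝ) = 6 := by norm_num [Nat.factorial]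
    rw [this] at h2
    linarith
  have h5 : s = s ^ 3 * sg y x ^ 4 := by
    calc s = s * (sg y x ^ 2 * s) ^ 2 := by rw [h1]; ring
      _ = _ := by ring
  have hg : 0 ≤ sg y x ^ 4 := by positivity
  rw [h3]
  calc s * (Real.exp (-(s / (8 * y))) * Real.exp (y / 8))
      = (s ^ 3 * sg y x ^ 4) * (Real.exp (-(s / (8 * y))) * Real.exp (y / 8)) := by
        rw [← h5]
    _ = (s ^ 3 * Real.exp (-(s / (8 * y)))) * Real.exp (y / 8) * sg y x ^ 4 := by ring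
    _ ≤ 6 * (8 * y) ^ 3 * Real.exp (y / 8) * sg y x ^ 4 := by gcongr

theorem mh_hk_le {y σ : ℝ} (hy : 0 < y) (h1 : y / 2 ≤ σ) (h2 : σ ≤ 2 * y) (x : E3) :
    hk σ x ≤ (2 * π * y) ^ (-(3 / 2) : ℝ) * Real.exp (-‖x‖ ^ 2 / (8 * y)) := by
  have hp := Real.pi_pos
  have hσ : 0 < σ := by linarith
  unfold hk
  apply mul_le_mul _ _ (Real.exp_pos _).le (by positivity)
  · apply Real.rpow_le_rpow_of_nonpos (by positivity) _ (by norm_num)
    nlinarith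
  · apply Real.exp_le_exp.2
    rw [neg_div, neg_div, neg_le_neg_iff]
    exact div_le_div_of_nonneg_left (sq_nonneg _) (by positivity) (by linarith)

/-- kernels bounded by `(y² + |x|²) e^{-|x|²/8y}` -/
theorem mh_poly {y : ℝ} (hy : 0 < y) (K : ℝ) (hK : 0 ≤ K) : ∃ C : ℝ, 0 ≤ C ∧
    ∀ (σ : ℝ) (x : E3) (p : ℝ), y / 2 ≤ σ → σ ≤ 2 * y → |p| ≤ K * (y ^ 2 + ‖x‖ ^ 2) →
      |p * hk σ x| ≤ C * sg y x ^ 4 := by
  have hp := Real.pi_pos
  obtain ⟨C, hC, h⟩ := mh_exp_le hy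
  refine ⟨K * (2 * π * y) ^ (-(3 / 2) : ℝ) * C, by positivity, fun σ x p h1 h2 h3 => ?_⟩
  have hσ : 0 < σ := by linarith
  rw [abs_mul, abs_of_pos (hk_pos hσ x)]
  calc |p| * hk σ x ≤ (K * (y ^ 2 + ‖x‖ ^ 2)) *
      ((2 * π * y) ^ (-(3 / 2) : ℝ) * Real.exp (-‖x‖ ^ 2 / (8 * y))) :=
        mul_le_mul h3 (mh_hk_le hy h1 h2 x) (hk_pos hσ x).le (by positivity)
    _ = K * (2 * π * y) ^ (-(3 / 2) : ℝ) *
        ((y ^ 2 + ‖x‖ ^ 2) * Real.exp (-‖x‖ ^ 2 / (8 * y))) := by ring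
    _ ≤ K * (2 * π * y) ^ (-(3 / 2) : ℝ) * (C * sg y x ^ 4) :=
        mul_le_mul_of_nonneg_left (h x) (by positivity)
    _ = _ := by ring

theorem mh_coef {y σ : ℝ} (hy : 0 < y) (h1 : y / 2 ≤ σ) (c q : ℝ) (x : E3) (hq : 0 ≤ q)
    (hqx : q ≤ ‖x‖ ^ 2) (hc : |c| ≤ 3) :
    |q / (4 * σ ^ 2) - c / (2 * σ)| ≤ (1 / y ^ 2 + 3 / y ^ 3) * (y ^ 2 + ‖x‖ ^ 2) := by
  have hσ : 0 < σ := by linarith
  have a1 : |q / (4 * σ ^ 2)| ≤ ‖x‖ ^ 2 / y ^ 2 := by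
    rw [abs_of_nonneg (by positivity)]
    apply div_le_div₀ (sq_nonneg _) hqx (by positivity)
    nlinarith
  have a2 : |c / (2 * σ)| ≤ 3 / y := by
    rw [abs_div, abs_of_pos (by positivity : 0 < 2 * σ)]
    apply div_le_div₀ (by norm_num) hc hy
    linarith
  have a3 : ‖x‖ ^ 2 / y ^ 2 ≤ (1 / y ^ 2) * (y ^ 2 + ‖x‖ ^ 2) := by
    rw [div_eq_inv_mul, ← one_div]
    gcongr
    nlinarith
  have a4 : 3 / y ≤ (3 / y ^ 3) * (y ^ 2 + ‖x‖ ^ 2) := by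
    calc 3 / y = (3 / y ^ 3) * y ^ 2 := by field_simp
      _ ≤ _ := by
        gcongr
        nlinarith [norm_nonneg x]
  calc |q / (4 * σ ^ 2) - c / (2 * σ)| ≤ |q / (4 * σ ^ 2)| + |c / (2 * σ)| := abs_sub _ _
    _ ≤ (1 / y ^ 2) * (y ^ 2 + ‖x‖ ^ 2) + (3 / y ^ 3) * (y ^ 2 + ‖x‖ ^ 2) :=
        add_le_add (a1.trans a3) (a2.trans a4)
    _ = _ := by ring

theorem mh_bd_d {y : ℝ} (hy : 0 < y) : ∃ C : ℝ, 0 ≤ C ∧ ∀ σ : ℝ, y / 2 ≤ σ → σ ≤ 2 * y →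
    ∀ x, |mhd σ x| ≤ C * sg y x ^ 4 := by
  obtain ⟨C, hC, h⟩ := mh_poly hy (1 / y ^ 2 + 3 / y ^ 3) (by positivity)
  exact ⟨C, hC, fun σ h1 h2 x => h σ x _ h1 h2
    (mh_coef hy h1 3 _ x (sq_nonneg _) le_rfl (by norm_num))⟩

theorem mh_bd_2 {y : ℝ} (hy : 0 < y) (k : Fin 3) : ∃ C : ℝ, 0 ≤ C ∧
    ∀ x, |mh2 k y x| ≤ C * sg y x ^ 4 := by
  obtain ⟨C, hC, h⟩ := mh_poly hy (1 / y ^ 2 + 3 / y ^ 3) (by positivity)
  refine ⟨C, hC, fun x => h y x _ (by linarith) (by linarith) ?_⟩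
  refine mh_coef hy (by linarith) 1 _ x (sq_nonneg _) ?_ (by norm_num)
  rw [← sq_abs (x k)]
  exact pow_le_pow_left₀ (abs_nonneg _) (abs_coord_le x k) 2

theorem mh_bd_1 {y : ℝ} (hy : 0 < y) (k : Fin 3) : ∃ C : ℝ, 0 ≤ C ∧
    ∀ x, |mh1 k y x| ≤ C * sg y x ^ 4 := by
  obtain ⟨C, hC, h⟩ := mh_poly hy (1 / y ^ 2) (by positivity)
  refine ⟨C, hC, fun x => h y x _ (by linarith) (by linarith) ?_⟩
  rw [abs_neg, abs_div, abs_of_pos (by positivity : 0 < 2 * y)]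
  have h1 := abs_coord_le x k
  rw [div_le_iff₀ (by positivity)]
  have e : 1 / y ^ 2 * (y ^ 2 + ‖x‖ ^ 2) * (2 * y) = 2 * (y ^ 2 + ‖x‖ ^ 2) / y := by
    field_simp
  rw [e, le_div_iff₀ hy]
  nlinarith [norm_nonneg x, sq_nonneg (y - ‖x‖), mul_le_mul_of_nonneg_right h1 hy.le]

theorem kkM_hk {y : ℝ} (hy : 0 < y) : KK (hk y) 1 where
  cont := continuous_hk y
  int := integrable_hk hy
  le := by
    have : ∀ x, |hk y x| = hk y x := fun x => abs_of_pos (hk_pos hy x)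
    simp only [this]
    exact (integral_hk hy).le
  bdd := ⟨(4 * π * y) ^ (-(3 / 2) : ℝ), by have := Real.pi_pos; positivity, fun x => by
    rw [abs_of_pos (hk_pos hy x)]
    exact hk_le hy x⟩

theorem mh_cont1 (k : Fin 3) (σ : ℝ) : Continuous (mh1 k σ) := by
  unfold mh1
  have := continuous_hk σ
  have h2 : Continuous fun x : E3 => x k := (EuclideanSpace.proj (𝕜 := ℝ) k).continuous
  fun_prop

theorem mh_cont2 (k : Fin 3) (σ : ℝ) : Continuous (mh2 k σ) := by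
  unfold mh2
  have := continuous_hk σ
  have h2 : Continuous fun x : E3 => x k := (EuclideanSpace.proj (𝕜 := ℝ) k).continuous
  fun_prop

theorem mh_contd (σ : ℝ) : Continuous (mhd σ) := by
  unfold mhd
  have := continuous_hk σ
  fun_prop

/-- the heat semigroup -/
noncomputable def HpM (σ : ℝ) : V3 →L[ℝ] V3 := cvO (hk σ)

variable {y : ℝ}

theorem norm_HpM_le (hy : 0 < y) (f : V3) : ‖HpM y f‖ ≤ ‖f‖ := by
  have := norm_cvO_le (kkM_hk hy) f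
  rwa [one_mul] at this

theorem bd_HpM (hy : 0 < y) {f : V3} {A : ℝ} (hA : 0 ≤ A) (hf : Bd f A) : Bd (HpM y f) A := by
  have := bd_cvO (kkM_hk hy) hA hf
  rwa [one_mul] at this

theorem symm_HpM (hy : 0 < y) (f g : V3) : ⟪f, HpM y g⟫_ℝ = ⟪HpM y f, g⟫_ℝ := by
  unfold HpM
  rw [cvO_eq (kkM_hk hy)]
  exact symm_cvL (kkM_hk hy) (hk_neg y) f g

theorem deriv_HpM0 (hy : 0 < y) (f : V3) :
    HasDerivAt (fun s => HpM s f) (cvO (mhd y) f) y := by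
  obtain ⟨C, hC, hb⟩ := mh_bd_d hy
  exact hasDerivAt_cvO (κ := hk) (κ' := mhd) hy (C := C)
    (fun s h1 _ x => mh_deriv (by linarith) x) (fun s h1 h2 x => hb s h1.le h2.le x)
    (fun s hs => ⟨_, kkM_hk hs⟩) ⟨_, kk_of_le hy le_rfl (mh_contd y) hC
      (hb y (by linarith) (by linarith))⟩ f

/-- the heat equation -/
theorem mh_lap (hy : 0 < y) {f : V3} {df ddf : Fin 3 → V3} (h1 : ∀ k, IsWeakDeriv k f (df k))
    (h2 : ∀ k, IsWeakDeriv k (df k) (ddf k)) : cvO (mhd y) f = HpM y (∑ k, ddf k) := by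
  have k1 : ∀ k, ∃ L, KK (mh1 k y) L := fun k => by
    obtain ⟨C, hC, hb⟩ := mh_bd_1 hy k
    exact ⟨_, kk_of_le hy le_rfl (mh_cont1 k y) hC hb⟩
  have k2 : ∀ k, ∃ L, KK (mh2 k y) L := fun k => by
    obtain ⟨C, hC, hb⟩ := mh_bd_2 hy k
    exact ⟨_, kk_of_le hy le_rfl (mh_cont2 k y) hC hb⟩
  choose L1 k1 using k1
  choose L2 k2 using k2
  have e1 : ∀ k, cvO (mh1 k y) f = HpM y (df k) := fun k =>
    weak_unique (weak_kernel (kkM_hk hy) (k1 k) (mh_line y k) f) (weak_cvO (hk y) (h1 k))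
  have e2 : ∀ k, cvO (mh2 k y) f = HpM y (ddf k) := fun k => by
    have w := weak_kernel (k1 k) (k2 k) (mh_line1 y k) f
    rw [e1 k] at w
    exact weak_unique w (weak_cvO (hk y) (h2 k))
  have e3 : (mhd y : E3 → ℝ) = fun x => ∑ k, mh2 k y x := by
    ext x
    exact (mh_sum y x).symm
  rw [e3, cvO_sum3 k2, map_sum]
  exact Finset.sum_congr rfl fun k _ => e2 k

theorem deriv_HpM (hy : 0 < y) {f : V3} {df ddf : Fin 3 → V3} (h1 : ∀ k, IsWeakDeriv k f (df k))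
    (h2 : ∀ k, IsWeakDeriv k (df k) (ddf k)) :
    HasDerivAt (fun s => HpM s f) (HpM y (∑ k, ddf k)) y := by
  rw [← mh_lap hy h1 h2]
  exact deriv_HpM0 hy f

end Pool.Agent.TF
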