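import Pool.Agent.TF.M.Hk
import Pool.Agent.TP.Test
import Pool.Agent.TP.Pot

/-!
# Block M: the heat semigroup, weak continuity up to time zero
-/

set_option autoImplicit false

namespace Pool.Agent.TF

open MeasureTheory Set Filter Topology Pool.Agent.TO Pool.Agent.TB Pool.Agent.TC Pool.Agent.TP
open scoped ENNReal NNReal Real InnerProductSpace SchwartzMap LineDeriv

/-- the heat semigroup for all real times (the identity for `σ ≤ 0`) -/
noncomputable def Hs (σ : ℝ) : V3 →L[ℝ] V3 :=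
  if 0 < σ then HpM σ else ContinuousLinearMap.id ℝ V3

variable {σ : ℝ}

theorem Hs_pos (h : 0 < σ) (f : V3) : Hs σ f = HpM σ f := by
  unfold Hs
  rw [if_pos h]

theorem Hs_nonpos (h : σ ≤ 0) (f : V3) : Hs σ f = f := by
  unfold Hs
  rw [if_neg (not_lt.2 h)]
  rfl

theorem norm_Hs_le (σ : ℝ) (f : V3) : ‖Hs σ f‖ ≤ ‖f‖ := by
  rcases lt_or_ge 0 σ with h | h
  · rw [Hs_pos h]
    exact norm_HpM_le h f
  · rw [Hs_nonpos h]

theorem bd_Hs (σ : ℝ) {f : V3} {A : ℝ} (hA : 0 ≤ A) (hf : Bd f A) : Bd (Hs σ f) A := by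
  rcases lt_or_ge 0 σ with h | h
  · rw [Hs_pos h]
    exact bd_HpM h hA hf
  · rw [Hs_nonpos h]
    exact hf

theorem symm_Hs (σ : ℝ) (f g : V3) : ⟪f, Hs σ g⟫_ℝ = ⟪Hs σ f, g⟫_ℝ := by
  rcases lt_or_ge 0 σ with h | h
  · rw [Hs_pos h, Hs_pos h]
    exact symm_HpM h f g
  · rw [Hs_nonpos h, Hs_nonpos h]

theorem weak_Hs (σ : ℝ) {k : Fin 3} {f g : V3} (hf : IsWeakDeriv k f g) :
    IsWeakDeriv k (Hs σ f) (Hs σ g) := by
  rcases lt_or_ge 0 σ with h | h
  · rw [Hs_pos h, Hs_pos h]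
    exact weak_cvO _ hf
  · rw [Hs_nonpos h, Hs_nonpos h]
    exact hf

theorem hk_scale (h : 0 < σ) (z : E3) : hk σ (√σ • z) = (√σ ^ 3)⁻¹ * hk 1 z := by
  have hp := Real.pi_pos
  have h1 : ‖√σ • z‖ ^ 2 = σ * ‖z‖ ^ 2 := by
    rw [norm_smul, mul_pow, Real.norm_of_nonneg (Real.sqrt_nonneg _), Real.sq_sqrt h.le]
  have h2 : (4 * π * σ) ^ (-(3 / 2) : ℝ) = (√σ ^ 3)⁻¹ * (4 * π * 1) ^ (-(3 / 2) : ℝ) := by
    rw [Real.mul_rpow (by positivity) h.le, mul_one, mul_comm]
    congr 1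
    rw [Real.sqrt_eq_rpow, ← Real.rpow_natCast, ← Real.rpow_mul h.le, ← Real.rpow_neg h.le]
    norm_num
  unfold hk
  rw [h1, h2, mul_assoc]
  congr 3
  field_simp

theorem inner_Hs (σ : ℝ) (f g : V3) :
    ⟪g, Hs σ f⟫_ℝ = ∫ z, hk 1 z * ⟪g, tau (√σ • z) f⟫_ℝ := by
  rcases lt_or_ge 0 σ with h | h
  · rw [Hs_pos h]
    unfold HpM
    rw [cvO_eq (kkM_hk h), inner_cvL_tau]
    have hs : 0 < √σ := Real.sqrt_pos.2 h
    have h4 := Measure.integral_comp_smul (volume : Measure E3)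
      (fun z => hk σ z * ⟪g, tau z f⟫_ℝ) (√σ)
    simp only [finrank_euclideanSpace, Fintype.card_fin, hk_scale h] at h4
    rw [abs_of_pos (by positivity), smul_eq_mul] at h4
    have h6 : ∫ z : E3, (√σ ^ 3)⁻¹ * hk 1 z * ⟪g, tau (√σ • z) f⟫_ℝ =
        (√σ ^ 3)⁻¹ * ∫ z, hk 1 z * ⟪g, tau (√σ • z) f⟫_ℝ := by
      rw [← integral_const_mul]
      congr 1
      ext z
      ring
    rw [h6] at h4
    exact (mul_left_cancel₀ (by positivity) h4).symm
  · rw [Hs_nonpos h, Real.sqrt_eq_zero_of_nonpos h]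
    simp only [zero_smul, tau_zero]
    rw [integral_mul_const, integral_hk one_pos, one_mul]

theorem continuous_inner_Hs (f g : V3) : Continuous fun σ => ⟪g, Hs σ f⟫_ℝ := by
  simp only [inner_Hs]
  apply continuous_of_dominated (bound := fun z => hk 1 z * (‖g‖ * ‖f‖))
  · intro σ
    exact ((continuous_hk 1).mul (continuous_const.inner
      ((continuous_tau f).comp (continuous_const_smul (√σ))))).aestronglyMeasurable
  · intro σ
    refine Eventually.of_forall fun z => ?_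
    rw [norm_mul, Real.norm_eq_abs, abs_of_pos (hk_pos one_pos z)]
    apply mul_le_mul_of_nonneg_left _ (hk_pos one_pos z).le
    refine (norm_inner_le_norm _ _).trans ?_
    rw [norm_tau]
  · exact (integrable_hk one_pos).mul_const _
  · refine Eventually.of_forall fun z => ?_
    exact continuous_const.mul (continuous_const.inner
      ((continuous_tau f).comp (Real.continuous_sqrt.smul continuous_const)))

theorem continuous_inner_Hs' (f g : V3) : Continuous fun σ => ⟪Hs σ f, g⟫_ℝ := by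
  have h := continuous_inner_Hs f g
  refine h.congr fun σ => ?_
  rw [real_inner_comm]

/-- the heat equation, integrated -/
theorem Hs_int {f : V3} {df ddf : Fin 3 → V3} (h1 : ∀ k, IsWeakDeriv k f (df k))
    (h2 : ∀ k, IsWeakDeriv k (df k) (ddf k)) (hσ : 0 ≤ σ) (g : V3) :
    ⟪Hs σ f, g⟫_ℝ - ⟪f, g⟫_ℝ = ∫ τ in (0:ℝ)..σ, ⟪Hs τ (∑ k, ddf k), g⟫_ℝ := by
  have hc := continuous_inner_Hs' f g
  rw [intervalIntegral.integral_eq_sub_of_hasDerivAt_of_le (f := fun τ => ⟪Hs τ f, g⟫_ℝ) hσ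
    hc.continuousOn (fun τ hτ => ?_) ((continuous_inner_Hs' _ g).intervalIntegrable _ _)]
  · rw [Hs_nonpos (σ := 0) le_rfl]
  · have h3 := (deriv_HpM hτ.1 h1 h2).inner ℝ (hasDerivAt_const τ g)
    simp only [inner_zero_right, zero_add] at h3
    rw [Hs_pos hτ.1]
    refine h3.congr_of_eventuallyEq ?_
    filter_upwards [lt_mem_nhds hτ.1] with s hs
    rw [Hs_pos hs]

/-! ### divergence -/

theorem mdiv_tau (a : E3) {f : V3} (hf : IsDivFree f) : IsDivFree (tau a f) := by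
  intro φ
  have h1 := hf (φ.compSubConstCLM ℝ (-a))
  have e0 : ∀ x : E3, (φ.compSubConstCLM ℝ (-a)) x = φ (x + a) := by
    intro x
    rw [SchwartzMap.compSubConstCLM_apply, sub_neg_eq_add]
  have e1 : ∀ x : E3, fderiv ℝ (φ.compSubConstCLM ℝ (-a)) x = fderiv ℝ φ (x + a) := by
    intro x
    have : (φ.compSubConstCLM ℝ (-a) : E3 → ℝ) = fun x => φ (x + a) := funext e0
    rw [this, fderiv_comp_add_right]
  simp only [e1] at h1
  rw [← h1, ← integral_add_right_eq_self (fun x => fderiv ℝ φ x ((tau a f : V3) x)) a]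
  apply integral_congr_ae
  have h2 := (measurePreserving_add_right (volume : Measure E3) a).quasiMeasurePreserving.ae
    (coe_tau a f)
  filter_upwards [h2] with x hx
  rw [hx, add_sub_cancel_right]

theorem mdiv_cvO (κ : E3 → ℝ) {f : V3} (hf : IsDivFree f) : IsDivFree (cvO κ f) := by
  by_cases h : KK κ (∫ y, |κ y|)
  · rw [cvO_eq h, div_iff]
    intro φ
    rw [inner_cvL_tau]
    have e : ∀ y, κ y * ⟪emb (gR φ), tau y f⟫_ℝ = 0 := fun y => by
      rw [(div_iff _).1 (mdiv_tau y hf) φ, mul_zero]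
    simp only [e, integral_zero]
  · have e : cvO κ f = 0 := by
      unfold cvO
      rw [dif_neg h]
      rfl
    rw [e, div_iff]
    intro φ
    rw [inner_zero_right]

theorem mdiv_Hs (σ : ℝ) {f : V3} (hf : IsDivFree f) : IsDivFree (Hs σ f) := by
  rcases lt_or_ge 0 σ with h | h
  · rw [Hs_pos h]
    exact mdiv_cvO _ hf
  · rw [Hs_nonpos h]
    exact hf

theorem mdiv_weak {j : Fin 3} {f g : V3} (hf : IsDivFree f) (h : IsWeakDeriv j f g) :
    IsDivFree g := by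
  rw [div_iff] at hf ⊢
  intro φ
  have h1 := weak_emb h (gR φ)
  have h2 : (∂_{ee j} (gR φ) : 𝓢(E3, E3)) = gR (∂_{ee j} φ) := by
    ext x i
    rw [lineDeriv_gR, gR_apply, lineDeriv_comm_R]
  rw [h2, hf] at h1
  linarith

theorem mdiv_add {f g : V3} (hf : IsDivFree f) (hg : IsDivFree g) : IsDivFree (f + g) := by
  rw [div_iff] at hf hg ⊢
  intro φ
  rw [inner_add_right, hf, hg, add_zero]

theorem mdiv_sum {f : Fin 3 → V3} (hf : ∀ k, IsDivFree (f k)) : IsDivFree (∑ k, f k) := by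
  rw [Fin.sum_univ_three]
  exact mdiv_add (mdiv_add (hf 0) (hf 1)) (hf 2)

end Pool.Agent.TF
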