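import Pool.Agent.TF.M.Defs

/-!
# Block M: the averaging trick
-/

set_option autoImplicit false

namespace Pool.Agent.TF.KT

open MeasureTheory Set Filter Topology Pool.Agent.TO Pool.Agent.TB Pool.Agent.TP
open scoped ENNReal NNReal Real InnerProductSpace SchwartzMap LineDeriv

/-- the indicator of `dist y z < ρ` -/
noncomputable def k1i (ρ : ℝ) (p : E3 × E3) : ℝ≥0∞ :=
  {p : E3 × E3 | dist p.1 p.2 < ρ}.indicator (fun _ => 1) p

theorem k1i_of {ρ : ℝ} {y z : E3} (h : dist y z < ρ) : k1i ρ (y, z) = 1 := by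
  unfold k1i
  have h1 : ((y, z) : E3 × E3) ∈ {p : E3 × E3 | dist p.1 p.2 < ρ} := h
  rw [Set.indicator_of_mem h1]

theorem k1i_not {ρ : ℝ} {y z : E3} (h : ¬ dist y z < ρ) : k1i ρ (y, z) = 0 := by
  unfold k1i
  have h1 : ((y, z) : E3 × E3) ∉ {p : E3 × E3 | dist p.1 p.2 < ρ} := h
  rw [Set.indicator_of_notMem h1]

theorem k1_meas (ρ : ℝ) : Measurable (k1i ρ) :=
  measurable_const.indicator (isOpen_lt continuous_dist continuous_const).measurableSet

theorem k1_pt {ρ : ℝ} (hρ : 0 < ρ) {x y z : E3} (h : dist y z < ρ) :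
    sg ρ (x - y) ^ 4 ≤ 9 * sg ρ (x - z) ^ 4 := by
  have h1 := sg_sq hρ (x - y)
  have h2 := sg_sq hρ (x - z)
  have h3 := sg_pos hρ (x - y)
  have h4 := sg_pos hρ (x - z)
  have h5 : ‖x - z‖ ^ 2 ≤ 2 * ‖x - y‖ ^ 2 + 2 * ρ ^ 2 := by
    have a1 : ‖x - z‖ ≤ ‖x - y‖ + ρ := by
      calc ‖x - z‖ = ‖(x - y) + (y - z)‖ := by rw [sub_add_sub_cancel]
        _ ≤ ‖x - y‖ + ‖y - z‖ := norm_add_le _ _
        _ ≤ ‖x - y‖ + ρ := by
            rw [dist_eq_norm] at h
            linarith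
    nlinarith [norm_nonneg (x - z), norm_nonneg (x - y), sq_nonneg (‖x - y‖ - ρ),
      pow_le_pow_left₀ (norm_nonneg (x - z)) a1 2]
  have h6 : ρ ^ 2 + ‖x - z‖ ^ 2 ≤ 3 * (ρ ^ 2 + ‖x - y‖ ^ 2) := by nlinarith [sq_nonneg ‖x - y‖]
  have h7 : sg ρ (x - y) ^ 2 ≤ 3 * sg ρ (x - z) ^ 2 := by
    have b1 : 0 < ρ ^ 2 + ‖x - y‖ ^ 2 := by positivity
    have b2 : 1 ≤ 3 * sg ρ (x - z) ^ 2 * (ρ ^ 2 + ‖x - y‖ ^ 2) := by
      calc (1:ℝ) = sg ρ (x - z) ^ 2 * (ρ ^ 2 + ‖x - z‖ ^ 2) := h2.symm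
        _ ≤ sg ρ (x - z) ^ 2 * (3 * (ρ ^ 2 + ‖x - y‖ ^ 2)) :=
            mul_le_mul_of_nonneg_left h6 (sq_nonneg _)
        _ = _ := by ring
    rw [← h1] at b2
    exact le_of_mul_le_mul_right b2 b1
  calc sg ρ (x - y) ^ 4 = (sg ρ (x - y) ^ 2) ^ 2 := by ring
    _ ≤ (3 * sg ρ (x - z) ^ 2) ^ 2 := pow_le_pow_left₀ (sq_nonneg _) h7 2
    _ = _ := by ring

/-- the volume of the unit ball -/
noncomputable def k1c : ℝ := ((volume : Measure E3) (Metric.ball 0 1)).toReal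

theorem k1c_pos : 0 < k1c :=
  ENNReal.toReal_pos (Metric.measure_ball_pos _ _ one_pos).ne' measure_ball_lt_top.ne

theorem k1_vol {ρ : ℝ} (hρ : 0 < ρ) (y : E3) :
    (volume : Measure E3) (Metric.ball y ρ) = ENNReal.ofReal (ρ ^ 3 * k1c) := by
  rw [Measure.addHaar_ball_of_pos _ _ hρ, finrank_euclideanSpace, Fintype.card_fin,
    ENNReal.ofReal_mul (by positivity), k1c, ENNReal.ofReal_toReal measure_ball_lt_top.ne]

theorem k1_low {ρ : ℝ} (hρ : 0 < ρ) (x y : E3) (a : ℝ≥0∞) :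
    ENNReal.ofReal (ρ ^ 3 * k1c) * (ENNReal.ofReal (sg ρ (x - y) ^ 4) * a) ≤
      ∫⁻ z, k1i ρ (y, z) * (ENNReal.ofReal (9 * sg ρ (x - z) ^ 4) * a) := by
  have m1 : Measurable fun z : E3 => k1i ρ (y, z) := (k1_meas ρ).comp measurable_prodMk_left
  have m2 : Measurable fun z : E3 => ENNReal.ofReal (9 * sg ρ (x - z) ^ 4) :=
    (continuous_const.mul (((continuous_sg hρ).comp
      (continuous_const.sub continuous_id)).pow 4)).measurable.ennreal_ofReal
  have e1 : ∫⁻ z, k1i ρ (y, z) * (ENNReal.ofReal (9 * sg ρ (x - z) ^ 4) * a) =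
      (∫⁻ z, k1i ρ (y, z) * ENNReal.ofReal (9 * sg ρ (x - z) ^ 4)) * a := by
    rw [← lintegral_mul_const a (f := fun z => k1i ρ (y, z) *
      ENNReal.ofReal (9 * sg ρ (x - z) ^ 4)) (m1.mul m2)]
    simp only [mul_assoc]
  rw [e1, ← mul_assoc, ← k1_vol hρ y]
  gcongr
  rw [mul_comm, ← setLIntegral_const, ← lintegral_indicator Metric.isOpen_ball.measurableSet]
  refine lintegral_mono fun z => ?_
  by_cases hz : z ∈ Metric.ball y ρ
  · have h1 : dist y z < ρ := by rw [dist_comm]; exact hz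
    rw [Set.indicator_of_mem hz, k1i_of h1, one_mul]
    exact ENNReal.ofReal_le_ofReal (k1_pt hρ h1)
  · rw [Set.indicator_of_notMem hz]
    exact zero_le

theorem k1_int {ρ : ℝ} (hρ : 0 < ρ) (x : E3) :
    ∫⁻ z, ENNReal.ofReal (9 * sg ρ (x - z) ^ 4) = ENNReal.ofReal (9 * JJ 4 / ρ) := by
  have h1 : Integrable fun z : E3 => 9 * sg ρ (x - z) ^ 4 :=
    ((integrable_sg hρ le_rfl).comp_sub_left x).const_mul 9
  rw [← ofReal_integral_eq_lintegral_ofReal h1 (Eventually.of_forall fun z => by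
    have := sg_pos hρ (x - z)
    positivity), integral_const_mul,
    integral_sub_left_eq_self (fun z => sg ρ z ^ 4) volume x, integral_sg hρ]
  congr 1
  field_simp

theorem k1_mball {f : ℝ → E3 → ℝ≥0∞} (mf : Measurable (Function.uncurry f)) (ρ : ℝ) :
    Measurable fun p : ℝ × E3 => ∫⁻ y in Metric.ball p.2 ρ, f p.1 y := by
  have m3 : Measurable fun q : (ℝ × E3) × E3 => k1i ρ (q.2, q.1.2) * f q.1.1 q.2 :=
    ((k1_meas ρ).comp (measurable_snd.prodMk (measurable_snd.comp measurable_fst))).mul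
      (mf.comp ((measurable_fst.comp measurable_fst).prodMk measurable_snd))
  have m4 := m3.lintegral_prod_right' (ν := (volume : Measure E3))
  have e4 : (fun p : ℝ × E3 => ∫⁻ y in Metric.ball p.2 ρ, f p.1 y) =
      fun p : ℝ × E3 => ∫⁻ y, k1i ρ (y, p.2) * f p.1 y := ?_
  · rw [e4]
    exact m4
  ext p
  rw [← lintegral_indicator Metric.isOpen_ball.measurableSet]
  refine lintegral_congr fun y => ?_
  by_cases hy : y ∈ Metric.ball p.2 ρ
  · rw [Set.indicator_of_mem hy, k1i_of (Metric.mem_ball.1 hy), one_mul]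
  · rw [Set.indicator_of_notMem hy, k1i_not (fun h => hy (Metric.mem_ball.2 h)), zero_mul]

theorem k1_mball' {f : ℝ → E3 → ℝ≥0∞} (mf : Measurable (Function.uncurry f)) (ρ : ℝ) (z : E3) :
    Measurable fun s : ℝ => ∫⁻ y in Metric.ball z ρ, f s y :=
  mf.lintegral_prod_right' (ν := (volume : Measure E3).restrict (Metric.ball z ρ))

/-- Tonelli's theorem for the averages -/
theorem k1_ton {f : ℝ → E3 → ℝ≥0∞} (mf : Measurable (Function.uncurry f)) (ρ : ℝ)
    {k : E3 → ℝ≥0∞} (mk : Measurable k) (S : Set ℝ) :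
    ∫⁻ s in S, ∫⁻ z, k z * ∫⁻ y in Metric.ball z ρ, f s y =
      ∫⁻ z, k z * ∫⁻ s in S, ∫⁻ y in Metric.ball z ρ, f s y := by
  rw [lintegral_lintegral_swap]
  · refine lintegral_congr fun z => ?_
    exact lintegral_const_mul (k z) (k1_mball' mf ρ z)
  · have m7 : Measurable fun p : ℝ × E3 => k p.2 * ∫⁻ y in Metric.ball p.2 ρ, f p.1 y :=
      (mk.comp measurable_snd).mul (k1_mball mf ρ)
    exact m7.aemeasurable

theorem stK1 : StK1 := by
  have hc := k1c_pos
  have hJ := JJ_pos (n := 4) le_rfl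
  refine ⟨9 * JJ 4 / k1c, by positivity, fun T A f hA hf t ht x => ?_⟩
  have ht0 : 0 < t := ht.1
  set ρ := √t with hρd
  have hρ : 0 < ρ := Real.sqrt_pos.2 ht0
  have mf := hf.meas
  have mk : Measurable fun z : E3 => ENNReal.ofReal (9 * sg ρ (x - z) ^ 4) :=
    (continuous_const.mul (((continuous_sg hρ).comp
      (continuous_const.sub continuous_id)).pow 4)).measurable.ennreal_ofReal
  have key : ENNReal.ofReal (ρ ^ 3 * k1c) *
      ∫⁻ s in Ioo 0 t, ∫⁻ y, ENNReal.ofReal (kq t (x - y)) * f s y ≤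
      ENNReal.ofReal (9 * JJ 4 / ρ) * ENNReal.ofReal (A * ρ ^ 3) := by
    calc ENNReal.ofReal (ρ ^ 3 * k1c) *
        ∫⁻ s in Ioo 0 t, ∫⁻ y, ENNReal.ofReal (kq t (x - y)) * f s y
        = ∫⁻ s in Ioo 0 t, ∫⁻ y, ENNReal.ofReal (ρ ^ 3 * k1c) *
          (ENNReal.ofReal (sg ρ (x - y) ^ 4) * f s y) := by
          rw [← lintegral_const_mul' _ _ ENNReal.ofReal_ne_top]
          congr 1
          ext s
          rw [← lintegral_const_mul' _ _ ENNReal.ofReal_ne_top]
          rfl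
      _ ≤ ∫⁻ s in Ioo 0 t, ∫⁻ y, ∫⁻ z, k1i ρ (y, z) *
          (ENNReal.ofReal (9 * sg ρ (x - z) ^ 4) * f s y) :=
          lintegral_mono fun s => lintegral_mono fun y => k1_low hρ x y _
      _ = ∫⁻ s in Ioo 0 t, ∫⁻ z, ENNReal.ofReal (9 * sg ρ (x - z) ^ 4) *
          ∫⁻ y in Metric.ball z ρ, f s y := by
          congr 1
          ext s
          have ms : Measurable (f s) := mf.comp measurable_prodMk_left
          rw [lintegral_lintegral_swap]
          · congr 1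
            ext z
            rw [← lintegral_indicator Metric.isOpen_ball.measurableSet,
              ← lintegral_const_mul _ (ms.indicator Metric.isOpen_ball.measurableSet)]
            refine lintegral_congr fun y => ?_
            by_cases hy : y ∈ Metric.ball z ρ
            · rw [Set.indicator_of_mem hy, k1i_of (Metric.mem_ball.1 hy), one_mul]
            · rw [Set.indicator_of_notMem hy, k1i_not (fun h => hy (Metric.mem_ball.2 h)),
                zero_mul, mul_zero]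
          · exact ((k1_meas ρ).mul ((mk.comp measurable_snd).mul
              (ms.comp measurable_fst))).aemeasurable
      _ = ∫⁻ z, ENNReal.ofReal (9 * sg ρ (x - z) ^ 4) *
          ∫⁻ s in Ioo 0 t, ∫⁻ y in Metric.ball z ρ, f s y :=
          k1_ton mf ρ mk _
      _ ≤ ∫⁻ z, ENNReal.ofReal (9 * sg ρ (x - z) ^ 4) * ENNReal.ofReal (A * ρ ^ 3) :=
          lintegral_mono fun z => mul_le_mul_right (hf.carl t ht z) _
      _ = _ := by rw [lintegral_mul_const _ mk, k1_int hρ]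
  have hpos : 0 < ρ ^ 3 * k1c := by positivity
  rw [← ENNReal.ofReal_mul (by positivity)] at key
  have h1 : (∫⁻ s in Ioo 0 t, ∫⁻ y, ENNReal.ofReal (kq t (x - y)) * f s y) ≤
      ENNReal.ofReal (9 * JJ 4 / ρ * (A * ρ ^ 3)) / ENNReal.ofReal (ρ ^ 3 * k1c) := by
    rw [ENNReal.le_div_iff_mul_le (Or.inl (ENNReal.ofReal_pos.2 hpos).ne')
      (Or.inl ENNReal.ofReal_ne_top), mul_comm]
    exact key
  refine h1.trans (le_of_eq ?_)
  rw [← ENNReal.ofReal_div_of_pos hpos]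
  congr 1
  field_simp

end Pool.Agent.TF.KT
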