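import Pool.Agent.TF.M.K4b3

/-!
# Block M: the energy inequality for the heat equation
-/

set_option autoImplicit false

namespace Pool.Agent.TF.KT

open MeasureTheory Set Filter Topology Pool.Agent.TO Pool.Agent.TB Pool.Agent.TP
open scoped ENNReal NNReal Real InnerProductSpace SchwartzMap LineDeriv

namespace Kb

/-- the component `(j, k)` of the density -/
def fj (F : ℝ → E3 → Fin 3 → Fin 3 → ℝ) (j k : Fin 3) (p : ℝ × E3) : ℝ := F p.1 p.2 j k

theorem HeV_apply (ho : OK) {t B : ℝ} {F : ℝ → E3 → Fin 3 → Fin 3 → ℝ}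
    (hm : ∀ j k, Measurable (Function.uncurry fun s y => F s y j k))
    (hB : ∀ s y j k, |F s y j k| ≤ B) {τ : ℝ} (hτ : τ ∈ Ioo 0 t) (x : E3) (j : Fin 3) :
    HeV F τ x j = ∑ k, Po t k (fj F j k) (τ, x) := by
  have hi : ∀ k, Integrable (fun p => HH k (fj F j k) (τ, x) p) (mu t) := fun k =>
    int_HH ho (hm j k) (fun p => hB p.1 p.2 j k) k hτ.2
  unfold Po
  rw [← integral_finsetSum _ fun k _ => hi k, mu,
    integral_prod _ (integrable_finsetSum _ fun k _ => hi k)]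
  have e1 : ∀ s, ∫ y, ∑ k, HH k (fj F j k) (τ, x) (s, y) = (Iio τ).indicator
      (fun s => ∫ y, ∑ k, gauss1 (τ - s) (x - y) k * F s y j k) s := by
    intro s
    by_cases h : s < τ
    · rw [indicator_of_mem (show s ∈ Iio τ from h)]
      unfold HH fj
      simp only [if_pos h]
    · rw [indicator_of_notMem (show s ∉ Iio τ from h)]
      unfold HH fj
      simp only [if_neg h, Finset.sum_const_zero, integral_zero]
  simp only [e1]
  rw [setIntegral_indicator measurableSet_Iio]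
  have hs : Ioo 0 t ∩ Iio τ = Ioo 0 τ := by
    ext s
    simp only [mem_inter_iff, mem_Ioo, mem_Iio]
    constructor
    · rintro ⟨⟨h1, _⟩, h2⟩
      exact ⟨h1, h2⟩
    · rintro ⟨h1, h2⟩
      exact ⟨⟨h1, h2.trans hτ.2⟩, h2⟩
  rw [hs]
  rfl

theorem HeV_sq_le (ho : OK) {t B : ℝ} {F : ℝ → E3 → Fin 3 → Fin 3 → ℝ}
    (hm : ∀ j k, Measurable (Function.uncurry fun s y => F s y j k))
    (hB : ∀ s y j k, |F s y j k| ≤ B) {τ : ℝ} (hτ : τ ∈ Ioo 0 t) (x : E3) :
    ‖HeV F τ x‖ₑ ^ 2 ≤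
      3 * ∑ j, ∑ k, ENNReal.ofReal (∑ l, Po t l (fj F j k) (τ, x) ^ 2) := by
  have h0 : ∀ j k, 0 ≤ ∑ l, Po t l (fj F j k) (τ, x) ^ 2 := fun j k =>
    Finset.sum_nonneg fun l _ => sq_nonneg _
  have e1 : (3 : ℝ≥0∞) * ∑ j, ∑ k, ENNReal.ofReal (∑ l, Po t l (fj F j k) (τ, x) ^ 2) =
      ENNReal.ofReal (3 * ∑ j, ∑ k, ∑ l, Po t l (fj F j k) (τ, x) ^ 2) := by
    rw [ENNReal.ofReal_mul (by norm_num), ENNReal.ofReal_sum_of_nonneg
      fun j _ => Finset.sum_nonneg fun k _ => h0 j k]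
    congr 1
    · norm_num
    · refine Finset.sum_congr rfl fun j _ => ?_
      rw [ENNReal.ofReal_sum_of_nonneg fun k _ => h0 j k]
  rw [e1, ← ofReal_norm, ← ENNReal.ofReal_pow (norm_nonneg _)]
  apply ENNReal.ofReal_le_ofReal
  rw [EuclideanSpace.norm_sq_eq, Finset.mul_sum]
  refine Finset.sum_le_sum fun j _ => ?_
  rw [HeV_apply ho hm hB hτ x j, Real.norm_eq_abs, sq_abs]
  have h1 : (∑ k, Po t k (fj F j k) (τ, x)) ^ 2 ≤ 3 * ∑ k, Po t k (fj F j k) (τ, x) ^ 2 := by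
    have := sq_sum_le_card_mul_sum_sq (s := (Finset.univ : Finset (Fin 3)))
      (f := fun k => Po t k (fj F j k) (τ, x))
    simpa using this
  refine h1.trans (mul_le_mul_of_nonneg_left (Finset.sum_le_sum fun k _ => ?_) (by norm_num))
  exact Finset.single_le_sum (f := fun l => Po t l (fj F j k) (τ, x) ^ 2)
    (fun l _ => sq_nonneg _) (Finset.mem_univ k)

theorem fin_of_supp {t B ρ : ℝ} {z : E3} {f : ℝ × E3 → ℝ} (hB : ∀ p, |f p| ≤ B)
    (h0 : ∀ s, ∀ y ∉ Metric.ball z ρ, f (s, y) = 0) : ∫⁻ p, ‖f p‖ₑ ∂(mu t) < ∞ := by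
  refine (lintegral_prod_le _).trans_lt ?_
  have h1 : ∀ s, ∫⁻ y, ‖f (s, y)‖ₑ ≤ ENNReal.ofReal B * volume (Metric.ball z ρ) := by
    intro s
    have h2 : ∀ y, ‖f (s, y)‖ₑ ≤ (Metric.ball z ρ).indicator (fun _ => ENNReal.ofReal B) y := by
      intro y
      by_cases hy : y ∈ Metric.ball z ρ
      · rw [indicator_of_mem hy, ← ofReal_norm, Real.norm_eq_abs]
        exact ENNReal.ofReal_le_ofReal (hB _)
      · rw [h0 s y hy]
        simp
    refine (lintegral_mono h2).trans (le_of_eq ?_)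
    rw [lintegral_indicator measurableSet_ball, setLIntegral_const]
  refine (lintegral_mono h1).trans_lt ?_
  rw [lintegral_const]
  refine ENNReal.mul_lt_top (ENNReal.mul_lt_top ENNReal.ofReal_lt_top measure_ball_lt_top) ?_
  rw [Measure.restrict_apply_univ, Real.volume_Ioo]
  exact ENNReal.ofReal_lt_top

theorem meas_Po (ho : OK) {t : ℝ} {f : ℝ × E3 → ℝ} (hf : Measurable f) (l : Fin 3) :
    Measurable (Po t l f) :=
  ((meas_HH ho hf l).stronglyMeasurable.integral_prod_right (ν := mu t)).measurable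

end Kb

open Kb

/-- (K4b) the energy inequality for the heat equation -/
theorem stK4b (hg : GK) (ho : OK) : StK4b := by
  intro t B ρ z F ht hm hB h0
  have hf : ∀ j k, Measurable (fj F j k) := fun j k => hm j k
  have hfB : ∀ j k p, |fj F j k p| ≤ B := fun j k p => hB p.1 p.2 j k
  have hms : ∀ j k, Measurable fun a => ENNReal.ofReal (∑ l, Po t l (fj F j k) a ^ 2) :=
    fun j k => (Finset.measurable_sum _ fun l _ =>
      (meas_Po ho (hf j k) l).pow_const 2).ennreal_ofReal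
  have h1 : ∫⁻ τ in Ioo 0 t, ∫⁻ x, ‖HeV F τ x‖ₑ ^ 2 ≤ ∫⁻ τ in Ioo 0 t, ∫⁻ x,
      3 * ∑ j, ∑ k, ENNReal.ofReal (∑ l, Po t l (fj F j k) (τ, x) ^ 2) := by
    refine lintegral_mono_ae ?_
    filter_upwards [ae_restrict_mem measurableSet_Ioo] with τ hτ
    exact lintegral_mono fun x => HeV_sq_le ho hm hB hτ x
  have hmS : Measurable fun a : ℝ × E3 =>
      3 * ∑ j, ∑ k, ENNReal.ofReal (∑ l, Po t l (fj F j k) a ^ 2) :=
    (Finset.measurable_sum _ fun j _ => Finset.measurable_sum _ fun k _ => hms j k).const_mul _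
  have h2 : ∫⁻ τ in Ioo 0 t, ∫⁻ x,
      3 * ∑ j, ∑ k, ENNReal.ofReal (∑ l, Po t l (fj F j k) (τ, x) ^ 2) =
      3 * ∑ j, ∑ k, ∫⁻ a, ENNReal.ofReal (∑ l, Po t l (fj F j k) a ^ 2) ∂(mu t) := by
    rw [← lintegral_prod (fun a : ℝ × E3 =>
      3 * ∑ j, ∑ k, ENNReal.ofReal (∑ l, Po t l (fj F j k) a ^ 2)) hmS.aemeasurable,
      lintegral_const_mul' _ _ (by norm_num), lintegral_finsetSum _ fun j _ =>
        Finset.measurable_sum _ fun k _ => hms j k]
    congr 1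
    refine Finset.sum_congr rfl fun j _ => ?_
    rw [lintegral_finsetSum _ fun k _ => hms j k]
  rw [h2] at h1
  refine h1.trans (mul_le_mul_right (Finset.sum_le_sum fun j _ => Finset.sum_le_sum fun k _ => ?_) _)
  exact scalar hg ho (hf j k) (hfB j k)
    (fin_of_supp (hfB j k) fun s y hy => h0 s y hy j k)

end Pool.Agent.TF.KT
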