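import Pool.Agent.TF.M.Defs

/-!
# Block M: the energy inequality for the heat equation, kernels and Fubini
-/

set_option autoImplicit false

namespace Pool.Agent.TF.KT.Kb

open MeasureTheory Set Filter Topology Pool.Agent.TO Pool.Agent.TB Pool.Agent.TP
open scoped ENNReal NNReal Real InnerProductSpace SchwartzMap LineDeriv

theorem haar_vol : (volume : Measure (ℝ × E3)).IsAddHaarMeasure := by
  rw [Measure.volume_eq_prod]
  infer_instance

/-- the measure on space-time -/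
noncomputable abbrev mu (t : ℝ) : Measure (ℝ × E3) :=
  (volume.restrict (Ioo 0 t)).prod (volume : Measure E3)

theorem mu_eq (t : ℝ) : mu t = (volume : Measure (ℝ × E3)).restrict (Ioo 0 t ×ˢ univ) := by
  rw [mu, Measure.volume_eq_prod, ← Measure.prod_restrict, Measure.restrict_univ]

theorem ae_mu (t : ℝ) : ∀ᵐ p ∂(mu t), p.1 ∈ Ioo 0 t := by
  rw [mu_eq]
  filter_upwards [ae_restrict_mem (measurableSet_Ioo.prod MeasurableSet.univ)] with p hp
  exact hp.1

theorem lint_mu_le (t : ℝ) (g : ℝ × E3 → ℝ≥0∞) : ∫⁻ p, g p ∂(mu t) ≤ ∫⁻ p, g p := by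
  rw [mu_eq]
  exact setLIntegral_le_lintegral _ _

/-- the majorant kernel -/
noncomputable def hm (t : ℝ) (l : Fin 3) (p : ℝ × E3) : ℝ≥0∞ :=
  (Ioo 0 t ×ˢ univ).indicator (fun p => ‖gauss1 p.1 p.2 l‖ₑ) p

theorem meas_hm (ho : OK) (t : ℝ) (l : Fin 3) : Measurable (hm t l) :=
  ((ho.meas1 l).enorm).indicator (measurableSet_Ioo.prod MeasurableSet.univ)

theorem lint_sqrt_lt (c t : ℝ) : ∫⁻ r in Ioo 0 t, ENNReal.ofReal (c / √r) < ∞ := by
  rcases le_or_gt t 0 with ht | ht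
  · rw [Ioo_eq_empty (not_lt.2 ht)]
    simp
  have h1 : IntervalIntegrable (fun r : ℝ => r ^ (-(1 / 2) : ℝ)) volume 0 t :=
    intervalIntegral.intervalIntegrable_rpow' (by norm_num)
  have h2 : IntegrableOn (fun r : ℝ => c / √r) (Ioo 0 t) volume := by
    have h3 := ((intervalIntegrable_iff_integrableOn_Ioo_of_le ht.le).1 h1).const_mul c
    refine h3.congr ?_
    filter_upwards [ae_restrict_mem measurableSet_Ioo] with r hr
    rw [Real.rpow_neg hr.1.le, ← Real.sqrt_eq_rpow, div_eq_mul_inv]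
  have h4 := h2.2
  rw [hasFiniteIntegral_iff_enorm] at h4
  refine lt_of_le_of_lt (lintegral_mono fun r => ?_) h4
  rw [← ofReal_norm]
  exact ENNReal.ofReal_le_ofReal (le_abs_self _)

theorem lint_hm_lt (ho : OK) (t : ℝ) (l : Fin 3) : ∫⁻ p, hm t l p < ∞ := by
  obtain ⟨C, hC, hle⟩ := ho.le1
  have h1 : ∀ r, ∫⁻ x, hm t l (r, x) ≤
      (Ioo 0 t).indicator (fun r => ENNReal.ofReal (C * JJ 4 / √r)) r := by
    intro r
    by_cases hr : r ∈ Ioo 0 t
    · rw [indicator_of_mem hr]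
      have h2 : ∀ x, hm t l (r, x) ≤ ENNReal.ofReal (C * kq r x) := by
        intro x
        unfold hm
        rw [indicator_of_mem (show (r, x) ∈ Ioo 0 t ×ˢ univ from ⟨hr, mem_univ _⟩),
          ← ofReal_norm, Real.norm_eq_abs]
        exact ENNReal.ofReal_le_ofReal (hle r hr.1 x l)
      refine (lintegral_mono h2).trans ?_
      have hs : 0 < √r := Real.sqrt_pos.2 hr.1
      simp only [kq]
      rw [← ofReal_integral_eq_lintegral_ofReal ((integrable_sg hs le_rfl).const_mul C)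
        (Eventually.of_forall fun x => mul_nonneg hC.le (pow_nonneg (sg_pos hs x).le 4)),
        integral_const_mul]
      apply ENNReal.ofReal_le_ofReal
      have h3 := integral_sg hs 4
      rw [h3]
      apply le_of_eq
      field_simp
    · rw [indicator_of_notMem hr]
      have h2 : ∀ x, hm t l (r, x) = 0 := by
        intro x
        unfold hm
        exact indicator_of_notMem (fun h => hr h.1) _
      simp [h2]
  rw [Measure.volume_eq_prod, lintegral_prod _ (meas_hm ho t l).aemeasurable]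
  refine (lintegral_mono h1).trans_lt ?_
  rw [lintegral_indicator measurableSet_Ioo]
  exact lint_sqrt_lt _ _

variable {t B : ℝ} {f : ℝ × E3 → ℝ}

/-- the kernel of the heat potential, multiplied by the density -/
noncomputable def HH (l : Fin 3) (f : ℝ × E3 → ℝ) (a p : ℝ × E3) : ℝ :=
  if p.1 < a.1 then gauss1 (a.1 - p.1) (a.2 - p.2) l * f p else 0

theorem meas_HH (ho : OK) (hf : Measurable f) (l : Fin 3) :
    Measurable fun q : (ℝ × E3) × (ℝ × E3) => HH l f q.1 q.2 := by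
  unfold HH
  refine Measurable.ite (measurableSet_lt (measurable_fst.comp measurable_snd)
    (measurable_fst.comp measurable_fst)) ?_ measurable_const
  refine Measurable.mul ?_ (hf.comp measurable_snd)
  exact (ho.meas1 l).comp (((measurable_fst.comp measurable_fst).sub
    (measurable_fst.comp measurable_snd)).prodMk ((measurable_snd.comp measurable_fst).sub
    (measurable_snd.comp measurable_snd)))

theorem HH_le (l : Fin 3) {a p : ℝ × E3} (ha : a.1 < t) (hp : 0 < p.1) :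
    ‖HH l f a p‖ₑ ≤ hm t l (a - p) * ‖f p‖ₑ := by
  unfold HH
  split_ifs with h
  · have h1 : a - p ∈ Ioo 0 t ×ˢ (univ : Set E3) := by
      refine ⟨⟨?_, ?_⟩, mem_univ _⟩
      · rw [Prod.fst_sub]; linarith
      · rw [Prod.fst_sub]; linarith
    unfold hm
    rw [indicator_of_mem h1, enorm_mul]
    rfl
  · simp

theorem lint_HH_le (ho : OK) (hB : ∀ p, |f p| ≤ B) (l : Fin 3) {a : ℝ × E3} (ha : a.1 < t) :
    ∫⁻ p, ‖HH l f a p‖ₑ ∂(mu t) ≤ (∫⁻ p, hm t l p) * ENNReal.ofReal B := by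
  have h1 : ∫⁻ p, ‖HH l f a p‖ₑ ∂(mu t) ≤ ∫⁻ p, hm t l (a - p) * ENNReal.ofReal B ∂(mu t) := by
    refine lintegral_mono_ae ?_
    filter_upwards [ae_mu t] with p hp
    refine (HH_le l ha hp.1).trans (mul_le_mul_right ?_ _)
    rw [← ofReal_norm]
    exact ENNReal.ofReal_le_ofReal (hB p)
  refine h1.trans ((lint_mu_le t _).trans (le_of_eq ?_))
  have m : Measurable fun p : ℝ × E3 => hm t l (a - p) :=
    (meas_hm ho t l).comp (measurable_const.sub measurable_id)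
  have := haar_vol
  rw [lintegral_mul_const _ m, lintegral_sub_left_eq_self (fun p => hm t l p) a]

theorem lint_HH_swap (ho : OK) (hf : Measurable f) (l : Fin 3) :
    ∫⁻ a, ∫⁻ p, ‖HH l f a p‖ₑ ∂(mu t) ∂(mu t) ≤
      (∫⁻ p, hm t l p) * ∫⁻ p, ‖f p‖ₑ ∂(mu t) := by
  rw [lintegral_lintegral_swap (meas_HH ho hf l).enorm.aemeasurable]
  have h1 : ∀ᵐ p ∂(mu t), ∫⁻ a, ‖HH l f a p‖ₑ ∂(mu t) ≤ (∫⁻ p, hm t l p) * ‖f p‖ₑ := by
    filter_upwards [ae_mu t] with p hp
    have h2 : ∫⁻ a, ‖HH l f a p‖ₑ ∂(mu t) ≤ ∫⁻ a, hm t l (a - p) * ‖f p‖ₑ ∂(mu t) := by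
      refine lintegral_mono_ae ?_
      filter_upwards [ae_mu t] with a ha
      exact HH_le l ha.2 hp.1
    refine h2.trans ((lint_mu_le t _).trans (le_of_eq ?_))
    have m : Measurable fun a : ℝ × E3 => hm t l (a - p) :=
      (meas_hm ho t l).comp (measurable_id.sub_const p)
    have := haar_vol
    rw [lintegral_mul_const _ m, lintegral_sub_right_eq_self (fun a => hm t l a) p]
  refine (lintegral_mono_ae h1).trans (le_of_eq ?_)
  rw [lintegral_const_mul _ hf.enorm]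

theorem int_HH (ho : OK) (hf : Measurable f) (hB : ∀ p, |f p| ≤ B) (l : Fin 3) {a : ℝ × E3}
    (ha : a.1 < t) : Integrable (fun p => HH l f a p) (mu t) := by
  refine ⟨((meas_HH ho hf l).comp (measurable_const.prodMk measurable_id)).aestronglyMeasurable,
    ?_⟩
  rw [hasFiniteIntegral_iff_enorm]
  exact (lint_HH_le ho hB l ha).trans_lt
    (ENNReal.mul_lt_top (lint_hm_lt ho t l) ENNReal.ofReal_lt_top)

/-- the product of two kernels -/
noncomputable def PH (f : ℝ × E3 → ℝ) (a : ℝ × E3) (q : (ℝ × E3) × (ℝ × E3)) : ℝ :=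
  ∑ l, HH l f a q.1 * HH l f a q.2

theorem int_PH (ho : OK) (hf : Measurable f) (hB : ∀ p, |f p| ≤ B)
    (hfin : ∫⁻ p, ‖f p‖ₑ ∂(mu t) < ∞) :
    Integrable (Function.uncurry (PH f)) ((mu t).prod ((mu t).prod (mu t))) := by
  have e : Function.uncurry (PH f) = fun z : (ℝ × E3) × ((ℝ × E3) × (ℝ × E3)) =>
      ∑ l, HH l f z.1 z.2.1 * HH l f z.1 z.2.2 := rfl
  rw [e]
  refine integrable_finsetSum _ fun l _ => ?_
  have m1 : Measurable fun z : (ℝ × E3) × ((ℝ × E3) × (ℝ × E3)) => HH l f z.1 z.2.1 :=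
    (meas_HH ho hf l).comp (measurable_fst.prodMk (measurable_fst.comp measurable_snd))
  have m2 : Measurable fun z : (ℝ × E3) × ((ℝ × E3) × (ℝ × E3)) => HH l f z.1 z.2.2 :=
    (meas_HH ho hf l).comp (measurable_fst.prodMk (measurable_snd.comp measurable_snd))
  have m0 : ∀ a, Measurable fun p => ‖HH l f a p‖ₑ := fun a =>
    ((meas_HH ho hf l).comp (measurable_const.prodMk measurable_id)).enorm
  have m12 : Measurable fun z : (ℝ × E3) × ((ℝ × E3) × (ℝ × E3)) =>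
      HH l f z.1 z.2.1 * HH l f z.1 z.2.2 := m1.mul m2
  refine ⟨m12.aestronglyMeasurable, ?_⟩
  rw [hasFiniteIntegral_iff_enorm, lintegral_prod _ m12.enorm.aemeasurable]
  have h1 : ∀ a, ∫⁻ q : (ℝ × E3) × (ℝ × E3), ‖HH l f a q.1 * HH l f a q.2‖ₑ
      ∂((mu t).prod (mu t)) = (∫⁻ p, ‖HH l f a p‖ₑ ∂(mu t)) * ∫⁻ p, ‖HH l f a p‖ₑ ∂(mu t) := by
    intro a
    simp only [enorm_mul]
    exact lintegral_prod_mul (m0 a).aemeasurable (m0 a).aemeasurable
  have h2 : ∀ᵐ a ∂(mu t), ∫⁻ q : (ℝ × E3) × (ℝ × E3), ‖HH l f a q.1 * HH l f a q.2‖ₑ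
      ∂((mu t).prod (mu t)) ≤
        ((∫⁻ p, hm t l p) * ENNReal.ofReal B) * ∫⁻ p, ‖HH l f a p‖ₑ ∂(mu t) := by
    filter_upwards [ae_mu t] with a ha
    rw [h1]
    exact mul_le_mul_left (lint_HH_le ho hB l ha.2) _
  refine (lintegral_mono_ae h2).trans_lt ?_
  have m3 : Measurable fun a => ∫⁻ p, ‖HH l f a p‖ₑ ∂(mu t) :=
    (meas_HH ho hf l).enorm.lintegral_prod_right'
  rw [lintegral_const_mul _ m3]
  refine ENNReal.mul_lt_top (ENNReal.mul_lt_top (lint_hm_lt ho t l) ENNReal.ofReal_lt_top) ?_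
  exact (lint_HH_swap ho hf l).trans_lt (ENNReal.mul_lt_top (lint_hm_lt ho t l) hfin)

/-- the heat potential -/
noncomputable def Po (t : ℝ) (l : Fin 3) (f : ℝ × E3 → ℝ) (a : ℝ × E3) : ℝ :=
  ∫ p, HH l f a p ∂(mu t)

theorem sum_Po_sq (ho : OK) (hf : Measurable f) (hB : ∀ p, |f p| ≤ B) {a : ℝ × E3}
    (ha : a.1 < t) : ∫ q, PH f a q ∂((mu t).prod (mu t)) = ∑ l, Po t l f a ^ 2 := by
  unfold PH
  rw [integral_finsetSum]
  · refine Finset.sum_congr rfl fun l _ => ?_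
    rw [integral_prod_mul (fun p => HH l f a p) (fun p => HH l f a p), sq]
    rfl
  · intro l _
    exact (int_HH ho hf hB l ha).mul_prod (int_HH ho hf hB l ha)

theorem fubini (ho : OK) (hf : Measurable f) (hB : ∀ p, |f p| ≤ B)
    (hfin : ∫⁻ p, ‖f p‖ₑ ∂(mu t) < ∞) :
    ∫⁻ a, ENNReal.ofReal (∑ l, Po t l f a ^ 2) ∂(mu t) ≤
      ∫⁻ q, ‖∫ a, PH f a q ∂(mu t)‖ₑ ∂((mu t).prod (mu t)) := by
  have hi := int_PH ho hf hB hfin
  have h1 : ∫⁻ a, ENNReal.ofReal (∑ l, Po t l f a ^ 2) ∂(mu t) =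
      ∫⁻ a, ENNReal.ofReal (∫ q, PH f a q ∂((mu t).prod (mu t))) ∂(mu t) := by
    refine lintegral_congr_ae ?_
    filter_upwards [ae_mu t] with a ha
    rw [sum_Po_sq ho hf hB ha.2]
  have h2 : 0 ≤ᵐ[mu t] fun a => ∫ q, PH f a q ∂((mu t).prod (mu t)) := by
    filter_upwards [ae_mu t] with a ha
    rw [sum_Po_sq ho hf hB ha.2]
    exact Finset.sum_nonneg fun l _ => sq_nonneg _
  have h3 : Integrable (fun a => ∫ q, PH f a q ∂((mu t).prod (mu t))) (mu t) :=
    hi.integral_prod_left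
  rw [h1, ← ofReal_integral_eq_lintegral_ofReal h3 h2,
    integral_integral_swap hi]
  refine le_trans ?_ (enorm_integral_le_lintegral_enorm _)
  rw [← ofReal_norm]
  exact ENNReal.ofReal_le_ofReal (le_abs_self _)

end Pool.Agent.TF.KT.Kb
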