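import Pool.Agent.TF.M.K4b2

/-!
# Block M: the energy inequality for the heat equation, one scalar density
-/

set_option autoImplicit false

namespace Pool.Agent.TF.KT.Kb

open MeasureTheory Set Filter Topology Pool.Agent.TO Pool.Agent.TB Pool.Agent.TP
open scoped ENNReal NNReal Real InnerProductSpace SchwartzMap LineDeriv

variable {t B : ℝ} {f : ℝ × E3 → ℝ}

theorem gauss_nonneg {c : ℝ} (hc : 0 < c) (x : E3) : 0 ≤ gauss c x := by
  unfold gauss
  positivity

theorem gauss_neg (c : ℝ) (x : E3) : gauss c (-x) = gauss c x := by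
  unfold gauss
  rw [norm_neg]

theorem cont_dG (hg : GK) {c : ℝ} (hc : 0 < c) (z : E3) : ContinuousAt (fun c => dG c z) c := by
  unfold dG
  have h1 : (4 * c ^ 2 : ℝ) ≠ 0 := by positivity
  have h2 : (2 * c : ℝ) ≠ 0 := by positivity
  exact ((continuousAt_const.div (continuousAt_const.mul (continuousAt_id.pow 2)) h1).sub
    (continuousAt_const.div (continuousAt_const.mul continuousAt_id) h2)).mul
    (hg.deriv c hc z).continuousAt

/-- the integral over the time -/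
theorem ftc (hg : GK) {s s' : ℝ} (hs : s < t) (hs' : s' < t) (hne : s ≠ s') (z : E3) (k : ℝ) :
    ∫ τ in (max s s')..t, k * -dG ((τ - s) + (τ - s')) z =
      k * ((gauss |s - s'| z - gauss (2 * t - s - s') z) / 2) := by
  have hm : max s s' ≤ t := (max_lt hs hs').le
  have hpos : ∀ τ, max s s' ≤ τ → 0 < (τ - s) + (τ - s') := by
    intro τ hτ
    have h1 := (le_max_left s s').trans hτ
    have h2 := (le_max_right s s').trans hτ
    rcases lt_or_gt_of_ne hne with h | h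
    · linarith
    · linarith
  have hl : ∀ τ : ℝ, HasDerivAt (fun τ : ℝ => (τ - s) + (τ - s')) 2 τ := by
    intro τ
    have := ((hasDerivAt_id τ).sub_const s).add ((hasDerivAt_id τ).sub_const s')
    norm_num at this
    exact this
  have hd : ∀ τ ∈ uIcc (max s s') t, HasDerivAt
      (fun τ => k * (-(gauss ((τ - s) + (τ - s')) z) / 2)) (k * -dG ((τ - s) + (τ - s')) z) τ := by
    intro τ hτ
    rw [uIcc_of_le hm] at hτ
    have h1 := (hg.deriv _ (hpos τ hτ.1) z).comp τ (hl τ)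
    have h2 := ((h1.neg).div_const 2).const_mul k
    refine h2.congr_deriv ?_
    ring
  have hc : ContinuousOn (fun τ => k * -dG ((τ - s) + (τ - s')) z) (uIcc (max s s') t) := by
    intro τ hτ
    rw [uIcc_of_le hm] at hτ
    have h1 : ContinuousAt (fun τ : ℝ => dG ((τ - s) + (τ - s')) z) τ :=
      ContinuousAt.comp (f := fun τ : ℝ => (τ - s) + (τ - s')) (g := fun c => dG c z)
        (cont_dG hg (hpos τ hτ.1) z) (hl τ).continuousAt
    exact (continuousAt_const.mul h1.neg).continuousWithinAt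
  rw [intervalIntegral.integral_eq_sub_of_hasDerivAt hd hc.intervalIntegrable]
  have e1 : (t - s) + (t - s') = 2 * t - s - s' := by ring
  have e2 : (max s s' - s) + (max s s' - s') = |s - s'| := by
    rcases le_total s s' with h | h
    · rw [max_eq_right h, abs_of_nonpos (by linarith)]
      ring
    · rw [max_eq_left h, abs_of_nonneg (by linarith)]
      ring
  rw [e1, e2]
  ring

theorem PH_eq (hg : GK) (p p' : ℝ × E3) (τ : ℝ) :
    ∫ x, PH f (τ, x) (p, p') = (Ioi (max p.1 p'.1)).indicator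
      (fun τ => f p * f p' * -dG ((τ - p.1) + (τ - p'.1)) (p.2 - p'.2)) τ := by
  by_cases hτ : τ ∈ Ioi (max p.1 p'.1)
  · rw [indicator_of_mem hτ]
    have h1 : p.1 < τ := (le_max_left _ _).trans_lt hτ
    have h2 : p'.1 < τ := (le_max_right _ _).trans_lt hτ
    have e : ∀ x, PH f (τ, x) (p, p') =
        f p * f p' * ∑ l, gauss1 (τ - p.1) (x - p.2) l * gauss1 (τ - p'.1) (x - p'.2) l := by
      intro x
      unfold PH HH
      simp only [if_pos h1, if_pos h2]
      rw [Finset.mul_sum]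
      exact Finset.sum_congr rfl fun l _ => by ring
    simp only [e]
    rw [integral_const_mul, hg.conv _ _ (sub_pos.2 h1) (sub_pos.2 h2)]
  · rw [indicator_of_notMem hτ]
    have e : ∀ x, PH f (τ, x) (p, p') = 0 := by
      intro x
      have h0 : ¬ p.1 < τ ∨ ¬ p'.1 < τ := by
        by_contra hcon
        push Not at hcon
        exact hτ (max_lt hcon.1 hcon.2)
      unfold PH HH
      rcases h0 with h | h <;> simp [if_neg h]
    simp only [e, integral_zero]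

theorem inner_eq (hg : GK) {p p' : ℝ × E3} (hp : p.1 ∈ Ioo 0 t) (hp' : p'.1 ∈ Ioo 0 t)
    (hne : p.1 ≠ p'.1) (hi : Integrable (fun a => PH f a (p, p')) (mu t)) :
    ∫ a, PH f a (p, p') ∂(mu t) = f p * f p' *
      ((gauss |p.1 - p'.1| (p.2 - p'.2) - gauss (2 * t - p.1 - p'.1) (p.2 - p'.2)) / 2) := by
  rw [mu, integral_prod _ hi]
  simp only [PH_eq hg]
  rw [setIntegral_indicator measurableSet_Ioi]
  have hs : Ioo 0 t ∩ Ioi (max p.1 p'.1) = Ioo (max p.1 p'.1) t := by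
    ext τ
    simp only [mem_inter_iff, mem_Ioo, mem_Ioi]
    constructor
    · rintro ⟨⟨_, h2⟩, h3⟩
      exact ⟨h3, h2⟩
    · rintro ⟨h3, h2⟩
      exact ⟨⟨(hp.1.trans_le (le_max_left _ _)).trans h3, h2⟩, h3⟩
  rw [hs, ← integral_Ioc_eq_integral_Ioo, ← intervalIntegral.integral_of_le
    (max_lt hp.2 hp'.2).le]
  exact ftc hg hp.2 hp'.2 hne _ _

/-- the first part of the bound -/
noncomputable def Aq (f : ℝ × E3 → ℝ) (q : (ℝ × E3) × (ℝ × E3)) : ℝ≥0∞ :=
  if q.2.1 < q.1.1 then ‖f q.1‖ₑ * (Gp (q.1.1 - q.2.1) (q.1.2 - q.2.2) * ‖f q.2‖ₑ) else 0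

/-- the second part of the bound -/
noncomputable def Cq (t : ℝ) (f : ℝ × E3 → ℝ) (q : (ℝ × E3) × (ℝ × E3)) : ℝ≥0∞ :=
  ‖f q.1‖ₑ * (Gp (2 * t - q.1.1 - q.2.1) (q.1.2 - q.2.2) * ‖f q.2‖ₑ)

theorem inner_le (hg : GK) {p p' : ℝ × E3} (hp : p.1 ∈ Ioo 0 t) (hp' : p'.1 ∈ Ioo 0 t)
    (hne : p.1 ≠ p'.1) (hi : Integrable (fun a => PH f a (p, p')) (mu t)) :
    ‖∫ a, PH f a (p, p') ∂(mu t)‖ₑ ≤ 2⁻¹ * (Aq f (p, p') + Aq f (p', p) + Cq t f (p, p')) := by
  have hg1 : 0 ≤ gauss |p.1 - p'.1| (p.2 - p'.2) :=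
    gauss_nonneg (abs_pos.2 (sub_ne_zero.2 hne)) _
  have hg2 : 0 ≤ gauss (2 * t - p.1 - p'.1) (p.2 - p'.2) :=
    gauss_nonneg (by linarith [hp.2, hp'.2]) _
  rw [inner_eq hg hp hp' hne hi, enorm_mul, enorm_mul]
  have h1 : ‖(gauss |p.1 - p'.1| (p.2 - p'.2) - gauss (2 * t - p.1 - p'.1) (p.2 - p'.2)) / 2‖ₑ ≤
      2⁻¹ * (Gp |p.1 - p'.1| (p.2 - p'.2) + Gp (2 * t - p.1 - p'.1) (p.2 - p'.2)) := by
    unfold Gp
    rw [← ENNReal.ofReal_add hg1 hg2, ← ofReal_norm, Real.norm_eq_abs]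
    have e : (2⁻¹ : ℝ≥0∞) = ENNReal.ofReal 2⁻¹ := by
      rw [ENNReal.ofReal_inv_of_pos (by norm_num)]
      norm_num
    rw [e, ← ENNReal.ofReal_mul (by norm_num)]
    apply ENNReal.ofReal_le_ofReal
    rw [abs_div, abs_of_pos (by norm_num : (0:ℝ) < 2), div_eq_inv_mul]
    apply mul_le_mul_of_nonneg_left _ (by norm_num)
    rw [abs_le]
    constructor <;> linarith
  have h2 : ‖f p‖ₑ * ‖f p'‖ₑ * Gp |p.1 - p'.1| (p.2 - p'.2) = Aq f (p, p') + Aq f (p', p) := by
    unfold Aq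
    simp only
    rcases lt_or_gt_of_ne hne with h | h
    · rw [if_neg (not_lt.2 h.le), if_pos h, zero_add, abs_of_neg (sub_neg.2 h), neg_sub]
      have e : Gp (p'.1 - p.1) (p.2 - p'.2) = Gp (p'.1 - p.1) (p'.2 - p.2) := by
        unfold Gp
        rw [← neg_sub p'.2 p.2, gauss_neg]
      rw [e]
      ring
    · rw [if_pos h, if_neg (not_lt.2 h.le), add_zero, abs_of_pos (sub_pos.2 h)]
      ring
  have h3 : ‖f p‖ₑ * ‖f p'‖ₑ * Gp (2 * t - p.1 - p'.1) (p.2 - p'.2) = Cq t f (p, p') := by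
    unfold Cq
    ring
  calc ‖f p‖ₑ * ‖f p'‖ₑ * _ ≤ ‖f p‖ₑ * ‖f p'‖ₑ *
      (2⁻¹ * (Gp |p.1 - p'.1| (p.2 - p'.2) + Gp (2 * t - p.1 - p'.1) (p.2 - p'.2))) :=
        mul_le_mul_right h1 _
    _ = 2⁻¹ * (‖f p‖ₑ * ‖f p'‖ₑ * Gp |p.1 - p'.1| (p.2 - p'.2) +
        ‖f p‖ₑ * ‖f p'‖ₑ * Gp (2 * t - p.1 - p'.1) (p.2 - p'.2)) := by ring
    _ = _ := by rw [h2, h3]

theorem ae_ne (t : ℝ) : ∀ᵐ q ∂((mu t).prod (mu t)), q.1.1 ≠ q.2.1 := by
  have hm : MeasurableSet {q : (ℝ × E3) × (ℝ × E3) | q.1.1 ≠ q.2.1} :=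
    (measurableSet_eq_fun (measurable_fst.comp measurable_fst)
      (measurable_fst.comp measurable_snd)).compl
  rw [Measure.ae_prod_iff_ae_ae hm]
  refine Eventually.of_forall fun p => ?_
  have h1 : ∀ᵐ s' ∂((volume : Measure ℝ).restrict (Ioo 0 t)), p.1 ≠ s' := by
    have h2 : ({p.1}ᶜ : Set ℝ) ∈ ae ((volume : Measure ℝ).restrict (Ioo 0 t)) :=
      compl_mem_ae_iff.2 (measure_singleton _)
    filter_upwards [h2] with s' hs' heq
    exact hs' heq.symm
  exact (Measure.quasiMeasurePreserving_fst (μ := (volume : Measure ℝ).restrict (Ioo 0 t))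
    (ν := (volume : Measure E3))).ae h1

theorem meas_Gp : Measurable fun p : ℝ × E3 => Gp p.1 p.2 := by
  unfold Gp gauss
  refine Measurable.ennreal_ofReal ?_
  refine Measurable.mul ((measurable_const.mul measurable_fst).pow_const _) ?_
  exact (((measurable_snd.norm.pow_const 2).neg).div (measurable_const.mul measurable_fst)).exp

theorem meas_Aq (hf : Measurable f) : Measurable (Aq f) := by
  unfold Aq
  refine Measurable.ite (measurableSet_lt (measurable_fst.comp measurable_snd)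
    (measurable_fst.comp measurable_fst)) ?_ measurable_const
  refine (hf.comp measurable_fst).enorm.mul (Measurable.mul ?_ (hf.comp measurable_snd).enorm)
  exact meas_Gp.comp (((measurable_fst.comp measurable_fst).sub
    (measurable_fst.comp measurable_snd)).prodMk ((measurable_snd.comp measurable_fst).sub
    (measurable_snd.comp measurable_snd)))

/-- the inequality on the product -/
theorem prod_le (hg : GK) (ho : OK) (hf : Measurable f) (hB : ∀ p, |f p| ≤ B)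
    (hfin : ∫⁻ p, ‖f p‖ₑ ∂(mu t) < ∞) :
    ∫⁻ a, ENNReal.ofReal (∑ l, Po t l f a ^ 2) ∂(mu t) ≤
      (∫⁻ q, Aq f q ∂((mu t).prod (mu t))) + ∫⁻ q, Cq t f q ∂((mu t).prod (mu t)) := by
  refine (fubini ho hf hB hfin).trans ?_
  have h1 : ∀ᵐ q ∂((mu t).prod (mu t)), ‖∫ a, PH f a q ∂(mu t)‖ₑ ≤
      2⁻¹ * (Aq f q + Aq f q.swap + Cq t f q) := by
    filter_upwards [(int_PH ho hf hB hfin).prod_left_ae, ae_ne t,
      (Measure.quasiMeasurePreserving_fst (μ := mu t) (ν := mu t)).ae (ae_mu t),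
      (Measure.quasiMeasurePreserving_snd (μ := mu t) (ν := mu t)).ae (ae_mu t)] with q h2 h3 h4 h5
    exact inner_le hg h4 h5 h3 h2
  refine (lintegral_mono_ae h1).trans ?_
  have h6 : ∫⁻ q, Aq f q.swap ∂((mu t).prod (mu t)) = ∫⁻ q, Aq f q ∂((mu t).prod (mu t)) :=
    lintegral_prod_swap (Aq f)
  have hA := meas_Aq hf
  have hAs : Measurable fun q : (ℝ × E3) × (ℝ × E3) => Aq f q.swap := hA.comp measurable_swap
  have hAA : Measurable fun q : (ℝ × E3) × (ℝ × E3) => Aq f q + Aq f q.swap := hA.add hAs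
  rw [lintegral_const_mul' _ _ (by simp), lintegral_add_left hAA,
    lintegral_add_left hA, h6]
  set X := ∫⁻ q, Aq f q ∂((mu t).prod (mu t))
  set Y := ∫⁻ q, Cq t f q ∂((mu t).prod (mu t))
  calc 2⁻¹ * (X + X + Y) = (2⁻¹ + 2⁻¹) * X + 2⁻¹ * Y := by ring
    _ = X + 2⁻¹ * Y := by rw [ENNReal.inv_two_add_inv_two, one_mul]
    _ ≤ X + 1 * Y := by
        gcongr
        simp
    _ = X + Y := by rw [one_mul]

/-- the energy inequality for one scalar density -/
theorem scalar (hg : GK) (ho : OK) (hf : Measurable f) (hB : ∀ p, |f p| ≤ B)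
    (hfin : ∫⁻ p, ‖f p‖ₑ ∂(mu t) < ∞) :
    ∫⁻ a, ENNReal.ofReal (∑ l, Po t l f a ^ 2) ∂(mu t) ≤
      ∫⁻ s in Ioo 0 t, ∫⁻ y, ‖f (s, y)‖ₑ *
        ((∫⁻ s' in Ioo 0 s, ∫⁻ y', Gp (s - s') (y - y') * ‖f (s', y')‖ₑ) +
          ∫⁻ s' in Ioo 0 t, ∫⁻ y', Gp (2 * t - s - s') (y - y') * ‖f (s', y')‖ₑ) := by
  refine (prod_le hg ho hf hB hfin).trans ?_
  have hA : ∫⁻ q, Aq f q ∂((mu t).prod (mu t)) ≤ ∫⁻ p, ‖f p‖ₑ *
      (∫⁻ s' in Ioo 0 p.1, ∫⁻ y', Gp (p.1 - s') (p.2 - y') * ‖f (s', y')‖ₑ) ∂(mu t) := by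
    refine (lintegral_prod_le _).trans (lintegral_mono_ae ?_)
    filter_upwards [ae_mu t] with p hp
    refine (lintegral_prod_le _).trans (le_of_eq ?_)
    have e1 : ∀ s', ∫⁻ y', Aq f (p, (s', y')) = (Iio p.1).indicator
        (fun s' => ‖f p‖ₑ * ∫⁻ y', Gp (p.1 - s') (p.2 - y') * ‖f (s', y')‖ₑ) s' := by
      intro s'
      by_cases h : s' < p.1
      · rw [indicator_of_mem (show s' ∈ Iio p.1 from h),
          ← lintegral_const_mul' _ _ enorm_ne_top]
        refine lintegral_congr fun y' => ?_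
        unfold Aq
        simp only [if_pos h]
      · rw [indicator_of_notMem (show s' ∉ Iio p.1 from h)]
        unfold Aq
        simp only [if_neg h, lintegral_zero]
    simp only [e1]
    rw [lintegral_indicator measurableSet_Iio, Measure.restrict_restrict measurableSet_Iio,
      lintegral_const_mul' _ _ enorm_ne_top]
    have hs : Iio p.1 ∩ Ioo 0 t = Ioo 0 p.1 := by
      ext s'
      simp only [mem_inter_iff, mem_Ioo, mem_Iio]
      constructor
      · rintro ⟨h1, h2, _⟩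
        exact ⟨h2, h1⟩
      · rintro ⟨h2, h1⟩
        exact ⟨h1, h2, h1.trans hp.2⟩
    rw [hs]
  have hC : ∫⁻ q, Cq t f q ∂((mu t).prod (mu t)) ≤ ∫⁻ p, ‖f p‖ₑ *
      (∫⁻ s' in Ioo 0 t, ∫⁻ y', Gp (2 * t - p.1 - s') (p.2 - y') * ‖f (s', y')‖ₑ) ∂(mu t) := by
    refine (lintegral_prod_le _).trans (lintegral_mono fun p => ?_)
    refine (lintegral_prod_le _).trans (le_of_eq ?_)
    rw [← lintegral_const_mul' _ _ enorm_ne_top]
    refine lintegral_congr fun s' => ?_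
    rw [← lintegral_const_mul' _ _ enorm_ne_top]
    rfl
  refine (add_le_add hA hC).trans ((le_lintegral_add _ _).trans ?_)
  refine (lintegral_prod_le _).trans (le_of_eq ?_)
  refine lintegral_congr fun s => lintegral_congr fun y => ?_
  simp only [mul_add]

end Pool.Agent.TF.KT.Kb
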