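import Pool.Agent.TF.M.Osee

/-!
# Block M: the bilinear operator, bound in `L²` and Fubini's theorem
-/

set_option autoImplicit false

namespace Pool.Agent.TF

open MeasureTheory Set Filter Topology Pool.Agent.TO Pool.Agent.TB Pool.Agent.TP
open scoped ENNReal NNReal Real SchwartzMap

/-- one term of the bilinear operator -/
noncomputable def mI (i j k : Fin 3) (f : ℝ → E3 → ℝ) (t : ℝ) (x : E3) : ℝ :=
  ∫ s in Ioo 0 t, ∫ y, oseen (t - s) (x - y) i j k * f s y

/-- `|f(s)|₁ ≤ A` and `|f(s)|₂ ≤ B / √s` on `(0, t)` -/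
structure ML (t A B : ℝ) (f : ℝ → E3 → ℝ) : Prop where
  meas : Measurable (Function.uncurry f)
  A0 : 0 ≤ A
  l1 : ∀ s ∈ Ioo 0 t, ∫⁻ y, ‖f s y‖ₑ ≤ ENNReal.ofReal A
  l2 : ∀ s ∈ Ioo 0 t, ∫⁻ y, ‖f s y‖ₑ ^ 2 ≤ ENNReal.ofReal (B ^ 2 / s)

/-- the constant of the kernel -/
noncomputable def CK : ℝ := CO * JJ 4

theorem CK_pos : 0 < CK := mul_pos CO_pos (JJ_pos le_rfl)

variable {σ t A B : ℝ} {f : ℝ → E3 → ℝ}

theorem mo_lint (hσ : 0 < σ) (i j k : Fin 3) :
    ∫⁻ z, ‖oseen σ z i j k‖ₑ ≤ ENNReal.ofReal (CK / √σ) := (KK_oseen hσ i j k).lint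

theorem mo_lint_left (hσ : 0 < σ) (i j k : Fin 3) (x : E3) :
    ∫⁻ y, ‖oseen σ (x - y) i j k‖ₑ ≤ ENNReal.ofReal (CK / √σ) := by
  rw [lintegral_sub_left_eq_self (fun z => ‖oseen σ z i j k‖ₑ) x]
  exact mo_lint hσ i j k

theorem mo_lint_right (hσ : 0 < σ) (i j k : Fin 3) (y : E3) :
    ∫⁻ x, ‖oseen σ (x - y) i j k‖ₑ ≤ ENNReal.ofReal (CK / √σ) := by
  rw [lintegral_sub_right_eq_self (fun z => ‖oseen σ z i j k‖ₑ) y]
  exact mo_lint hσ i j k

theorem mo_meas0 (t : ℝ) (i j k : Fin 3) :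
    Measurable fun q : E3 × (ℝ × E3) => oseen (t - q.2.1) (q.1 - q.2.2) i j k :=
  (measurable_oseen i j k).comp ((measurable_const.sub (measurable_fst.comp measurable_snd)).prodMk
    (measurable_fst.sub (measurable_snd.comp measurable_snd)))

theorem mo_meas (t : ℝ) (i j k : Fin 3) (hf : Measurable (Function.uncurry f)) :
    Measurable fun q : E3 × (ℝ × E3) =>
      oseen (t - q.2.1) (q.1 - q.2.2) i j k * f q.2.1 q.2.2 :=
  (mo_meas0 t i j k).mul (hf.comp measurable_snd)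

theorem mo_q0 (t : ℝ) (i j k : Fin 3) (hf : Measurable (Function.uncurry f)) :
    Measurable fun q : E3 × (ℝ × E3) =>
      ‖oseen (t - q.2.1) (q.1 - q.2.2) i j k‖ₑ * ‖f q.2.1 q.2.2‖ₑ :=
  (mo_meas0 t i j k).enorm.mul (hf.comp measurable_snd).enorm

theorem mo_q1 (t : ℝ) (i j k : Fin 3) (hf : Measurable (Function.uncurry f)) :
    Measurable fun r : (E3 × ℝ) × E3 =>
      ‖oseen (t - r.1.2) (r.1.1 - r.2) i j k‖ₑ * ‖f r.1.2 r.2‖ₑ := by
  have h := (mo_q0 t i j k hf).comp (g := fun q : E3 × (ℝ × E3) =>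
    ‖oseen (t - q.2.1) (q.1 - q.2.2) i j k‖ₑ * ‖f q.2.1 q.2.2‖ₑ)
    (f := fun r : (E3 × ℝ) × E3 => (r.1.1, (r.1.2, r.2))) (by fun_prop)
  exact h

/-- the absolute inner integral -/
noncomputable def mQ (t : ℝ) (i j k : Fin 3) (f : ℝ → E3 → ℝ) (x : E3) (s : ℝ) : ℝ≥0∞ :=
  ∫⁻ y, ‖oseen (t - s) (x - y) i j k‖ₑ * ‖f s y‖ₑ

theorem mo_q2 (t : ℝ) (i j k : Fin 3) (hf : Measurable (Function.uncurry f)) :
    Measurable fun p : E3 × ℝ => mQ t i j k f p.1 p.2 := by
  have h := (mo_q1 t i j k hf).lintegral_prod_right' (ν := (volume : Measure E3))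
  exact h

theorem mo_q3 (t : ℝ) (i j k : Fin 3) (hf : Measurable (Function.uncurry f)) (x : E3) :
    Measurable fun s : ℝ => mQ t i j k f x s :=
  (mo_q2 t i j k hf).comp (f := fun s : ℝ => (x, s)) (by fun_prop)

theorem mo_q4 (t : ℝ) (i j k : Fin 3) (hf : Measurable (Function.uncurry f)) (s : ℝ) :
    Measurable fun x : E3 => mQ t i j k f x s :=
  (mo_q2 t i j k hf).comp (f := fun x : E3 => (x, s)) (by fun_prop)

/-- the bound in `L²` at one time -/
theorem mo_sq (hσ : 0 < σ) (i j k : Fin 3) {g : E3 → ℝ} (hg : Measurable g) :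
    ∫⁻ x, (∫⁻ y, ‖oseen σ (x - y) i j k‖ₑ * ‖g y‖ₑ) ^ 2 ≤
      ENNReal.ofReal (CK ^ 2 / σ) * ∫⁻ y, ‖g y‖ₑ ^ 2 := by
  have hK := CK_pos
  have hs : 0 < √σ := Real.sqrt_pos.2 hσ
  have hc := (continuous_oseen hσ i j k).measurable
  have hm1 : ∀ x : E3, Measurable fun y => ‖oseen σ (x - y) i j k‖ₑ := fun x =>
    (hc.comp (measurable_const.sub measurable_id)).enorm
  have hm2 : Measurable (Function.uncurry fun x y : E3 => ‖oseen σ (x - y) i j k‖ₑ * ‖g y‖ₑ ^ 2) :=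
    ((hc.comp (measurable_fst.sub measurable_snd)).enorm).mul
      ((hg.comp measurable_snd).enorm.pow_const 2)
  calc ∫⁻ x, (∫⁻ y, ‖oseen σ (x - y) i j k‖ₑ * ‖g y‖ₑ) ^ 2
      ≤ ∫⁻ x, ENNReal.ofReal (CK / √σ) * ∫⁻ y, ‖oseen σ (x - y) i j k‖ₑ * ‖g y‖ₑ ^ 2 := by
        apply lintegral_mono
        intro x
        exact (cs_weight (hm1 x).aemeasurable hg.enorm.aemeasurable).trans
          (mul_le_mul' (mo_lint_left hσ i j k x) le_rfl)
    _ = ENNReal.ofReal (CK / √σ) * ∫⁻ x, ∫⁻ y, ‖oseen σ (x - y) i j k‖ₑ * ‖g y‖ₑ ^ 2 :=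
        lintegral_const_mul _ hm2.lintegral_prod_right'
    _ = ENNReal.ofReal (CK / √σ) * ∫⁻ y, ∫⁻ x, ‖oseen σ (x - y) i j k‖ₑ * ‖g y‖ₑ ^ 2 := by
        rw [lintegral_lintegral_swap hm2.aemeasurable]
    _ = ENNReal.ofReal (CK / √σ) * ∫⁻ y, (∫⁻ x, ‖oseen σ (x - y) i j k‖ₑ) * ‖g y‖ₑ ^ 2 := by
        congr 1
        apply lintegral_congr
        intro y
        exact lintegral_mul_const _ ((hc.comp (measurable_id.sub measurable_const)).enorm)
    _ ≤ ENNReal.ofReal (CK / √σ) * ∫⁻ y, ENNReal.ofReal (CK / √σ) * ‖g y‖ₑ ^ 2 :=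
        mul_le_mul' le_rfl (lintegral_mono fun y => mul_le_mul' (mo_lint_right hσ i j k y) le_rfl)
    _ = ENNReal.ofReal (CK ^ 2 / σ) * ∫⁻ y, ‖g y‖ₑ ^ 2 := by
        rw [lintegral_const_mul _ (hg.enorm.pow_const 2), ← mul_assoc,
          ← ENNReal.ofReal_mul (by positivity)]
        congr 2
        rw [div_mul_div_comm, Real.mul_self_sqrt hσ.le, sq]

/-! ### the weights in time -/

theorem mo_int1 (t : ℝ) (ht : 0 ≤ t) : IntegrableOn (fun s : ℝ => 1 / √s) (Ioo 0 t) volume := by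
  have h1 : IntervalIntegrable (fun x : ℝ => x ^ (-(1 / 2) : ℝ)) volume 0 t :=
    intervalIntegral.intervalIntegrable_rpow' (by norm_num)
  rw [intervalIntegrable_iff_integrableOn_Ioo_of_le ht] at h1
  refine h1.congr ?_
  filter_upwards [ae_restrict_mem measurableSet_Ioo] with s hs
  rw [Real.sqrt_eq_rpow, Real.rpow_neg hs.1.le]
  exact (one_div _).symm

theorem mo_int2 (t : ℝ) (ht : 0 ≤ t) :
    IntegrableOn (fun s : ℝ => 1 / √(t - s)) (Ioo 0 t) volume := by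
  have h1 : IntervalIntegrable (fun s : ℝ => 1 / √s) volume 0 t := by
    rw [intervalIntegrable_iff_integrableOn_Ioo_of_le ht]
    exact mo_int1 t ht
  have h2 := (h1.comp_sub_left t).symm
  simp only [sub_zero, sub_self] at h2
  rwa [intervalIntegrable_iff_integrableOn_Ioo_of_le ht] at h2

theorem mo_weight (ht : 0 < t) :
    ∫⁻ s in Ioo 0 t, ENNReal.ofReal (1 / (√(t - s) * √s)) < ∞ := by
  have h1 : IntegrableOn (fun s => 1 / √t * (1 / √(t - s) + 1 / √s)) (Ioo 0 t) volume :=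
    ((mo_int2 t ht.le).add (mo_int1 t ht.le)).const_mul _
  refine lt_of_le_of_lt ?_ h1.lintegral_lt_top
  apply lintegral_mono_ae
  filter_upwards [ae_restrict_mem measurableSet_Ioo] with s hs
  apply ENNReal.ofReal_le_ofReal
  have a1 : 0 < √s := Real.sqrt_pos.2 hs.1
  have a2 : 0 < √(t - s) := Real.sqrt_pos.2 (by linarith [hs.2])
  have a3 : 0 < √t := Real.sqrt_pos.2 ht
  have a4 : √t ≤ √s + √(t - s) := by
    rw [Real.sqrt_le_left (by positivity), add_sq, Real.sq_sqrt hs.1.le,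
      Real.sq_sqrt (by linarith [hs.2])]
    nlinarith
  rw [div_add_div _ _ a2.ne' a1.ne', one_mul, mul_one, div_mul_div_comm, one_mul,
    div_le_div_iff₀ (by positivity) (by positivity)]
  nlinarith [mul_pos a2 a1]

/-- the absolute integrals are square integrable in `x` -/
theorem mo_fin (ht : 0 < t) (h : ML t A B f) (i j k : Fin 3) :
    ∫⁻ x, (∫⁻ s in Ioo 0 t, mQ t i j k f x s) ^ 2 < ∞ := by
  have hK := CK_pos
  set R := ∫⁻ s in Ioo 0 t, ENNReal.ofReal (1 / (√(t - s) * √s)) with hR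
  have hRf : R < ∞ := mo_weight ht
  have hq := mo_q2 t i j k h.meas
  have hw1 : Measurable fun s : ℝ => ENNReal.ofReal (1 / (√(t - s) * √s)) := by fun_prop
  have hw2 : Measurable fun s : ℝ => ENNReal.ofReal (√(t - s) * √s) := by fun_prop
  have hm : Measurable fun p : E3 × ℝ => ENNReal.ofReal (√(t - p.2) * √p.2) *
      mQ t i j k f p.1 p.2 ^ 2 := (hw2.comp measurable_snd).mul (hq.pow_const 2)
  have step : ∀ x : E3, (∫⁻ s in Ioo 0 t, mQ t i j k f x s) ^ 2 ≤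
      R * ∫⁻ s in Ioo 0 t, ENNReal.ofReal (√(t - s) * √s) * mQ t i j k f x s ^ 2 := by
    intro x
    have hx := mo_q3 t i j k h.meas x
    have h1 := cs_weight (μ := volume.restrict (Ioo 0 t)) hw1.aemeasurable
      (hw2.mul hx).aemeasurable
    have e1 : ∫⁻ s in Ioo 0 t, ENNReal.ofReal (1 / (√(t - s) * √s)) *
        (ENNReal.ofReal (√(t - s) * √s) * mQ t i j k f x s) =
        ∫⁻ s in Ioo 0 t, mQ t i j k f x s := by
      apply setLIntegral_congr_fun measurableSet_Ioo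
      intro s hs
      have a1 : 0 < √s := Real.sqrt_pos.2 hs.1
      have a2 : 0 < √(t - s) := Real.sqrt_pos.2 (by linarith [hs.2])
      simp only
      rw [← mul_assoc, ← ENNReal.ofReal_mul (by positivity), one_div,
        inv_mul_cancel₀ (by positivity), ENNReal.ofReal_one, one_mul]
    have e2 : ∫⁻ s in Ioo 0 t, ENNReal.ofReal (1 / (√(t - s) * √s)) *
        (ENNReal.ofReal (√(t - s) * √s) * mQ t i j k f x s) ^ 2 =
        ∫⁻ s in Ioo 0 t, ENNReal.ofReal (√(t - s) * √s) * mQ t i j k f x s ^ 2 := by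
      apply setLIntegral_congr_fun measurableSet_Ioo
      intro s hs
      have a1 : 0 < √s := Real.sqrt_pos.2 hs.1
      have a2 : 0 < √(t - s) := Real.sqrt_pos.2 (by linarith [hs.2])
      simp only
      rw [mul_pow, sq (ENNReal.ofReal (√(t - s) * √s)), ← mul_assoc, ← mul_assoc,
        ← ENNReal.ofReal_mul (by positivity), one_div,
        inv_mul_cancel₀ (by positivity), ENNReal.ofReal_one, one_mul]
    simp only [Pi.mul_apply] at h1
    rw [e1, e2] at h1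
    exact h1
  calc ∫⁻ x, (∫⁻ s in Ioo 0 t, mQ t i j k f x s) ^ 2
      ≤ ∫⁻ x, R * ∫⁻ s in Ioo 0 t, ENNReal.ofReal (√(t - s) * √s) *
        mQ t i j k f x s ^ 2 := lintegral_mono step
    _ = R * ∫⁻ x, ∫⁻ s in Ioo 0 t, ENNReal.ofReal (√(t - s) * √s) *
        mQ t i j k f x s ^ 2 :=
        lintegral_const_mul _ hm.lintegral_prod_right'
    _ = R * ∫⁻ s in Ioo 0 t, ∫⁻ x, ENNReal.ofReal (√(t - s) * √s) *
        mQ t i j k f x s ^ 2 := by
        rw [lintegral_lintegral_swap]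
        exact hm.aemeasurable
    _ ≤ R * ∫⁻ s in Ioo 0 t, ENNReal.ofReal (CK ^ 2 * B ^ 2) *
        ENNReal.ofReal (1 / (√(t - s) * √s)) := by
        refine mul_le_mul' le_rfl (lintegral_mono_ae ?_)
        filter_upwards [ae_restrict_mem measurableSet_Ioo] with s hs
        have hs0 : 0 < s := hs.1
        have a0 : 0 < t - s := by linarith [hs.2]
        have a1 : 0 < √s := Real.sqrt_pos.2 hs.1
        have a2 : 0 < √(t - s) := Real.sqrt_pos.2 a0
        have hfs : Measurable (f s) := h.meas.comp (f := fun y : E3 => (s, y)) (by fun_prop)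
        have b1 : ∫⁻ x, mQ t i j k f x s ^ 2 ≤
            ENNReal.ofReal (CK ^ 2 / (t - s)) * ENNReal.ofReal (B ^ 2 / s) :=
          (mo_sq a0 i j k hfs).trans (mul_le_mul' le_rfl (h.l2 s hs))
        rw [lintegral_const_mul _ ((mo_q4 t i j k h.meas s).pow_const 2)]
        refine (mul_le_mul' le_rfl b1).trans (le_of_eq ?_)
        rw [← ENNReal.ofReal_mul (by positivity), ← ENNReal.ofReal_mul (by positivity),
          ← ENNReal.ofReal_mul (by positivity)]
        congr 1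
        have e1 : t - s = √(t - s) * √(t - s) := (Real.mul_self_sqrt a0.le).symm
        have e2 : s = √s * √s := (Real.mul_self_sqrt hs0.le).symm
        have e3 : CK ^ 2 / (t - s) * (B ^ 2 / s) =
            CK ^ 2 * B ^ 2 / ((√(t - s) * √(t - s)) * (√s * √s)) := by
          rw [← e1, ← e2, div_mul_div_comm]
        rw [e3]
        field_simp
    _ = R * (ENNReal.ofReal (CK ^ 2 * B ^ 2) * R) := by
        rw [lintegral_const_mul _ hw1, hR]
    _ < ∞ := ENNReal.mul_lt_top hRf (ENNReal.mul_lt_top ENNReal.ofReal_lt_top hRf)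

end Pool.Agent.TF
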