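import Pool.Agent.TF.Stmt
import Pool.Agent.TB.Heat2
import Pool.Agent.TP.Pot

/-!
# Derivatives of the heat kernel: bounds and integration by parts
-/

set_option autoImplicit false

namespace Pool.Agent.TF.GK

open MeasureTheory Set Filter Topology Pool.Agent.TO Pool.Agent.TB
open scoped ENNReal NNReal Real InnerProductSpace SchwartzMap LineDeriv

/-- `∂_i ∂_j G_τ` -/
noncomputable def gauss2 (τ : ℝ) (x : E3) (i j : Fin 3) : ℝ :=
  (x i * x j / (4 * τ ^ 2) - kron i j / (2 * τ)) * gauss τ x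

theorem kron_comm (i j : Fin 3) : kron i j = kron j i := by
  unfold kron
  simp only [eq_comm]

theorem hasLineDerivAt_gauss (τ : ℝ) (x : E3) (k : Fin 3) :
    HasLineDerivAt ℝ (gauss τ) (gauss1 τ x k) x (ee k) := by
  have h1 : HasFDerivAt (fun y : E3 => ‖y‖ ^ 2) (2 • innerSL ℝ x) x :=
    (hasStrictFDerivAt_norm_sq x).hasFDerivAt
  have h0 : HasDerivAt (fun t : ℝ => ‖x + t • ee k‖ ^ 2) (2 * x k) 0 := by
    have := h1.hasLineDerivAt (ee k)
    unfold HasLineDerivAt at this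
    have e : (2 • innerSL ℝ x) (ee k) = 2 * x k := by
      simp [EuclideanSpace.inner_single_right, ee]
    rwa [e] at this
  have h2 : HasDerivAt (fun t : ℝ => -‖x + t • ee k‖ ^ 2 / (4 * τ)) (-(2 * x k) / (4 * τ)) 0 :=
    h0.neg.div_const _
  have h3 := (h2.exp).const_mul ((4 * π * τ) ^ (-(3 / 2) : ℝ))
  unfold HasLineDerivAt gauss
  refine h3.congr_deriv ?_
  simp only [gauss1, gauss, zero_smul, add_zero]
  rcases eq_or_ne τ 0 with h | h
  · simp [h]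
  · field_simp
    ring

theorem hasLineDerivAt_coord (x : E3) (i k : Fin 3) :
    HasLineDerivAt ℝ (fun y : E3 => y i) (kron k i) x (ee k) := by
  have h := ((EuclideanSpace.proj (𝕜 := ℝ) i : E3 →L[ℝ] ℝ).hasFDerivAt (x := x)).hasLineDerivAt
    (ee k)
  have e : (EuclideanSpace.proj (𝕜 := ℝ) i : E3 →L[ℝ] ℝ) (ee k) = kron k i := by
    by_cases hki : k = i
    · subst hki
      simp [kron, ee]
    · simp [kron, ee, hki, Ne.symm hki]
  rw [e] at h
  exact h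

theorem hasLineDerivAt_gauss1 (τ : ℝ) (x : E3) (j k : Fin 3) :
    HasLineDerivAt ℝ (fun y => gauss1 τ y j) (gauss2 τ x k j) x (ee k) := by
  have h1 := hasLineDerivAt_gauss τ x k
  have h2 := hasLineDerivAt_coord x j k
  unfold HasLineDerivAt at h1 h2 ⊢
  have h3 := ((h2.div_const (2 * τ)).neg).mul h1
  refine h3.congr_deriv ?_
  simp only [gauss1, gauss2, zero_smul, add_zero, Pi.neg_apply]
  rcases eq_or_ne τ 0 with h | h
  · simp [h]
  · field_simp
    ring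

theorem hasLineDerivAt_gauss2 (τ : ℝ) (x : E3) (i j k : Fin 3) :
    HasLineDerivAt ℝ (fun y => gauss2 τ y k j) (gauss3 τ x i j k) x (ee i) := by
  have h1 := hasLineDerivAt_gauss τ x i
  have h2 := hasLineDerivAt_coord x j i
  have h4 := hasLineDerivAt_coord x k i
  unfold HasLineDerivAt at h1 h2 h4 ⊢
  have h3 := ((((h4.mul h2).div_const (4 * τ ^ 2)).sub_const (kron k j / (2 * τ))).mul h1)
  refine h3.congr_deriv ?_
  simp only [gauss1, gauss3, zero_smul, add_zero, Pi.mul_apply]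
  rw [kron_comm k j, kron_comm k i]
  rcases eq_or_ne τ 0 with h | h
  · simp [h]
  · field_simp
    ring

/-! ## Bounds -/

theorem gauss_nonneg {τ : ℝ} (hτ : 0 < τ) (x : E3) : 0 ≤ gauss τ x := (hk_pos hτ x).le

theorem norm_mul_exp_le {τ : ℝ} (hτ : 0 < τ) (x : E3) :
    ‖x‖ * Real.exp (-‖x‖ ^ 2 / (4 * τ)) ≤ √τ := by
  have h1 : ‖x‖ ≤ √τ * Real.exp (‖x‖ ^ 2 / (4 * τ)) := by
    have h2 := Real.add_one_le_exp (‖x‖ ^ 2 / (4 * τ))
    have h3 : 0 < √τ := Real.sqrt_pos.2 hτ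
    have h4 : √τ ^ 2 = τ := Real.sq_sqrt hτ.le
    set s := ‖x‖ / √τ with hs
    have h7 : ‖x‖ = s * √τ := by
      rw [hs]
      field_simp
    have h8 : ‖x‖ ^ 2 / (4 * τ) = s ^ 2 / 4 := by
      rw [h7, mul_pow, h4]
      field_simp
    rw [h8] at h2 ⊢
    have h5 : s ≤ s ^ 2 / 4 + 1 := by nlinarith [sq_nonneg (s / 2 - 1)]
    rw [h7, mul_comm]
    exact mul_le_mul_of_nonneg_left (h5.trans h2) h3.le
  rw [neg_div, Real.exp_neg, ← div_eq_mul_inv, div_le_iff₀ (Real.exp_pos _)]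
  exact h1

theorem norm_sq_mul_exp_le {τ : ℝ} (hτ : 0 < τ) (x : E3) :
    ‖x‖ ^ 2 * Real.exp (-‖x‖ ^ 2 / (4 * τ)) ≤ 4 * τ := by
  have h2 := Real.add_one_le_exp (‖x‖ ^ 2 / (4 * τ))
  rw [neg_div, Real.exp_neg, ← div_eq_mul_inv, div_le_iff₀ (Real.exp_pos _)]
  have h3 : ‖x‖ ^ 2 = 4 * τ * (‖x‖ ^ 2 / (4 * τ)) := by field_simp
  nlinarith

theorem norm_cube_mul_exp_le {τ : ℝ} (hτ : 0 < τ) (x : E3) :
    ‖x‖ ^ 3 * Real.exp (-‖x‖ ^ 2 / (4 * τ)) ≤ 32 * (τ * √τ) := by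
  have h2 := Real.quadratic_le_exp_of_nonneg (x := ‖x‖ ^ 2 / (4 * τ)) (by positivity)
  have h3 : 0 < √τ := Real.sqrt_pos.2 hτ
  have h4 : √τ ^ 2 = τ := Real.sq_sqrt hτ.le
  rw [neg_div, Real.exp_neg, ← div_eq_mul_inv, div_le_iff₀ (Real.exp_pos _)]
  refine le_trans ?_ (mul_le_mul_of_nonneg_left h2 (by positivity))
  set s := ‖x‖ / √τ with hs
  have h5 : ‖x‖ = s * √τ := by
    rw [hs]
    field_simp
  have h6 : ‖x‖ ^ 2 / (4 * τ) = s ^ 2 / 4 := by
    rw [h5, mul_pow, h4]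
    field_simp
  rw [h6, h5]
  have h7 : (s * √τ) ^ 3 = s ^ 3 * (τ * √τ) := by
    have : √τ ^ 3 = √τ ^ 2 * √τ := by ring
    rw [mul_pow, this, h4]
  rw [h7]
  have h8 : 0 < τ * √τ := by positivity
  have h9 : s ^ 3 ≤ 32 * (1 + s ^ 2 / 4 + (s ^ 2 / 4) ^ 2 / 2) := by
    nlinarith [sq_nonneg (s ^ 2 - s / 2), sq_nonneg s]
  nlinarith [mul_le_mul_of_nonneg_right h9 h8.le]

theorem abs_coord_le (x : E3) (i : Fin 3) : |x i| ≤ ‖x‖ := by
  have := PiLp.norm_apply_le x i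
  rwa [Real.norm_eq_abs] at this

theorem kron_abs_le (i j : Fin 3) : |kron i j| ≤ 1 := by
  unfold kron
  split_ifs <;> simp

/-- the constant in front of the Gaussian -/
theorem gc_le {τ : ℝ} (hτ : 0 < τ) : (4 * π * τ) ^ (-(3 / 2) : ℝ) ≤ τ ^ (-(3 / 2) : ℝ) := by
  have hp := Real.pi_gt_three
  apply Real.rpow_le_rpow_of_nonpos hτ _ (by norm_num)
  nlinarith

theorem gauss_le {τ : ℝ} (hτ : 0 < τ) (x : E3) : gauss τ x ≤ τ ^ (-(3 / 2) : ℝ) :=
  (hk_le hτ x).trans (gc_le hτ)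

theorem gauss1_abs_le {τ : ℝ} (hτ : 0 < τ) (x : E3) (k : Fin 3) :
    |gauss1 τ x k| ≤ τ ^ (-(3 / 2) : ℝ) * (√τ / τ) := by
  have hp := Real.pi_pos
  have h1 := norm_mul_exp_le hτ x
  have h2 := gc_le hτ
  have h3 : |x k| * Real.exp (-‖x‖ ^ 2 / (4 * τ)) ≤ √τ :=
    (mul_le_mul_of_nonneg_right (abs_coord_le x k) (Real.exp_pos _).le).trans h1
  have e : |gauss1 τ x k| = (4 * π * τ) ^ (-(3 / 2) : ℝ) *
      (|x k| * Real.exp (-‖x‖ ^ 2 / (4 * τ)) / (2 * τ)) := by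
    have h0 : 0 ≤ (4 * π * τ) ^ (-(3 / 2) : ℝ) := by positivity
    unfold gauss1 gauss
    rw [abs_mul, abs_neg, abs_div, abs_of_pos (by positivity : 0 < 2 * τ),
      abs_mul ((4 * π * τ) ^ (-(3 / 2) : ℝ)), abs_of_nonneg h0, Real.abs_exp]
    ring
  rw [e]
  have h4 : |x k| * Real.exp (-‖x‖ ^ 2 / (4 * τ)) / (2 * τ) ≤ √τ / τ := by
    calc |x k| * Real.exp (-‖x‖ ^ 2 / (4 * τ)) / (2 * τ) ≤ √τ / (2 * τ) := by gcongr
      _ ≤ √τ / τ := by
        apply div_le_div_of_nonneg_left (Real.sqrt_nonneg _) hτ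
        linarith
  gcongr

theorem gauss2_abs_le {τ : ℝ} (hτ : 0 < τ) (x : E3) (i j : Fin 3) :
    |gauss2 τ x i j| ≤ τ ^ (-(3 / 2) : ℝ) * (2 / τ) := by
  have hp := Real.pi_pos
  have h2 := gc_le hτ
  have h0 : 0 ≤ (4 * π * τ) ^ (-(3 / 2) : ℝ) := by positivity
  have e : gauss2 τ x i j = (4 * π * τ) ^ (-(3 / 2) : ℝ) *
      ((x i * x j / (4 * τ ^ 2) - kron i j / (2 * τ)) * Real.exp (-‖x‖ ^ 2 / (4 * τ))) := by
    unfold gauss2 gauss
    ring
  have h3 : |(x i * x j / (4 * τ ^ 2) - kron i j / (2 * τ)) * Real.exp (-‖x‖ ^ 2 / (4 * τ))| ≤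
      2 / τ := by
    have e1 : Real.exp (-‖x‖ ^ 2 / (4 * τ)) ≤ 1 := by
      rw [Real.exp_le_one_iff]
      apply div_nonpos_of_nonpos_of_nonneg
      · linarith [sq_nonneg ‖x‖]
      · positivity
    have e2 := norm_sq_mul_exp_le hτ x
    set E := Real.exp (-‖x‖ ^ 2 / (4 * τ))
    have hE : 0 ≤ E := (Real.exp_pos _).le
    rw [abs_mul, abs_of_nonneg hE]
    have e3 : |x i * x j / (4 * τ ^ 2) - kron i j / (2 * τ)| ≤ ‖x‖ ^ 2 / (4 * τ ^ 2) +
        1 / (2 * τ) := by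
      refine (abs_sub _ _).trans (add_le_add ?_ ?_)
      · rw [abs_div, abs_mul, abs_of_pos (by positivity : 0 < 4 * τ ^ 2), pow_two ‖x‖]
        gcongr
        · exact abs_coord_le x i
        · exact abs_coord_le x j
      · rw [abs_div, abs_of_pos (by positivity : 0 < 2 * τ)]
        gcongr
        exact kron_abs_le i j
    calc |x i * x j / (4 * τ ^ 2) - kron i j / (2 * τ)| * E
        ≤ (‖x‖ ^ 2 / (4 * τ ^ 2) + 1 / (2 * τ)) * E := by gcongr
      _ = ‖x‖ ^ 2 * E / (4 * τ ^ 2) + E / (2 * τ) := by ring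
      _ ≤ 4 * τ / (4 * τ ^ 2) + 1 / (2 * τ) := by gcongr
      _ = 3 / 2 / τ := by
        field_simp
        norm_num
      _ ≤ 2 / τ := by
        gcongr
        norm_num
  rw [e, abs_mul, abs_of_nonneg h0]
  gcongr

theorem gauss3_abs_le {τ : ℝ} (hτ : 0 < τ) (x : E3) (i j k : Fin 3) :
    |gauss3 τ x i j k| ≤ τ ^ (-(3 / 2) : ℝ) * (5 * √τ / τ ^ 2) := by
  have hp := Real.pi_pos
  have h2 := gc_le hτ
  have h0 : 0 ≤ (4 * π * τ) ^ (-(3 / 2) : ℝ) := by positivity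
  have e : gauss3 τ x i j k = (4 * π * τ) ^ (-(3 / 2) : ℝ) *
      (((kron i j * x k + kron j k * x i + kron k i * x j) / (4 * τ ^ 2) -
    x i * x j * x k / (8 * τ ^ 3)) * Real.exp (-‖x‖ ^ 2 / (4 * τ))) := by
    unfold gauss3 gauss
    ring
  have h3 : |((kron i j * x k + kron j k * x i + kron k i * x j) / (4 * τ ^ 2) -
    x i * x j * x k / (8 * τ ^ 3)) * Real.exp (-‖x‖ ^ 2 / (4 * τ))| ≤ 5 * √τ / τ ^ 2 := by
    have e1 := norm_mul_exp_le hτ x
    have e2 := norm_cube_mul_exp_le hτ x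
    set E := Real.exp (-‖x‖ ^ 2 / (4 * τ))
    have hE : 0 ≤ E := (Real.exp_pos _).le
    have k1 : ∀ a b l : Fin 3, |kron a b * x l| ≤ ‖x‖ := fun a b l => by
      rw [abs_mul]
      calc |kron a b| * |x l| ≤ 1 * ‖x‖ := by
            gcongr
            · exact kron_abs_le a b
            · exact abs_coord_le x l
        _ = ‖x‖ := one_mul _
    have e3 : |(kron i j * x k + kron j k * x i + kron k i * x j) / (4 * τ ^ 2) -
        x i * x j * x k / (8 * τ ^ 3)| ≤ 3 * ‖x‖ / (4 * τ ^ 2) + ‖x‖ ^ 3 / (8 * τ ^ 3) := by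
      refine (abs_sub _ _).trans (add_le_add ?_ ?_)
      · rw [abs_div, abs_of_pos (by positivity : 0 < 4 * τ ^ 2)]
        gcongr
        refine (abs_add_le _ _).trans ?_
        have := abs_add_le (kron i j * x k) (kron j k * x i)
        linarith [k1 i j k, k1 j k i, k1 k i j]
      · rw [abs_div, abs_mul, abs_mul, abs_of_pos (by positivity : 0 < 8 * τ ^ 3)]
        have : ‖x‖ ^ 3 = ‖x‖ * ‖x‖ * ‖x‖ := by ring
        rw [this]
        gcongr
        · exact abs_coord_le x i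
        · exact abs_coord_le x j
        · exact abs_coord_le x k
    rw [abs_mul, abs_of_nonneg hE]
    calc |(kron i j * x k + kron j k * x i + kron k i * x j) / (4 * τ ^ 2) -
        x i * x j * x k / (8 * τ ^ 3)| * E
        ≤ (3 * ‖x‖ / (4 * τ ^ 2) + ‖x‖ ^ 3 / (8 * τ ^ 3)) * E := by gcongr
      _ = 3 * (‖x‖ * E) / (4 * τ ^ 2) + ‖x‖ ^ 3 * E / (8 * τ ^ 3) := by ring
      _ ≤ 3 * √τ / (4 * τ ^ 2) + 32 * (τ * √τ) / (8 * τ ^ 3) := by gcongr
      _ = 19 / 4 * √τ / τ ^ 2 := by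
        field_simp
        norm_num
      _ ≤ 5 * √τ / τ ^ 2 := by
        gcongr
        norm_num
  rw [e, abs_mul, abs_of_nonneg h0]
  gcongr

theorem continuous_gauss (τ : ℝ) : Continuous (gauss τ) := continuous_hk τ

theorem continuous_gauss1 (τ : ℝ) (k : Fin 3) : Continuous fun x => gauss1 τ x k := by
  have := continuous_gauss τ
  unfold gauss1
  fun_prop

theorem continuous_gauss2 (τ : ℝ) (i j : Fin 3) : Continuous fun x => gauss2 τ x i j := by
  have := continuous_gauss τ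
  unfold gauss2
  fun_prop

theorem continuous_gauss3 (τ : ℝ) (i j k : Fin 3) : Continuous fun x => gauss3 τ x i j k := by
  have := continuous_gauss τ
  unfold gauss3
  fun_prop

theorem measurable_gauss : Measurable fun p : ℝ × E3 => gauss p.1 p.2 := by
  unfold gauss
  fun_prop

theorem measurable_gauss2 (i j : Fin 3) : Measurable fun p : ℝ × E3 => gauss2 p.1 p.2 i j := by
  have := measurable_gauss
  unfold gauss2
  fun_prop

theorem measurable_gauss3 (i j k : Fin 3) :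
    Measurable fun p : ℝ × E3 => gauss3 p.1 p.2 i j k := by
  have := measurable_gauss
  unfold gauss3
  fun_prop

/-! ## Integration by parts -/

theorem integrable_mul_shift (η : 𝓢(E3, ℝ)) {g : E3 → ℝ} (hg : Continuous g) {C : ℝ}
    (hC : ∀ x, |g x| ≤ C) (y : E3) : Integrable (fun x => η x * g (x - y)) volume := by
  refine (η.integrable (μ := (volume : Measure E3))).mul_bdd (c := C)
    (hg.comp (continuous_sub_right y)).aestronglyMeasurable (Eventually.of_forall fun x => ?_)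
  rw [Real.norm_eq_abs]
  exact hC _

theorem hasLineDerivAt_shift {g : E3 → ℝ} {g' : ℝ} {x y v : E3}
    (h : HasLineDerivAt ℝ g g' (x - y) v) : HasLineDerivAt ℝ (fun x => g (x - y)) g' x v := by
  unfold HasLineDerivAt at h ⊢
  have e : (fun t : ℝ => g (x + t • v - y)) = fun t : ℝ => g (x - y + t • v) := by
    ext t
    congr 1
    abel
  rw [e]
  exact h

theorem schwartz_line (η : 𝓢(E3, ℝ)) (k : Fin 3) (x : E3) :
    HasLineDerivAt ℝ η ((∂_{ee k} η) x) x (ee k) := by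
  have h5 := (η.differentiableAt (x := x)).hasFDerivAt.hasLineDerivAt (ee k)
  rwa [← SchwartzMap.lineDerivOp_apply_eq_fderiv] at h5

theorem ibp (η : 𝓢(E3, ℝ)) (k : Fin 3) {g g' : E3 → ℝ} (hg : Continuous g) (hg' : Continuous g')
    {C C' : ℝ} (hC : ∀ x, |g x| ≤ C) (hC' : ∀ x, |g' x| ≤ C')
    (hd : ∀ x, HasLineDerivAt ℝ g (g' x) x (ee k)) (y : E3) :
    ∫ x, η x * g' (x - y) = -∫ x, (∂_{ee k} η) x * g (x - y) := by
  have h := integral_bilinear_hasLineDerivAt_right_eq_neg_left_of_integrable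
    (μ := (volume : Measure E3)) (B := ContinuousLinearMap.mul ℝ ℝ) (f := η)
    (f' := fun x => (∂_{ee k} η) x) (g := fun x => g (x - y)) (g' := fun x => g' (x - y))
    (v := ee k) (integrable_mul_shift (∂_{ee k} η) hg hC y) (integrable_mul_shift η hg' hC' y)
    (integrable_mul_shift η hg hC y) (fun x _ => schwartz_line η k x)
    (fun x _ => hasLineDerivAt_shift (hd _))
  exact h

theorem heat_eq_int (σ : ℝ) (f : E3 → ℝ) (y : E3) :
    heat σ f y = ∫ x, f x * gauss σ (x - y) := by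
  unfold heat
  rw [← integral_sub_left_eq_self _ (volume : Measure E3) y]
  congr 1
  ext x
  have e1 : hk σ (y - x) = gauss σ (x - y) := by
    rw [← neg_sub x y, hk_neg]
    rfl
  rw [sub_sub_cancel, e1, smul_eq_mul, mul_comm]

theorem int_gauss1 {σ : ℝ} (hσ : 0 < σ) (η : 𝓢(E3, ℝ)) (k : Fin 3) (y : E3) :
    ∫ x, η x * gauss1 σ (x - y) k = -heat σ (∂_{ee k} η : 𝓢(E3, ℝ)) y := by
  rw [heat_eq_int]
  exact ibp η k (continuous_gauss σ) (continuous_gauss1 σ k)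
    (fun x => (abs_of_nonneg (gauss_nonneg hσ x)).le.trans (gauss_le hσ x))
    (fun x => gauss1_abs_le hσ x k) (fun x => hasLineDerivAt_gauss σ x k) y

theorem int_gauss2 {σ : ℝ} (hσ : 0 < σ) (η : 𝓢(E3, ℝ)) (k j : Fin 3) (y : E3) :
    ∫ x, η x * gauss2 σ (x - y) k j = heat σ (∂_{ee j} (∂_{ee k} η) : 𝓢(E3, ℝ)) y := by
  rw [ibp η k (continuous_gauss1 σ j) (continuous_gauss2 σ k j)
    (fun x => gauss1_abs_le hσ x j) (fun x => gauss2_abs_le hσ x k j)
    (fun x => hasLineDerivAt_gauss1 σ x j k) y, int_gauss1 hσ, neg_neg]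

theorem int_gauss3 {σ : ℝ} (hσ : 0 < σ) (η : 𝓢(E3, ℝ)) (i j k : Fin 3) (y : E3) :
    ∫ x, η x * gauss3 σ (x - y) i j k = -heat σ (∂_{ee j} (∂_{ee k} (∂_{ee i} η)) : 𝓢(E3, ℝ)) y := by
  rw [ibp η i (continuous_gauss2 σ k j) (continuous_gauss3 σ i j k)
    (fun x => gauss2_abs_le hσ x k j) (fun x => gauss3_abs_le hσ x i j k)
    (fun x => hasLineDerivAt_gauss2 σ x i j k) y, int_gauss2 hσ]

end Pool.Agent.TF.GK
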