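import Pool.Agent.TF.M.Defs

/-!
# Block M: absolute convergence, and the bilinear operator of a difference
-/

set_option autoImplicit false

namespace Pool.Agent.TF.KT

open MeasureTheory Set Filter Topology Pool.Agent.TO Pool.Agent.TB Pool.Agent.TP
open scoped ENNReal NNReal Real InnerProductSpace SchwartzMap LineDeriv

/-- the integrals converge -/
theorem intble {f : ℝ → E3 → ℝ} (ho : OK) (hf : Measurable (Function.uncurry f))
    (i j k : Fin 3) {t : ℝ} {x : E3}
    (hb : ∫⁻ s in Ioo 0 t, ∫⁻ y, ‖oseen (t - s) (x - y) i j k‖ₑ * ‖f s y‖ₑ < ∞) :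
    Integrable (fun p : ℝ × E3 => oseen (t - p.1) (x - p.2) i j k * f p.1 p.2)
      ((volume.restrict (Ioo 0 t)).prod volume) := by
  have hm : Measurable (fun p : ℝ × E3 => oseen (t - p.1) (x - p.2) i j k * f p.1 p.2) :=
    ((ho.meas i j k).comp ((measurable_const.sub measurable_fst).prodMk
      (measurable_const.sub measurable_snd))).mul hf
  refine ⟨hm.aestronglyMeasurable, ?_⟩
  rw [HasFiniteIntegral, lintegral_prod _ hm.enorm.aemeasurable]
  refine lt_of_le_of_lt ?_ hb
  refine lintegral_mono fun s => lintegral_mono fun y => ?_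
  simp only [enorm_mul]
  exact le_rfl

theorem Osf_sub {F G : ℝ → E3 → Fin 3 → Fin 3 → ℝ} {t : ℝ} {x : E3}
    (mF : ∀ j k, Measurable (Function.uncurry fun s y => F s y j k))
    (mG : ∀ j k, Measurable (Function.uncurry fun s y => G s y j k)) (ho : OK)
    (hF : ∀ i j k : Fin 3,
      ∫⁻ s in Ioo 0 t, ∫⁻ y, ‖oseen (t - s) (x - y) i j k‖ₑ * ‖F s y j k‖ₑ < ∞)
    (hG : ∀ i j k : Fin 3,
      ∫⁻ s in Ioo 0 t, ∫⁻ y, ‖oseen (t - s) (x - y) i j k‖ₑ * ‖G s y j k‖ₑ < ∞) (i : Fin 3) :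
    Osf (fun s y j k => F s y j k - G s y j k) t x i = Osf F t x i - Osf G t x i := by
  have iF : Integrable (fun p : ℝ × E3 => ∑ j, ∑ k,
      oseen (t - p.1) (x - p.2) i j k * F p.1 p.2 j k)
      ((volume.restrict (Ioo 0 t)).prod volume) :=
    integrable_finset_sum _ fun j _ => integrable_finset_sum _ fun k _ =>
      intble ho (mF j k) i j k (hF i j k)
  have iG : Integrable (fun p : ℝ × E3 => ∑ j, ∑ k,
      oseen (t - p.1) (x - p.2) i j k * G p.1 p.2 j k)
      ((volume.restrict (Ioo 0 t)).prod volume) :=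
    integrable_finset_sum _ fun j _ => integrable_finset_sum _ fun k _ =>
      intble ho (mG j k) i j k (hG i j k)
  have e1 : ∀ᵐ s ∂(volume.restrict (Ioo 0 t)), (∫ y, ∑ j, ∑ k,
      oseen (t - s) (x - y) i j k * (F s y j k - G s y j k)) =
      (∫ y, ∑ j, ∑ k, oseen (t - s) (x - y) i j k * F s y j k) -
        ∫ y, ∑ j, ∑ k, oseen (t - s) (x - y) i j k * G s y j k := by
    filter_upwards [iF.prod_right_ae, iG.prod_right_ae] with s hs hs'
    rw [← integral_sub hs hs']
    refine integral_congr_ae (Eventually.of_forall fun y => ?_)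
    simp only [mul_sub, Finset.sum_sub_distrib]
  rw [Osf, Osf, Osf, integral_congr_ae e1]
  exact integral_sub iF.integral_prod_left iG.integral_prod_left

theorem OsV_sub {F G : ℝ → E3 → Fin 3 → Fin 3 → ℝ} {t : ℝ} {x : E3}
    (mF : ∀ j k, Measurable (Function.uncurry fun s y => F s y j k))
    (mG : ∀ j k, Measurable (Function.uncurry fun s y => G s y j k)) (ho : OK)
    (hF : ∀ i j k : Fin 3,
      ∫⁻ s in Ioo 0 t, ∫⁻ y, ‖oseen (t - s) (x - y) i j k‖ₑ * ‖F s y j k‖ₑ < ∞)
    (hG : ∀ i j k : Fin 3,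
      ∫⁻ s in Ioo 0 t, ∫⁻ y, ‖oseen (t - s) (x - y) i j k‖ₑ * ‖G s y j k‖ₑ < ∞) :
    OsV (fun s y j k => F s y j k - G s y j k) t x = OsV F t x - OsV G t x := by
  ext i
  exact Osf_sub mF mG ho hF hG i

/-- the operator depends only on the tensor almost everywhere -/
theorem OsV_congr {F G : ℝ → E3 → Fin 3 → Fin 3 → ℝ} {t : ℝ} {x : E3}
    (h : ∀ᵐ s ∂(volume.restrict (Ioo 0 t)), ∀ᵐ y ∂(volume : Measure E3), ∀ j k,
      F s y j k = G s y j k) : OsV F t x = OsV G t x := by
  ext i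
  refine integral_congr_ae ?_
  filter_upwards [h] with s hs
  refine integral_congr_ae ?_
  filter_upwards [hs] with y hy
  simp only [hy]

end Pool.Agent.TF.KT
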